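import Mathlib

/-!
Common definitions for MP_db315d_nt (gonality proof).
-/

open Matrix MatrixGroups UpperHalfPlane ModularGroup MeasureTheory

namespace H80.Gon

/-- Squared Frobenius norm of an integral matrix. -/
def nsq (γ : SL(2, ℤ)) : ℤ := (γ 0 0) ^ 2 + (γ 0 1) ^ 2 + (γ 1 0) ^ 2 + (γ 1 1) ^ 2

/-- Reduction modulo `N`. -/
abbrev red (N : ℕ) : SL(2, ℤ) →* SL(2, ZMod N) :=
  Matrix.SpecialLinearGroup.map (Int.castRingHom (ZMod N))

/-- Euclidean norm of a plane vector. -/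
noncomputable def en (v : ℝ × ℝ) : ℝ := Real.sqrt (v.1 ^ 2 + v.2 ^ 2)

/-- The action of an integral matrix on a plane (column) vector. -/
def mv (σ : SL(2, ℤ)) (v : ℝ × ℝ) : ℝ × ℝ :=
  ((σ 0 0 : ℝ) * v.1 + (σ 0 1 : ℝ) * v.2, (σ 1 0 : ℝ) * v.1 + (σ 1 1 : ℝ) * v.2)

lemma finite_ball (X : ℤ) : {γ : SL(2, ℤ) | nsq γ ≤ X}.Finite := by
  have hinj : Function.Injective (fun γ : SL(2, ℤ) => (γ 0 0, γ 0 1, γ 1 0, γ 1 1)) := by
    intro a b h
    simp only [Prod.mk.injEq] at h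
    ext i j
    fin_cases i <;> fin_cases j <;> simp [h]
  refine Set.Finite.of_finite_image (f := fun γ : SL(2, ℤ) => (γ 0 0, γ 0 1, γ 1 0, γ 1 1))
    ?_ hinj.injOn
  refine ((Set.finite_Icc (-X) X).prod ((Set.finite_Icc (-X) X).prod
    ((Set.finite_Icc (-X) X).prod (Set.finite_Icc (-X) X)))).subset ?_
  rintro _ ⟨γ, hγ, rfl⟩
  simp only [Set.mem_ofPred_eq, nsq] at hγ
  have key : ∀ t : ℤ, t ^ 2 ≤ X → -X ≤ t ∧ t ≤ X := by
    intro t ht
    constructor <;> nlinarith [sq_nonneg (t - 1), sq_nonneg (t + 1), sq_nonneg t,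
      mul_self_nonneg (t), Int.le_self_sq t, Int.le_self_sq (-t)]
  simp only [Set.mem_prod, Set.mem_Icc]
  refine ⟨key _ ?_, key _ ?_, key _ ?_, key _ ?_⟩ <;>
  nlinarith [sq_nonneg (γ 0 0), sq_nonneg (γ 0 1), sq_nonneg (γ 1 0), sq_nonneg (γ 1 1)]

/-- The finite set of all `γ ∈ SL(2,ℤ)` with squared Frobenius norm at most `X`. -/
noncomputable def ball (X : ℤ) : Finset SL(2, ℤ) := (finite_ball X).toFinset

@[simp] lemma mem_ball {X : ℤ} {γ : SL(2, ℤ)} : γ ∈ ball X ↔ nsq γ ≤ X := by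
  simp [ball]

/-- The rectangle `K = [-1/4, 5/4] × [7/8, 9/8]` in the upper half plane. -/
def boxK : Set ℂ := {z | -(1/4 : ℝ) ≤ z.re ∧ z.re ≤ 5/4 ∧ 7/8 ≤ z.im ∧ z.im ≤ 9/8}

/-- The test function `u(a) = r²/(r² + |a - x₀|²)` on the plane. -/
noncomputable def uu (x₀ : ℂ) (r : ℝ) (a : ℂ) : ℝ := r ^ 2 / (r ^ 2 + ‖a - x₀‖ ^ 2)

/-- `x` (a function on the upper half plane, with arbitrary values at its poles) is a meromorphic
function on the compact Riemann surface `X_Γ`: it is meromorphic on `ℍ`, invariant under `Γ`, and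
meromorphic at every cusp. -/
structure IsModularFunction (Γ : Subgroup SL(2, ℤ)) (x : ℍ → ℂ) : Prop where
  meromorphic : MeromorphicOn (x ∘ UpperHalfPlane.ofComplex) {z : ℂ | 0 < z.im}
  invariant : ∀ γ ∈ Γ, ∀ᶠ z in Filter.codiscrete ℍ, x (γ • z) = x z
  cusps : ∀ γ : SL(2, ℤ), ∃ (N : ℕ) (X : ℂ → ℂ), 0 < N ∧ MeromorphicAt X 0 ∧
    ∃ A : ℝ, ∀ᶠ z in Filter.codiscrete ℍ, A < z.im →
      x (γ • z) = X (Function.Periodic.qParam N z)

end H80.Gon
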