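import Pool.Agent.H80.Gon.Defs

/-!
M1: the divisor bound (proof by helper94, file H94/WeylC.lean, copied).
-/

namespace H80.Gon

open Finset

lemma card_divisors_le (ε : ℝ) (hε : 0 < ε) :
    ∃ C : ℝ, 1 ≤ C ∧ ∀ n : ℕ, 1 ≤ n → (n.divisors.card : ℝ) ≤ C * (n : ℝ) ^ ε := by
  set C0 : ℝ := 1 + 1 / (ε * Real.log 2) with hC0
  have hl2 : 0 < Real.log 2 := Real.log_pos (by norm_num)
  have hC01 : 1 ≤ C0 := by
    rw [hC0]
    have : 0 ≤ 1 / (ε * Real.log 2) := by positivity
    linarith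
  have hloc : ∀ p : ℕ, 2 ≤ p → ∀ v : ℕ, ((v : ℝ) + 1) ≤ C0 * (((p : ℝ) ^ v) ^ ε) := by
    intro p hp v
    have h1 : (2 : ℝ) ^ (ε * v) ≤ ((p : ℝ) ^ v) ^ ε := by
      rw [← Real.rpow_natCast, ← Real.rpow_mul (by positivity), mul_comm (v : ℝ) ε]
      apply Real.rpow_le_rpow (by norm_num) (by exact_mod_cast hp) (by positivity)
    have h2 : 1 + (ε * v) * Real.log 2 ≤ (2 : ℝ) ^ (ε * v) := by
      rw [Real.rpow_def_of_pos (by norm_num)]
      have := Real.add_one_le_exp (Real.log 2 * (ε * v))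
      linarith
    have h3 : (v : ℝ) + 1 ≤ C0 * (1 + (ε * v) * Real.log 2) := by
      have h4 : C0 * (1 + (ε * v) * Real.log 2) =
          C0 + (ε * Real.log 2) * v + v := by
        rw [hC0]; field_simp; ring
      rw [h4]
      have : 0 ≤ (ε * Real.log 2) * v := by positivity
      linarith
    refine h3.trans ?_
    apply mul_le_mul_of_nonneg_left (h2.trans h1) (by linarith)
  set P0 : ℕ := ⌈(2 : ℝ) ^ (1 / ε)⌉₊ with hP0
  have hlarge : ∀ p : ℕ, P0 ≤ p → ∀ v : ℕ, ((v : ℝ) + 1) ≤ ((p : ℝ) ^ v) ^ ε := by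
    intro p hp v
    have h1 : (2 : ℝ) ^ (1 / ε) ≤ p := (Nat.le_ceil _).trans (by exact_mod_cast hp)
    have h2 : (2 : ℝ) ≤ (p : ℝ) ^ ε := by
      have := Real.rpow_le_rpow (by positivity) h1 hε.le
      rwa [← Real.rpow_mul (by norm_num), one_div_mul_cancel hε.ne', Real.rpow_one] at this
    have h3 : ((p : ℝ) ^ v) ^ ε = ((p : ℝ) ^ ε) ^ v := by
      rw [← Real.rpow_natCast, ← Real.rpow_mul (by positivity), mul_comm,
        Real.rpow_mul (by positivity), Real.rpow_natCast]
    rw [h3]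
    have h4 : (v : ℝ) + 1 ≤ 2 ^ v := by
      have := Nat.lt_two_pow_self (n := v)
      exact_mod_cast this
    exact h4.trans (pow_le_pow_left₀ (by norm_num) h2 v)
  refine ⟨C0 ^ P0, one_le_pow₀ hC01, ?_⟩
  intro n hn
  have hn0 : n ≠ 0 := by omega
  rw [Nat.card_divisors hn0]
  have h1 : ((n : ℝ)) ^ ε = ∏ p ∈ n.primeFactors, (((p : ℝ) ^ (n.factorization p)) ^ ε) := by
    rw [Real.finsetProd_rpow _ _ (fun p _ => by positivity)]
    congr 1
    have := Nat.prod_factorization_pow_eq_self hn0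
    conv_lhs => rw [← this]
    rw [Finsupp.prod, Nat.support_factorization]
    push_cast
    rfl
  rw [h1]
  push_cast
  have h2 : ∏ p ∈ n.primeFactors, ((n.factorization p : ℝ) + 1) ≤
      ∏ p ∈ n.primeFactors, ((if p < P0 then C0 else 1) *
        (((p : ℝ) ^ (n.factorization p)) ^ ε)) := by
    apply Finset.prod_le_prod
    · intro p _; positivity
    · intro p hp
      split_ifs with h
      · exact hloc p (Nat.prime_of_mem_primeFactors hp).two_le _
      · rw [one_mul]; exact hlarge p (by omega) _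
  refine h2.trans ?_
  rw [Finset.prod_mul_distrib]
  apply mul_le_mul_of_nonneg_right
  · rw [Finset.prod_ite, Finset.prod_const_one, mul_one, Finset.prod_const]
    apply pow_le_pow_right₀ hC01
    calc (n.primeFactors.filter (fun p => p < P0)).card ≤ (range P0).card := by
          apply Finset.card_le_card
          intro p hp
          rw [mem_filter] at hp
          rw [mem_range]; exact hp.2
      _ = P0 := card_range _
  · apply Finset.prod_nonneg
    intro p _; positivity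

/-- M1 -/
theorem divisor_bound (ε : ℝ) (hε : 0 < ε) :
    ∃ C : ℝ, 0 < C ∧ ∀ m : ℕ, 1 ≤ m → ((Nat.divisors m).card : ℝ) ≤ C * (m : ℝ) ^ ε := by
  obtain ⟨C, hC, h⟩ := card_divisors_le ε hε
  exact ⟨C, by linarith, h⟩

end H80.Gon
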