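import Pool.Agent.H80.Gon.Defs

/-!
M10: from an eigenvalue gap for the ball averaging operator to a spectral gap for the generators
`S, T`, uniformly in the level.
-/

open Matrix MatrixGroups UpperHalfPlane ModularGroup MeasureTheory Finset

namespace H80.Gon

variable {N : ℕ} [NeZero N]

/-- `D σ a = ∑ (a(σx) - a x)²`. -/
noncomputable def DD (N : ℕ) [NeZero N] (σ : SL(2, ℤ)) (a : SL(2, ZMod N) → ℝ) : ℝ :=
  ∑ x, (a (red N σ * x) - a x) ^ 2

lemma DD_nonneg (σ : SL(2, ℤ)) (a : SL(2, ZMod N) → ℝ) : 0 ≤ DD N σ a :=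
  Finset.sum_nonneg fun _ _ => sq_nonneg _

lemma DD_one (a : SL(2, ZMod N) → ℝ) : DD N 1 a = 0 := by
  simp [DD]

lemma DD_inv (σ : SL(2, ℤ)) (a : SL(2, ZMod N) → ℝ) : DD N σ⁻¹ a = DD N σ a := by
  unfold DD
  rw [← Equiv.sum_comp (Equiv.mulLeft (red N σ))]
  refine Finset.sum_congr rfl fun x _ => ?_
  simp only [Equiv.coe_mulLeft, map_inv, inv_mul_cancel_left]
  ring

lemma DD_mul (σ τ : SL(2, ℤ)) (a : SL(2, ZMod N) → ℝ) :
    DD N (σ * τ) a ≤ 2 * (DD N σ a + DD N τ a) := by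
  have h1 : DD N σ a = ∑ x, (a (red N σ * (red N τ * x)) - a (red N τ * x)) ^ 2 := by
    unfold DD
    rw [← Equiv.sum_comp (Equiv.mulLeft (red N τ))]
    rfl
  rw [h1]
  unfold DD
  rw [← Finset.sum_add_distrib, Finset.mul_sum]
  refine Finset.sum_le_sum fun x _ => ?_
  rw [map_mul, mul_assoc]
  nlinarith [sq_nonneg ((a (red N σ * (red N τ * x)) - a (red N τ * x)) -
    (a (red N τ * x) - a x))]

lemma exists_DD_bound (σ : SL(2, ℤ)) : ∃ K : ℝ, 0 ≤ K ∧ ∀ (N : ℕ) [NeZero N]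
    (a : SL(2, ZMod N) → ℝ), DD N σ a ≤ K * (DD N T a + DD N S a) := by
  have hmem : σ ∈ Subgroup.closure {S, T} := by
    rw [SpecialLinearGroup.SL2Z_generators]; trivial
  induction hmem using Subgroup.closure_induction with
  | mem x hx =>
    rcases hx with rfl | hx
    · refine ⟨1, zero_le_one, fun N _ a => ?_⟩
      have := DD_nonneg (N := N) T a
      linarith
    · rw [Set.mem_singleton_iff] at hx
      subst hx
      refine ⟨1, zero_le_one, fun N _ a => ?_⟩
      have := DD_nonneg (N := N) S a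
      linarith
  | one => exact ⟨0, le_rfl, fun N _ a => by rw [DD_one]; simp⟩
  | mul x y _ _ hx hy =>
    obtain ⟨K, hK, h1⟩ := hx
    obtain ⟨K', hK', h2⟩ := hy
    refine ⟨2 * (K + K'), by positivity, fun N _ a => ?_⟩
    have := DD_mul (N := N) x y a
    have h3 := h1 N a
    have h4 := h2 N a
    nlinarith
  | inv x _ hx =>
    obtain ⟨K, hK, h1⟩ := hx
    exact ⟨K, hK, fun N _ a => by rw [DD_inv]; exact h1 N a⟩

lemma nsq_inv (σ : SL(2, ℤ)) : nsq σ⁻¹ = nsq σ := by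
  unfold nsq
  rw [Matrix.SpecialLinearGroup.SL2_inv_expl]
  simp
  ring

lemma inv_mem_ball {X : ℤ} {σ : SL(2, ℤ)} (h : σ ∈ ball X) : σ⁻¹ ∈ ball X := by
  rw [mem_ball] at *
  rwa [nsq_inv]

/-- The averaging operator. -/
noncomputable def PP (N : ℕ) [NeZero N] (X : ℤ) (a : SL(2, ZMod N) → ℝ) : SL(2, ZMod N) → ℝ :=
  fun x => ∑ σ ∈ ball X, a (red N σ * x)

lemma sum_ball_inv (X : ℤ) {β : Type*} [AddCommMonoid β] (F : SL(2, ℤ) → β) :
    ∑ σ ∈ ball X, F σ⁻¹ = ∑ σ ∈ ball X, F σ :=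
  Finset.sum_bij' (fun σ _ => σ⁻¹) (fun σ _ => σ⁻¹) (fun σ h => inv_mem_ball h)
    (fun σ h => inv_mem_ball h) (fun σ _ => inv_inv σ) (fun σ _ => inv_inv σ) (fun σ _ => rfl)

lemma PP_symm (X : ℤ) (a b : SL(2, ZMod N) → ℝ) :
    ∑ x, PP N X a x * b x = ∑ x, a x * PP N X b x := by
  unfold PP
  simp only [Finset.sum_mul, Finset.mul_sum]
  rw [Finset.sum_comm, Finset.sum_comm (s := Finset.univ) (t := ball X)]
  rw [← sum_ball_inv X (fun σ => ∑ x, a (red N σ * x) * b x)]
  refine Finset.sum_congr rfl fun σ _ => ?_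
  rw [← Equiv.sum_comp (Equiv.mulLeft (red N σ))]
  refine Finset.sum_congr rfl fun x _ => ?_
  simp only [Equiv.coe_mulLeft, map_inv, inv_mul_cancel_left]

lemma sum_PP (X : ℤ) (a : SL(2, ZMod N) → ℝ) :
    ∑ x, PP N X a x = (ball X).card * ∑ x, a x := by
  unfold PP
  rw [Finset.sum_comm]
  have : ∀ σ ∈ ball X, ∑ x, a (red N σ * x) = ∑ x, a x := fun σ _ =>
    Equiv.sum_comp (Equiv.mulLeft (red N σ)) a
  rw [Finset.sum_congr rfl this]
  simp

lemma form_identity (X : ℤ) (a : SL(2, ZMod N) → ℝ) :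
    2 * ((ball X).card * ∑ x, a x ^ 2 - ∑ x, PP N X a x * a x) = ∑ σ ∈ ball X, DD N σ a := by
  have h1 : ∀ σ ∈ ball X, DD N σ a = 2 * ∑ x, a x ^ 2 - 2 * ∑ x, a (red N σ * x) * a x := by
    intro σ _
    unfold DD
    have : ∑ x, a (red N σ * x) ^ 2 = ∑ x, a x ^ 2 :=
      Equiv.sum_comp (Equiv.mulLeft (red N σ)) (fun x => a x ^ 2)
    calc ∑ x, (a (red N σ * x) - a x) ^ 2
        = ∑ x, (a (red N σ * x) ^ 2 + a x ^ 2 - 2 * (a (red N σ * x) * a x)) := by
          refine Finset.sum_congr rfl fun x _ => by ring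
      _ = _ := by
          rw [Finset.sum_sub_distrib, Finset.sum_add_distrib, this, ← Finset.mul_sum]
          ring
  rw [Finset.sum_congr rfl h1, Finset.sum_sub_distrib, Finset.sum_const, nsmul_eq_mul,
    ← Finset.mul_sum, Finset.sum_comm]
  unfold PP
  simp only [Finset.sum_mul]
  ring

/-- The mean zero subspace. -/
noncomputable def W0 (N : ℕ) [NeZero N] : Submodule ℝ (EuclideanSpace ℝ SL(2, ZMod N)) where
  carrier := {a | ∑ x, a x = 0}
  add_mem' {a b} ha hb := by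
    simp only [Set.mem_ofPred_eq] at *
    simp [Finset.sum_add_distrib, ha, hb]
  zero_mem' := by simp
  smul_mem' c a ha := by
    simp only [Set.mem_ofPred_eq] at *
    simp [← Finset.mul_sum, ha]

/-- The averaging operator on the mean zero subspace. -/
noncomputable def PW (N : ℕ) [NeZero N] (X : ℤ) : W0 N →ₗ[ℝ] W0 N where
  toFun a := ⟨WithLp.toLp 2 (PP N X (fun x => (a : EuclideanSpace ℝ SL(2, ZMod N)) x)), by
    change ∑ x, PP N X _ x = 0
    rw [sum_PP]
    have : ∑ x, (a : EuclideanSpace ℝ SL(2, ZMod N)) x = 0 := a.2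
    rw [this, mul_zero]⟩
  map_add' a b := by
    ext x
    simp [PP, Finset.sum_add_distrib]
  map_smul' c a := by
    ext x
    simp [PP, Finset.mul_sum]

lemma PW_apply (X : ℤ) (a : W0 N) (x : SL(2, ZMod N)) :
    (PW N X a : EuclideanSpace ℝ SL(2, ZMod N)) x =
      PP N X (fun x => (a : EuclideanSpace ℝ SL(2, ZMod N)) x) x := rfl

lemma PW_symm (X : ℤ) : (PW N X).IsSymmetric := by
  intro a b
  simp only [Submodule.coe_inner, PiLp.inner_apply, PW_apply]
  have := PP_symm (N := N) X (fun x => (a : EuclideanSpace ℝ SL(2, ZMod N)) x)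
    (fun x => (b : EuclideanSpace ℝ SL(2, ZMod N)) x)
  simp only [RCLike.inner_apply, conj_trivial]
  simp only [mul_comm] at this ⊢
  exact this

/-- Uniform gap for the generators from a uniform eigenvalue gap. -/
theorem gap_of_eigen (X : ℤ) (κ : ℝ) (hcard : 0 < (ball X).card) (hκ : κ < 1)
    (hgap : ∀ (N : ℕ) [NeZero N] (lam : ℝ) (f : SL(2, ZMod N) → ℂ), f ≠ 0 → ∑ x, f x = 0 →
      (∀ x, ∑ σ ∈ ball X, f (red N σ * x) = (lam : ℂ) * f x) → lam ≤ κ * (ball X).card) :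
    ∃ δ : ℝ, 0 < δ ∧ ∀ (N : ℕ) [NeZero N] (a : SL(2, ZMod N) → ℝ), ∑ x, a x = 0 →
      δ * ∑ x, a x ^ 2 ≤ ∑ x, (a (red N T * x) - a x) ^ 2 + ∑ x, (a (red N S * x) - a x) ^ 2 := by
  choose K hK0 hK using exists_DD_bound
  set Z : ℝ := ∑ σ ∈ ball X, K σ with hZ
  have hZ0 : 0 ≤ Z := Finset.sum_nonneg fun σ _ => hK0 σ
  set s : ℝ := ((ball X).card : ℝ) with hs
  have hs0 : 0 < s := by simpa [hs] using hcard
  refine ⟨2 * (1 - κ) * s / (Z + 1), div_pos (by nlinarith) (by linarith), ?_⟩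
  intro N _ a ha
  -- Rayleigh bound
  have hray : ∑ x, PP N X a x * a x ≤ κ * s * ∑ x, a x ^ 2 := by
    by_cases hz : ∀ x, a x = 0
    · simp [hz]
    push Not at hz
    obtain ⟨x₁, hx₁⟩ := hz
    let w : W0 N := ⟨WithLp.toLp 2 a, ha⟩
    have hw : w ≠ 0 := by
      intro h
      apply hx₁
      have : (w : EuclideanSpace ℝ SL(2, ZMod N)) x₁ = 0 := by rw [h]; rfl
      exact this
    haveI : Nontrivial (W0 N) := ⟨⟨w, 0, hw⟩⟩
    have heig := (PW_symm (N := N) X).hasEigenvalue_iSup_of_finiteDimensional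
    set lam : ℝ := ⨆ x : { x : W0 N // x ≠ 0 }, RCLike.re (inner ℝ (PW N X x) (x : W0 N)) /
      ‖(x : W0 N)‖ ^ 2 with hlam
    have hle : lam ≤ κ * s := by
      obtain ⟨v, hv⟩ := heig.exists_hasEigenvector
      have hv0 : v ≠ 0 := hv.2
      have hveq : PW N X v = lam • v := by
        have := hv.apply_eq_smul
        exact_mod_cast this
      refine hgap N lam (fun x => (((v : EuclideanSpace ℝ SL(2, ZMod N)) x : ℝ) : ℂ)) ?_ ?_ ?_
      · intro h
        apply hv0
        ext x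
        have := congrFun h x
        simpa using this
      · have : ∑ x, (v : EuclideanSpace ℝ SL(2, ZMod N)) x = 0 := v.2
        exact_mod_cast this
      · intro x
        have h1 : (PW N X v : EuclideanSpace ℝ SL(2, ZMod N)) x =
            lam * (v : EuclideanSpace ℝ SL(2, ZMod N)) x := by
          rw [hveq]; rfl
        rw [PW_apply] at h1
        unfold PP at h1
        exact_mod_cast h1
    -- bounded above
    have hbdd : BddAbove (Set.range fun x : { x : W0 N // x ≠ 0 } =>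
        RCLike.re (inner ℝ (PW N X x) (x : W0 N)) / ‖(x : W0 N)‖ ^ 2) := by
      refine ⟨‖LinearMap.toContinuousLinearMap (PW N X)‖, ?_⟩
      rintro _ ⟨⟨x, hx⟩, rfl⟩
      have hx0 : 0 < ‖x‖ := norm_pos_iff.mpr hx
      rw [div_le_iff₀ (by positivity)]
      calc RCLike.re (inner ℝ (PW N X x) x) ≤ ‖PW N X x‖ * ‖x‖ := by
            simpa using real_inner_le_norm (PW N X x) x
        _ ≤ (‖LinearMap.toContinuousLinearMap (PW N X)‖ * ‖x‖) * ‖x‖ := by
            gcongr
            exact (LinearMap.toContinuousLinearMap (PW N X)).le_opNorm x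
        _ = _ := by ring
    have hle2 : RCLike.re (inner ℝ (PW N X w) w) / ‖w‖ ^ 2 ≤ lam :=
      le_ciSup hbdd ⟨w, hw⟩
    have hwn : ‖w‖ ^ 2 = ∑ x, a x ^ 2 := by
      rw [← real_inner_self_eq_norm_sq]
      simp only [Submodule.coe_inner, PiLp.inner_apply, RCLike.inner_apply, conj_trivial]
      refine Finset.sum_congr rfl fun x _ => ?_
      change a x * a x = _
      ring
    have hwi : RCLike.re (inner ℝ (PW N X w) w) = ∑ x, PP N X a x * a x := by
      simp only [Submodule.coe_inner, PiLp.inner_apply, RCLike.inner_apply, conj_trivial, PW_apply]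
      simp only [RCLike.re_to_real]
      refine Finset.sum_congr rfl fun x _ => ?_
      change a x * PP N X a x = _
      ring
    have hw0 : 0 < ‖w‖ ^ 2 := by
      have := norm_pos_iff.mpr hw
      positivity
    rw [div_le_iff₀ hw0, hwi, hwn] at hle2
    calc _ ≤ lam * ∑ x, a x ^ 2 := hle2
      _ ≤ _ := by
        gcongr
  have hform := form_identity (N := N) X a
  have hsum : ∑ σ ∈ ball X, DD N σ a ≤ Z * (DD N T a + DD N S a) := by
    rw [hZ, Finset.sum_mul]
    exact Finset.sum_le_sum fun σ _ => hK σ N a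
  have hT := DD_nonneg (N := N) T a
  have hS := DD_nonneg (N := N) S a
  have hmain : 2 * (1 - κ) * s * ∑ x, a x ^ 2 ≤ (Z + 1) * (DD N T a + DD N S a) := by
    nlinarith
  change _ ≤ DD N T a + DD N S a
  rw [div_mul_eq_mul_div, div_le_iff₀ (by linarith)]
  linarith

end H80.Gon
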