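import Pool.Agent.H80.Gon.Defs

/-!
Module M11: weighted zero count for equivariant families of weight 2.
-/

open Matrix MatrixGroups UpperHalfPlane ModularGroup MeasureTheory Metric Set Filter Topology

namespace H80.Gon

open MeromorphicOn in
lemma jensen_count {c : ℂ} {r R B : ℝ} {f : ℂ → ℂ} (hr : 0 < r) (hrR : r < R) (hB : 1 ≤ B)
    (hf : AnalyticOnNhd ℂ f (closedBall c R)) (hfc : f c ≠ 0)
    (hbd : ∀ z ∈ sphere c R, ‖f z‖ ≤ B * ‖f c‖) (T : Finset ℂ) (n : ℂ → ℕ)
    (hT : ∀ z ∈ T, z ∈ closedBall c r) (hn : ∀ z ∈ T, (n z : ℕ∞) ≤ analyticOrderAt f z) :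
    (∑ z ∈ T, (n z : ℝ)) ≤ Real.log B / Real.log (R / r) := by
  have hR : 0 < R := hr.trans hrR
  set g : ℂ → ℂ := fun z => (f c)⁻¹ * f z with hg
  have hga : AnalyticOnNhd ℂ g (closedBall c R) := fun z hz => analyticAt_const.mul (hf z hz)
  have hgc : g c = 1 := by simp [hg, hfc]
  have hord : ∀ z ∈ closedBall c R, analyticOrderAt g z = analyticOrderAt f z := by
    intro z hz
    have h1 := analyticOrderAt_mul (analyticAt_const (v := (f c)⁻¹) (x := z)) (hf z hz)
    have h2 : analyticOrderAt (fun _ : ℂ => (f c)⁻¹) z = 0 :=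
      (analyticAt_const).analyticOrderAt_eq_zero.2 (inv_ne_zero hfc)
    rw [h2, zero_add] at h1
    exact h1
  have hfin : ∀ z ∈ closedBall c R, analyticOrderAt g z ≠ ⊤ := by
    intro z hz
    have hcm : c ∈ closedBall c R := mem_closedBall_self hR.le
    refine hga.analyticOrderAt_ne_top_of_isPreconnected (x := c)
      (convex_closedBall c R).isPreconnected hcm hz ?_
    rw [(hga c hcm).analyticOrderAt_eq_zero.2 (by rw [hgc]; exact one_ne_zero)]
    simp
  have hgr : AnalyticOnNhd ℂ g (closedBall c r) := hga.mono (closedBall_subset_closedBall hrR.le)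
  have key := AnalyticOnNhd.sum_divisor_le (c := c) (r := r) (R := R) (M := B) (f := g)
    (by rwa [abs_of_pos hr]) (by rwa [abs_of_pos hr, abs_of_pos hR]) hB
    (by rwa [abs_of_pos hR]) (by rw [hgc]; exact one_ne_zero)
    (by
      rw [abs_of_pos hR]
      intro z hz
      simp only [hg, norm_mul, norm_inv]
      have h0 : 0 < ‖f c‖ := norm_pos_iff.2 hfc
      rw [inv_mul_le_iff₀ h0, mul_comm]
      exact hbd z hz)
  rw [hgc, norm_one, div_one, abs_of_pos hr] at key
  refine le_trans ?_ key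
  have hsupp : (divisor g (closedBall c r)).support.Finite :=
    (divisor _ _).finiteSupport (isCompact_closedBall ..)
  rw [finsum_eq_sum_of_support_subset (s := hsupp.toFinset ∪ T) _
    (by intro z hz; simp only [Finset.coe_union, Set.Finite.coe_toFinset]; exact Or.inl hz)]
  push_cast
  calc ∑ z ∈ T, (n z : ℝ) ≤ ∑ z ∈ T, ((divisor g (closedBall c r) z : ℤ) : ℝ) := by
        refine Finset.sum_le_sum fun z hz => ?_
        rw [hgr.divisor_apply (hT z hz)]
        have hz' : z ∈ closedBall c R := closedBall_subset_closedBall hrR.le (hT z hz)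
        have h1 := hn z hz
        rw [← hord z hz'] at h1
        have h2 := hfin z hz'
        lift analyticOrderAt g z to ℕ using h2 with k hk
        simp only [ENat.map_natCast, WithTop.untop₀_coe] at *
        exact_mod_cast h1
    _ ≤ _ := by
        refine Finset.sum_le_sum_of_subset_of_nonneg Finset.subset_union_right ?_
        intro z _ _
        exact_mod_cast hgr.divisor_nonneg z

lemma im_smul_le (g : SL(2, ℤ)) (z : ℍ) (h : z.im ≤ 1) : (g • z).im ≤ 1 / z.im := by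
  have hz := z.im_pos
  rw [ModularGroup.im_smul_eq_div_normSq, ModularGroup.denom_apply]
  have hns : Complex.normSq (((g 1 0 : ℤ) : ℂ) * z + ((g 1 1 : ℤ) : ℂ)) =
      ((g 1 0 : ℝ) * z.re + g 1 1) ^ 2 + ((g 1 0 : ℝ) * z.im) ^ 2 := by
    rw [Complex.normSq_apply]
    simp
    ring
  rw [hns]
  by_cases hc : g 1 0 = 0
  · have hd : (g 1 1 : ℝ) ^ 2 = 1 := by
      have hdet := Matrix.det_fin_two g.1
      rw [g.2] at hdet
      have h1 : (g.1 0 0) * (g.1 1 1) = 1 := by
        have : g.1 1 0 = 0 := hc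
        rw [this] at hdet; linarith
      have h2 : (g.1 1 1) ^ 2 = 1 := by
        rcases Int.isUnit_iff.1 (IsUnit.of_mul_eq_one_right _ h1) with h | h <;> rw [h] <;> rfl
      exact_mod_cast h2
    rw [hc]
    simp only [Int.cast_zero, zero_mul, zero_add, hd]
    rw [le_div_iff₀ hz]
    nlinarith
  · have hc1 : (1 : ℝ) ≤ (g 1 0 : ℝ) ^ 2 := by
      have : (1 : ℤ) ≤ (g 1 0) ^ 2 := by
        have := Int.one_le_abs hc
        nlinarith [sq_abs (g 1 0)]
      exact_mod_cast this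
    have hge : z.im ^ 2 ≤ ((g 1 0 : ℝ) * z.re + g 1 1) ^ 2 + ((g 1 0 : ℝ) * z.im) ^ 2 := by
      nlinarith [sq_nonneg ((g 1 0 : ℝ) * z.re + g 1 1), sq_nonneg z.im]
    have hpos : 0 < z.im ^ 2 := by positivity
    rw [div_le_div_iff₀ (lt_of_lt_of_le hpos hge) hz]
    nlinarith

section Bound

variable {F : ℂ → ℂ} {k : ℕ}

lemma norm_add_int
    (hinv : ∀ (σ : SL(2, ℤ)) (z : ℍ), ‖F ((σ • z : ℍ) : ℂ)‖ =
      ‖((σ 1 0 : ℤ) : ℂ) * z + ((σ 1 1 : ℤ) : ℂ)‖ ^ (2 * k) * ‖F (z : ℂ)‖)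
    (n : ℤ) (z : ℂ) (hz : 0 < z.im) : ‖F (z + n)‖ = ‖F z‖ := by
  have h := hinv (T ^ n) ⟨z, hz⟩
  rw [coe_T_zpow_smul_eq] at h
  simpa [ModularGroup.coe_T_zpow] using h

/-- translate by an integer into `[-1/2, 1/2]` -/
lemma exists_int_shift (x : ℝ) : ∃ n : ℤ, |x + n| ≤ 1 / 2 :=
  ⟨-round x, by simpa [sub_eq_add_neg] using abs_sub_round x⟩

lemma exists_bound_above (hF : DifferentiableOn ℂ F {z | 0 < z.im})
    (hinv : ∀ (σ : SL(2, ℤ)) (z : ℍ), ‖F ((σ • z : ℍ) : ℂ)‖ =
      ‖((σ 1 0 : ℤ) : ℂ) * z + ((σ 1 1 : ℤ) : ℂ)‖ ^ (2 * k) * ‖F (z : ℂ)‖)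
    (hbd : ∃ B Y : ℝ, ∀ z : ℂ, Y ≤ z.im → ‖F z‖ ≤ B) :
    ∃ B : ℝ, ∀ z : ℂ, 1 ≤ z.im → ‖F z‖ ≤ B := by
  obtain ⟨B, Y, hB⟩ := hbd
  have hK : IsCompact (Icc (-1/2 : ℝ) (1/2) ×ℂ Icc (1 : ℝ) Y) := isCompact_Icc.reProdIm isCompact_Icc
  have hcont : ContinuousOn F (Icc (-1/2 : ℝ) (1/2) ×ℂ Icc (1 : ℝ) Y) := by
    refine hF.continuousOn.mono ?_
    intro z hz
    have := (Complex.mem_reProdIm.1 hz).2.1
    simp only [mem_ofPred_eq]; linarith
  obtain ⟨B', hB'⟩ := hK.exists_bound_of_continuousOn hcont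
  refine ⟨max B B', fun z hz => ?_⟩
  by_cases hY : Y ≤ z.im
  · exact (hB z hY).trans (le_max_left _ _)
  · obtain ⟨n, hn⟩ := exists_int_shift z.re
    rw [← norm_add_int hinv n z (by linarith)]
    refine (hB' _ ?_).trans (le_max_right _ _)
    rw [Complex.mem_reProdIm]
    rw [abs_le] at hn
    push Not at hY
    constructor
    · simp only [Complex.add_re, Complex.intCast_re, mem_Icc]; constructor <;> linarith [hn.1, hn.2]
    · simp only [Complex.add_im, Complex.intCast_im, add_zero, mem_Icc]; exact ⟨hz, hY.le⟩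

lemma phragmen (hF : DifferentiableOn ℂ F {z | 0 < z.im}) {B C : ℝ}
    (hB : ∀ z : ℂ, 1 ≤ z.im → ‖F z‖ ≤ B) (hC : ∀ z : ℂ, z.im = 1 → ‖F z‖ ≤ C)
    (z : ℂ) (hz : 1 ≤ z.im) : ‖F z‖ ≤ C := by
  set G : ℂ → ℂ := fun w => F (Complex.I * (1 + w)) with hG
  have him : ∀ w : ℂ, (Complex.I * (1 + w)).im = 1 + w.re := by intro w; simp
  have hcl : closure {z : ℂ | 0 < z.re} ⊆ {z : ℂ | 0 ≤ z.re} :=
    closure_minimal (fun z hz => by simp only [mem_ofPred_eq] at hz ⊢; exact hz.le) (isClosed_le continuous_const Complex.continuous_re)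
  have hd : DiffContOnCl ℂ G {z | 0 < z.re} := by
    have : DifferentiableOn ℂ G (closure {z : ℂ | 0 < z.re}) := by
      refine hF.comp (by fun_prop) ?_
      intro w hw
      have := hcl hw
      simp only [mem_ofPred_eq] at this ⊢
      rw [him]; linarith
    exact this.diffContOnCl
  have hbd : ∀ w : ℂ, 0 ≤ w.re → ‖G w‖ ≤ B := fun w hw => hB _ (by rw [him]; linarith)
  have key := PhragmenLindelof.right_half_plane_of_bounded_on_real (f := G) (C := C)
    (z := -Complex.I * z - 1) hd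
    ⟨1, by norm_num, 0, by
      refine Asymptotics.IsBigO.of_bound B ?_
      refine eventually_inf_principal.2 (Eventually.of_forall fun w hw => ?_)
      simp only [zero_mul, Real.exp_zero, norm_one, mul_one]
      exact hbd w (le_of_lt hw)⟩
    (by
      refine ⟨B, ?_⟩
      rw [eventually_map]
      filter_upwards [eventually_ge_atTop (0 : ℝ)] with x hx
      exact hbd x (by simpa using hx))
    (fun x => hC _ (by rw [him]; simp))
    (by simp; linarith)
  have h2 : Complex.I * (1 + (-Complex.I * z - 1)) = z := by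
    linear_combination (-z) * Complex.I_sq
  simpa only [hG, h2] using key

open scoped Modular in
lemma exists_center (hF : DifferentiableOn ℂ F {z | 0 < z.im})
    (hinv : ∀ (σ : SL(2, ℤ)) (z : ℍ), ‖F ((σ • z : ℍ) : ℂ)‖ =
      ‖((σ 1 0 : ℤ) : ℂ) * z + ((σ 1 1 : ℤ) : ℂ)‖ ^ (2 * k) * ‖F (z : ℂ)‖)
    (hbd : ∃ B Y : ℝ, ∀ z : ℂ, Y ≤ z.im → ‖F z‖ ≤ B) (hne : ∃ z : ℂ, 0 < z.im ∧ F z ≠ 0) :
    ∃ z₀ : ℂ, |z₀.re| ≤ 1 / 2 ∧ 43 / 50 ≤ z₀.im ∧ z₀.im ≤ 1 ∧ F z₀ ≠ 0 ∧
      ∀ w : ℂ, 3 / 50 ≤ w.im → ‖F w‖ ≤ 300 ^ k * ‖F z₀‖ := by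
  obtain ⟨B, hB⟩ := exists_bound_above hF hinv hbd
  set Q : Set ℂ := Icc (-1/2 : ℝ) (1/2) ×ℂ Icc (43/50 : ℝ) 1 with hQ
  have hK : IsCompact Q := isCompact_Icc.reProdIm isCompact_Icc
  have hQne : Q.Nonempty := ⟨Complex.I, by
    rw [hQ, Complex.mem_reProdIm]; constructor <;> simp <;> norm_num⟩
  have hcont : ContinuousOn (fun z : ℂ => ‖F z‖ * z.im ^ k) Q := by
    have : ContinuousOn F Q := by
      refine hF.continuousOn.mono ?_
      intro z hz
      have := (Complex.mem_reProdIm.1 hz).2.1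
      simp only [mem_ofPred_eq]; linarith
    exact this.norm.mul ((Complex.continuous_im.pow k).continuousOn)
  obtain ⟨z₀, hz₀, hmax⟩ := hK.exists_isMaxOn hQne hcont
  have hmax' : ∀ z ∈ Q, ‖F z‖ * z.im ^ k ≤ ‖F z₀‖ * z₀.im ^ k := fun z hz => hmax hz
  obtain ⟨⟨hr1, hr2⟩, hi1, hi2⟩ := Complex.mem_reProdIm.1 hz₀
  have hi0 : 0 < z₀.im := by linarith
  set M := ‖F z₀‖ * z₀.im ^ k with hM
  have hM0 : 0 ≤ M := by positivity
  have hMle : M ≤ ‖F z₀‖ := by
    rw [hM]
    exact mul_le_of_le_one_right (norm_nonneg _) (pow_le_one₀ hi0.le hi2)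
  -- on the line `im = 1`
  have hline : ∀ z : ℂ, z.im = 1 → ‖F z‖ ≤ M := by
    intro z hz
    obtain ⟨n, hn⟩ := exists_int_shift z.re
    rw [← norm_add_int hinv n z (by linarith)]
    rw [abs_le] at hn
    have := hmax' (z + n) (by
      rw [hQ, Complex.mem_reProdIm]
      simp only [Complex.add_re, Complex.intCast_re, mem_Icc, Complex.add_im, Complex.intCast_im,
        add_zero, hz]
      refine ⟨⟨by linarith [hn.1], hn.2⟩, by norm_num, le_rfl⟩)
    simpa [hz] using this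
  have habove : ∀ z : ℂ, 1 ≤ z.im → ‖F z‖ ≤ M := phragmen hF hB hline
  -- invariance
  have hh : ∀ (σ : SL(2, ℤ)) (z : ℍ), ‖F ((σ • z : ℍ) : ℂ)‖ * (σ • z : ℍ).im ^ k =
      ‖F (z : ℂ)‖ * z.im ^ k := by
    intro σ z
    rw [hinv σ z, ModularGroup.im_smul_eq_div_normSq, ModularGroup.denom_apply, div_pow,
      Complex.normSq_eq_norm_sq, ← pow_mul]
    have hden : ((σ 1 0 : ℤ) : ℂ) * z + ((σ 1 1 : ℤ) : ℂ) ≠ 0 := by
      have := UpperHalfPlane.denom_ne_zero (σ : GL (Fin 2) ℝ) z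
      rwa [ModularGroup.denom_apply] at this
    have hpos : 0 < ‖((σ 1 0 : ℤ) : ℂ) * z + ((σ 1 1 : ℤ) : ℂ)‖ ^ (2 * k) := by
      have := norm_pos_iff.2 hden
      positivity
    field_simp
  -- bound below the line
  have hbelow : ∀ z : ℍ, z.im ≤ 1 → ‖F (z : ℂ)‖ * z.im ^ k ≤ M * (1 / z.im) ^ k := by
    intro z hz
    obtain ⟨σ, hσ⟩ := ModularGroup.exists_smul_mem_fd z
    rw [← hh σ z]
    have hpos := z.im_pos
    have h1 : 1 ≤ 1 / z.im := by rw [le_div_iff₀ hpos]; linarith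
    have h2 : (1 : ℝ) ≤ (1 / z.im) ^ k := one_le_pow₀ h1
    by_cases hv : (σ • z).im ≤ 1
    · refine (hmax' _ ?_).trans (le_mul_of_one_le_right hM0 h2)
      rw [hQ, Complex.mem_reProdIm]
      have hre : |(σ • z).re| ≤ 1 / 2 := hσ.2
      have him := ModularGroup.three_le_four_mul_im_sq_of_mem_fd hσ
      have hvp := (σ • z).im_pos
      rw [abs_le] at hre
      simp only [UpperHalfPlane.coe_re, UpperHalfPlane.coe_im, mem_Icc]
      refine ⟨⟨by linarith [hre.1], hre.2⟩, ?_, hv⟩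
      nlinarith
    · push Not at hv
      have h3 : ‖F ((σ • z : ℍ) : ℂ)‖ ≤ M := habove _ (by simpa using hv.le)
      refine mul_le_mul h3 (pow_le_pow_left₀ (σ • z).im_pos.le (im_smul_le σ z hz) k)
        (by have := (σ • z).im_pos; positivity) hM0
  have hall : ∀ w : ℂ, 3 / 50 ≤ w.im → ‖F w‖ ≤ 300 ^ k * M := by
    intro w hw
    have h1 : (1 : ℝ) ≤ 300 ^ k := one_le_pow₀ (by norm_num)
    by_cases h : w.im ≤ 1
    · have hw0 : 0 < w.im := by linarith
      have := hbelow ⟨w, hw0⟩ h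
      change ‖F w‖ * w.im ^ k ≤ M * (1 / w.im) ^ k at this
      rw [← le_div_iff₀ (by positivity), mul_div_assoc, ← div_pow] at this
      refine this.trans ?_
      rw [mul_comm]
      refine mul_le_mul_of_nonneg_right (pow_le_pow_left₀ (by positivity) ?_ k) hM0
      rw [div_div, div_le_iff₀ (by positivity)]
      nlinarith
    · push Not at h
      exact (habove w h.le).trans (le_mul_of_one_le_left hM0 h1)
  have hF0 : F z₀ ≠ 0 := by
    intro h0
    have hMz : M = 0 := by rw [hM, h0]; simp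
    obtain ⟨w, hw, hFw⟩ := hne
    by_cases h : w.im ≤ 1
    · have := hbelow ⟨w, hw⟩ h
      change ‖F w‖ * w.im ^ k ≤ M * (1 / w.im) ^ k at this
      rw [hMz, zero_mul] at this
      have h2 : 0 < ‖F w‖ * w.im ^ k := by
        have := norm_pos_iff.2 hFw
        positivity
      linarith
    · push Not at h
      have := habove w h.le
      rw [hMz] at this
      exact hFw (norm_le_zero_iff.1 this)
  refine ⟨z₀, abs_le.2 ⟨by linarith, hr2⟩, hi1, hi2, hF0, fun w hw => (hall w hw).trans ?_⟩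
  exact mul_le_mul_of_nonneg_left hMle (by positivity)

end Bound

section Orders

lemma analyticOrderAt_finprod {I : Type} (s : Finset I) (Ω : I → ℂ → ℂ) (z : ℂ)
    (h : ∀ i ∈ s, AnalyticAt ℂ (Ω i) z) :
    analyticOrderAt (fun w => ∏ i ∈ s, Ω i w) z = ∑ i ∈ s, analyticOrderAt (Ω i) z := by
  classical
  induction s using Finset.induction with
  | empty =>
    simp only [Finset.prod_empty, Finset.sum_empty]
    exact analyticAt_const.analyticOrderAt_eq_zero.2 one_ne_zero
  | insert a s ha ih =>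
    have h1 : AnalyticAt ℂ (fun w => ∏ i ∈ s, Ω i w) z :=
      Finset.analyticAt_fun_prod _ fun i hi => h i (Finset.mem_insert_of_mem hi)
    rw [Finset.sum_insert ha, ← ih fun i hi => h i (Finset.mem_insert_of_mem hi)]
    have h2 := analyticOrderAt_mul (h a (Finset.mem_insert_self a s)) h1
    rw [← h2]
    congr 1
    funext w
    simp [Finset.prod_insert ha]

end Orders

/-- M11: weighted zero count for equivariant families of weight 2. -/
theorem zero_count : ∃ C₀ : ℝ, 0 < C₀ ∧ ∀ (I : Type) [Fintype I] [MulAction SL(2, ℤ) I] (m : ℕ)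
    (Ω : I → ℂ → ℂ),
    (∀ i, DifferentiableOn ℂ (Ω i) {z | 0 < z.im}) →
    (∀ i, ∃ z : ℂ, 0 < z.im ∧ Ω i z ≠ 0) →
    (∀ i, ∃ B Y : ℝ, ∀ z : ℂ, Y ≤ z.im → ‖Ω i z‖ ≤ B) →
    (∀ (σ : SL(2, ℤ)) (i : I) (z : ℍ),
      ‖Ω i ((σ • z : ℍ) : ℂ)‖ =
        ‖((σ 1 0 : ℤ) : ℂ) * z + ((σ 1 1 : ℤ) : ℂ)‖ ^ 2 * ‖Ω (σ⁻¹ • i) (z : ℂ)‖) →
    ∀ S : Finset (I × ℂ), (∀ p ∈ S, p.2 ∈ boxK ∧ (m : ℕ∞) ≤ analyticOrderAt (Ω p.1) p.2) →
      (m * S.card : ℝ) ≤ C₀ * Fintype.card I := by
  classical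
  have hL : 0 < Real.log 300 / Real.log (4 / 3) :=
    div_pos (Real.log_pos (by norm_num)) (Real.log_pos (by norm_num))
  refine ⟨4 * (Real.log 300 / Real.log (4 / 3)), by positivity, ?_⟩
  intro I _ _ m Ω hd hne hbd hinv S hS
  have hopen : IsOpen {z : ℂ | 0 < z.im} := isOpen_lt continuous_const Complex.continuous_im
  have hpre : IsPreconnected {z : ℂ | 0 < z.im} :=
    (convex_halfSpace_im_gt 0).isPreconnected
  have han : ∀ i, AnalyticOnNhd ℂ (Ω i) {z | 0 < z.im} := fun i => (hd i).analyticOnNhd hopen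
  set F : ℂ → ℂ := fun w => ∏ i, Ω i w with hFdef
  set k := Fintype.card I with hk
  have hFd : DifferentiableOn ℂ F {z | 0 < z.im} :=
    DifferentiableOn.fun_finsetProd fun i _ => hd i
  have hFan : AnalyticOnNhd ℂ F {z | 0 < z.im} := hFd.analyticOnNhd hopen
  have hordi : ∀ i, ∀ z : ℂ, 0 < z.im → analyticOrderAt (Ω i) z ≠ ⊤ := by
    intro i z hz
    obtain ⟨w, hw, hw0⟩ := hne i
    refine (han i).analyticOrderAt_ne_top_of_isPreconnected hpre (x := w) hw hz ?_
    rw [(han i w hw).analyticOrderAt_eq_zero.2 hw0]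
    simp
  have hFord : ∀ z : ℂ, 0 < z.im → analyticOrderAt F z = ∑ i, analyticOrderAt (Ω i) z :=
    fun z hz => analyticOrderAt_finprod _ _ _ fun i _ => han i z hz
  have hFne : ∃ z : ℂ, 0 < z.im ∧ F z ≠ 0 := by
    by_contra hcon
    push Not at hcon
    have h1 : analyticOrderAt F Complex.I = ⊤ := by
      rw [analyticOrderAt_eq_top]
      filter_upwards [hopen.mem_nhds (show Complex.I ∈ {z : ℂ | 0 < z.im} by simp)] with z hz
      exact hcon z hz
    rw [hFord _ (by simp)] at h1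
    obtain ⟨i, -, hi⟩ := WithTop.sum_eq_top.1 h1
    exact hordi i _ (by simp) hi
  have hFinv : ∀ (σ : SL(2, ℤ)) (z : ℍ), ‖F ((σ • z : ℍ) : ℂ)‖ =
      ‖((σ 1 0 : ℤ) : ℂ) * z + ((σ 1 1 : ℤ) : ℂ)‖ ^ (2 * k) * ‖F (z : ℂ)‖ := by
    intro σ z
    simp only [hFdef, norm_prod]
    rw [Finset.prod_congr rfl fun i _ => hinv σ i z, Finset.prod_mul_distrib, Finset.prod_const,
      Finset.card_univ, ← hk, ← pow_mul]
    congr 1
    exact Fintype.prod_equiv (MulAction.toPerm σ⁻¹) _ _ fun i => rfl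
  have hFbd : ∃ B Y : ℝ, ∀ z : ℂ, Y ≤ z.im → ‖F z‖ ≤ B := by
    choose B Y hBY using hbd
    refine ⟨∏ i, B i, ∑ i, |Y i|, fun z hz => ?_⟩
    simp only [hFdef, norm_prod]
    refine Finset.prod_le_prod (fun i _ => norm_nonneg _) fun i _ => hBY i z ?_
    refine le_trans (le_abs_self _) (le_trans ?_ hz)
    exact Finset.single_le_sum (f := fun i => |Y i|) (fun i _ => abs_nonneg _) (Finset.mem_univ i)
  obtain ⟨z₀, hre, hi1, hi2, hF0, hbound⟩ := exists_center hFd hFinv hFbd hFne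
  rw [abs_le] at hre
  -- the four balls
  have hball : ∀ j : ℤ, (m * (S.filter fun p => p.2 ∈ closedBall (z₀ + j) (3/5)).card : ℝ) ≤
      k * (Real.log 300 / Real.log (4 / 3)) := by
    intro j
    have hcj : (z₀ + j : ℂ).im = z₀.im := by simp
    have hsub : closedBall (z₀ + j : ℂ) (4/5) ⊆ {z : ℂ | 3 / 50 ≤ z.im} := by
      intro w hw
      rw [mem_closedBall, dist_eq_norm] at hw
      have := (Complex.abs_im_le_norm (w - (z₀ + j))).trans hw
      rw [Complex.sub_im, hcj, abs_le] at this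
      simp only [mem_ofPred_eq]
      linarith [this.1]
    have hFc : ‖F (z₀ + j)‖ = ‖F z₀‖ := norm_add_int hFinv j z₀ (by linarith)
    set T : Finset ℂ := (S.filter fun p => p.2 ∈ closedBall (z₀ + j : ℂ) (3/5)).image Prod.snd
      with hT
    set n : ℂ → ℕ := fun z =>
      m * (S.filter fun p => p.2 ∈ closedBall (z₀ + j : ℂ) (3/5) ∧ p.2 = z).card with hn
    have hTmem : ∀ z ∈ T, z ∈ closedBall (z₀ + j : ℂ) (3/5) := by
      intro z hz
      rw [hT, Finset.mem_image] at hz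
      obtain ⟨p, hp, rfl⟩ := hz
      exact (Finset.mem_filter.1 hp).2
    have key := jensen_count (c := z₀ + j) (r := 3/5) (R := 4/5) (B := 300 ^ k) (f := F)
      (by norm_num) (by norm_num) (one_le_pow₀ (by norm_num))
      (fun z hz => hFan z (by
        have := hsub hz
        simp only [mem_ofPred_eq] at this ⊢
        linarith))
      (by rw [← norm_ne_zero_iff, hFc]; exact norm_ne_zero_iff.2 hF0)
      (fun z hz => by rw [hFc]; exact hbound z (hsub (sphere_subset_closedBall hz)))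
      T n hTmem
      (fun z hz => by
        have hz' : 0 < z.im := by
          have := hsub (closedBall_subset_closedBall (by norm_num) (hTmem z hz))
          simp only [mem_ofPred_eq] at this
          linarith
        rw [hFord z hz']
        simp only [hn]
        push_cast
        have h1 : ((S.filter fun p => p.2 ∈ closedBall (z₀ + j : ℂ) (3/5) ∧ p.2 = z).card : ℕ∞) ≤
            ((Finset.univ.filter fun i : I => (i, z) ∈ S).card : ℕ∞) := by
          norm_cast
          refine Finset.card_le_card_of_injOn Prod.fst ?_ ?_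
          · intro p hp
            simp only [Finset.coe_filter, mem_ofPred_eq] at hp
            simp only [Finset.coe_filter, mem_ofPred_eq, Finset.mem_univ, true_and]
            rw [← hp.2.2]; exact hp.1
          · intro p hp q hq hpq
            simp only [Finset.coe_filter, mem_ofPred_eq] at hp hq
            exact Prod.ext hpq (hp.2.2.trans hq.2.2.symm)
        refine (mul_le_mul_right h1 _).trans ?_
        calc (m : ℕ∞) * ((Finset.univ.filter fun i : I => (i, z) ∈ S).card : ℕ∞)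
            = ∑ i ∈ Finset.univ.filter fun i : I => (i, z) ∈ S, (m : ℕ∞) := by
              rw [Finset.sum_const, nsmul_eq_mul, mul_comm]
          _ ≤ ∑ i ∈ Finset.univ.filter fun i : I => (i, z) ∈ S, analyticOrderAt (Ω i) z :=
              Finset.sum_le_sum fun i hi => (hS (i, z) (Finset.mem_filter.1 hi).2).2
          _ ≤ ∑ i, analyticOrderAt (Ω i) z :=
              Finset.sum_le_sum_of_subset (Finset.filter_subset _ _))
    have hsum : (m * (S.filter fun p => p.2 ∈ closedBall (z₀ + j : ℂ) (3/5)).card : ℝ) =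
        ∑ z ∈ T, (n z : ℝ) := by
      simp only [hn]
      push_cast
      rw [← Finset.mul_sum]
      congr 1
      have := Finset.card_eq_sum_card_image Prod.snd
        (S.filter fun p => p.2 ∈ closedBall (z₀ + j : ℂ) (3/5))
      rw [this]
      push_cast
      refine Finset.sum_congr rfl fun z _ => ?_
      rw [Finset.filter_filter]
    rw [hsum]
    refine key.trans (le_of_eq ?_)
    rw [Real.log_pow]
    norm_num
    ring
  -- covering
  have hcover : S ⊆ (Finset.Icc (-1 : ℤ) 2).biUnion fun j =>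
      S.filter fun p => p.2 ∈ closedBall (z₀ + j : ℂ) (3/5) := by
    intro p hp
    rw [Finset.mem_biUnion]
    obtain ⟨h1, h2, h3, h4⟩ := (hS p hp).1
    refine ⟨round (p.2.re - z₀.re), ?_, ?_⟩
    · have hr := abs_sub_round (p.2.re - z₀.re)
      rw [abs_le] at hr
      rw [Finset.mem_Icc]
      constructor
      · have : (-2 : ℝ) < round (p.2.re - z₀.re) := by linarith [hr.2, hre.2]
        have : (-2 : ℤ) < round (p.2.re - z₀.re) := by exact_mod_cast this
        omega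
      · have : (round (p.2.re - z₀.re) : ℝ) < 3 := by linarith [hr.1, hre.1]
        have : round (p.2.re - z₀.re) < (3 : ℤ) := by exact_mod_cast this
        omega
    · rw [Finset.mem_filter]
      refine ⟨hp, ?_⟩
      rw [mem_closedBall, dist_eq_norm]
      have hr := abs_sub_round (p.2.re - z₀.re)
      rw [← abs_norm, ← abs_of_pos (show (0 : ℝ) < 3 / 5 by norm_num), ← sq_le_sq,
        Complex.sq_norm, Complex.normSq_apply]
      simp only [Complex.sub_re, Complex.add_re, Complex.intCast_re, Complex.sub_im, Complex.add_im,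
        Complex.intCast_im, add_zero]
      have ha : (p.2.re - (z₀.re + (round (p.2.re - z₀.re) : ℝ))) ^ 2 ≤ (1 / 2) ^ 2 := by
        rw [sq_le_sq, abs_of_pos (show (0 : ℝ) < 1 / 2 by norm_num), ← sub_sub]
        exact hr
      have hb : (p.2.im - z₀.im) ^ 2 ≤ (53/200) ^ 2 := by
        rw [sq_le_sq, abs_of_pos (show (0 : ℝ) < 53/200 by norm_num), abs_le]
        constructor <;> linarith
      nlinarith
  have hcard : (S.card : ℝ) ≤ ∑ j ∈ Finset.Icc (-1 : ℤ) 2,
      ((S.filter fun p => p.2 ∈ closedBall (z₀ + j : ℂ) (3/5)).card : ℝ) := by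
    exact_mod_cast (Finset.card_le_card hcover).trans Finset.card_biUnion_le
  calc (m * S.card : ℝ) ≤ m * ∑ j ∈ Finset.Icc (-1 : ℤ) 2,
      ((S.filter fun p => p.2 ∈ closedBall (z₀ + j : ℂ) (3/5)).card : ℝ) :=
        mul_le_mul_of_nonneg_left hcard (Nat.cast_nonneg _)
    _ = ∑ j ∈ Finset.Icc (-1 : ℤ) 2,
      (m * (S.filter fun p => p.2 ∈ closedBall (z₀ + j : ℂ) (3/5)).card : ℝ) := Finset.mul_sum ..
    _ ≤ ∑ j ∈ Finset.Icc (-1 : ℤ) 2, k * (Real.log 300 / Real.log (4 / 3)) :=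
        Finset.sum_le_sum fun j _ => hball j
    _ = 4 * (Real.log 300 / Real.log (4 / 3)) * k := by
        rw [Finset.sum_const, show (Finset.Icc (-1 : ℤ) 2).card = 4 from rfl, nsmul_eq_mul]
        push_cast
        ring

end H80.Gon
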