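import Pool.Agent.H80.Gon.M13b

/-!
M13: the interface between modular functions and equivariant families.
-/

open Matrix MatrixGroups UpperHalfPlane ModularGroup
open Filter Topology

namespace H80.Gon

lemma eventually_codiscrete_iff {p : ℍ → Prop} :
    (∀ᶠ z in codiscrete ℍ, p z) ↔ ∀ z : ℍ, ∀ᶠ w in 𝓝[≠] z, p w := by
  rw [Filter.Eventually, mem_codiscrete]
  refine forall_congr' fun z => ?_
  rw [disjoint_principal_right, compl_compl]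
  rfl

lemma ofComplex_tendsto {z : ℂ} (hz : z ∈ Hp) :
    Tendsto (fun w => (ofComplex w : ℍ)) (𝓝[≠] z) (𝓝[≠] (ofComplex z)) := by
  have hc : ContinuousAt (fun w => (ofComplex w : ℍ)) z :=
    (mdifferentiableAt_ofComplex hz).continuousAt
  apply tendsto_nhdsWithin_iff.2
  refine ⟨hc.tendsto.mono_left nhdsWithin_le_nhds, ?_⟩
  filter_upwards [eventually_Hp hz, self_mem_nhdsWithin] with w hw hne
  intro heq
  apply hne
  have h1 : ((ofComplex w : ℍ) : ℂ) = w := by rw [ofComplex_apply_of_im_pos hw]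
  have h2 : ((ofComplex z : ℍ) : ℂ) = z := by rw [ofComplex_apply_of_im_pos hz]
  have h3 : ofComplex w = ofComplex z := heq
  show w = z
  rw [← h1, ← h2, h3]

lemma coe_tendsto (u : ℍ) : Tendsto (fun v : ℍ => (v : ℂ)) (𝓝[≠] u) (𝓝[≠] (u : ℂ)) := by
  apply tendsto_nhdsWithin_iff.2
  refine ⟨(continuous_coe.tendsto u).mono_left nhdsWithin_le_nhds, ?_⟩
  filter_upwards [self_mem_nhdsWithin] with v hv
  intro heq
  exact hv (UpperHalfPlane.ext heq)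

/-- transport of codiscrete statements -/
lemma transport {p : ℍ → Prop} (hp : ∀ᶠ z in codiscrete ℍ, p z) (h : SL(2, ℤ)) {z : ℂ}
    (hz : z ∈ Hp) : ∀ᶠ w in 𝓝[≠] z, p (ofComplex (mob h w)) := by
  rw [eventually_codiscrete_iff] at hp
  exact (mob_tendsto h hz).eventually ((ofComplex_tendsto (mob_mem h hz)).eventually (hp _))

lemma transport' {p : ℍ → Prop} (hp : ∀ᶠ z in codiscrete ℍ, p z) {z : ℂ}
    (hz : z ∈ Hp) : ∀ᶠ w in 𝓝[≠] z, p (ofComplex w) := by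
  rw [eventually_codiscrete_iff] at hp
  exact (ofComplex_tendsto hz).eventually (hp _)

lemma qParam_mul (N M : ℕ) (hN : 0 < N) (hM : 0 < M) (w : ℂ) :
    Function.Periodic.qParam (N : ℝ) w = (Function.Periodic.qParam ((N * M : ℕ) : ℝ) w) ^ M := by
  unfold Function.Periodic.qParam
  rw [← Complex.exp_nat_mul]
  congr 1
  have h1 : (N : ℂ) ≠ 0 := by exact_mod_cast hN.ne'
  have h2 : (M : ℂ) ≠ 0 := by exact_mod_cast hM.ne'
  push_cast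
  field_simp

section

variable (Γ : Subgroup SL(2, ℤ))

/-- the translates of a function -/
noncomputable def tr (x : ℍ → ℂ) (i : SL(2, ℤ) ⧸ Γ) : ℂ → ℂ :=
  fun w => x (ofComplex (mob (i.out)⁻¹ w))

lemma tr_mero {x : ℍ → ℂ} (hx : IsModularFunction Γ x) (i : SL(2, ℤ) ⧸ Γ) :
    MeromorphicOn (tr Γ x i) Hp := by
  intro z hz
  have h1 : MeromorphicAt (x ∘ UpperHalfPlane.ofComplex) (mob (i.out)⁻¹ z) :=
    hx.meromorphic _ (mob_mem _ hz)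
  exact h1.comp_analyticAt (mob_analyticAt (i.out)⁻¹ hz)

lemma tr_eq {x : ℍ → ℂ} (hx : IsModularFunction Γ x) (σ : SL(2, ℤ)) (i : SL(2, ℤ) ⧸ Γ) :
    ∀ z ∈ Hp, ∀ᶠ w in 𝓝[≠] z, tr Γ x i (mob σ w) = tr Γ x (σ⁻¹ • i) w := by
  intro z hz
  set γ : SL(2, ℤ) := (σ⁻¹ * i.out)⁻¹ * (σ⁻¹ • i).out with hγdef
  have hγ : γ ∈ Γ := by
    have h1 : (QuotientGroup.mk (σ⁻¹ * i.out) : SL(2, ℤ) ⧸ Γ) =
        QuotientGroup.mk ((σ⁻¹ • i).out) := by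
      rw [QuotientGroup.out_eq']
      conv_rhs => rw [← QuotientGroup.out_eq' i]
      rfl
    exact QuotientGroup.eq.1 h1
  have h1 := hx.invariant γ⁻¹ (Γ.inv_mem hγ)
  have h2 := transport h1 ((i.out)⁻¹ * σ) hz
  filter_upwards [h2, eventually_Hp hz] with w hw hwp
  unfold tr
  have e1 : mob (i.out)⁻¹ (mob σ w) = mob ((i.out)⁻¹ * σ) w := (mob_mul _ _ hwp).symm
  have e2 : ofComplex (mob ((σ⁻¹ • i).out)⁻¹ w) =
      γ⁻¹ • (ofComplex (mob ((i.out)⁻¹ * σ) w)) := by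
    rw [ofComplex_mob _ hwp, ofComplex_mob _ hwp, smul_smul]
    congr 1
    rw [hγdef]
    group
  rw [e1, e2, hw]

lemma tr_nc {x : ℍ → ℂ} (hx : IsModularFunction Γ x)
    (hnc : ¬ ∃ a : ℂ, ∀ᶠ z in Filter.codiscrete ℍ, x z = a) (i : SL(2, ℤ) ⧸ Γ) :
    ∀ z ∈ Hp, ∀ a, ¬ ∀ᶠ w in 𝓝[≠] z, tr Γ x i w = a := by
  intro z hz a ha
  apply hnc
  refine ⟨a, ?_⟩
  rw [eventually_codiscrete_iff]
  intro u
  have hm : MeromorphicOn (fun w => tr Γ x i w - a) Hp := fun z hz =>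
    (tr_mero Γ hx i z hz).sub (MeromorphicAt.const a z)
  have hu : (u : ℂ) ∈ Hp := u.im_pos
  have hz' : mob i.out u ∈ Hp := mob_mem _ hu
  have htop : meromorphicOrderAt (fun w => tr Γ x i w - a) (mob i.out u) = ⊤ := by
    by_contra hne
    apply hm.meromorphicOrderAt_ne_top_of_isPreconnected isPreconnected_Hp hz' hz hne
    rw [meromorphicOrderAt_eq_top_iff]
    exact ha.mono fun w hw => sub_eq_zero.2 hw
  rw [meromorphicOrderAt_eq_top_iff] at htop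
  have h1 : ∀ᶠ v : ℍ in 𝓝[≠] u, tr Γ x i (mob i.out (v : ℂ)) - a = 0 :=
    (coe_tendsto u).eventually ((mob_tendsto i.out hu).eventually htop)
  filter_upwards [h1] with v hv
  have hvp : (v : ℂ) ∈ Hp := v.im_pos
  unfold tr at hv
  rw [← mob_mul _ _ hvp, inv_mul_cancel, mob_one hvp, ofComplex_apply] at hv
  exact sub_eq_zero.1 hv

lemma tr_cusp {x : ℍ → ℂ} (hx : IsModularFunction Γ x) (i : SL(2, ℤ) ⧸ Γ) :
    ∃ (N : ℕ) (X : ℂ → ℂ) (A : ℝ), 0 < N ∧ MeromorphicAt X 0 ∧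
      ∀ z ∈ Hp, A < z.im → ∀ᶠ w in 𝓝[≠] z, tr Γ x i w = X (Function.Periodic.qParam N w) := by
  obtain ⟨N, X, hN, hX, A, hA⟩ := hx.cusps (i.out)⁻¹
  refine ⟨N, X, A, hN, hX, fun z hz hzA => ?_⟩
  have h1 := transport' hA hz
  have hev : ∀ᶠ w in 𝓝[≠] z, A < w.im :=
    mem_nhdsWithin_of_mem_nhds ((isOpen_lt continuous_const Complex.continuous_im).mem_nhds hzA)
  filter_upwards [h1, hev, eventually_Hp hz] with w hw1 hw2 hw3
  unfold tr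
  have hco : ((ofComplex w : ℍ) : ℂ) = w := by rw [ofComplex_apply_of_im_pos hw3]
  rw [hco] at hw1
  rw [ofComplex_mob _ hw3]
  apply hw1
  have : (ofComplex w).im = w.im := by
    rw [← UpperHalfPlane.coe_im, hco]
  rw [this]
  exact hw2

lemma meromorphicAt_comp_pow {X : ℂ → ℂ} (hX : MeromorphicAt X 0) {M : ℕ} (hM : 0 < M) :
    MeromorphicAt (fun q => X (q ^ M)) 0 := by
  have h0 : MeromorphicAt X ((fun q : ℂ => q ^ M) 0) := by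
    simpa [zero_pow hM.ne'] using hX
  have h1 : AnalyticAt ℂ (fun q : ℂ => q ^ M) 0 := by fun_prop
  exact MeromorphicAt.comp_analyticAt (g := fun q : ℂ => q ^ M) h0 h1

theorem fam_of_modular (n : ℕ) (x y : ℍ → ℂ)
    (hx : IsModularFunction Γ x) (hy : IsModularFunction Γ y)
    (hxy : ∀ᶠ z in Filter.codiscrete ℍ, x z ^ n + y z ^ n = 1)
    (hnc : ¬ ∃ a : ℂ, ∀ᶠ z in Filter.codiscrete ℍ, x z = a) :
    Fam (SL(2, ℤ) ⧸ Γ) n (tr Γ x) (tr Γ y) where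
  mF := tr_mero Γ hx
  mG := tr_mero Γ hy
  rel := fun i z hz => transport hxy (i.out)⁻¹ hz
  eqF := tr_eq Γ hx
  eqG := tr_eq Γ hy
  nc := tr_nc Γ hx hnc
  cusp := by
    intro i
    obtain ⟨N, X, A, hN, hX, hXA⟩ := tr_cusp Γ hx i
    obtain ⟨M, Y, B, hM, hY, hYB⟩ := tr_cusp Γ hy i
    refine ⟨N * M, fun q => X (q ^ M), fun q => Y (q ^ N), max A B, Nat.mul_pos hN hM,
      meromorphicAt_comp_pow hX hM, meromorphicAt_comp_pow hY hN, fun z hz hzA => ⟨?_, ?_⟩⟩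
    · filter_upwards [hXA z hz (lt_of_le_of_lt (le_max_left _ _) hzA)] with w hw
      rw [hw, qParam_mul N M hN hM]
    · filter_upwards [hYB z hz (lt_of_le_of_lt (le_max_right _ _) hzA)] with w hw
      rw [hw, qParam_mul M N hM hN, mul_comm M N]

end

/-- M13 (interface): a nonconstant solution of `x^n + y^n = 1` in modular functions of a finite index
subgroup `Γ` gives an equivariant family. -/
theorem interface (n : ℕ) (hn : 4 ≤ n) (Γ : Subgroup SL(2, ℤ)) [Γ.FiniteIndex] (x y : ℍ → ℂ)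
    (hx : IsModularFunction Γ x) (hy : IsModularFunction Γ y)
    (hxy : ∀ᶠ z in Filter.codiscrete ℍ, x z ^ n + y z ^ n = 1)
    (hnc : ¬ ∃ a : ℂ, ∀ᶠ z in Filter.codiscrete ℍ, x z = a) :
    ∃ (xI : SL(2, ℤ) ⧸ Γ → ℂ → ℂ) (P : SL(2, ℤ) ⧸ Γ → Set ℂ),
      (∀ i, (P i).Countable) ∧ (∀ i, IsOpen ({z : ℂ | 0 < z.im} \ P i)) ∧
      (∀ i, DifferentiableOn ℂ (xI i) ({z : ℂ | 0 < z.im} \ P i)) ∧
      (∀ (σ : SL(2, ℤ)) (i : SL(2, ℤ) ⧸ Γ) (z : ℍ),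
        xI i ((σ • z : ℍ) : ℂ) = xI (σ⁻¹ • i) (z : ℂ)) ∧
      (∀ i (α : ℂ), {z : ℂ | 0 < z.im ∧ z ∉ P i ∧ xI i z = α}.Countable) ∧
      (∀ α : ℂ, α ^ n ≠ 1 → ∃ Ω : SL(2, ℤ) ⧸ Γ → ℂ → ℂ,
        (∀ i, DifferentiableOn ℂ (Ω i) {z | 0 < z.im}) ∧
        (∀ i, ∃ z : ℂ, 0 < z.im ∧ Ω i z ≠ 0) ∧
        (∀ i, ∃ B Y : ℝ, ∀ z : ℂ, Y ≤ z.im → ‖Ω i z‖ ≤ B) ∧
        (∀ (σ : SL(2, ℤ)) (i : SL(2, ℤ) ⧸ Γ) (z : ℍ),
          ‖Ω i ((σ • z : ℍ) : ℂ)‖ =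
            ‖((σ 1 0 : ℤ) : ℂ) * z + ((σ 1 1 : ℤ) : ℂ)‖ ^ 2 * ‖Ω (σ⁻¹ • i) (z : ℂ)‖) ∧
        (∀ i (z : ℂ), 0 < z.im → z ∉ P i → xI i z = α →
          (((n - 3 : ℕ)) : ℕ∞) ≤ analyticOrderAt (Ω i) z)) :=
  (fam_of_modular Γ n x y hx hy hxy hnc).conclusion hn

end H80.Gon
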