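import Mathlib

/-!
Germ lemma for the interface module (M13) of MP_db315d_nt.
-/

open Filter Topology

namespace H80.Gon

/-- If `f` is meromorphic and not eventually constant at `z₀`, and has nonnegative order, then it has
a limit `c`, `f - c` has order `k ≥ 1` and `f'` has order `k - 1`. -/
lemma germ_nonneg {f : ℂ → ℂ} {z₀ : ℂ} (hf : MeromorphicAt f z₀)
    (hnc : ∀ a, ¬ ∀ᶠ z in 𝓝[≠] z₀, f z = a) (h0 : 0 ≤ meromorphicOrderAt f z₀) :
    ∃ (c : ℂ) (k : ℤ), 1 ≤ k ∧ Tendsto f (𝓝[≠] z₀) (𝓝 c) ∧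
      meromorphicOrderAt (fun z => f z - c) z₀ = k ∧
      meromorphicOrderAt (deriv f) z₀ = ((k - 1 : ℤ) : WithTop ℤ) := by
  obtain ⟨c, hc⟩ := tendsto_nhds_of_meromorphicOrderAt_nonneg hf h0
  have hfc : MeromorphicAt (fun z => f z - c) z₀ := hf.sub (MeromorphicAt.const c z₀)
  have ht : Tendsto (fun z => f z - c) (𝓝[≠] z₀) (𝓝 0) := by
    have := hc.sub_const c
    simpa using this
  have hpos := (tendsto_zero_iff_meromorphicOrderAt_pos hfc).1 ht
  have hne : meromorphicOrderAt (fun z => f z - c) z₀ ≠ ⊤ := by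
    intro h
    rw [meromorphicOrderAt_eq_top_iff] at h
    exact hnc c (h.mono fun z hz => sub_eq_zero.1 hz)
  obtain ⟨k, hk⟩ := WithTop.ne_top_iff_exists.1 hne
  rw [← hk] at hpos
  have hk1 : 0 < k := by exact_mod_cast hpos
  refine ⟨c, k, by omega, hc, hk.symm, ?_⟩
  have hd := meromorphicOrderAt_deriv_eq_sub_one (n := k) (by exact_mod_cast hk1.ne') hk.symm
  have he : deriv (fun z => f z - c) = deriv f := by
    funext z
    exact deriv_sub_const c
  rw [he] at hd
  exact hd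

lemma germ_deriv_ne_top {f : ℂ → ℂ} {z₀ : ℂ} (hf : MeromorphicAt f z₀)
    (hnc : ∀ a, ¬ ∀ᶠ z in 𝓝[≠] z₀, f z = a) : meromorphicOrderAt (deriv f) z₀ ≠ ⊤ := by
  rcases le_or_gt 0 (meromorphicOrderAt f z₀) with h | h
  · obtain ⟨c, k, -, -, -, hk⟩ := germ_nonneg hf hnc h
    rw [hk]
    exact WithTop.coe_ne_top
  · obtain ⟨k, hk⟩ := WithTop.ne_top_iff_exists.1 h.ne_top
    rw [← hk] at h
    have hk0 : k < 0 := by exact_mod_cast h
    rw [meromorphicOrderAt_deriv_eq_sub_one (n := k) (by exact_mod_cast hk0.ne) hk.symm]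
    exact WithTop.coe_ne_top

section germ

variable {n : ℕ} {X Y : ℂ → ℂ} {z₀ : ℂ}

/-- differentiated relation -/
lemma germ_rel (hn : 1 ≤ n) (hX : MeromorphicAt X z₀) (hY : MeromorphicAt Y z₀)
    (h : ∀ᶠ z in 𝓝[≠] z₀, X z ^ n + Y z ^ n = 1) :
    ∀ᶠ z in 𝓝[≠] z₀, X z ^ (n - 1) * deriv X z = - (Y z ^ (n - 1) * deriv Y z) := by
  have h2 : ∀ᶠ z in 𝓝[≠] z₀, ∀ᶠ w in 𝓝 z, X w ^ n + Y w ^ n = 1 := by
    have := eventually_eventually_nhdsWithin.2 h
    filter_upwards [this, self_mem_nhdsWithin] with z hz hzne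
    have hzne' : z ≠ z₀ := hzne
    have : 𝓝[≠] z₀ ⊔ pure z₀ = 𝓝 z₀ := by
      rw [sup_comm]; exact pure_sup_nhdsNE z₀
    have h3 : 𝓝[{z₀}ᶜ] z = 𝓝 z := by
      apply nhdsWithin_eq_nhds.2
      exact isOpen_compl_singleton.mem_nhds hzne'
    rw [h3] at hz
    exact hz
  filter_upwards [h2, hX.eventually_analyticAt, hY.eventually_analyticAt] with z hz hXz hYz
  have hXd := hXz.differentiableAt.hasDerivAt
  have hYd := hYz.differentiableAt.hasDerivAt
  have h1 : HasDerivAt (fun w => X w ^ n + Y w ^ n)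
      (n * X z ^ (n - 1) * deriv X z + n * Y z ^ (n - 1) * deriv Y z) z := (hXd.pow n).add (hYd.pow n)
  have h0 : HasDerivAt (fun w => X w ^ n + Y w ^ n) 0 z := by
    refine (hasDerivAt_const z (1 : ℂ)).congr_of_eventuallyEq ?_
    filter_upwards [hz] with w hw using hw
  have := h1.unique h0
  have hn0 : (n : ℂ) ≠ 0 := by exact_mod_cast (by omega : n ≠ 0)
  have h4 : (n : ℂ) * (X z ^ (n - 1) * deriv X z + (Y z ^ (n - 1) * deriv Y z)) = 0 := by
    linear_combination this
  rcases mul_eq_zero.1 h4 with h5 | h5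
  · exact absurd h5 hn0
  · linear_combination h5

lemma germ_Y_ne_top (hn : 1 ≤ n) (hX : MeromorphicAt X z₀) (hY : MeromorphicAt Y z₀)
    (h : ∀ᶠ z in 𝓝[≠] z₀, X z ^ n + Y z ^ n = 1)
    (hnc : ∀ a, ¬ ∀ᶠ z in 𝓝[≠] z₀, X z = a) : meromorphicOrderAt Y z₀ ≠ ⊤ := by
  intro htop
  have hY0 := meromorphicOrderAt_eq_top_iff.1 htop
  have hr := germ_rel hn hX hY h
  have hYd : ∀ᶠ z in 𝓝[≠] z₀, deriv Y z = 0 := by
    have : Y =ᶠ[𝓝[≠] z₀] fun _ => (0 : ℂ) := hY0
    have h2 := this.nhdsNE_deriv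
    filter_upwards [h2] with z hz
    rw [hz]; simp
  apply germ_deriv_ne_top hX hnc
  rw [meromorphicOrderAt_eq_top_iff]
  filter_upwards [h, hY0, hr, hYd] with z h1 h2 h3 h4
  rw [h4, mul_zero, neg_zero] at h3
  rcases mul_eq_zero.1 h3 with h5 | h5
  · exfalso
    rw [h2, zero_pow (by omega : n ≠ 0), add_zero] at h1
    have hX0 : X z = 0 := eq_zero_of_pow_eq_zero h5
    rw [hX0, zero_pow (by omega : n ≠ 0)] at h1
    exact zero_ne_one h1
  · exact h5

/-- The function whose normal form is the differential form. -/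
noncomputable def germForm (n : ℕ) (α : ℂ) (X Y : ℂ → ℂ) : ℂ → ℂ :=
  fun z => (X z - α) ^ (n - 3) * deriv X z / Y z ^ (n - 1)

lemma germForm_meromorphicAt (α : ℂ) (hX : MeromorphicAt X z₀) (hY : MeromorphicAt Y z₀) :
    MeromorphicAt (germForm n α X Y) z₀ := by
  have hX' := hX.deriv
  unfold germForm
  fun_prop

lemma germForm_order (α : ℂ) (hX : MeromorphicAt X z₀) (hY : MeromorphicAt Y z₀) :
    meromorphicOrderAt (germForm n α X Y) z₀ =
      ((n - 3 : ℕ) : WithTop ℤ) * meromorphicOrderAt (fun z => X z - α) z₀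
        + meromorphicOrderAt (deriv X) z₀ - ((n - 1 : ℕ) : WithTop ℤ) * meromorphicOrderAt Y z₀ := by
  have hX' := hX.deriv
  have hXa : MeromorphicAt (fun z => X z - α) z₀ := hX.sub (MeromorphicAt.const α z₀)
  have e : germForm n α X Y = ((fun z => X z - α) ^ (n - 3) * deriv X) / Y ^ (n - 1) := rfl
  rw [e, meromorphicOrderAt_div ((hXa.pow _).mul hX') (hY.pow _),
    meromorphicOrderAt_mul (hXa.pow _) hX', meromorphicOrderAt_pow hXa, meromorphicOrderAt_pow hY]

/-- the order of `X - α` if `X` has a pole -/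
lemma order_sub_const_of_neg (α : ℂ) (h : meromorphicOrderAt X z₀ < 0) :
    meromorphicOrderAt (fun z => X z - α) z₀ = meromorphicOrderAt X z₀ := by
  have e : (fun z => X z - α) = X + fun _ => -α := by
    funext z; simp [sub_eq_add_neg]
  rw [e]
  apply meromorphicOrderAt_add_eq_left_of_lt (MeromorphicAt.const _ _)
  refine lt_of_lt_of_le h ?_
  exact (analyticAt_const).meromorphicOrderAt_nonneg

/-- Main germ lemma. -/
theorem germ_main (hn : 4 ≤ n) (α : ℂ) (hX : MeromorphicAt X z₀) (hY : MeromorphicAt Y z₀)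
    (h : ∀ᶠ z in 𝓝[≠] z₀, X z ^ n + Y z ^ n = 1)
    (hnc : ∀ a, ¬ ∀ᶠ z in 𝓝[≠] z₀, X z = a) :
    0 ≤ meromorphicOrderAt (germForm n α X Y) z₀ ∧
    meromorphicOrderAt (germForm n α X Y) z₀ ≠ ⊤ ∧
    (Tendsto X (𝓝[≠] z₀) (𝓝 α) → α ^ n ≠ 1 →
      ((n - 3 : ℕ) : WithTop ℤ) ≤ meromorphicOrderAt (germForm n α X Y) z₀) := by
  have hXa : MeromorphicAt (fun z => X z - α) z₀ := hX.sub (MeromorphicAt.const α z₀)
  have hXane : meromorphicOrderAt (fun z => X z - α) z₀ ≠ ⊤ := by
    intro h'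
    rw [meromorphicOrderAt_eq_top_iff] at h'
    exact hnc α (h'.mono fun z hz => sub_eq_zero.1 hz)
  have hYne := germ_Y_ne_top (by omega) hX hY h hnc
  have hdne := germ_deriv_ne_top hX hnc
  obtain ⟨a, ha⟩ := WithTop.ne_top_iff_exists.1 hXane
  obtain ⟨b, hb⟩ := WithTop.ne_top_iff_exists.1 hdne
  obtain ⟨d, hd⟩ := WithTop.ne_top_iff_exists.1 hYne
  have hord : meromorphicOrderAt (germForm n α X Y) z₀
      = ((((n - 3 : ℕ) : ℤ) * a + b - ((n - 1 : ℕ) : ℤ) * d : ℤ) : WithTop ℤ) := by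
    rw [germForm_order α hX hY, ← ha, ← hb, ← hd]
    norm_cast
  have hn3 : ((n - 3 : ℕ) : ℤ) = (n : ℤ) - 3 := by omega
  have hn1 : ((n - 1 : ℕ) : ℤ) = (n : ℤ) - 1 := by omega
  rw [hord, hn3, hn1]
  have hcast : ((n - 3 : ℕ) : WithTop ℤ) = (((n : ℤ) - 3 : ℤ) : WithTop ℤ) := by
    rw [← hn3]; rfl
  rw [hcast]
  have hn4 : (4 : ℤ) ≤ n := by exact_mod_cast hn
  -- order of Y^n
  have hYn : meromorphicOrderAt (Y ^ n) z₀ = (((n : ℤ) * d : ℤ) : WithTop ℤ) := by
    rw [meromorphicOrderAt_pow hY, ← hd]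
    norm_cast
  have hYeq : Y ^ n =ᶠ[𝓝[≠] z₀] (fun z => 1 - X z ^ n) := by
    filter_upwards [h] with z hz
    simp only [Pi.pow_apply]
    linear_combination hz
  rcases lt_or_ge (meromorphicOrderAt X z₀) 0 with hneg | hnonneg
  · -- pole
    obtain ⟨e, he⟩ := WithTop.ne_top_iff_exists.1 hneg.ne_top
    have he0 : e < 0 := by rw [← he] at hneg; exact_mod_cast hneg
    have hae : a = e := by
      have := order_sub_const_of_neg α hneg
      rw [← ha, ← he] at this
      exact_mod_cast this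
    have hbe : b = e - 1 := by
      have := meromorphicOrderAt_deriv_eq_sub_one (n := e) (by exact_mod_cast he0.ne) he.symm
      rw [← hb] at this
      exact_mod_cast this
    have hXn : meromorphicOrderAt (X ^ n) z₀ = (((n : ℤ) * e : ℤ) : WithTop ℤ) := by
      rw [meromorphicOrderAt_pow hX, ← he]
      norm_cast
    have hde : d = e := by
      have h1 : meromorphicOrderAt (Y ^ n) z₀ = meromorphicOrderAt (-(X ^ n)) z₀ := by
        have e2 : (fun z => 1 - X z ^ n) = -(X ^ n) + fun _ => (1 : ℂ) := by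
          funext z; simp; ring
        rw [meromorphicOrderAt_congr hYeq, e2]
        apply meromorphicOrderAt_add_eq_left_of_lt (MeromorphicAt.const _ _)
        rw [← meromorphicOrderAt_neg, hXn]
        refine lt_of_lt_of_le ?_ (analyticAt_const).meromorphicOrderAt_nonneg
        have : (n : ℤ) * e < 0 := by nlinarith
        exact_mod_cast this
      rw [← meromorphicOrderAt_neg, hXn, hYn] at h1
      have h2 : (n : ℤ) * d = n * e := by exact_mod_cast h1
      exact mul_left_cancel₀ (by omega) h2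
    refine ⟨?_, WithTop.coe_ne_top, ?_⟩
    · have : 0 ≤ ((n : ℤ) - 3) * a + b - ((n : ℤ) - 1) * d := by
        rw [hae, hbe, hde]; nlinarith
      exact_mod_cast this
    · intro ht
      exfalso
      have h1 : ∃ c, Tendsto X (𝓝[≠] z₀) (𝓝 c) := ⟨α, ht⟩
      rw [tendsto_nhds_iff_meromorphicOrderAt_nonneg hX] at h1
      exact absurd hneg (not_lt.2 h1)
  · -- finite value
    obtain ⟨c, k, hk1, hc, hk, hdk⟩ := germ_nonneg hX hnc hnonneg
    have hbk : b = k - 1 := by
      rw [← hb] at hdk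
      exact_mod_cast hdk
    have ha0 : 0 ≤ a := by
      have h1 : 0 ≤ meromorphicOrderAt (fun z => X z - α) z₀ := by
        rw [← tendsto_nhds_iff_meromorphicOrderAt_nonneg hXa]
        exact ⟨c - α, hc.sub_const α⟩
      rw [← ha] at h1
      exact_mod_cast h1
    have hYt : Tendsto (Y ^ n) (𝓝[≠] z₀) (𝓝 (1 - c ^ n)) := by
      refine Tendsto.congr' hYeq.symm ?_
      exact tendsto_const_nhds.sub (hc.pow n)
    have hd0 : 0 ≤ d := by
      have h1 : 0 ≤ meromorphicOrderAt (Y ^ n) z₀ := by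
        rw [← tendsto_nhds_iff_meromorphicOrderAt_nonneg (hY.pow n)]
        exact ⟨_, hYt⟩
      rw [hYn] at h1
      have h2 : 0 ≤ (n : ℤ) * d := by exact_mod_cast h1
      nlinarith
    rcases eq_or_lt_of_le hd0 with hd0' | hdpos
    · refine ⟨?_, WithTop.coe_ne_top, ?_⟩
      · have : 0 ≤ ((n : ℤ) - 3) * a + b - ((n : ℤ) - 1) * d := by
          rw [hbk, ← hd0']; nlinarith
        exact_mod_cast this
      · intro ht hα
        have hca : c = α := tendsto_nhds_unique hc ht
        subst hca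
        have hak : a = k := by
          rw [← ha] at hk
          exact_mod_cast hk
        have : ((n : ℤ) - 3) ≤ ((n : ℤ) - 3) * a + b - ((n : ℤ) - 1) * d := by
          rw [hbk, ← hd0', hak]; nlinarith
        exact_mod_cast this
    · -- Y vanishes
      have hc1 : c ^ n = 1 := by
        have h1 : Tendsto (Y ^ n) (𝓝[≠] z₀) (𝓝 0) := by
          rw [tendsto_zero_iff_meromorphicOrderAt_pos (hY.pow n), hYn]
          have : 0 < (n : ℤ) * d := by nlinarith
          exact_mod_cast this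
        have := tendsto_nhds_unique h1 hYt
        linear_combination this
      have hX0 : meromorphicOrderAt X z₀ = 0 := by
        rw [← tendsto_ne_zero_iff_meromorphicOrderAt_eq_zero hX]
        refine ⟨c, ?_, hc⟩
        rintro rfl
        rw [zero_pow (by omega : n ≠ 0)] at hc1
        exact zero_ne_one hc1
      have hr := germ_rel (by omega) hX hY h
      have hYd : meromorphicOrderAt (deriv Y) z₀ = ((d - 1 : ℤ) : WithTop ℤ) :=
        meromorphicOrderAt_deriv_eq_sub_one (n := d) (by exact_mod_cast hdpos.ne') hd.symm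
      have hb2 : b = ((n : ℤ) - 1) * d + (d - 1) := by
        have e1 : meromorphicOrderAt (X ^ (n - 1) * deriv X) z₀ =
            meromorphicOrderAt (-(Y ^ (n - 1) * deriv Y)) z₀ := by
          apply meromorphicOrderAt_congr
          filter_upwards [hr] with z hz
          simpa using hz
        rw [← meromorphicOrderAt_neg, meromorphicOrderAt_mul (hX.pow _) hX.deriv,
          meromorphicOrderAt_mul (hY.pow _) hY.deriv, meromorphicOrderAt_pow hX,
          meromorphicOrderAt_pow hY, hX0, hYd, ← hb, ← hd, mul_zero, zero_add] at e1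
        rw [← hn1]
        exact_mod_cast e1
      refine ⟨?_, WithTop.coe_ne_top, ?_⟩
      · have : 0 ≤ ((n : ℤ) - 3) * a + b - ((n : ℤ) - 1) * d := by
          rw [hb2]; nlinarith
        exact_mod_cast this
      · intro ht hα
        exfalso
        have hca : c = α := tendsto_nhds_unique hc ht
        exact hα (hca ▸ hc1)

end germ

end H80.Gon
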