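import Pool.Agent.H80.Gon.Defs
import Pool.Agent.H80.Gon.M13a

/-!
M13, part b: Moebius maps on `ℂ` and the abstract equivariant family.
-/

open Matrix MatrixGroups UpperHalfPlane ModularGroup
open Filter Topology

namespace H80.Gon

/-- the upper half plane as a subset of `ℂ` -/
def Hp : Set ℂ := {z : ℂ | 0 < z.im}

lemma isOpen_Hp : IsOpen Hp := isOpen_lt continuous_const Complex.continuous_im

lemma isPreconnected_Hp : IsPreconnected Hp := by
  have : Convex ℝ Hp := convex_halfSpace_im_gt 0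
  exact this.isPreconnected

/-- denominators -/
noncomputable def den (σ : SL(2, ℤ)) (w : ℂ) : ℂ := ((σ 1 0 : ℤ) : ℂ) * w + ((σ 1 1 : ℤ) : ℂ)

/-- Moebius map on `ℂ` -/
noncomputable def mob (σ : SL(2, ℤ)) (w : ℂ) : ℂ :=
  (((σ 0 0 : ℤ) : ℂ) * w + ((σ 0 1 : ℤ) : ℂ)) / den σ w

lemma mob_coe (σ : SL(2, ℤ)) (z : ℍ) : mob σ (z : ℂ) = ((σ • z : ℍ) : ℂ) := by
  rw [coe_specialLinearGroup_apply]
  simp [mob, den]

lemma mob_of_mem (σ : SL(2, ℤ)) {w : ℂ} (hw : w ∈ Hp) :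
    mob σ w = ((σ • (ofComplex w) : ℍ) : ℂ) := by
  have h : ((ofComplex w : ℍ) : ℂ) = w := by
    rw [ofComplex_apply_of_im_pos hw]
  rw [← mob_coe, h]

lemma mob_mem (σ : SL(2, ℤ)) {w : ℂ} (hw : w ∈ Hp) : mob σ w ∈ Hp := by
  rw [mob_of_mem σ hw]
  exact (σ • (ofComplex w) : ℍ).im_pos

lemma ofComplex_mob (σ : SL(2, ℤ)) {w : ℂ} (hw : w ∈ Hp) :
    ofComplex (mob σ w) = σ • (ofComplex w) := by
  rw [mob_of_mem σ hw, ofComplex_apply]

lemma mob_mul (a b : SL(2, ℤ)) {w : ℂ} (hw : w ∈ Hp) : mob (a * b) w = mob a (mob b w) := by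
  rw [mob_of_mem _ hw, mob_of_mem _ (mob_mem b hw), ofComplex_mob b hw, mul_smul]

lemma mob_one {w : ℂ} (hw : w ∈ Hp) : mob 1 w = w := by
  rw [mob_of_mem _ hw, one_smul, ofComplex_apply_of_im_pos hw]

lemma den_ne_zero (σ : SL(2, ℤ)) {w : ℂ} (hw : w ∈ Hp) : den σ w ≠ 0 := by
  intro h
  have hdet : σ 0 0 * σ 1 1 - σ 0 1 * σ 1 0 = 1 := by
    have := σ.det_coe
    rw [Matrix.det_fin_two] at this
    exact this
  have him : (den σ w).im = (σ 1 0 : ℝ) * w.im := by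
    simp [den]
  have hre : (den σ w).re = (σ 1 0 : ℝ) * w.re + (σ 1 1 : ℝ) := by
    simp [den]
  rw [h] at him hre
  have hw' : 0 < w.im := hw
  have h10 : (σ 1 0 : ℝ) = 0 := by
    simp only [Complex.zero_im] at him
    rcases mul_eq_zero.1 him.symm with h1 | h1
    · exact h1
    · exact absurd h1 hw'.ne'
  have h11 : (σ 1 1 : ℝ) = 0 := by
    rw [h10] at hre
    simpa using hre.symm
  have e1 : σ 1 0 = 0 := by exact_mod_cast h10
  have e2 : σ 1 1 = 0 := by exact_mod_cast h11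
  rw [e1, e2] at hdet
  simp at hdet

lemma mob_analyticAt (σ : SL(2, ℤ)) {w : ℂ} (hw : w ∈ Hp) : AnalyticAt ℂ (mob σ) w := by
  have h := den_ne_zero σ hw
  have : AnalyticAt ℂ (fun w => (((σ 0 0 : ℤ) : ℂ) * w + ((σ 0 1 : ℤ) : ℂ)) / den σ w) w := by
    apply AnalyticAt.div
    · fun_prop
    · unfold den; fun_prop
    · exact h
  exact this

lemma hasDerivAt_mob (σ : SL(2, ℤ)) {w : ℂ} (hw : w ∈ Hp) :
    HasDerivAt (mob σ) (1 / den σ w ^ 2) w := by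
  have h := den_ne_zero σ hw
  have h1 : HasDerivAt (fun w : ℂ => ((σ 0 0 : ℤ) : ℂ) * w + ((σ 0 1 : ℤ) : ℂ))
      ((σ 0 0 : ℤ) : ℂ) w := by
    simpa using ((hasDerivAt_id w).const_mul ((σ 0 0 : ℤ) : ℂ)).add_const ((σ 0 1 : ℤ) : ℂ)
  have h2' : HasDerivAt (fun w : ℂ => ((σ 1 0 : ℤ) : ℂ) * w + ((σ 1 1 : ℤ) : ℂ))
      ((σ 1 0 : ℤ) : ℂ) w := by
    simpa using ((hasDerivAt_id w).const_mul ((σ 1 0 : ℤ) : ℂ)).add_const ((σ 1 1 : ℤ) : ℂ)
  have h2 : HasDerivAt (den σ) ((σ 1 0 : ℤ) : ℂ) w := h2'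
  have h3 := h1.div h2 h
  have hdet : σ 0 0 * σ 1 1 - σ 0 1 * σ 1 0 = 1 := by
    have := σ.det_coe
    rw [Matrix.det_fin_two] at this
    exact this
  have hdet' : ((σ 0 0 : ℤ) : ℂ) * ((σ 1 1 : ℤ) : ℂ) - ((σ 0 1 : ℤ) : ℂ) * ((σ 1 0 : ℤ) : ℂ) = 1 := by
    exact_mod_cast hdet
  have e : (((σ 0 0 : ℤ) : ℂ) * den σ w - (((σ 0 0 : ℤ) : ℂ) * w + ((σ 0 1 : ℤ) : ℂ))
      * ((σ 1 0 : ℤ) : ℂ)) / den σ w ^ 2 = 1 / den σ w ^ 2 := by
    congr 1
    unfold den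
    linear_combination hdet'
  rw [e] at h3
  exact h3

lemma mob_tendsto (σ : SL(2, ℤ)) {w : ℂ} (hw : w ∈ Hp) :
    Tendsto (mob σ) (𝓝[≠] w) (𝓝[≠] (mob σ w)) := by
  apply (hasDerivAt_mob σ hw).tendsto_nhdsNE
  exact one_div_ne_zero (pow_ne_zero 2 (den_ne_zero σ hw))

lemma mob_deriv_ne (σ : SL(2, ℤ)) {w : ℂ} (hw : w ∈ Hp) : deriv (mob σ) w ≠ 0 := by
  rw [(hasDerivAt_mob σ hw).deriv]
  exact one_div_ne_zero (pow_ne_zero 2 (den_ne_zero σ hw))

lemma eventually_Hp {z : ℂ} (hz : z ∈ Hp) : ∀ᶠ w in 𝓝[≠] z, w ∈ Hp :=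
  (isOpen_Hp.mem_nhds hz |> mem_nhdsWithin_of_mem_nhds)

/-- The abstract equivariant family. -/
structure Fam (I : Type) [MulAction SL(2, ℤ) I] (n : ℕ) (F G : I → ℂ → ℂ) : Prop where
  mF : ∀ i, MeromorphicOn (F i) Hp
  mG : ∀ i, MeromorphicOn (G i) Hp
  rel : ∀ i, ∀ z ∈ Hp, ∀ᶠ w in 𝓝[≠] z, F i w ^ n + G i w ^ n = 1
  eqF : ∀ (σ : SL(2, ℤ)) (i : I), ∀ z ∈ Hp, ∀ᶠ w in 𝓝[≠] z, F i (mob σ w) = F (σ⁻¹ • i) w
  eqG : ∀ (σ : SL(2, ℤ)) (i : I), ∀ z ∈ Hp, ∀ᶠ w in 𝓝[≠] z, G i (mob σ w) = G (σ⁻¹ • i) w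
  nc : ∀ i, ∀ z ∈ Hp, ∀ a, ¬ ∀ᶠ w in 𝓝[≠] z, F i w = a
  cusp : ∀ i, ∃ (N : ℕ) (X Y : ℂ → ℂ) (A : ℝ), 0 < N ∧ MeromorphicAt X 0 ∧ MeromorphicAt Y 0 ∧
    ∀ z ∈ Hp, A < z.im → (∀ᶠ w in 𝓝[≠] z, F i w = X (Function.Periodic.qParam N w)) ∧
      (∀ᶠ w in 𝓝[≠] z, G i w = Y (Function.Periodic.qParam N w))

section fam

variable {I : Type} [MulAction SL(2, ℤ) I] {n : ℕ} {F G : I → ℂ → ℂ}

lemma Fam.form_mero (h : Fam I n F G) (α : ℂ) (i : I) :
    MeromorphicOn (germForm n α (F i) (G i)) Hp :=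
  fun z hz => germForm_meromorphicAt α (h.mF i z hz) (h.mG i z hz)

/-- the forms -/
noncomputable def Om (n : ℕ) (α : ℂ) (F G : I → ℂ → ℂ) (i : I) : ℂ → ℂ :=
  toMeromorphicNFOn (germForm n α (F i) (G i)) Hp

lemma Fam.Om_analyticAt (h : Fam I n F G) (hn : 4 ≤ n) (α : ℂ) (i : I) {z : ℂ} (hz : z ∈ Hp) :
    AnalyticAt ℂ (Om n α F G i) z := by
  refine ((meromorphicNFOn_toMeromorphicNFOn (germForm n α (F i) (G i)) Hp
    hz).meromorphicOrderAt_nonneg_iff_analyticAt).1 ?_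
  rw [meromorphicOrderAt_toMeromorphicNFOn (h.form_mero α i) hz]
  exact (germ_main hn α (h.mF i z hz) (h.mG i z hz) (h.rel i z hz) (h.nc i z hz)).1

lemma Fam.Om_eq (h : Fam I n F G) (α : ℂ) (i : I) {z : ℂ} (hz : z ∈ Hp) :
    Om n α F G i =ᶠ[𝓝[≠] z] germForm n α (F i) (G i) :=
  (h.form_mero α i).toMeromorphicNFOn_eq_self_on_nhdsNE hz

lemma Fam.Om_ne (h : Fam I n F G) (hn : 4 ≤ n) (α : ℂ) (i : I) :
    ∃ z : ℂ, 0 < z.im ∧ Om n α F G i z ≠ 0 := by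
  have hI : Complex.I ∈ Hp := by simp [Hp]
  have h1 := (germ_main hn α (h.mF i _ hI) (h.mG i _ hI) (h.rel i _ hI) (h.nc i _ hI)).2.1
  rw [meromorphicOrderAt_ne_top_iff_eventually_ne_zero (h.form_mero α i _ hI)] at h1
  have h2 : ∀ᶠ w in 𝓝[≠] Complex.I, w ∈ Hp ∧ Om n α F G i w ≠ 0 := by
    filter_upwards [h1, h.Om_eq α i hI, eventually_Hp hI] with w hw1 hw2 hw3
    exact ⟨hw3, by rw [hw2]; exact hw1⟩
  obtain ⟨z, hz⟩ := h2.exists
  exact ⟨z, hz.1, hz.2⟩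

lemma Fam.Om_equiv (h : Fam I n F G) (hn : 4 ≤ n) (α : ℂ) (σ : SL(2, ℤ)) (i : I) {z : ℂ}
    (hz : z ∈ Hp) :
    Om n α F G i (mob σ z) = den σ z ^ 2 * Om n α F G (σ⁻¹ • i) z := by
  have hz' := mob_mem σ hz
  have h1 : Tendsto (fun w => Om n α F G i (mob σ w)) (𝓝[≠] z) (𝓝 (Om n α F G i (mob σ z))) := by
    have hc : ContinuousAt (Om n α F G i) (mob σ z) := (h.Om_analyticAt hn α i hz').continuousAt
    exact hc.tendsto.comp ((mob_tendsto σ hz).mono_right nhdsWithin_le_nhds)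
  have h2 : Tendsto (fun w => den σ w ^ 2 * Om n α F G (σ⁻¹ • i) w) (𝓝[≠] z)
      (𝓝 (den σ z ^ 2 * Om n α F G (σ⁻¹ • i) z)) := by
    have hc : ContinuousAt (fun w => den σ w ^ 2 * Om n α F G (σ⁻¹ • i) w) z := by
      apply ContinuousAt.mul
      · unfold den; fun_prop
      · exact (h.Om_analyticAt hn α _ hz).continuousAt
    exact hc.tendsto.mono_left nhdsWithin_le_nhds
  refine tendsto_nhds_unique_of_eventuallyEq h1 h2 ?_
  -- eventual equality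
  have hF : (F i ∘ mob σ) =ᶠ[𝓝[≠] z] F (σ⁻¹ • i) := h.eqF σ i z hz
  have hFd := hF.nhdsNE_deriv
  have hana : ∀ᶠ w in 𝓝[≠] z, AnalyticAt ℂ (F i) (mob σ w) :=
    (mob_tendsto σ hz).eventually ((h.mF i _ hz').eventually_analyticAt)
  have hOm1 : ∀ᶠ w in 𝓝[≠] z, Om n α F G i (mob σ w) = germForm n α (F i) (G i) (mob σ w) :=
    (mob_tendsto σ hz).eventually (h.Om_eq α i hz')
  filter_upwards [h.eqF σ i z hz, h.eqG σ i z hz, hFd, hana, hOm1, h.Om_eq α (σ⁻¹ • i) hz,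
    eventually_Hp hz] with w h1 h2 h3 h4 h5 h6 h7
  rw [h5, h6]
  unfold germForm
  have hd : deriv (F i ∘ mob σ) w = deriv (F i) (mob σ w) * (1 / den σ w ^ 2) := by
    have := (h4.differentiableAt.hasDerivAt).comp w (hasDerivAt_mob σ h7)
    exact this.deriv
  rw [hd] at h3
  have hden := den_ne_zero σ h7
  have h8 : deriv (F i) (mob σ w) = den σ w ^ 2 * deriv (F (σ⁻¹ • i)) w := by
    rw [← h3]
    field_simp
  rw [h1, h2, h8]
  ring

lemma qParam_tendsto_eventually {N : ℕ} (hN : 0 < N) {p : ℂ → Prop} (hp : ∀ᶠ q in 𝓝[≠] (0 : ℂ), p q) :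
    ∃ B : ℝ, ∀ w : ℂ, B ≤ w.im → p (Function.Periodic.qParam N w) := by
  have h1 := (Function.Periodic.qParam_tendsto (h := (N : ℝ)) (by exact_mod_cast hN)).eventually hp
  rw [eventually_comap] at h1
  rw [eventually_atTop] at h1
  obtain ⟨B, hB⟩ := h1
  exact ⟨B, fun w hw => hB w.im hw w rfl⟩

lemma hasDerivAt_qParam (N : ℕ) (w : ℂ) :
    HasDerivAt (Function.Periodic.qParam (N : ℝ))
      (Function.Periodic.qParam (N : ℝ) w * (2 * Real.pi * Complex.I / N)) w := by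
  unfold Function.Periodic.qParam
  have h1 : HasDerivAt (fun z : ℂ => 2 * Real.pi * Complex.I * z / (N : ℝ))
      (2 * Real.pi * Complex.I / N) w := by
    have := ((hasDerivAt_id w).const_mul (2 * Real.pi * Complex.I)).div_const ((N : ℝ) : ℂ)
    simpa using this
  exact h1.cexp

lemma qParam_tendsto_punctured {N : ℕ} (hN : 0 < N) (z : ℂ) :
    Tendsto (Function.Periodic.qParam (N : ℝ)) (𝓝[≠] z)
      (𝓝[≠] (Function.Periodic.qParam (N : ℝ) z)) := by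
  apply (hasDerivAt_qParam N z).tendsto_nhdsNE
  have h1 := Function.Periodic.qParam_ne_zero (h := (N : ℝ)) z
  have h2 : (N : ℂ) ≠ 0 := by exact_mod_cast hN.ne'
  have h3 : (Real.pi : ℂ) ≠ 0 := by exact_mod_cast Real.pi_ne_zero
  have h4 := Complex.I_ne_zero
  simp [h1, h2, h3, h4]

lemma Fam.Om_bdd (h : Fam I n F G) (hn : 4 ≤ n) (α : ℂ) (i : I) :
    ∃ B Y : ℝ, ∀ z : ℂ, Y ≤ z.im → ‖Om n α F G i z‖ ≤ B := by
  obtain ⟨N, X, Y, A, hN, hX, hY, hXY⟩ := h.cusp i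
  -- a point high up
  -- (1) the relation near 0
  have hrel : ∀ᶠ q in 𝓝[≠] (0 : ℂ), X q ^ n + Y q ^ n = 1 := by
    have hE : MeromorphicAt (fun q => X q ^ n + Y q ^ n - 1) 0 := by fun_prop
    rcases hE.eventually_eq_zero_or_eventually_ne_zero with h0 | h0
    · exact h0.mono fun q hq => by linear_combination hq
    · exfalso
      obtain ⟨B, hB⟩ := qParam_tendsto_eventually hN h0
      let z : ℂ := ⟨0, max (max A B) 0 + 1⟩
      have hz1 : A < z.im := by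
        show A < max (max A B) 0 + 1
        have := le_max_left (max A B) 0
        have := le_max_left A B
        linarith
      have hz2 : B < z.im := by
        show B < max (max A B) 0 + 1
        have := le_max_left (max A B) 0
        have := le_max_right A B
        linarith
      have hz3 : z ∈ Hp := by
        show 0 < max (max A B) 0 + 1
        have := le_max_right (max A B) 0
        linarith
      have hev : ∀ᶠ w in 𝓝[≠] z, B < w.im :=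
        mem_nhdsWithin_of_mem_nhds ((isOpen_lt continuous_const Complex.continuous_im).mem_nhds hz2)
      obtain ⟨hF, hG⟩ := hXY z hz3 hz1
      obtain ⟨w, hw1, hw2, hw3, hw4⟩ := (((hF.and hG).and (h.rel i z hz3)).and hev).exists.imp
        (fun w hw => (⟨hw.1.1.1, hw.1.1.2, hw.1.2, hw.2⟩ : _ ∧ _ ∧ _ ∧ _))
      apply hB w hw4.le
      rw [← hw1, ← hw2, hw3, sub_self]
  -- (2) X nonconstant near 0
  have hnc : ∀ a, ¬ ∀ᶠ q in 𝓝[≠] (0 : ℂ), X q = a := by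
    intro a ha
    obtain ⟨B, hB⟩ := qParam_tendsto_eventually hN ha
    let z : ℂ := ⟨0, max (max A B) 0 + 1⟩
    have hz1 : A < z.im := by
      show A < max (max A B) 0 + 1
      have := le_max_left (max A B) 0
      have := le_max_left A B
      linarith
    have hz2 : B < z.im := by
      show B < max (max A B) 0 + 1
      have := le_max_left (max A B) 0
      have := le_max_right A B
      linarith
    have hz3 : z ∈ Hp := by
      show 0 < max (max A B) 0 + 1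
      have := le_max_right (max A B) 0
      linarith
    have hev : ∀ᶠ w in 𝓝[≠] z, B < w.im :=
      mem_nhdsWithin_of_mem_nhds ((isOpen_lt continuous_const Complex.continuous_im).mem_nhds hz2)
    obtain ⟨hF, hG⟩ := hXY z hz3 hz1
    apply h.nc i z hz3 a
    filter_upwards [hF, hev] with w hw1 hw2
    rw [hw1]
    exact hB w hw2.le
  -- boundedness of the form near 0
  have hmain := germ_main hn α hX hY hrel hnc
  obtain ⟨c, hc⟩ := tendsto_nhds_of_meromorphicOrderAt_nonneg (germForm_meromorphicAt α hX hY) hmain.1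
  have hbd : ∀ᶠ q in 𝓝[≠] (0 : ℂ), ‖germForm n α X Y q‖ ≤ ‖c‖ + 1 := by
    have := hc.norm.eventually (Iic_mem_nhds (show ‖c‖ < ‖c‖ + 1 by linarith))
    exact this
  have hsmall : ∀ᶠ q in 𝓝[≠] (0 : ℂ), ‖q‖ ≤ 1 := by
    apply mem_nhdsWithin_of_mem_nhds
    have : {q : ℂ | ‖q‖ ≤ 1} = Metric.closedBall 0 1 := by ext q; simp
    rw [this]
    exact Metric.closedBall_mem_nhds _ one_pos
  obtain ⟨B, hB⟩ := qParam_tendsto_eventually hN (hbd.and (hsmall.and hX.eventually_analyticAt))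
  refine ⟨(‖c‖ + 1) * ‖(2 * Real.pi * Complex.I / N : ℂ)‖, max (max A B) 0 + 1, fun z hz => ?_⟩
  have hz1 : A < z.im := by
    have := le_max_left (max A B) 0
    have := le_max_left A B
    linarith
  have hz2 : B < z.im := by
    have := le_max_left (max A B) 0
    have := le_max_right A B
    linarith
  have hz3 : z ∈ Hp := by
    show 0 < z.im
    have := le_max_right (max A B) 0
    linarith
  have hev : ∀ᶠ w in 𝓝[≠] z, B < w.im :=
    mem_nhdsWithin_of_mem_nhds ((isOpen_lt continuous_const Complex.continuous_im).mem_nhds hz2)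
  obtain ⟨hF, hG⟩ := hXY z hz3 hz1
  have hFd := (show F i =ᶠ[𝓝[≠] z] (X ∘ Function.Periodic.qParam N) from hF).nhdsNE_deriv
  have hct : Tendsto (fun w => ‖Om n α F G i w‖) (𝓝[≠] z) (𝓝 ‖Om n α F G i z‖) :=
    ((h.Om_analyticAt hn α i hz3).continuousAt.tendsto.mono_left nhdsWithin_le_nhds).norm
  refine le_of_tendsto hct ?_
  filter_upwards [hF, hG, hFd, h.Om_eq α i hz3, hev] with w h1 h2 h3 h4 h5
  obtain ⟨hb1, hb2, hb3⟩ := hB w h5.le
  have hd : deriv (X ∘ Function.Periodic.qParam N) w =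
      deriv X (Function.Periodic.qParam N w) *
        (Function.Periodic.qParam (N : ℝ) w * (2 * Real.pi * Complex.I / N)) := by
    have := (hb3.differentiableAt.hasDerivAt).comp w (hasDerivAt_qParam N w)
    exact this.deriv
  have e : Om n α F G i w = germForm n α X Y (Function.Periodic.qParam N w) *
      (Function.Periodic.qParam (N : ℝ) w * (2 * Real.pi * Complex.I / N)) := by
    rw [h4]
    unfold germForm
    rw [h1, h2, h3, hd]
    ring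
  rw [e, norm_mul, norm_mul]
  have hq : ‖Function.Periodic.qParam (N : ℝ) w‖ * ‖(2 * Real.pi * Complex.I / N : ℂ)‖ ≤
      1 * ‖(2 * Real.pi * Complex.I / N : ℂ)‖ := by
    apply mul_le_mul_of_nonneg_right hb2 (norm_nonneg _)
  calc ‖germForm n α X Y (Function.Periodic.qParam (N : ℝ) w)‖ *
        (‖Function.Periodic.qParam (N : ℝ) w‖ * ‖(2 * Real.pi * Complex.I / N : ℂ)‖)
      ≤ (‖c‖ + 1) * (1 * ‖(2 * Real.pi * Complex.I / N : ℂ)‖) := by
        apply mul_le_mul hb1 hq (by positivity) (by positivity)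
    _ = _ := by rw [one_mul]

/-- countability of complements of codiscrete sets -/
lemma countable_of_codiscreteWithin {U s : Set ℂ} (hs : s ∈ codiscreteWithin U) :
    (sᶜ ∩ U).Countable := by
  have h1 : (sᶜ)ᶜ ∈ codiscreteWithin U := by rwa [compl_compl]
  exact (HereditarilyLindelofSpace.isLindelof _).countable_of_isDiscrete
    (isDiscrete_of_codiscreteWithin h1)

/-- the functions -/
noncomputable def xN (F : I → ℂ → ℂ) (i : I) : ℂ → ℂ := toMeromorphicNFOn (F i) Hp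

/-- the poles -/
def PN (F : I → ℂ → ℂ) (i : I) : Set ℂ := {z : ℂ | z ∈ Hp ∧ ¬ AnalyticAt ℂ (xN F i) z}

lemma Fam.xN_nf (_h : Fam I n F G) (i : I) : MeromorphicNFOn (xN F i) Hp :=
  meromorphicNFOn_toMeromorphicNFOn _ _

lemma Fam.xN_eq (h : Fam I n F G) (i : I) {z : ℂ} (hz : z ∈ Hp) : xN F i =ᶠ[𝓝[≠] z] F i :=
  (h.mF i).toMeromorphicNFOn_eq_self_on_nhdsNE hz

lemma Fam.PN_countable (h : Fam I n F G) (i : I) : (PN F i).Countable := by
  have := (h.xN_nf i).meromorphicOn.countable_compl_analyticAt_inter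
  refine this.mono ?_
  rintro z ⟨hz1, hz2⟩
  exact ⟨hz2, hz1⟩

omit [MulAction SL(2, ℤ) I] in
lemma diff_PN_eq (F : I → ℂ → ℂ) (i : I) :
    {z : ℂ | 0 < z.im} \ PN F i = Hp ∩ {z | AnalyticAt ℂ (xN F i) z} := by
  ext z
  constructor
  · rintro ⟨hz1, hz2⟩
    refine ⟨hz1, ?_⟩
    by_contra hcon
    exact hz2 ⟨hz1, hcon⟩
  · rintro ⟨hz1, hz2⟩
    exact ⟨hz1, fun hcon => hcon.2 hz2⟩

lemma Fam.xN_equiv (h : Fam I n F G) (σ : SL(2, ℤ)) (i : I) {z : ℂ} (hz : z ∈ Hp) :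
    xN F i (mob σ z) = xN F (σ⁻¹ • i) z := by
  have hz' := mob_mem σ hz
  have h1 : MeromorphicNFAt (xN F i ∘ mob σ) z :=
    (meromorphicNFAt_comp_iff_of_deriv_ne_zero (mob_analyticAt σ hz) (mob_deriv_ne σ hz)).2
      (h.xN_nf i hz')
  have h2 : MeromorphicNFAt (xN F (σ⁻¹ • i)) z := h.xN_nf _ hz
  have h3 : (xN F i ∘ mob σ) =ᶠ[𝓝[≠] z] xN F (σ⁻¹ • i) := by
    have h4 : ∀ᶠ w in 𝓝[≠] z, xN F i (mob σ w) = F i (mob σ w) :=
      (mob_tendsto σ hz).eventually (h.xN_eq i hz')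
    filter_upwards [h4, h.eqF σ i z hz, h.xN_eq (σ⁻¹ • i) hz] with w h5 h6 h7
    simp only [Function.comp_apply]
    rw [h5, h6, h7]
  have h5 := (h1.eventuallyEq_nhdsNE_iff_eventuallyEq_nhds h2).1 h3
  exact h5.eq_of_nhds

lemma Fam.fibre_countable (h : Fam I n F G) (i : I) (α : ℂ) :
    {z : ℂ | 0 < z.im ∧ z ∉ PN F i ∧ xN F i z = α}.Countable := by
  have hm : MeromorphicOn (fun z => F i z - α) Hp := fun z hz =>
    (h.mF i z hz).sub (MeromorphicAt.const α z)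
  have h1 : ∀ᶠ z in codiscreteWithin Hp, F i z - α ≠ 0 := by
    apply hm.eventually_codiscreteWithin_apply_ne_zero
    intro z hz htop
    rw [meromorphicOrderAt_eq_top_iff] at htop
    exact h.nc i z hz α (htop.mono fun w hw => sub_eq_zero.1 hw)
  have h2 : F i =ᶠ[codiscreteWithin Hp] xN F i := toMeromorphicNFOn_eqOn_codiscrete (h.mF i)
  have h3 : ∀ᶠ z in codiscreteWithin Hp, xN F i z ≠ α := by
    filter_upwards [h1, h2] with z hz1 hz2
    rw [← hz2]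
    exact fun hcon => hz1 (sub_eq_zero.2 hcon)
  refine (countable_of_codiscreteWithin h3).mono ?_
  rintro z ⟨hz1, -, hz3⟩
  exact ⟨fun hcon => hcon hz3, hz1⟩

lemma Fam.order_ge (h : Fam I n F G) (hn : 4 ≤ n) (α : ℂ) (hα : α ^ n ≠ 1) (i : I) {z : ℂ}
    (hz : 0 < z.im) (hzP : z ∉ PN F i) (hx : xN F i z = α) :
    (((n - 3 : ℕ)) : ℕ∞) ≤ analyticOrderAt (Om n α F G i) z := by
  have hz' : z ∈ Hp := hz
  have hana : AnalyticAt ℂ (xN F i) z := by
    by_contra hcon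
    exact hzP ⟨hz', hcon⟩
  have ht : Tendsto (F i) (𝓝[≠] z) (𝓝 α) := by
    have h1 : Tendsto (xN F i) (𝓝[≠] z) (𝓝 (xN F i z)) :=
      hana.continuousAt.tendsto.mono_left nhdsWithin_le_nhds
    rw [hx] at h1
    exact h1.congr' (h.xN_eq i hz')
  have h1 := (germ_main hn α (h.mF i z hz') (h.mG i z hz') (h.rel i z hz') (h.nc i z hz')).2.2 ht hα
  rw [← meromorphicOrderAt_toMeromorphicNFOn (h.form_mero α i) hz'] at h1
  have h2 : meromorphicOrderAt (Om n α F G i) z = _ :=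
    (h.Om_analyticAt hn α i hz').meromorphicOrderAt_eq
  change _ ≤ meromorphicOrderAt (Om n α F G i) z at h1
  rw [h2] at h1
  cases hk : analyticOrderAt (Om n α F G i) z with
  | top => exact le_top
  | coe k =>
    rw [hk] at h1
    have h3 : ((n - 3 : ℕ) : ℤ) ≤ (k : ℤ) := by
      rw [ENat.map_natCast] at h1
      exact_mod_cast h1
    exact_mod_cast h3

/-- conclusion for an abstract family -/
theorem Fam.conclusion (h : Fam I n F G) (hn : 4 ≤ n) :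
    ∃ (xI : I → ℂ → ℂ) (P : I → Set ℂ),
      (∀ i, (P i).Countable) ∧ (∀ i, IsOpen ({z : ℂ | 0 < z.im} \ P i)) ∧
      (∀ i, DifferentiableOn ℂ (xI i) ({z : ℂ | 0 < z.im} \ P i)) ∧
      (∀ (σ : SL(2, ℤ)) (i : I) (z : ℍ),
        xI i ((σ • z : ℍ) : ℂ) = xI (σ⁻¹ • i) (z : ℂ)) ∧
      (∀ i (α : ℂ), {z : ℂ | 0 < z.im ∧ z ∉ P i ∧ xI i z = α}.Countable) ∧
      (∀ α : ℂ, α ^ n ≠ 1 → ∃ Ω : I → ℂ → ℂ,
        (∀ i, DifferentiableOn ℂ (Ω i) {z | 0 < z.im}) ∧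
        (∀ i, ∃ z : ℂ, 0 < z.im ∧ Ω i z ≠ 0) ∧
        (∀ i, ∃ B Y : ℝ, ∀ z : ℂ, Y ≤ z.im → ‖Ω i z‖ ≤ B) ∧
        (∀ (σ : SL(2, ℤ)) (i : I) (z : ℍ),
          ‖Ω i ((σ • z : ℍ) : ℂ)‖ =
            ‖((σ 1 0 : ℤ) : ℂ) * z + ((σ 1 1 : ℤ) : ℂ)‖ ^ 2 * ‖Ω (σ⁻¹ • i) (z : ℂ)‖) ∧
        (∀ i (z : ℂ), 0 < z.im → z ∉ P i → xI i z = α →
          (((n - 3 : ℕ)) : ℕ∞) ≤ analyticOrderAt (Ω i) z)) := by
  refine ⟨xN F, PN F, h.PN_countable, ?_, ?_, ?_, h.fibre_countable, ?_⟩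
  · intro i
    rw [diff_PN_eq]
    exact isOpen_Hp.inter (isOpen_analyticAt ℂ _)
  · intro i
    rw [diff_PN_eq]
    intro z hz
    exact hz.2.differentiableAt.differentiableWithinAt
  · intro σ i z
    rw [← mob_coe]
    exact h.xN_equiv σ i z.im_pos
  · intro α hα
    refine ⟨Om n α F G, ?_, h.Om_ne hn α, h.Om_bdd hn α, ?_, ?_⟩
    · intro i z hz
      exact (h.Om_analyticAt hn α i hz).differentiableAt.differentiableWithinAt
    · intro σ i z
      rw [← mob_coe, h.Om_equiv hn α σ i (show (z : ℂ) ∈ Hp from z.im_pos), norm_mul, norm_pow]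
      rfl
    · intro i z hz hzP hx
      exact h.order_ge hn α hα i hz hzP hx

end fam

end H80.Gon
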