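import Pool.Agent.H80.Gon.M14b

/-!
M14: the length-area (two point) inequality.
-/

open MeasureTheory Set Filter Topology
open scoped ENNReal

namespace H80.Gon

/-- the energy constant -/
noncomputable def Cu : ℝ≥0∞ := ∫⁻ b : ℂ, ENNReal.ofReal (4 * (1 + ‖b‖ ^ 2) ^ (-(6:ℝ) / 2))

lemma Cu_lt_top : Cu < ⊤ := by
  have h1 : Integrable (fun b : ℂ => 4 * ((1 : ℝ) + ‖b‖ ^ 2) ^ (-(6:ℝ) / 2)) volume := by
    refine (integrable_rpow_neg_one_add_norm_sq (E := ℂ) (μ := volume) (r := 6) ?_).const_mul 4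
    rw [Complex.finrank_real_complex]; norm_num
  have h2 := h1.lintegral_lt_top
  exact h2

lemma measurable_gu (x₀ : ℂ) {r : ℝ} (hr : 0 < r) : Measurable (gu x₀ r) :=
  (continuous_gu x₀ hr).measurable

lemma energy_le (x₀ : ℂ) {r : ℝ} (hr : 0 < r) :
    ∫⁻ a, ENNReal.ofReal (gu x₀ r a ^ 2) ≤ Cu := by
  have h1 := lintegral_affine (fun a => ENNReal.ofReal (gu x₀ r a ^ 2)) x₀ hr.ne'
  have h2 : ∫⁻ a, ENNReal.ofReal (gu x₀ r a ^ 2) =
      ENNReal.ofReal (r ^ 2) * ∫⁻ b, ENNReal.ofReal (gu x₀ r (x₀ + r • b) ^ 2) := by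
    rw [h1, ← mul_assoc, ← ENNReal.ofReal_mul (by positivity),
      mul_inv_cancel₀ (by positivity), ENNReal.ofReal_one, one_mul]
  rw [h2, ← lintegral_const_mul' _ _ ENNReal.ofReal_ne_top]
  unfold Cu
  refine lintegral_mono fun b => ?_
  rw [← ENNReal.ofReal_mul (by positivity)]
  apply ENNReal.ofReal_le_ofReal
  unfold gu
  have h3 : ‖x₀ + r • b - x₀‖ = r * ‖b‖ := by
    rw [add_sub_cancel_left, norm_smul, Real.norm_eq_abs, abs_of_pos hr]
  rw [h3]
  have h4 : (1 + ‖b‖ ^ 2) ^ (-(6:ℝ) / 2) = ((1 + ‖b‖ ^ 2) ^ 3)⁻¹ := by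
    rw [show (-(6:ℝ) / 2) = -((3:ℕ) : ℝ) by norm_num, Real.rpow_neg (by positivity),
      Real.rpow_natCast]
  rw [h4]
  have h5 : r ^ 2 * (2 * r ^ 2 * (r * ‖b‖) / (r ^ 2 + (r * ‖b‖) ^ 2) ^ 2) ^ 2
      = 4 * ‖b‖ ^ 2 / (1 + ‖b‖ ^ 2) ^ 4 := by
    have : r ^ 2 + (r * ‖b‖) ^ 2 = r ^ 2 * (1 + ‖b‖ ^ 2) := by ring
    rw [this]
    field_simp
    ring
  rw [h5, div_le_iff₀ (by positivity)]
  have h6 : 4 * ((1 + ‖b‖ ^ 2) ^ 3)⁻¹ * (1 + ‖b‖ ^ 2) ^ 4 = 4 * (1 + ‖b‖ ^ 2) := by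
    field_simp
  rw [h6]
  nlinarith [sq_nonneg ‖b‖]

/-- For `z ∉ P` almost every segment from `z` avoids the countable set `P`. -/
lemma ae_segment_avoids (P : Set ℂ) (hP : P.Countable) (z : ℂ) (hz : z ∉ P) :
    ∀ᵐ w ∂(volume : Measure ℂ), ∀ t ∈ Icc (0:ℝ) 1, z + t • (w - z) ∉ P := by
  have h1 : ∀ p : ℂ, volume ((fun w : ℂ => w - z) ⁻¹' (Submodule.span ℝ {p} : Set ℂ)) = 0 := by
    intro p
    have h2 : (volume : Measure ℂ) (Submodule.span ℝ {p} : Set ℂ) = 0 := by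
      apply Measure.addHaar_submodule
      intro h
      have h3 : Module.finrank ℝ (Submodule.span ℝ {p} : Submodule ℝ ℂ) ≤ 1 := by
        exact finrank_span_le_card ({p} : Set ℂ) |>.trans (by simp)
      rw [h, finrank_top, Complex.finrank_real_complex] at h3
      omega
    have h4 : (fun w : ℂ => w - z) ⁻¹' (Submodule.span ℝ {p} : Set ℂ)
        = (fun w : ℂ => w + (-z)) ⁻¹' (Submodule.span ℝ {p} : Set ℂ) := by
      ext w; simp [sub_eq_add_neg]
    rw [h4, measure_preimage_add_right, h2]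
  have h2 : volume (⋃ p ∈ P, (fun w : ℂ => w - z) ⁻¹' (Submodule.span ℝ {p - z} : Set ℂ)) = 0 :=
    (measure_biUnion_null_iff hP).2 fun p _ => h1 (p - z)
  have h3 := measure_eq_zero_iff_ae_notMem.1 h2
  filter_upwards [h3] with w hw t ht hmem
  apply hw
  refine mem_iUnion₂.2 ⟨z + t • (w - z), hmem, ?_⟩
  simp only [mem_preimage, SetLike.mem_coe, add_sub_cancel_left]
  have ht0 : t ≠ 0 := by
    rintro rfl
    apply hz
    simpa using hmem
  have : w - z = t⁻¹ • (t • (w - z)) := by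
    rw [smul_smul, inv_mul_cancel₀ ht0, one_smul]
  rw [Submodule.mem_span_singleton]
  exact ⟨t⁻¹, this.symm⟩

lemma convex_boxK : Convex ℝ boxK := by
  intro z hz w hw a b ha hb hab
  obtain ⟨z1, z2, z3, z4⟩ := hz
  obtain ⟨w1, w2, w3, w4⟩ := hw
  refine ⟨?_, ?_, ?_, ?_⟩ <;> simp <;> nlinarith

lemma seg_mem {z w : ℂ} (hz : z ∈ boxK) (hw : w ∈ boxK) {t : ℝ} (ht : t ∈ Icc (0:ℝ) 1) :
    z + t • (w - z) ∈ boxK := by
  have := convex_boxK hz hw (a := 1 - t) (b := t) (by linarith [ht.2]) ht.1 (by ring)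
  have h : z + t • (w - z) = (1 - t) • z + t • w := by
    rw [smul_sub, sub_smul, one_smul]; ring
  rwa [h]

lemma norm_sub_sq_le {z w : ℂ} (hz : z ∈ boxK) (hw : w ∈ boxK) : ‖w - z‖ ^ 2 ≤ 3 := by
  obtain ⟨z1, z2, z3, z4⟩ := hz
  obtain ⟨w1, w2, w3, w4⟩ := hw
  rw [← Complex.normSq_eq_norm_sq, Complex.normSq_apply, Complex.sub_re, Complex.sub_im]
  have h1 : |w.re - z.re| ≤ 3/2 := by rw [abs_le]; constructor <;> linarith
  have h2 : |w.im - z.im| ≤ 1/4 := by rw [abs_le]; constructor <;> linarith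
  have h3 := sq_le_sq' (by linarith [abs_nonneg (w.re - z.re)]) h1
  have h4 := sq_le_sq' (by linarith [abs_nonneg (w.im - z.im)]) h2
  rw [sq_abs] at h3 h4
  nlinarith

lemma volume_boxK_lt_top : volume boxK < ⊤ := by
  have hb : Bornology.IsBounded boxK := by
    rw [Metric.isBounded_iff]
    refine ⟨2, fun z hz w hw => ?_⟩
    have := norm_sub_sq_le hw hz
    rw [dist_eq_norm]
    nlinarith [norm_nonneg (z - w)]
  exact hb.measure_lt_top

/-- averaging over segments -/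
lemma segment_average (F : ℂ → ℝ≥0∞) (hF : Measurable F) :
    ∫⁻ z in boxK, ∫⁻ w in boxK, ∫⁻ t in Icc (0:ℝ) 1, F (z + t • (w - z)) ≤
      4 * volume boxK * ∫⁻ v, F v := by
  have hm : Measurable (fun q : (ℂ × ℂ) × ℝ => F (q.1.1 + q.2 • (q.1.2 - q.1.1))) := by
    apply hF.comp
    fun_prop
  -- swap the integrals
  have h1 : ∫⁻ z in boxK, ∫⁻ w in boxK, ∫⁻ t in Icc (0:ℝ) 1, F (z + t • (w - z)) =
      ∫⁻ t in Icc (0:ℝ) 1, ∫⁻ z in boxK, ∫⁻ w in boxK, F (z + t • (w - z)) := by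
    have e1 : ∀ z : ℂ, ∫⁻ w in boxK, ∫⁻ t in Icc (0:ℝ) 1, F (z + t • (w - z)) =
        ∫⁻ t in Icc (0:ℝ) 1, ∫⁻ w in boxK, F (z + t • (w - z)) := by
      intro z
      rw [lintegral_lintegral_swap]
      apply Measurable.aemeasurable
      exact hm.comp (((measurable_const (a := z)).prodMk measurable_fst).prodMk measurable_snd)
    simp_rw [e1]
    rw [lintegral_lintegral_swap]
    apply Measurable.aemeasurable
    have : Measurable (fun q : (ℂ × ℝ) × ℂ => F (q.1.1 + q.1.2 • (q.2 - q.1.1))) := by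
      apply hF.comp; fun_prop
    exact this.lintegral_prod_right'
  rw [h1]
  have key : ∀ s : ℝ, 1/2 ≤ s → ENNReal.ofReal ((s ^ 2)⁻¹) ≤ 4 := by
    intro s hs
    rw [show (4 : ℝ≥0∞) = ENNReal.ofReal 4 by simp]
    apply ENNReal.ofReal_le_ofReal
    rw [inv_le_comm₀ (by positivity) (by norm_num)]
    nlinarith
  have h2 : ∀ t ∈ Icc (0:ℝ) 1, ∫⁻ z in boxK, ∫⁻ w in boxK, F (z + t • (w - z)) ≤
      4 * volume boxK * ∫⁻ v, F v := by
    intro t ht
    rcases le_total (1/2) t with h | h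
    · -- integrate in w
      calc ∫⁻ z in boxK, ∫⁻ w in boxK, F (z + t • (w - z))
          ≤ ∫⁻ z in boxK, 4 * ∫⁻ v, F v := by
            refine lintegral_mono fun z => ?_
            calc ∫⁻ w in boxK, F (z + t • (w - z)) ≤ ∫⁻ w, F (z + t • (w - z)) :=
                  setLIntegral_le_lintegral _ _
              _ = ∫⁻ w, F ((z - t • z) + t • w) := by
                  refine lintegral_congr fun w => ?_
                  congr 1
                  rw [smul_sub]; ring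
              _ = ENNReal.ofReal ((t ^ 2)⁻¹) * ∫⁻ v, F v :=
                  lintegral_affine F _ (by linarith [h] : t ≠ 0)
              _ ≤ 4 * ∫⁻ v, F v := by gcongr; exact key t h
        _ = 4 * volume boxK * ∫⁻ v, F v := by
            rw [lintegral_const, Measure.restrict_apply_univ]; ring
    · -- integrate in z
      calc ∫⁻ z in boxK, ∫⁻ w in boxK, F (z + t • (w - z))
          = ∫⁻ w in boxK, ∫⁻ z in boxK, F (z + t • (w - z)) := by
            rw [lintegral_lintegral_swap]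
            apply Measurable.aemeasurable
            exact hm.comp (measurable_id.prodMk measurable_const)
        _ ≤ ∫⁻ w in boxK, 4 * ∫⁻ v, F v := by
            refine lintegral_mono fun w => ?_
            calc ∫⁻ z in boxK, F (z + t • (w - z)) ≤ ∫⁻ z, F (z + t • (w - z)) :=
                  setLIntegral_le_lintegral _ _
              _ = ∫⁻ z, F (t • w + (1 - t) • z) := by
                  refine lintegral_congr fun z => ?_
                  congr 1
                  rw [smul_sub, sub_smul, one_smul]; ring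
              _ = ENNReal.ofReal (((1 - t) ^ 2)⁻¹) * ∫⁻ v, F v :=
                  lintegral_affine F _ (by linarith [h] : (1 - t) ≠ 0)
              _ ≤ 4 * ∫⁻ v, F v := by gcongr; exact key (1 - t) (by linarith)
        _ = 4 * volume boxK * ∫⁻ v, F v := by
            rw [lintegral_const, Measure.restrict_apply_univ]; ring
  calc ∫⁻ t in Icc (0:ℝ) 1, ∫⁻ z in boxK, ∫⁻ w in boxK, F (z + t • (w - z))
      ≤ ∫⁻ t in Icc (0:ℝ) 1, 4 * volume boxK * ∫⁻ v, F v :=
        setLIntegral_mono' measurableSet_Icc h2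
    _ = 4 * volume boxK * ∫⁻ v, F v := by
        rw [lintegral_const, Measure.restrict_apply_univ, Real.volume_Icc]; simp

lemma pair_bound (x : ℂ → ℂ) (P : Set ℂ) (hP : P.Countable)
    (ho : IsOpen ({z : ℂ | 0 < z.im} \ P))
    (hx : DifferentiableOn ℂ x ({z : ℂ | 0 < z.im} \ P)) (x₀ : ℂ) {r : ℝ} (hr : 0 < r) :
    ∫⁻ z in boxK, ∫⁻ w in boxK, ENNReal.ofReal ((uu x₀ r (x z) - uu x₀ r (x w)) ^ 2) ≤
      3 * (4 * volume boxK) *
        ∫⁻ v in boxK \ P, ENNReal.ofReal (‖deriv x v‖ ^ 2) * ENNReal.ofReal (gu x₀ r (x v) ^ 2) := by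
  classical
  set V : Set ℂ := {z : ℂ | 0 < z.im} \ P with hV
  set g : ℂ → ℝ≥0∞ := fun v => ENNReal.ofReal (‖deriv x v‖ ^ 2) * ENNReal.ofReal (gu x₀ r (x v) ^ 2)
    with hg
  set F : ℂ → ℝ≥0∞ := (boxK \ P).indicator g with hF
  have hAm : MeasurableSet (boxK \ P) := measurableSet_boxK.diff hP.measurableSet
  have hAV : boxK \ P ⊆ V := fun v hv => ⟨boxK_subset hv.1, hv.2⟩
  have hFm : Measurable F := by
    have hdc : ContinuousOn (deriv x) V := (hx.deriv ho).continuousOn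
    have hgc : ContinuousOn g (boxK \ P) := by
      have h1 : ContinuousOn (fun v => ENNReal.ofReal (‖deriv x v‖ ^ 2)) (boxK \ P) :=
        ENNReal.continuous_ofReal.comp_continuousOn ((hdc.mono hAV).norm.pow 2)
      have h2 : ContinuousOn (fun v => ENNReal.ofReal (gu x₀ r (x v) ^ 2)) (boxK \ P) :=
        ENNReal.continuous_ofReal.comp_continuousOn
          (((continuous_gu x₀ hr).comp_continuousOn (hx.continuousOn.mono hAV)).pow 2)
      intro v hv
      exact ENNReal.Tendsto.mul (h1 v hv) (Or.inr ENNReal.ofReal_ne_top) (h2 v hv)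
        (Or.inr ENNReal.ofReal_ne_top)
    have : F = (boxK \ P).piecewise g (fun _ => 0) := by
      funext v
      by_cases hv : v ∈ boxK \ P
      · rw [hF, indicator_of_mem hv, piecewise_eq_of_mem _ _ _ hv]
      · rw [hF, indicator_of_notMem hv, piecewise_eq_of_notMem _ _ _ hv]
    rw [this]
    exact hgc.measurable_piecewise continuousOn_const hAm
  have hmain : ∀ᵐ z ∂(volume.restrict boxK), ∫⁻ w in boxK,
      ENNReal.ofReal ((uu x₀ r (x z) - uu x₀ r (x w)) ^ 2) ≤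
      ∫⁻ w in boxK, 3 * ∫⁻ t in Icc (0:ℝ) 1, F (z + t • (w - z)) := by
    have hP0 : ∀ᵐ z ∂(volume : Measure ℂ), z ∉ P :=
      measure_eq_zero_iff_ae_notMem.1 (hP.measure_zero volume)
    rw [ae_restrict_iff' measurableSet_boxK]
    filter_upwards [hP0] with z hz hzK
    apply lintegral_mono_ae
    rw [ae_restrict_iff' measurableSet_boxK]
    filter_upwards [ae_segment_avoids P hP z hz] with w hw hwK
    have hseg : ∀ t ∈ Icc (0:ℝ) 1, z + t • (w - z) ∈ boxK \ P := fun t ht =>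
      ⟨seg_mem hzK hwK ht, hw t ht⟩
    refine (seg_ineq x₀ hr x V ho hx z w fun t ht => hAV (hseg t ht)).trans ?_
    have h3 : ENNReal.ofReal (‖w - z‖ ^ 2) ≤ 3 := by
      rw [show (3 : ℝ≥0∞) = ENNReal.ofReal 3 by simp]
      exact ENNReal.ofReal_le_ofReal (norm_sub_sq_le hzK hwK)
    have h4 : ∫⁻ t in Icc (0:ℝ) 1,
        ENNReal.ofReal ((gu x₀ r (x (z + t • (w - z))) * ‖deriv x (z + t • (w - z))‖) ^ 2) =
        ∫⁻ t in Icc (0:ℝ) 1, F (z + t • (w - z)) := by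
      refine setLIntegral_congr_fun measurableSet_Icc fun t ht => ?_
      rw [hF, indicator_of_mem (hseg t ht), hg]
      simp only
      rw [← ENNReal.ofReal_mul (by positivity)]
      congr 1
      ring
    rw [h4]
    gcongr
  calc ∫⁻ z in boxK, ∫⁻ w in boxK, ENNReal.ofReal ((uu x₀ r (x z) - uu x₀ r (x w)) ^ 2)
      ≤ ∫⁻ z in boxK, ∫⁻ w in boxK, 3 * ∫⁻ t in Icc (0:ℝ) 1, F (z + t • (w - z)) :=
        lintegral_mono_ae hmain
    _ = 3 * ∫⁻ z in boxK, ∫⁻ w in boxK, ∫⁻ t in Icc (0:ℝ) 1, F (z + t • (w - z)) := by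
        rw [← lintegral_const_mul' _ _ (by simp)]
        refine lintegral_congr fun z => ?_
        rw [← lintegral_const_mul' _ _ (by simp)]
    _ ≤ 3 * (4 * volume boxK * ∫⁻ v, F v) := by
        gcongr
        exact segment_average F hFm
    _ = 3 * (4 * volume boxK) * ∫⁻ v in boxK \ P, g v := by
        rw [hF, lintegral_indicator hAm]; ring

/-- M14: length–area inequality -/
theorem two_point : ∃ C₁ : ℝ, 0 < C₁ ∧ ∀ (I : Type) [Fintype I] (x : I → ℂ → ℂ) (P : I → Set ℂ)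
    (L : ℝ) (E : Set ℂ), 0 ≤ L → E.Countable → (∀ i, (P i).Countable) →
    (∀ i, IsOpen ({z : ℂ | 0 < z.im} \ P i)) →
    (∀ i, DifferentiableOn ℂ (x i) ({z : ℂ | 0 < z.im} \ P i)) →
    (∀ α ∉ E, ∀ S : Finset (I × ℂ),
      (∀ p ∈ S, p.2 ∈ boxK ∧ p.2 ∉ P p.1 ∧ x p.1 p.2 = α) → (S.card : ℝ) ≤ L) →
    ∀ (x₀ : ℂ) (r : ℝ), 0 < r →
    ∑ i, ∫⁻ z in boxK, ∫⁻ w in boxK,
      ENNReal.ofReal ((uu x₀ r (x i z) - uu x₀ r (x i w)) ^ 2) ≤ ENNReal.ofReal (C₁ * L) := by
  set c : ℝ≥0∞ := 3 * (4 * volume boxK) * Cu with hc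
  have hct : c ≠ ⊤ := by
    rw [hc]
    exact ENNReal.mul_ne_top (ENNReal.mul_ne_top (by simp)
      (ENNReal.mul_ne_top (by simp) volume_boxK_lt_top.ne)) Cu_lt_top.ne
  refine ⟨c.toReal + 1, by positivity, ?_⟩
  intro I _ x P L E hL hE hP ho hx hcount x₀ r hr
  have h1 : ∑ i, ∫⁻ z in boxK, ∫⁻ w in boxK,
      ENNReal.ofReal ((uu x₀ r (x i z) - uu x₀ r (x i w)) ^ 2) ≤
      ∑ i, 3 * (4 * volume boxK) * ∫⁻ v in boxK \ P i, ENNReal.ofReal (‖deriv (x i) v‖ ^ 2) *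
        ENNReal.ofReal (gu x₀ r (x i v) ^ 2) :=
    Finset.sum_le_sum fun i _ => pair_bound (x i) (P i) (hP i) (ho i) (hx i) x₀ hr
  have h2 := area_bound I x P L E hE hP ho hx hcount (fun a => ENNReal.ofReal (gu x₀ r a ^ 2))
    (ENNReal.measurable_ofReal.comp ((measurable_gu x₀ hr).pow_const 2))
  refine h1.trans ?_
  rw [← Finset.mul_sum]
  calc 3 * (4 * volume boxK) * ∑ i, ∫⁻ v in boxK \ P i, ENNReal.ofReal (‖deriv (x i) v‖ ^ 2) *
        ENNReal.ofReal (gu x₀ r (x i v) ^ 2)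
      ≤ 3 * (4 * volume boxK) * (ENNReal.ofReal L * Cu) := by
        gcongr
        exact h2.trans (by gcongr; exact energy_le x₀ hr)
    _ = c * ENNReal.ofReal L := by rw [hc]; ring
    _ ≤ ENNReal.ofReal (c.toReal + 1) * ENNReal.ofReal L := by
        gcongr
        calc c = ENNReal.ofReal c.toReal := (ENNReal.ofReal_toReal hct).symm
          _ ≤ ENNReal.ofReal (c.toReal + 1) := ENNReal.ofReal_le_ofReal (by linarith)
    _ = ENNReal.ofReal ((c.toReal + 1) * L) := by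
        rw [ENNReal.ofReal_mul (by positivity)]

end H80.Gon
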