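import Pool.Agent.H80.Gon.Defs

/-!
M14, part a: gradient of the test function along segments, affine changes of variables.
-/

open MeasureTheory Set Filter Topology
open scoped ENNReal

namespace H80.Gon

/-- Norm of the gradient of the test function `uu`. -/
noncomputable def gu (x₀ : ℂ) (r : ℝ) (a : ℂ) : ℝ :=
  2 * r ^ 2 * ‖a - x₀‖ / (r ^ 2 + ‖a - x₀‖ ^ 2) ^ 2

lemma gu_nonneg (x₀ : ℂ) (r : ℝ) (a : ℂ) : 0 ≤ gu x₀ r a := by
  unfold gu; positivity

lemma continuous_gu (x₀ : ℂ) {r : ℝ} (hr : 0 < r) : Continuous (gu x₀ r) := by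
  unfold gu
  refine Continuous.div (by fun_prop) (by fun_prop) ?_
  intro a
  positivity

/-- derivative of `uu` along a curve -/
lemma hasDerivAt_uu_comp (x₀ : ℂ) {r : ℝ} (hr : 0 < r) {c : ℝ → ℂ} {c' : ℂ} {t : ℝ}
    (hc : HasDerivAt c c' t) :
    HasDerivAt (fun s => uu x₀ r (c s))
      (-(r ^ 2 * (2 * inner ℝ (c t - x₀) c')) / (r ^ 2 + ‖c t - x₀‖ ^ 2) ^ 2) t := by
  have h1 : HasDerivAt (fun s => ‖c s - x₀‖ ^ 2) (2 * inner ℝ (c t - x₀) c') t := by
    have := (hc.sub_const x₀).norm_sq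
    simpa using this
  have h2 : HasDerivAt (fun s => r ^ 2 + ‖c s - x₀‖ ^ 2) (2 * inner ℝ (c t - x₀) c') t := by
    simpa using h1.const_add (r ^ 2)
  have hne : r ^ 2 + ‖c t - x₀‖ ^ 2 ≠ 0 := by positivity
  have h3 := (hasDerivAt_const t (r ^ 2)).div h2 hne
  refine h3.congr_deriv ?_
  rw [zero_mul, zero_sub]

lemma abs_deriv_le (x₀ : ℂ) {r : ℝ} (a c' : ℂ) :
    |(-(r ^ 2 * (2 * inner ℝ (a - x₀) c')) / (r ^ 2 + ‖a - x₀‖ ^ 2) ^ 2)| ≤ gu x₀ r a * ‖c'‖ := by
  unfold gu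
  rw [abs_div, abs_neg, abs_of_nonneg (by positivity : (0:ℝ) ≤ (r ^ 2 + ‖a - x₀‖ ^ 2) ^ 2),
    div_mul_eq_mul_div]
  gcongr
  rw [abs_mul, abs_mul, abs_of_nonneg (by positivity : (0:ℝ) ≤ r ^ 2), abs_two]
  nlinarith [abs_real_inner_le_norm (a - x₀) c', sq_nonneg r, norm_nonneg c', norm_nonneg (a - x₀)]

/-- Cauchy-Schwarz on the unit interval. -/
lemma sq_integral_le (f : ℝ → ℝ) (hf : ContinuousOn f (Icc 0 1)) :
    (∫ t in (0:ℝ)..1, f t) ^ 2 ≤ ∫ t in (0:ℝ)..1, f t ^ 2 := by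
  set c := ∫ t in (0:ℝ)..1, f t with hc
  have hf' : ContinuousOn f (uIcc (0:ℝ) 1) := by rwa [uIcc_of_le zero_le_one]
  have hi : IntervalIntegrable f volume 0 1 := hf'.intervalIntegrable
  have hi2 : IntervalIntegrable (fun t => f t ^ 2) volume 0 1 := (hf'.pow 2).intervalIntegrable
  have h0 : 0 ≤ ∫ t in (0:ℝ)..1, (f t - c) ^ 2 :=
    intervalIntegral.integral_nonneg zero_le_one fun t _ => sq_nonneg _
  have h1 : ∫ t in (0:ℝ)..1, (f t - c) ^ 2
      = (∫ t in (0:ℝ)..1, f t ^ 2) - 2 * c * (∫ t in (0:ℝ)..1, f t) + c ^ 2 := by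
    have : (fun t => (f t - c) ^ 2) = fun t => (f t ^ 2 - 2 * c * f t) + c ^ 2 := by
      funext t; ring
    rw [this, intervalIntegral.integral_add (hi2.sub (hi.const_mul _))
      intervalIntegrable_const, intervalIntegral.integral_sub hi2 (hi.const_mul _),
      intervalIntegral.integral_const_mul]
    simp
  rw [h1, ← hc] at h0
  nlinarith

lemma seg_ineq (x₀ : ℂ) {r : ℝ} (hr : 0 < r) (x : ℂ → ℂ) (V : Set ℂ) (hV : IsOpen V)
    (hx : DifferentiableOn ℂ x V) (z w : ℂ) (hseg : ∀ t ∈ Icc (0:ℝ) 1, z + t • (w - z) ∈ V) :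
    ENNReal.ofReal ((uu x₀ r (x z) - uu x₀ r (x w)) ^ 2) ≤
      ENNReal.ofReal (‖w - z‖ ^ 2) * ∫⁻ t in Icc (0:ℝ) 1,
        ENNReal.ofReal ((gu x₀ r (x (z + t • (w - z))) * ‖deriv x (z + t • (w - z))‖) ^ 2) := by
  set p : ℝ → ℂ := fun t => z + t • (w - z) with hp
  have hpd : ∀ t, HasDerivAt p (w - z) t := by
    intro t
    have := ((hasDerivAt_id t).smul_const (w - z)).const_add z
    rw [one_smul] at this
    exact this
  have hpc : Continuous p := continuous_iff_continuousAt.2 fun t => (hpd t).continuousAt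
  have hxp : ∀ t ∈ Icc (0:ℝ) 1, HasDerivAt (fun s => x (p s)) (deriv x (p t) * (w - z)) t := by
    intro t ht
    have h1 : HasDerivAt x (deriv x (p t)) (p t) :=
      ((hx (p t) (hseg t ht)).differentiableAt (hV.mem_nhds (hseg t ht))).hasDerivAt
    have h2 := h1.scomp t (hpd t)
    rw [smul_eq_mul, mul_comm] at h2
    exact h2
  set D : ℝ → ℝ := fun t => (-(r ^ 2 * (2 * inner ℝ (x (p t) - x₀) (deriv x (p t) * (w - z)))) /
    (r ^ 2 + ‖x (p t) - x₀‖ ^ 2) ^ 2) with hD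
  have hφ : ∀ t ∈ Icc (0:ℝ) 1, HasDerivAt (fun s => uu x₀ r (x (p s))) (D t) t := fun t ht =>
    hasDerivAt_uu_comp x₀ hr (hxp t ht)
  have hdc : ContinuousOn (deriv x) V := (hx.deriv hV).continuousOn
  have hmaps : MapsTo p (Icc (0:ℝ) 1) V := hseg
  have hc1 : ContinuousOn (fun t => x (p t)) (Icc (0:ℝ) 1) := hx.continuousOn.comp hpc.continuousOn hmaps
  have hc2 : ContinuousOn (fun t => deriv x (p t)) (Icc (0:ℝ) 1) := hdc.comp hpc.continuousOn hmaps
  have hDc : ContinuousOn D (Icc (0:ℝ) 1) := by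
    refine ContinuousOn.div ?_ ?_ ?_
    · refine ContinuousOn.neg ?_
      refine continuousOn_const.mul (continuousOn_const.mul ?_)
      exact ContinuousOn.inner (𝕜 := ℝ) (hc1.sub continuousOn_const) (hc2.mul continuousOn_const)
    · exact (continuousOn_const.add ((hc1.sub continuousOn_const).norm.pow 2)).pow 2
    · intro t _; positivity
  have hFTC : ∫ t in (0:ℝ)..1, D t = uu x₀ r (x (p 1)) - uu x₀ r (x (p 0)) := by
    apply intervalIntegral.integral_eq_sub_of_hasDerivAt (f := fun s => uu x₀ r (x (p s)))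
    · intro t ht
      rw [uIcc_of_le zero_le_one] at ht
      exact hφ t ht
    · apply ContinuousOn.intervalIntegrable
      rwa [uIcc_of_le zero_le_one]
  have hp0 : p 0 = z := by simp [hp]
  have hp1 : p 1 = w := by simp [hp]
  have h1 : (uu x₀ r (x z) - uu x₀ r (x w)) ^ 2 ≤ ∫ t in (0:ℝ)..1, D t ^ 2 := by
    have := sq_integral_le D hDc
    rw [hFTC, hp0, hp1] at this
    calc _ = (uu x₀ r (x w) - uu x₀ r (x z)) ^ 2 := by ring
      _ ≤ _ := this
  have h2 : ENNReal.ofReal (∫ t in (0:ℝ)..1, D t ^ 2) = ∫⁻ t in Ioc (0:ℝ) 1, ENNReal.ofReal (D t ^ 2) := by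
    rw [intervalIntegral.integral_of_le zero_le_one]
    apply ofReal_integral_eq_lintegral_ofReal
    · exact ((hDc.pow 2).integrableOn_compact isCompact_Icc).mono_set Ioc_subset_Icc_self
    · exact ae_of_all _ fun t => sq_nonneg _
  calc ENNReal.ofReal ((uu x₀ r (x z) - uu x₀ r (x w)) ^ 2)
      ≤ ENNReal.ofReal (∫ t in (0:ℝ)..1, D t ^ 2) := ENNReal.ofReal_le_ofReal h1
    _ = ∫⁻ t in Ioc (0:ℝ) 1, ENNReal.ofReal (D t ^ 2) := h2
    _ ≤ ∫⁻ t in Icc (0:ℝ) 1, ENNReal.ofReal (D t ^ 2) :=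
        lintegral_mono_set Ioc_subset_Icc_self
    _ ≤ ∫⁻ t in Icc (0:ℝ) 1, ENNReal.ofReal (‖w - z‖ ^ 2) *
          ENNReal.ofReal ((gu x₀ r (x (p t)) * ‖deriv x (p t)‖) ^ 2) := by
        refine lintegral_mono fun t => ?_
        rw [← ENNReal.ofReal_mul (by positivity)]
        apply ENNReal.ofReal_le_ofReal
        have := abs_deriv_le x₀ (r := r) (x (p t)) (deriv x (p t) * (w - z))
        rw [norm_mul] at this
        calc D t ^ 2 = |D t| ^ 2 := (sq_abs _).symm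
          _ ≤ (gu x₀ r (x (p t)) * (‖deriv x (p t)‖ * ‖w - z‖)) ^ 2 := by
              gcongr
          _ = _ := by ring
    _ = _ := by
        rw [lintegral_const_mul']
        exact ENNReal.ofReal_ne_top

/-- affine change of variables on the plane -/
lemma lintegral_affine (f : ℂ → ℝ≥0∞) (a : ℂ) {s : ℝ} (hs : s ≠ 0) :
    ∫⁻ b, f (a + s • b) = ENNReal.ofReal ((s ^ 2)⁻¹) * ∫⁻ b, f b := by
  have h1 : ∫⁻ b, f (a + b) ∂(Measure.map (s • ·) (volume : Measure ℂ))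
      = ∫⁻ b, f (a + s • b) := by
    have := lintegral_map_equiv (fun b => f (a + b)) (Homeomorph.smulOfNeZero s hs).toMeasurableEquiv
      (μ := (volume : Measure ℂ))
    simpa using this
  rw [← h1, Measure.map_addHaar_smul _ hs, lintegral_smul_measure]
  rw [Complex.finrank_real_complex, lintegral_add_left_eq_self (μ := (volume : Measure ℂ)) f a]
  rw [abs_of_nonneg (by positivity)]
  rfl

end H80.Gon
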