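import Pool.Agent.H80.Gon.M14a

/-!
M14, part b: area formula with bounded total multiplicity.
-/

open MeasureTheory Set Filter Topology
open scoped ENNReal

namespace H80.Gon

lemma measurableSet_boxK : MeasurableSet boxK := by
  have : boxK = {z : ℂ | -(1/4 : ℝ) ≤ z.re} ∩ {z : ℂ | z.re ≤ 5/4} ∩ {z : ℂ | 7/8 ≤ z.im} ∩
      {z : ℂ | z.im ≤ 9/8} := by
    ext z; simp [boxK, and_assoc]
  rw [this]
  exact (((measurableSet_le measurable_const Complex.measurable_re).inter
    (measurableSet_le Complex.measurable_re measurable_const)).inter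
    (measurableSet_le measurable_const Complex.measurable_im)).inter
    (measurableSet_le Complex.measurable_im measurable_const)

lemma boxK_subset : boxK ⊆ {z : ℂ | 0 < z.im} := by
  intro z hz
  have := hz.2.2.1
  simp only [mem_ofPred_eq]
  linarith

/-- countable cover of the noncritical set by open sets of injectivity -/
lemma inj_cover (x : ℂ → ℂ) (V : Set ℂ) (hV : IsOpen V) (hx : DifferentiableOn ℂ x V) :
    ∃ B : ℕ → Set ℂ, (∀ n, IsOpen (B n)) ∧ (∀ n, InjOn x (B n)) ∧
      {v ∈ V | deriv x v ≠ 0} ⊆ ⋃ n, B n := by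
  set R := {v ∈ V | deriv x v ≠ 0} with hR
  have h1 : ∀ v ∈ R, ∃ O : Set ℂ, IsOpen O ∧ v ∈ O ∧ InjOn x O := by
    intro v hv
    have han : AnalyticAt ℂ x v := hx.analyticAt (hV.mem_nhds hv.1)
    have hs : HasStrictDerivAt x (deriv x v) v := han.hasStrictDerivAt
    have hs' := hs.hasStrictFDerivAt_equiv hv.2
    refine ⟨(hs'.toOpenPartialHomeomorph x).source, (hs'.toOpenPartialHomeomorph x).open_source,
      hs'.mem_toOpenPartialHomeomorph_source, ?_⟩
    have := (hs'.toOpenPartialHomeomorph x).injOn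
    simpa using this
  choose! O hO using h1
  obtain ⟨t, htR, htc, hcov⟩ := TopologicalSpace.countable_cover_nhdsWithin
    (f := fun v => O v) (s := R) (fun v hv => mem_nhdsWithin_of_mem_nhds ((hO v hv).1.mem_nhds (hO v hv).2.1))
  rcases t.eq_empty_or_nonempty with ht | ht
  · refine ⟨fun _ => ∅, fun _ => isOpen_empty, fun _ => injOn_empty x, ?_⟩
    intro v hv
    have := hcov hv
    simp [ht] at this
  · obtain ⟨f, hf⟩ := htc.exists_eq_range ht
    have hfR : ∀ n, f n ∈ R := fun n => htR (by rw [hf]; exact mem_range_self n)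
    refine ⟨fun n => O (f n), fun n => (hO _ (hfR n)).1, fun n => (hO _ (hfR n)).2.2, ?_⟩
    intro v hv
    obtain ⟨u, hu, hv'⟩ := mem_iUnion₂.1 (hcov hv)
    rw [hf] at hu
    obtain ⟨n, rfl⟩ := hu
    exact mem_iUnion.2 ⟨n, hv'⟩

lemma det_restrict (c : ℂ) :
    |((ContinuousLinearMap.toSpanSingleton ℂ c).restrictScalars ℝ : ℂ →L[ℝ] ℂ).det| = ‖c‖ ^ 2 := by
  have : ((ContinuousLinearMap.toSpanSingleton ℂ c).restrictScalars ℝ : ℂ →L[ℝ] ℂ).det = ‖c‖ ^ 2 := by
    simp [ContinuousLinearMap.det, LinearMap.det_restrictScalars,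
      Algebra.norm_complex_eq, Complex.normSq_eq_norm_sq]
  rw [this]
  exact abs_of_nonneg (by positivity)

lemma area_piece (x : ℂ → ℂ) (V A : Set ℂ) (hV : IsOpen V) (hx : DifferentiableOn ℂ x V)
    (hA : MeasurableSet A) (hAV : A ⊆ V) (hinj : InjOn x A) (h : ℂ → ℝ≥0∞) :
    ∫⁻ v in A, ENNReal.ofReal (‖deriv x v‖ ^ 2) * h (x v) = ∫⁻ a in x '' A, h a := by
  have hd : ∀ v ∈ A, HasFDerivWithinAt x
      ((ContinuousLinearMap.toSpanSingleton ℂ (deriv x v)).restrictScalars ℝ : ℂ →L[ℝ] ℂ) A v := by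
    intro v hv
    have h1 : HasDerivAt x (deriv x v) v :=
      ((hx v (hAV hv)).differentiableAt (hV.mem_nhds (hAV hv))).hasDerivAt
    exact (h1.hasFDerivAt.restrictScalars ℝ).hasFDerivWithinAt
  rw [lintegral_image_eq_lintegral_abs_det_fderiv_mul volume hA hd hinj h]
  refine lintegral_congr fun v => ?_
  rw [det_restrict]

lemma measurableSet_image_piece (x : ℂ → ℂ) (V A : Set ℂ) (hV : IsOpen V)
    (hx : DifferentiableOn ℂ x V)
    (hA : MeasurableSet A) (hAV : A ⊆ V) (hinj : InjOn x A) : MeasurableSet (x '' A) := by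
  have hd : ∀ v ∈ A, HasFDerivWithinAt x
      ((ContinuousLinearMap.toSpanSingleton ℂ (deriv x v)).restrictScalars ℝ : ℂ →L[ℝ] ℂ) A v := by
    intro v hv
    have h1 : HasDerivAt x (deriv x v) v :=
      ((hx v (hAV hv)).differentiableAt (hV.mem_nhds (hAV hv))).hasDerivAt
    exact (h1.hasFDerivAt.restrictScalars ℝ).hasFDerivWithinAt
  exact measurable_image_of_fderivWithin hA hd hinj

/-- the area formula bound -/
lemma area_bound (I : Type) [Fintype I] (x : I → ℂ → ℂ) (P : I → Set ℂ)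
    (L : ℝ) (E : Set ℂ) (hE : E.Countable) (hP : ∀ i, (P i).Countable)
    (ho : ∀ i, IsOpen ({z : ℂ | 0 < z.im} \ P i))
    (hx : ∀ i, DifferentiableOn ℂ (x i) ({z : ℂ | 0 < z.im} \ P i))
    (hcount : ∀ α ∉ E, ∀ S : Finset (I × ℂ),
      (∀ p ∈ S, p.2 ∈ boxK ∧ p.2 ∉ P p.1 ∧ x p.1 p.2 = α) → (S.card : ℝ) ≤ L)
    (h : ℂ → ℝ≥0∞) (hh : Measurable h) :
    ∑ i, ∫⁻ v in boxK \ P i, ENNReal.ofReal (‖deriv (x i) v‖ ^ 2) * h (x i v) ≤
      ENNReal.ofReal L * ∫⁻ a, h a := by
  classical
  set V : I → Set ℂ := fun i => {z : ℂ | 0 < z.im} \ P i with hVdef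
  set A : I → Set ℂ := fun i => boxK \ P i with hAdef
  have hAm : ∀ i, MeasurableSet (A i) := fun i => measurableSet_boxK.diff (hP i).measurableSet
  have hAV : ∀ i, A i ⊆ V i := fun i v hv => ⟨boxK_subset hv.1, hv.2⟩
  have hB := fun i => inj_cover (x i) (V i) (ho i) (hx i)
  choose B hBo hBi hBc using hB
  set R : I → Set ℂ := fun i => {v ∈ V i | deriv (x i) v ≠ 0} with hRdef
  have hRo : ∀ i, IsOpen (R i) := by
    intro i
    have hdc : ContinuousOn (deriv (x i)) (V i) := ((hx i).deriv (ho i)).continuousOn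
    have : R i = V i ∩ (deriv (x i)) ⁻¹' {0}ᶜ := by
      ext v; simp [hRdef]
    rw [this]
    exact hdc.isOpen_inter_preimage (ho i) isOpen_compl_singleton
  set C : I → ℕ → Set ℂ := fun i n => A i ∩ R i ∩ disjointed (B i) n with hCdef
  have hCm : ∀ i n, MeasurableSet (C i n) := fun i n =>
    ((hAm i).inter (hRo i).measurableSet).inter
      (MeasurableSet.disjointed (fun k => (hBo i k).measurableSet) n)
  have hCd : ∀ i, Pairwise (Function.onFun Disjoint (C i)) := by
    intro i m n hmn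
    exact ((disjoint_disjointed (B i)) hmn).mono inter_subset_right inter_subset_right
  have hCinj : ∀ i n, InjOn (x i) (C i n) := fun i n =>
    (hBi i n).mono fun v hv => disjointed_subset _ _ hv.2
  have hCV : ∀ i n, C i n ⊆ V i := fun i n v hv => hAV i hv.1.1
  have hCU : ∀ i, ⋃ n, C i n = A i ∩ R i := by
    intro i
    rw [← inter_iUnion, iUnion_disjointed]
    exact inter_eq_left.2 fun v hv => hBc i hv.2
  have hstep : ∀ i, ∫⁻ v in A i, ENNReal.ofReal (‖deriv (x i) v‖ ^ 2) * h (x i v) =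
      ∑' n, ∫⁻ a in x i '' C i n, h a := by
    intro i
    have h1 : ∫⁻ v in A i, ENNReal.ofReal (‖deriv (x i) v‖ ^ 2) * h (x i v) =
        ∫⁻ v in A i ∩ R i, ENNReal.ofReal (‖deriv (x i) v‖ ^ 2) * h (x i v) := by
      rw [← lintegral_inter_add_sdiff (fun v => ENNReal.ofReal (‖deriv (x i) v‖ ^ 2) * h (x i v))
        (A i) (hRo i).measurableSet]
      have : ∫⁻ v in A i \ R i, ENNReal.ofReal (‖deriv (x i) v‖ ^ 2) * h (x i v) = 0 := by
        rw [setLIntegral_congr_fun ((hAm i).diff (hRo i).measurableSet) (g := fun _ => 0)]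
        · simp
        · intro v hv
          have : deriv (x i) v = 0 := by
            by_contra hne
            exact hv.2 ⟨hAV i hv.1, hne⟩
          simp [this]
      rw [this, add_zero]
    rw [h1, ← hCU i, lintegral_iUnion (hCm i) (hCd i)]
    refine tsum_congr fun n => ?_
    exact area_piece (x i) (V i) (C i n) (ho i) (hx i) (hCm i n) (hCV i n) (hCinj i n) h
  have hSm : ∀ i n, MeasurableSet (x i '' C i n) := fun i n =>
    measurableSet_image_piece (x i) (V i) (C i n) (ho i) (hx i) (hCm i n) (hCV i n) (hCinj i n)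
  have hbd : ∀ a ∉ E, ∑' j : I × ℕ, (x j.1 '' C j.1 j.2).indicator (fun _ => (1 : ℝ≥0∞)) a
      ≤ ENNReal.ofReal L := by
    intro a ha
    rw [ENNReal.tsum_eq_iSup_sum]
    refine iSup_le fun s => ?_
    set s' := s.filter (fun j => a ∈ x j.1 '' C j.1 j.2) with hs'
    have hsum : ∑ j ∈ s, (x j.1 '' C j.1 j.2).indicator (fun _ => (1 : ℝ≥0∞)) a = s'.card := by
      rw [hs', Finset.card_filter]
      push_cast
      refine Finset.sum_congr rfl fun j _ => ?_
      by_cases hj : a ∈ x j.1 '' C j.1 j.2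
      · simp [hj]
      · simp only [indicator_of_notMem hj, hj, if_false]
    rw [hsum]
    have hz : ∀ j : I × ℕ, ∃ z : ℂ, j ∈ s' → z ∈ C j.1 j.2 ∧ x j.1 z = a := by
      intro j
      by_cases hj : j ∈ s'
      · obtain ⟨z, hz, hza⟩ := (Finset.mem_filter.1 hj).2
        exact ⟨z, fun _ => ⟨hz, hza⟩⟩
      · exact ⟨0, fun h => absurd h hj⟩
    choose z hz using hz
    have hinj : Set.InjOn (fun j : I × ℕ => (j.1, z j)) s' := by
      intro j hj k hk hjk
      simp only [Prod.mk.injEq] at hjk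
      obtain ⟨j1, j2⟩ := j
      obtain ⟨k1, k2⟩ := k
      simp only at hjk
      obtain ⟨h1, h2⟩ := hjk
      subst h1
      by_contra hne
      have hne' : j2 ≠ k2 := fun h => hne (by rw [h])
      have hd := hCd j1 hne'
      have hj' := (hz _ hj).1
      have hk' := (hz _ hk).1
      rw [← h2] at hk'
      exact Set.disjoint_left.1 hd hj' hk'
    have hcard := Finset.card_image_of_injOn (f := fun j : I × ℕ => (j.1, z j)) hinj
    have := hcount a ha (s'.image (fun j : I × ℕ => (j.1, z j))) (by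
      intro p hp
      obtain ⟨j, hj, rfl⟩ := Finset.mem_image.1 hp
      have hj' := hz j hj
      exact ⟨hj'.1.1.1.1, hj'.1.1.1.2, hj'.2⟩)
    rw [hcard] at this
    calc ((s'.card : ℕ) : ℝ≥0∞) = ENNReal.ofReal (s'.card : ℝ) := by simp
      _ ≤ ENNReal.ofReal L := ENNReal.ofReal_le_ofReal this
  calc ∑ i, ∫⁻ v in A i, ENNReal.ofReal (‖deriv (x i) v‖ ^ 2) * h (x i v)
      = ∑ i, ∑' n, ∫⁻ a in x i '' C i n, h a := Finset.sum_congr rfl fun i _ => hstep i
    _ = ∑' j : I × ℕ, ∫⁻ a in x j.1 '' C j.1 j.2, h a := by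
        rw [ENNReal.tsum_prod (f := fun i n => ∫⁻ a in x i '' C i n, h a), tsum_fintype]
    _ = ∑' j : I × ℕ, ∫⁻ a, (x j.1 '' C j.1 j.2).indicator (fun _ => (1 : ℝ≥0∞)) a * h a := by
        refine tsum_congr fun j => ?_
        rw [← lintegral_indicator (hSm j.1 j.2)]
        refine lintegral_congr fun a => ?_
        by_cases ha : a ∈ x j.1 '' C j.1 j.2
        · simp [ha]
        · simp only [indicator_of_notMem ha, zero_mul]
    _ = ∫⁻ a, ∑' j : I × ℕ, (x j.1 '' C j.1 j.2).indicator (fun _ => (1 : ℝ≥0∞)) a * h a := by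
        rw [lintegral_tsum]
        intro j
        exact ((measurable_const.indicator (hSm j.1 j.2)).mul hh).aemeasurable
    _ ≤ ∫⁻ a, ENNReal.ofReal L * h a := by
        apply lintegral_mono_ae
        have hE0 : volume E = 0 := hE.measure_zero volume
        have : ∀ᵐ a ∂(volume : Measure ℂ), a ∉ E := measure_eq_zero_iff_ae_notMem.1 hE0
        filter_upwards [this] with a ha
        rw [ENNReal.tsum_mul_right]
        gcongr
        exact hbd a ha
    _ = ENNReal.ofReal L * ∫⁻ a, h a := lintegral_const_mul _ hh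

end H80.Gon
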