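import Pool.Agent.H80.Gon.Defs

/-!
M15: selection of a disc
-/

open MeasureTheory Metric Filter Topology
open scoped ENNReal

namespace H80.Gon

/-- M15: selection of a disc -/
theorem disc_select : ∃ K₀ : ℕ, 0 < K₀ ∧ ∀ (ν : Measure ℂ) [IsFiniteMeasure ν],
    (∀ α : ℂ, ν {α} = 0) → ∀ t : ℝ≥0∞, 0 < t → t < ν Set.univ →
    ∃ (x₀ : ℂ) (r : ℝ), 0 < r ∧ t ≤ ν (Metric.closedBall x₀ r) ∧
      ν (Metric.closedBall x₀ (2 * r)) ≤ K₀ * t := by
  obtain ⟨T, hT1, hT2, hT3⟩ := (isCompact_closedBall (0 : ℂ) 1).finite_cover_balls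
    (show (0 : ℝ) < 1 / 4 by norm_num)
  refine ⟨hT2.toFinset.card + 1, Nat.succ_pos _, ?_⟩
  intro ν _ hν t ht0 ht1
  set R : Set ℝ := {r | 0 < r ∧ ∃ x, t ≤ ν (closedBall x r)} with hR
  have hmono : Monotone fun n : ℕ => closedBall (0 : ℂ) (n : ℝ) := fun a b hab =>
    closedBall_subset_closedBall (by exact_mod_cast hab)
  have hlim : Tendsto (fun n : ℕ => ν (closedBall (0 : ℂ) (n : ℝ))) atTop (𝓝 (ν Set.univ)) := by
    have := tendsto_measure_iUnion_atTop (μ := ν) hmono
    rwa [iUnion_closedBall_nat] at this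
  have hRne : R.Nonempty := by
    obtain ⟨n, hn, hn0⟩ := ((hlim.eventually (lt_mem_nhds ht1)).and (eventually_gt_atTop 0)).exists
    exact ⟨n, by exact_mod_cast hn0, 0, hn.le⟩
  have hRb : BddBelow R := ⟨0, fun r hr => hr.1.le⟩
  set ρ := sInf R with hρ
  have hρ0 : 0 ≤ ρ := le_csInf hRne fun r hr => hr.1.le
  -- the infimum is positive
  have hρpos : 0 < ρ := by
    refine lt_of_le_of_ne hρ0 fun h0 => ?_
    have hx : ∀ n : ℕ, ∃ x, t ≤ ν (closedBall x (1 / ((n : ℝ) + 1))) := by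
      intro n
      have : sInf R < 1 / ((n : ℝ) + 1) := by rw [← hρ, ← h0]; positivity
      obtain ⟨r, hr, hrn⟩ := exists_lt_of_csInf_lt hRne this
      obtain ⟨x, hx⟩ := hr.2
      exact ⟨x, hx.trans (measure_mono (closedBall_subset_closedBall hrn.le))⟩
    choose x hx using hx
    -- the centres are bounded
    have htail : ∃ M : ℕ, ν (closedBall (0 : ℂ) M)ᶜ < t := by
      have hanti : Tendsto (fun n : ℕ => ν (closedBall (0 : ℂ) (n : ℝ))ᶜ) atTop (𝓝 0) := by
        have h1 : ∀ n : ℕ, ν (closedBall (0 : ℂ) (n : ℝ))ᶜ =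
            ν Set.univ - ν (closedBall (0 : ℂ) (n : ℝ)) := fun n =>
          measure_compl measurableSet_closedBall (measure_ne_top ν _)
        simp only [h1]
        have h2 := ENNReal.Tendsto.sub (tendsto_const_nhds (x := ν Set.univ)) hlim
          (Or.inl (measure_ne_top ν _))
        rwa [tsub_self] at h2
      exact (hanti.eventually (gt_mem_nhds ht0)).exists
    obtain ⟨M, hM⟩ := htail
    have hxb : ∀ n, x n ∈ closedBall (0 : ℂ) (M + 1) := by
      intro n
      by_contra hcon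
      rw [mem_closedBall, dist_zero_right, not_le] at hcon
      have hsub : closedBall (x n) (1 / ((n : ℝ) + 1)) ⊆ (closedBall (0 : ℂ) M)ᶜ := by
        intro y hy
        rw [Set.mem_compl_iff, mem_closedBall, dist_zero_right, not_le]
        rw [mem_closedBall, dist_eq_norm] at hy
        have h1 : 1 / ((n : ℝ) + 1) ≤ 1 := by
          rw [div_le_one (by positivity)]; linarith [Nat.cast_nonneg (α := ℝ) n]
        have h2 : ‖x n‖ ≤ ‖y‖ + ‖y - x n‖ := by
          have := norm_sub_norm_le (x n) y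
          rw [norm_sub_rev] at this
          linarith
        linarith
      exact absurd ((hx n).trans (measure_mono hsub)) (not_le.2 hM)
    obtain ⟨a, _, φ, hφ, hφa⟩ := (isCompact_closedBall (0 : ℂ) (M + 1)).tendsto_subseq hxb
    have hball : ∀ k : ℕ, t ≤ ν (closedBall a (1 / ((k : ℝ) + 1))) := by
      intro k
      have hε : (0 : ℝ) < 1 / ((k : ℝ) + 1) / 2 := by positivity
      have h1 : ∀ᶠ n in atTop, dist (x (φ n)) a < 1 / ((k : ℝ) + 1) / 2 :=
        (tendsto_iff_dist_tendsto_zero.1 hφa).eventually (gt_mem_nhds hε)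
      have h2 : ∀ᶠ n : ℕ in atTop, 1 / ((φ n : ℝ) + 1) < 1 / ((k : ℝ) + 1) / 2 :=
        (tendsto_one_div_add_atTop_nhds_zero_nat.comp hφ.tendsto_atTop).eventually
          (gt_mem_nhds hε)
      obtain ⟨n, hn1, hn2⟩ := (h1.and h2).exists
      refine (hx (φ n)).trans (measure_mono ?_)
      refine closedBall_subset_closedBall' ?_
      linarith
    have hatom : t ≤ ν {a} := by
      have h1 : Tendsto (fun k : ℕ => ν (closedBall a (1 / ((k : ℝ) + 1)))) atTop
          (𝓝 (ν (⋂ k : ℕ, closedBall a (1 / ((k : ℝ) + 1))))) := by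
        refine tendsto_measure_iInter_atTop (fun k => measurableSet_closedBall.nullMeasurableSet)
          ?_ ⟨0, measure_ne_top ν _⟩
        intro k l hkl
        refine closedBall_subset_closedBall ?_
        exact one_div_le_one_div_of_le (by positivity)
          (by have : (k : ℝ) ≤ l := by exact_mod_cast hkl
              linarith)
      have h2 : (⋂ k : ℕ, closedBall a (1 / ((k : ℝ) + 1))) = {a} := by
        ext y
        simp only [Set.mem_iInter, mem_closedBall, Set.mem_singleton_iff]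
        constructor
        · intro h
          have h3 : dist y a ≤ 0 := ge_of_tendsto' tendsto_one_div_add_atTop_nhds_zero_nat h
          exact dist_le_zero.1 h3
        · rintro rfl k; rw [dist_self]; positivity
      rw [h2] at h1
      exact ge_of_tendsto' h1 hball
    rw [hν a] at hatom
    exact absurd hatom (not_le.2 ht0)
  -- choice of the disc
  have hlt : sInf R < 3 / 2 * ρ := by rw [← hρ]; linarith
  obtain ⟨r, hr, hrρ⟩ := exists_lt_of_csInf_lt hRne hlt
  obtain ⟨x₀, hx₀⟩ := hr.2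
  refine ⟨x₀, r, hr.1, hx₀, ?_⟩
  have hsmall : ∀ c : ℂ, ν (closedBall c (1 / 2 * r)) ≤ t := by
    intro c
    by_contra hcon
    have h1 : 1 / 2 * r ∈ R := ⟨by have := hr.1; positivity, c, (not_le.1 hcon).le⟩
    have h2 := csInf_le hRb h1
    rw [← hρ] at h2
    linarith
  have hcov : closedBall x₀ (2 * r) ⊆ ⋃ c ∈ hT2.toFinset, closedBall (x₀ + 2 * r * c) (1 / 2 * r) := by
    intro y hy
    have hr0 : (0 : ℝ) < 2 * r := by have := hr.1; positivity
    set z : ℂ := ((2 * r : ℝ) : ℂ)⁻¹ * (y - x₀) with hz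
    have hzn : ‖z‖ = (2 * r)⁻¹ * ‖y - x₀‖ := by
      rw [hz, norm_mul, norm_inv, Complex.norm_real, Real.norm_eq_abs, abs_of_pos hr0]
    have hz1 : z ∈ closedBall (0 : ℂ) 1 := by
      rw [mem_closedBall, dist_zero_right, hzn, inv_mul_le_iff₀ hr0, mul_one, ← dist_eq_norm]
      exact hy
    obtain ⟨c, hc, hzc⟩ := Set.mem_iUnion₂.1 (hT3 hz1)
    refine Set.mem_iUnion₂.2 ⟨c, hT2.mem_toFinset.2 hc, ?_⟩
    rw [Metric.mem_ball, dist_eq_norm] at hzc
    rw [mem_closedBall, dist_eq_norm]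
    have hyz : y - x₀ = ((2 * r : ℝ) : ℂ) * z := by
      rw [hz, ← mul_assoc, mul_inv_cancel₀, one_mul]
      exact_mod_cast hr0.ne'
    have e1 : y - (x₀ + 2 * r * c) = ((2 * r : ℝ) : ℂ) * (z - c) := by
      have : y - (x₀ + 2 * r * c) = (y - x₀) - 2 * r * c := by ring
      rw [this, hyz]; push_cast; ring
    rw [e1, norm_mul, Complex.norm_real, Real.norm_eq_abs, abs_of_pos hr0]
    nlinarith [hr.1]
  calc ν (closedBall x₀ (2 * r)) ≤ ν (⋃ c ∈ hT2.toFinset, closedBall (x₀ + 2 * r * c) (1 / 2 * r)) :=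
        measure_mono hcov
    _ ≤ ∑ c ∈ hT2.toFinset, ν (closedBall (x₀ + 2 * r * c) (1 / 2 * r)) :=
        measure_biUnion_finset_le _ _
    _ ≤ ∑ c ∈ hT2.toFinset, t := Finset.sum_le_sum fun c _ => hsmall _
    _ = hT2.toFinset.card * t := by rw [Finset.sum_const, nsmul_eq_mul]
    _ ≤ ((hT2.toFinset.card + 1 : ℕ) : ℝ≥0∞) * t := by
        gcongr
        exact Nat.le_succ _

end H80.Gon
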