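import Pool.Agent.H80.Gon.Defs

/-!
M16a: measure theoretic facts on the upper half plane.
-/

open Matrix MatrixGroups UpperHalfPlane ModularGroup MeasureTheory
open scoped ENNReal NNReal

namespace H80.Gon

/-- `K` as a subset of the upper half plane. -/
def KH : Set ℍ := {z | (z : ℂ) ∈ boxK}

lemma measurableSet_boxK : MeasurableSet boxK := by
  unfold boxK
  have h1 : MeasurableSet {z : ℂ | -(1/4 : ℝ) ≤ z.re} :=
    measurableSet_le measurable_const Complex.measurable_re
  have h2 : MeasurableSet {z : ℂ | z.re ≤ 5/4} :=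
    measurableSet_le Complex.measurable_re measurable_const
  have h3 : MeasurableSet {z : ℂ | 7/8 ≤ z.im} :=
    measurableSet_le measurable_const Complex.measurable_im
  have h4 : MeasurableSet {z : ℂ | z.im ≤ 9/8} :=
    measurableSet_le Complex.measurable_im measurable_const
  exact h1.inter (h2.inter (h3.inter h4))

lemma measurableSet_KH : MeasurableSet KH := measurable_coe measurableSet_boxK

/-- The hyperbolic measure on `K` is at most `64/49` times Lebesgue measure. -/
lemma lintegral_KH_le (F : ℂ → ℝ≥0∞) :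
    ∫⁻ z in KH, F (z : ℂ) ≤ ENNReal.ofReal (64 / 49) * ∫⁻ z in boxK, F z := by
  have h1 : (volume : Measure ℍ).restrict KH =
      ((volume.comap UpperHalfPlane.coe).restrict KH).withDensity
        fun z ↦ ↑((1 / NNReal.mk z.im z.im_pos.le : ℝ≥0) ^ 2) := by
    rw [volume_def, restrict_withDensity measurableSet_KH]
  have hmeas : Measurable fun z : ℍ ↦ (((1 / NNReal.mk z.im z.im_pos.le : ℝ≥0) ^ 2 : ℝ≥0) : ℝ≥0∞) := by
    refine measurable_coe_nnreal_ennreal.comp ?_
    refine Continuous.measurable ?_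
    refine .pow (.div₀ continuous_const ?_ ?_) _
    · exact continuous_im.subtype_mk _
    · exact fun x ↦ NNReal.ne_iff.mp x.im_ne_zero
  rw [h1]
  refine (lintegral_withDensity_le_lintegral_mul _ hmeas _).trans ?_
  have h2 : ∫⁻ a in KH, ((fun z : ℍ ↦ (((1 / NNReal.mk z.im z.im_pos.le : ℝ≥0) ^ 2 : ℝ≥0) : ℝ≥0∞)) *
      fun z : ℍ ↦ F (z : ℂ)) a ∂(volume.comap UpperHalfPlane.coe) ≤
      ∫⁻ a in KH, ENNReal.ofReal (64 / 49) * F (a : ℂ) ∂(volume.comap UpperHalfPlane.coe) := by
    refine setLIntegral_mono' measurableSet_KH fun z hz => ?_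
    simp only [Pi.mul_apply]
    gcongr
    rw [← ENNReal.ofReal_coe_nnreal]
    apply ENNReal.ofReal_le_ofReal
    have h78 : 7 / 8 ≤ z.im := hz.2.2.1
    push_cast
    rw [div_pow, one_pow, div_le_iff₀ (by positivity)]
    nlinarith
  refine h2.trans ?_
  rw [lintegral_const_mul' _ _ ENNReal.ofReal_ne_top]
  gcongr
  have h3 : ((volume.comap UpperHalfPlane.coe).restrict KH).map UpperHalfPlane.coe =
      (volume.restrict (Set.range UpperHalfPlane.coe)).restrict boxK := by
    have : (volume.comap UpperHalfPlane.coe).map UpperHalfPlane.coe =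
        (volume : Measure ℂ).restrict (Set.range UpperHalfPlane.coe) :=
      measurableEmbedding_coe.map_comap _
    rw [← this, Measure.restrict_map measurable_coe measurableSet_boxK]
    rfl
  calc ∫⁻ a in KH, F (a : ℂ) ∂(volume.comap UpperHalfPlane.coe)
      = ∫⁻ a, F a ∂(((volume.comap UpperHalfPlane.coe).restrict KH).map UpperHalfPlane.coe) := by
        rw [measurableEmbedding_coe.lintegral_map]
    _ ≤ ∫⁻ a in boxK, F a := by
        rw [h3]
        refine lintegral_mono' ?_ le_rfl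
        exact Measure.restrict_mono_measure Measure.restrict_le_self _

lemma volume_countable {s : Set ℍ} (hs : s.Countable) : volume s = 0 := by
  rw [volume_eq_lintegral]
  exact setLIntegral_measure_zero _ _ ((hs.image _).measure_zero _)

lemma measurePreserving_sl (g : SL(2, ℤ)) :
    MeasurePreserving (fun z : ℍ => g • z) volume volume :=
  measurePreserving_smul (g : GL (Fin 2) ℝ) (volume : Measure ℍ)

/-- The basic box around `i`. -/
def QH : Set ℍ := {z | -(1/4 : ℝ) ≤ z.re ∧ z.re ≤ 1/4 ∧ 7/8 ≤ z.im ∧ z.im ≤ 9/8}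

/-- The `S`-invariant neighbourhood of `i`. -/
def BH : Set ℍ := {z | z ∈ QH ∧ S • z ∈ QH}

lemma S_S_smul (z : ℍ) : S • S • z = z := by
  rw [smul_smul]
  have : S * S = -1 := by
    ext i j
    fin_cases i <;> fin_cases j <;>
      simp [Matrix.SpecialLinearGroup.coe_mul, Matrix.mul_apply, Fin.sum_univ_two, coe_S]
  rw [this, SL_neg_smul, one_smul]

lemma S_smul_mem_BH {z : ℍ} (hz : z ∈ BH) : S • z ∈ BH :=
  ⟨hz.2, by rw [S_S_smul]; exact hz.1⟩

lemma QH_subset_KH : QH ⊆ KH := by
  rintro z ⟨h1, h2, h3, h4⟩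
  exact ⟨h1, by rw [coe_re]; linarith, h3, h4⟩

lemma BH_subset_KH : BH ⊆ KH := fun _ hz => QH_subset_KH hz.1

lemma T_smul_mem_KH {z : ℍ} (hz : z ∈ BH) : T • z ∈ KH := by
  obtain ⟨⟨h1, h2, h3, h4⟩, _⟩ := hz
  have hre : (T • z).re = z.re + 1 := re_T_smul z
  have him : (T • z).im = z.im := im_T_smul z
  refine ⟨?_, ?_, ?_, ?_⟩
  · rw [coe_re, hre]; linarith
  · rw [coe_re, hre]; linarith
  · rw [coe_im, him]; linarith
  · rw [coe_im, him]; linarith

lemma measurableSet_QH : MeasurableSet QH := by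
  unfold QH
  have hre : Measurable (fun z : ℍ => z.re) := continuous_re.measurable
  have him : Measurable (fun z : ℍ => z.im) := continuous_im.measurable
  exact (measurableSet_le measurable_const hre).inter ((measurableSet_le hre measurable_const).inter
    ((measurableSet_le measurable_const him).inter (measurableSet_le him measurable_const)))

lemma measurableSet_BH : MeasurableSet BH :=
  measurableSet_QH.inter ((measurePreserving_sl S).measurable measurableSet_QH)

lemma volume_KH_lt_top : volume KH < ⊤ := by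
  have h := lintegral_KH_le (fun _ => 1)
  simp only [lintegral_one, Measure.restrict_apply_univ] at h
  refine h.trans_lt ?_
  refine ENNReal.mul_lt_top ENNReal.ofReal_lt_top ?_
  have hb : Bornology.IsBounded boxK := by
    refine (Metric.isBounded_iff_subset_closedBall 0).mpr ⟨3, ?_⟩
    rintro z ⟨h1, h2, h3, h4⟩
    rw [mem_closedBall_zero_iff]
    calc ‖z‖ ≤ |z.re| + |z.im| := Complex.norm_le_abs_re_add_abs_im z
      _ ≤ 5 / 4 + 9 / 8 := by
          gcongr
          · rw [abs_le]; constructor <;> linarith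
          · rw [abs_le]; constructor <;> linarith
      _ ≤ 3 := by norm_num
  exact hb.measure_lt_top

lemma volume_BH_pos : 0 < volume BH := by
  -- an open set around `i` contained in `BH`
  let U : Set ℍ := {z | -(1/4 : ℝ) < z.re ∧ z.re < 1/4 ∧ 7/8 < z.im ∧ z.im < 9/8}
  have hU : IsOpen U := by
    have hre := UpperHalfPlane.continuous_re
    have him := UpperHalfPlane.continuous_im
    exact (isOpen_lt continuous_const hre).inter ((isOpen_lt hre continuous_const).inter
      ((isOpen_lt continuous_const him).inter (isOpen_lt him continuous_const)))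
  have hcont : Continuous (fun z : ℍ => S • z) :=
    continuous_const_smul (S : GL (Fin 2) ℝ)
  let V : Set ℍ := U ∩ (fun z : ℍ => S • z) ⁻¹' U
  have hV : IsOpen V := hU.inter (hU.preimage hcont)
  have hI : UpperHalfPlane.I ∈ V := by
    have hSI : S • UpperHalfPlane.I = UpperHalfPlane.I := by
      ext
      rw [modular_S_smul]
      simp
    have h1 : UpperHalfPlane.I ∈ U := by
      refine ⟨?_, ?_, ?_, ?_⟩ <;> simp [UpperHalfPlane.I_re, UpperHalfPlane.I_im] <;> norm_num
    exact ⟨h1, by change S • UpperHalfPlane.I ∈ U; rw [hSI]; exact h1⟩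
  have hVB : V ⊆ BH := by
    rintro z ⟨⟨h1, h2, h3, h4⟩, ⟨h5, h6, h7, h8⟩⟩
    exact ⟨⟨h1.le, h2.le, h3.le, h4.le⟩, ⟨h5.le, h6.le, h7.le, h8.le⟩⟩
  refine lt_of_lt_of_le ?_ (measure_mono hVB)
  rw [volume_eq_lintegral]
  have hVo : IsOpen ((↑) '' V : Set ℂ) := isOpenEmbedding_coe.isOpenMap V hV
  have hVpos : 0 < volume ((↑) '' V : Set ℂ) := hVo.measure_pos _ ⟨_, ⟨_, hI, rfl⟩⟩
  have : ∫⁻ z : ℂ in ((↑) '' V : Set ℂ), (1 / 4 : ℝ≥0∞) ≤
      ∫⁻ z : ℂ in ((↑) '' V : Set ℂ), ↑((1 / ‖z.im‖₊) ^ 2 : NNReal) := by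
    refine setLIntegral_mono' hVo.measurableSet ?_
    rintro _ ⟨z, ⟨⟨h1, h2, h3, h4⟩, _⟩, rfl⟩
    have h5 : ‖(z : ℂ).im‖₊ ≤ 2 := by
      rw [← NNReal.coe_le_coe]
      simp only [coe_nnnorm, Real.norm_eq_abs, NNReal.coe_ofNat, coe_im]
      rw [abs_of_pos z.im_pos]
      linarith
    have h6 : 0 < ‖(z : ℂ).im‖₊ := by
      rw [nnnorm_pos, coe_im]
      exact z.im_pos.ne'
    have h7 : (1 / 4 : ℝ≥0) ≤ (1 / ‖(z : ℂ).im‖₊) ^ 2 := by
      rw [div_pow, one_pow]
      gcongr
      calc ‖(z : ℂ).im‖₊ ^ 2 ≤ 2 ^ 2 := by gcongr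
        _ = 4 := by norm_num
    calc (1 / 4 : ℝ≥0∞) = ((1 / 4 : ℝ≥0) : ℝ≥0∞) := by
          rw [ENNReal.coe_div (by norm_num)]; simp
      _ ≤ _ := by exact_mod_cast h7
  refine lt_of_lt_of_le ?_ this
  rw [setLIntegral_const]
  exact ENNReal.mul_pos (by simp) hVpos.ne'

end H80.Gon
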