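import Mathlib

/-!
M16b: general lemmas: double integrals of squared differences, and suprema over fibres.
-/

open MeasureTheory
open scoped ENNReal NNReal

namespace H80.Gon

variable {Ω : Type*} [MeasurableSpace Ω]

lemma integrable_bdd {μ : Measure Ω} [IsFiniteMeasure μ] {V : Ω → ℝ} (hV : Measurable V)
    (h0 : ∀ z, 0 ≤ V z) (h1 : ∀ z, V z ≤ 1) : Integrable V μ :=
  Integrable.of_bound hV.aestronglyMeasurable 1
    (Filter.Eventually.of_forall fun z => by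
      rw [Real.norm_eq_abs, abs_of_nonneg (h0 z)]; exact h1 z)

lemma integrable_sq_bdd {μ : Measure Ω} [IsFiniteMeasure μ] {V : Ω → ℝ} (hV : Measurable V)
    (h0 : ∀ z, 0 ≤ V z) (h1 : ∀ z, V z ≤ 1) : Integrable (fun z => V z ^ 2) μ :=
  integrable_bdd (hV.pow_const 2) (fun z => sq_nonneg _) (fun z => by nlinarith [h0 z, h1 z])

lemma integrable_quad {μ : Measure Ω} [IsFiniteMeasure μ] {V : Ω → ℝ} (hV : Measurable V)
    (h0 : ∀ z, 0 ≤ V z) (h1 : ∀ z, V z ≤ 1) (α β γ : ℝ) :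
    Integrable (fun z => α * V z ^ 2 - β * V z + γ) μ := by
  have hVi := integrable_bdd (μ := μ) hV h0 h1
  have hVi2 := integrable_sq_bdd (μ := μ) hV h0 h1
  have i1 : Integrable (fun z => α * V z ^ 2) μ := hVi2.const_mul α
  have i2 : Integrable (fun z => β * V z) μ := hVi.const_mul β
  have i3 : Integrable (fun z => α * V z ^ 2 - β * V z) μ := i1.sub i2
  exact i3.add (integrable_const γ)

lemma integral_quad {μ : Measure Ω} [IsFiniteMeasure μ] {V : Ω → ℝ} (hV : Measurable V)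
    (h0 : ∀ z, 0 ≤ V z) (h1 : ∀ z, V z ≤ 1) (α β γ : ℝ) :
    ∫ z, (α * V z ^ 2 - β * V z + γ) ∂μ =
      α * (∫ z, V z ^ 2 ∂μ) - β * (∫ z, V z ∂μ) + γ * μ.real Set.univ := by
  have hVi := integrable_bdd (μ := μ) hV h0 h1
  have hVi2 := integrable_sq_bdd (μ := μ) hV h0 h1
  have i1 : Integrable (fun z => α * V z ^ 2) μ := hVi2.const_mul α
  have i2 : Integrable (fun z => β * V z) μ := hVi.const_mul β
  have i3 : Integrable (fun z => α * V z ^ 2 - β * V z) μ := i1.sub i2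
  have e1 : ∫ z, (α * V z ^ 2 - β * V z + γ) ∂μ =
      ∫ z, (α * V z ^ 2 - β * V z) ∂μ + ∫ _, γ ∂μ := integral_add i3 (integrable_const γ)
  have e2 : ∫ z, (α * V z ^ 2 - β * V z) ∂μ =
      ∫ z, α * V z ^ 2 ∂μ - ∫ z, β * V z ∂μ := integral_sub i1 i2
  rw [e1, e2, integral_const_mul, integral_const_mul, integral_const, smul_eq_mul]
  ring

/-- The double integral of `(V z - W w)²` for finite measures of mass `b`. -/
lemma lintegral_sq_diff {μ ν : Measure Ω} [IsFiniteMeasure μ] [IsFiniteMeasure ν] {b : ℝ}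
    (hb : μ.real Set.univ = b) (hb' : ν.real Set.univ = b) {V W : Ω → ℝ} (hV : Measurable V)
    (hW : Measurable W)
    (h0 : ∀ z, 0 ≤ V z) (h1 : ∀ z, V z ≤ 1) (h0' : ∀ z, 0 ≤ W z) (h1' : ∀ z, W z ≤ 1) :
    ∫⁻ z, ∫⁻ w, ENNReal.ofReal ((V z - W w) ^ 2) ∂ν ∂μ =
      ENNReal.ofReal (b * (∫ z, V z ^ 2 ∂μ) + b * (∫ w, W w ^ 2 ∂ν) -
        2 * (∫ z, V z ∂μ) * (∫ w, W w ∂ν)) := by
  have hsq : ∀ z, (fun w => (V z - W w) ^ 2) = fun w => 1 * W w ^ 2 - (2 * V z) * W w + V z ^ 2 := by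
    intro z; funext w; ring
  have hinner0 : ∀ z, ∫ w, (V z - W w) ^ 2 ∂ν =
      b * V z ^ 2 - (2 * ∫ w, W w ∂ν) * V z + ∫ w, W w ^ 2 ∂ν := by
    intro z
    rw [hsq z, integral_quad hW h0' h1', hb']
    ring
  have hinner : ∀ z, ∫⁻ w, ENNReal.ofReal ((V z - W w) ^ 2) ∂ν =
      ENNReal.ofReal (b * V z ^ 2 - (2 * ∫ w, W w ∂ν) * V z + ∫ w, W w ^ 2 ∂ν) := by
    intro z
    have hint : Integrable (fun w => (V z - W w) ^ 2) ν := by
      rw [hsq z]; exact integrable_quad hW h0' h1' _ _ _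
    rw [← ofReal_integral_eq_lintegral_ofReal hint
      (Filter.Eventually.of_forall fun w => sq_nonneg _), hinner0 z]
  simp only [hinner]
  rw [← ofReal_integral_eq_lintegral_ofReal (integrable_quad hV h0 h1 _ _ _)]
  · rw [integral_quad hV h0 h1, hb]
    congr 1
    ring
  · refine Filter.Eventually.of_forall fun z => ?_
    have h3 : 0 ≤ ∫ w, (V z - W w) ^ 2 ∂ν := integral_nonneg fun w => sq_nonneg _
    rw [hinner0 z] at h3
    exact h3

/-- Cauchy–Schwarz. -/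
lemma sq_integral_le_b {μ : Measure Ω} [IsFiniteMeasure μ] {b : ℝ} (hb : μ.real Set.univ = b)
    {V : Ω → ℝ} (hV : Measurable V) (h0 : ∀ z, 0 ≤ V z) (h1 : ∀ z, V z ≤ 1) (hb0 : 0 < b) :
    (∫ z, V z ∂μ) ^ 2 ≤ b * ∫ z, V z ^ 2 ∂μ := by
  set I := ∫ z, V z ∂μ with hI
  have h2 : 0 ≤ ∫ z, (b * V z - I) ^ 2 ∂μ := integral_nonneg fun z => sq_nonneg _
  have e : (fun z => (b * V z - I) ^ 2) = fun z => b ^ 2 * V z ^ 2 - (2 * b * I) * V z + I ^ 2 := by
    funext z; ring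
  rw [e, integral_quad hV h0 h1, hb, ← hI] at h2
  have h3 : 0 ≤ b * (b * ∫ z, V z ^ 2 ∂μ - I ^ 2) := by nlinarith
  have h4 : 0 ≤ b * ∫ z, V z ^ 2 ∂μ - I ^ 2 := by
    by_contra hcon
    push Not at hcon
    nlinarith
  linarith

/-- Suprema over a finite set are stable. -/
lemma sup_sq_diff_le {I : Type*} (s : Finset I) (f g : I → ℝ≥0) :
    (((s.sup f : ℝ≥0) : ℝ) - ((s.sup g : ℝ≥0) : ℝ)) ^ 2 ≤ ∑ i ∈ s, ((f i : ℝ) - (g i : ℝ)) ^ 2 := by
  wlog h : s.sup g ≤ s.sup f generalizing f g with H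
  · have := H g f (le_of_not_ge h)
    calc _ = (((s.sup g : ℝ≥0) : ℝ) - ((s.sup f : ℝ≥0) : ℝ)) ^ 2 := by ring
      _ ≤ _ := this
      _ = _ := Finset.sum_congr rfl fun i _ => by ring
  rcases s.eq_empty_or_nonempty with rfl | hs
  · simp
  obtain ⟨i, hi, hfi⟩ := Finset.exists_mem_eq_sup s hs f
  have hgi : g i ≤ s.sup g := Finset.le_sup hi
  rw [hfi] at h ⊢
  have h1 : ((s.sup g : ℝ≥0) : ℝ) ≤ (f i : ℝ) := by exact_mod_cast h
  have h2 : (g i : ℝ) ≤ ((s.sup g : ℝ≥0) : ℝ) := by exact_mod_cast hgi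
  calc ((f i : ℝ) - ((s.sup g : ℝ≥0) : ℝ)) ^ 2 ≤ ((f i : ℝ) - (g i : ℝ)) ^ 2 := by
        apply pow_le_pow_left₀ (by linarith)
        linarith
    _ ≤ _ := Finset.single_le_sum (f := fun i => ((f i : ℝ) - (g i : ℝ)) ^ 2)
        (fun i _ => sq_nonneg _) hi

lemma toNNReal_sq_diff_le (a b : ℝ) :
    ((a.toNNReal : ℝ) - (b.toNNReal : ℝ)) ^ 2 ≤ (a - b) ^ 2 := by
  rw [Real.coe_toNNReal', Real.coe_toNNReal']
  rw [sq_le_sq]
  exact abs_max_sub_max_le_abs a b 0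

lemma measurable_finset_sup {I : Type*} (s : Finset I) {f : I → Ω → ℝ≥0}
    (hf : ∀ i ∈ s, Measurable (f i)) : Measurable (fun z => s.sup (fun i => f i z)) := by
  classical
  induction s using Finset.induction_on with
  | empty => simp
  | insert a s ha ih =>
    simp only [Finset.sup_insert]
    exact (hf a (Finset.mem_insert_self a s)).sup
      (ih fun i hi => hf i (Finset.mem_insert_of_mem hi))

end H80.Gon
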