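import Pool.Agent.H80.Gon.M16a
import Pool.Agent.H80.Gon.M16b

/-!
M16c: the fibrewise maxima of the cut-off functions.
-/

open Matrix MatrixGroups UpperHalfPlane ModularGroup MeasureTheory
open scoped ENNReal NNReal

namespace H80.Gon

lemma uu_nonneg (x₀ : ℂ) (r : ℝ) (a : ℂ) : 0 ≤ uu x₀ r a := by
  unfold uu; positivity

lemma uu_le_one (x₀ : ℂ) (r : ℝ) (a : ℂ) : uu x₀ r a ≤ 1 := by
  unfold uu
  apply div_le_one_of_le₀ _ (by positivity)
  nlinarith [norm_nonneg (a - x₀), sq_nonneg ‖a - x₀‖]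

lemma measurable_uu (x₀ : ℂ) (r : ℝ) : Measurable (uu x₀ r) := by
  unfold uu
  fun_prop

/-- The cut-off of `u` at `1/5`. -/
noncomputable def cut (x₀ : ℂ) (r : ℝ) (a : ℂ) : ℝ≥0 := (uu x₀ r a - 1 / 5).toNNReal

lemma cut_le_one (x₀ : ℂ) (r : ℝ) (a : ℂ) : cut x₀ r a ≤ 1 := by
  unfold cut
  rw [Real.toNNReal_le_one]
  linarith [uu_le_one x₀ r a]

lemma measurable_cut (x₀ : ℂ) (r : ℝ) : Measurable (cut x₀ r) :=
  ((measurable_uu x₀ r).sub_const _).real_toNNReal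

lemma cut_ge {x₀ : ℂ} {r : ℝ} (hr : 0 < r) {a : ℂ} (h : ‖a - x₀‖ ≤ r) :
    (3 / 10 : ℝ) ≤ (cut x₀ r a : ℝ) := by
  unfold cut uu
  rw [Real.coe_toNNReal']
  apply le_max_of_le_left
  have h1 : ‖a - x₀‖ ^ 2 ≤ r ^ 2 := by gcongr
  have h2 : (1 / 2 : ℝ) ≤ r ^ 2 / (r ^ 2 + ‖a - x₀‖ ^ 2) := by
    rw [le_div_iff₀ (by positivity)]
    linarith
  linarith

lemma cut_eq_zero {x₀ : ℂ} {r : ℝ} (hr : 0 < r) {a : ℂ} (h : 2 * r < ‖a - x₀‖) :
    cut x₀ r a = 0 := by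
  unfold cut uu
  rw [Real.toNNReal_eq_zero]
  have h1 : (2 * r) ^ 2 ≤ ‖a - x₀‖ ^ 2 := by gcongr
  have h2 : r ^ 2 / (r ^ 2 + ‖a - x₀‖ ^ 2) ≤ (1 / 5 : ℝ) := by
    rw [div_le_iff₀ (by positivity)]
    nlinarith
  linarith

section fam

variable {N : ℕ} [NeZero N] {I : Type} [Fintype I] [MulAction SL(2, ℤ) I]
  (π : I → SL(2, ZMod N)) (xI : I → ℂ → ℂ) (x₀ : ℂ) (r : ℝ)

open Classical in
/-- The fibrewise maximum. -/
noncomputable def VV (g : SL(2, ZMod N)) (z : ℍ) : ℝ≥0 :=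
  (Finset.univ.filter (fun i => π i = g)).sup (fun i => cut x₀ r (xI i (z : ℂ)))

lemma VV_le_one (g : SL(2, ZMod N)) (z : ℍ) : VV π xI x₀ r g z ≤ 1 := by
  classical
  exact Finset.sup_le fun i _ => cut_le_one _ _ _

lemma VV_smul (hπ : ∀ (σ : SL(2, ℤ)) i, π (σ • i) = red N σ * π i)
    (hx : ∀ (σ : SL(2, ℤ)) (i : I) (z : ℍ), xI i ((σ • z : ℍ) : ℂ) = xI (σ⁻¹ • i) (z : ℂ))
    (σ : SL(2, ℤ)) (g : SL(2, ZMod N)) (z : ℍ) :
    VV π xI x₀ r g (σ • z) = VV π xI x₀ r ((red N σ)⁻¹ * g) z := by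
  classical
  unfold VV
  apply le_antisymm
  · refine Finset.sup_le fun i hi => ?_
    rw [Finset.mem_filter] at hi
    rw [hx σ i z]
    refine Finset.le_sup (f := fun i => cut x₀ r (xI i (z : ℂ))) ?_
    rw [Finset.mem_filter, hπ, map_inv, hi.2]
    exact ⟨Finset.mem_univ _, rfl⟩
  · refine Finset.sup_le fun j hj => ?_
    rw [Finset.mem_filter] at hj
    have h1 : xI j (z : ℂ) = xI (σ • j) ((σ • z : ℍ) : ℂ) := by
      rw [hx σ (σ • j) z, inv_smul_smul]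
    rw [h1]
    refine Finset.le_sup (f := fun i => cut x₀ r (xI i ((σ • z : ℍ) : ℂ))) ?_
    rw [Finset.mem_filter, hπ, hj.2, mul_inv_cancel_left]
    exact ⟨Finset.mem_univ _, rfl⟩

lemma measurable_VV (hm : ∀ i, Measurable (fun z : ℍ => xI i (z : ℂ))) (g : SL(2, ZMod N)) :
    Measurable (fun z : ℍ => ((VV π xI x₀ r g z : ℝ≥0) : ℝ)) := by
  classical
  refine measurable_coe_nnreal_real.comp ?_
  exact measurable_finset_sup _ fun i _ => (measurable_cut x₀ r).comp (hm i)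

lemma VV_sq_diff (g : SL(2, ZMod N)) (z w : ℍ) :
    (((VV π xI x₀ r g z : ℝ≥0) : ℝ) - ((VV π xI x₀ r g w : ℝ≥0) : ℝ)) ^ 2 ≤
      ∑ i, if π i = g then (uu x₀ r (xI i z) - uu x₀ r (xI i w)) ^ 2 else 0 := by
  classical
  refine (sup_sq_diff_le _ _ _).trans ?_
  rw [← Finset.sum_filter]
  refine Finset.sum_le_sum fun i _ => ?_
  refine (toNNReal_sq_diff_le _ _).trans (le_of_eq ?_)
  ring

/-- Energies add up. -/
lemma sum_Q_le (hm : ∀ i, Measurable (fun z : ℍ => xI i (z : ℂ))) :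
    ∑ g : SL(2, ZMod N), ∫⁻ z in KH, ∫⁻ w in KH, ENNReal.ofReal
      ((((VV π xI x₀ r g z : ℝ≥0) : ℝ) - ((VV π xI x₀ r g w : ℝ≥0) : ℝ)) ^ 2) ≤
    ∑ i, ∫⁻ z in KH, ∫⁻ w in KH, ENNReal.ofReal ((uu x₀ r (xI i z) - uu x₀ r (xI i w)) ^ 2) := by
  classical
  have hmu : ∀ i, Measurable (fun z : ℍ => uu x₀ r (xI i (z : ℂ))) := fun i =>
    (measurable_uu x₀ r).comp (hm i)
  obtain ⟨Φ, hΦdef⟩ : ∃ Φ : I → ℍ → ℍ → ℝ≥0∞, Φ = fun i (z w : ℍ) =>
    ENNReal.ofReal ((uu x₀ r (xI i (z : ℂ)) - uu x₀ r (xI i (w : ℂ))) ^ 2) := ⟨_, rfl⟩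
  have hΦ : ∀ i, Measurable (Function.uncurry (Φ i)) := by
    intro i
    rw [hΦdef]
    exact (((hmu i).comp measurable_fst).sub ((hmu i).comp measurable_snd)).pow_const 2
      |>.ennreal_ofReal
  have hΦe : ∀ i, ∫⁻ z in KH, ∫⁻ w in KH, ENNReal.ofReal
      ((uu x₀ r (xI i z) - uu x₀ r (xI i w)) ^ 2) = ∫⁻ z in KH, ∫⁻ w in KH, Φ i z w := by
    intro i; rw [hΦdef]
  have h1 : ∀ g : SL(2, ZMod N), ∫⁻ z in KH, ∫⁻ w in KH, ENNReal.ofReal
      ((((VV π xI x₀ r g z : ℝ≥0) : ℝ) - ((VV π xI x₀ r g w : ℝ≥0) : ℝ)) ^ 2) ≤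
      ∑ i, if π i = g then (∫⁻ z in KH, ∫⁻ w in KH, Φ i z w) else 0 := by
    intro g
    have e1 : ∫⁻ z in KH, ∫⁻ w in KH, ENNReal.ofReal
      ((((VV π xI x₀ r g z : ℝ≥0) : ℝ) - ((VV π xI x₀ r g w : ℝ≥0) : ℝ)) ^ 2) ≤
      ∫⁻ z in KH, ∫⁻ w in KH, ∑ i ∈ Finset.univ.filter (fun i => π i = g), Φ i z w := by
      refine lintegral_mono fun z => lintegral_mono fun w => ?_
      refine (ENNReal.ofReal_le_ofReal (VV_sq_diff π xI x₀ r g z w)).trans ?_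
      rw [← Finset.sum_filter, ENNReal.ofReal_sum_of_nonneg fun i _ => sq_nonneg _, hΦdef]
    have e2 : ∀ z : ℍ, ∫⁻ w in KH, ∑ i ∈ Finset.univ.filter (fun i => π i = g), Φ i z w =
        ∑ i ∈ Finset.univ.filter (fun i => π i = g), ∫⁻ w in KH, Φ i z w := by
      intro z
      exact lintegral_finsetSum _ fun i _ => (hΦ i).of_uncurry_left
    have e3 : ∫⁻ z in KH, ∑ i ∈ Finset.univ.filter (fun i => π i = g), ∫⁻ w in KH, Φ i z w =
        ∑ i ∈ Finset.univ.filter (fun i => π i = g), ∫⁻ z in KH, ∫⁻ w in KH, Φ i z w :=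
      lintegral_finsetSum _ fun i _ => (hΦ i).lintegral_prod_right'
    rw [← Finset.sum_filter, ← e3]
    refine e1.trans (le_of_eq ?_)
    exact lintegral_congr fun z => e2 z
  refine (Finset.sum_le_sum fun g _ => h1 g).trans ?_
  rw [Finset.sum_comm]
  refine Finset.sum_le_sum fun i _ => ?_
  rw [Finset.sum_ite_eq, hΦe i]
  simp

end fam

/-- Measurability of the functions of the family. -/
lemma measurable_of_family (x : ℂ → ℂ) (P : Set ℂ) (hP : P.Countable)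
    (hopen : IsOpen ({z : ℂ | 0 < z.im} \ P)) (hd : DifferentiableOn ℂ x ({z : ℂ | 0 < z.im} \ P)) :
    Measurable (fun z : ℍ => x (z : ℂ)) := by
  let O : Set ℍ := {z : ℍ | (z : ℂ) ∈ {z : ℂ | 0 < z.im} \ P}
  have hO : IsOpen O := hopen.preimage continuous_coe
  have hc : Oᶜ.Countable := by
    have : Oᶜ ⊆ (UpperHalfPlane.coe) ⁻¹' P := by
      intro z hz
      by_contra hcon
      exact hz ⟨z.im_pos, hcon⟩
    refine Set.Countable.mono this ?_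
    exact hP.preimage_of_injOn (fun a _ b _ h => UpperHalfPlane.ext h)
  refine measurable_of_restrict_of_restrict_compl hO.measurableSet ?_ ?_
  · have hcont : ContinuousOn (fun z : ℍ => x (z : ℂ)) O :=
      hd.continuousOn.comp continuous_coe.continuousOn (fun z hz => hz)
    exact (continuousOn_iff_continuous_domRestrict.mp hcont).measurable
  · haveI : Countable (Oᶜ : Set ℍ) := hc.to_subtype
    exact measurable_of_countable _

end H80.Gon
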