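import Mathlib

/-!
M9n: the numerical part of the spectral gap.
-/

namespace H80.Gon

open Real

lemma exists_k (D : ℝ) : ∃ k : ℕ, 1 ≤ k ∧ D * (k + 1) ≤ (2 : ℝ) ^ ((k : ℝ) / 40) := by
  have h1 : Filter.Tendsto (fun k : ℕ => D * ((k : ℝ) + 1) / (2 : ℝ) ^ ((k : ℝ) / 40))
      Filter.atTop (nhds 0) := by
    have hr : |((2 : ℝ) ^ (1 / 40 : ℝ))⁻¹| < 1 := by
      rw [abs_of_pos (by positivity)]
      apply inv_lt_one_of_one_lt₀
      exact Real.one_lt_rpow (by norm_num) (by norm_num)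
    have h2 := tendsto_self_mul_const_pow_of_abs_lt_one hr
    have h3 := tendsto_pow_atTop_nhds_zero_of_abs_lt_one hr
    have h4 := ((h2.add h3).const_mul D)
    rw [add_zero, mul_zero] at h4
    refine h4.congr fun k => ?_
    have : (2 : ℝ) ^ ((k : ℝ) / 40) = ((2 : ℝ) ^ (1 / 40 : ℝ)) ^ k := by
      rw [← Real.rpow_natCast, ← Real.rpow_mul (by norm_num)]
      congr 1; ring
    rw [this, inv_pow]
    field_simp
  have h2 := (h1.eventually (gt_mem_nhds (zero_lt_one))).and (Filter.eventually_ge_atTop 1)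
  obtain ⟨k, hk1, hk2⟩ := h2.exists
  refine ⟨k, hk2, ?_⟩
  rw [div_lt_one (by positivity)] at hk1
  exact hk1.le

theorem numeric (c C C1 C2 : ℝ) (hc : 0 < c) (hC : 0 < C) (hC1 : 0 < C1) (hC2 : 0 < C2) :
    ∃ k : ℕ, 1 ≤ k ∧ ∃ N₀ : ℕ, ∃ κ : ℝ, 0 ≤ κ ∧ κ < 1 ∧ ∀ N : ℕ, N₀ ≤ N → ∀ s lam dim τ : ℝ,
      c * 4 ^ k ≤ s → 0 ≤ dim → 0 ≤ τ → (N : ℝ) ≤ 2 * τ ^ 2 * dim → τ ≤ C1 * (N : ℝ) ^ (1 / 40 : ℝ) →
      (∀ n : ℕ, N ^ 4 ≤ 2 * (4 ^ k) ^ (2 * n) →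
        dim * lam ^ (2 * n) ≤ (N : ℝ) ^ 3 * ((C * (k + 1) * 2 ^ k) ^ (2 * n) *
          (√2 * (C2 * (2 * (4 ^ k) ^ (2 * n) : ℝ) ^ (1 / 40 : ℝ) *
            (1 + (2 * (4 ^ k) ^ (2 * n) : ℝ) / (N : ℝ) ^ 5))))) →
      lam ≤ κ * s := by
  obtain ⟨k, hk, hkD⟩ := exists_k (C / c)
  set C3 : ℝ := 2 * C1 ^ 2 * (√2 * C2) * (2 * 16 ^ k) * (3 * 16 ^ k) with hC3
  have hC3pos : 0 < C3 := by positivity
  -- choose N₀
  have hN : ∃ N₀ : ℕ, 1 ≤ N₀ ∧ 16 ^ k < N₀ ^ 5 ∧ ∀ N : ℕ, N₀ ≤ N →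
      C3 ≤ (N : ℝ) ^ (0.1375 : ℝ) := by
    have h1 : Filter.Tendsto (fun N : ℕ => (N : ℝ) ^ (0.1375 : ℝ)) Filter.atTop Filter.atTop :=
      (tendsto_rpow_atTop (by norm_num)).comp tendsto_natCast_atTop_atTop
    obtain ⟨M, hM⟩ := Filter.eventually_atTop.mp (h1.eventually_ge_atTop C3)
    obtain ⟨B, hB⟩ : ∃ B : ℕ, B = 16 ^ k := ⟨_, rfl⟩
    rw [← hB]
    refine ⟨M + B + 1, by omega, ?_, fun N hN => hM N (by omega)⟩
    calc B < (M + B + 1) ^ 1 := by rw [pow_one]; omega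
      _ ≤ (M + B + 1) ^ 5 := Nat.pow_le_pow_right (by omega) (by norm_num)
  obtain ⟨N₀, hN₀1, hN₀5, hN₀C⟩ := hN
  have h4k : (1 : ℝ) < 4 ^ k := one_lt_pow₀ (by norm_num) (by omega)
  refine ⟨k, hk, N₀, ((4 : ℝ) ^ k) ^ (-(1 / 80) : ℝ), by positivity,
    Real.rpow_lt_one_of_one_lt_of_neg h4k (by norm_num), ?_⟩
  intro N hN s lam dim τ hs hdim hτ0 hNdim hτ hmain
  have hN1 : 1 ≤ N := le_trans hN₀1 hN
  have hNpos : (0 : ℝ) < N := by exact_mod_cast hN1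
  have hNone : (1 : ℝ) ≤ N := by exact_mod_cast hN1
  have hspos : 0 < s := lt_of_lt_of_le (by positivity) hs
  rcases le_or_gt lam 0 with hlam | hlam
  · exact hlam.trans (by positivity)
  -- choose n
  have hex : ∃ n : ℕ, N ^ 5 ≤ (4 ^ k) ^ (2 * n) := by
    have h4 : 1 < 4 ^ k := Nat.one_lt_pow (by omega) (by norm_num)
    refine ⟨N ^ 5, ?_⟩
    calc N ^ 5 ≤ 2 * N ^ 5 := by omega
      _ ≤ (4 ^ k) ^ (2 * N ^ 5) := (Nat.lt_pow_self h4).le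
  classical
  set n := Nat.find hex with hn
  have hn1 : N ^ 5 ≤ (4 ^ k) ^ (2 * n) := Nat.find_spec hex
  have hn2 : 2 ≤ n := by
    by_contra hcon
    push Not at hcon
    have h16 : (4 ^ k) ^ (2 * n) ≤ 16 ^ k := by
      calc (4 ^ k) ^ (2 * n) ≤ (4 ^ k) ^ 2 := Nat.pow_le_pow_right (by positivity) (by omega)
        _ = 16 ^ k := by rw [← pow_mul, mul_comm, pow_mul]; norm_num
    have : N₀ ^ 5 ≤ N ^ 5 := Nat.pow_le_pow_left hN 5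
    omega
  have hn3 : (4 ^ k) ^ (2 * (n - 1)) < N ^ 5 := by
    have := Nat.find_min hex (m := n - 1) (by omega)
    push Not at this
    exact this
  have hA : (4 ^ k) ^ (2 * n) < 16 ^ k * N ^ 5 := by
    have : (4 ^ k) ^ (2 * n) = 16 ^ k * (4 ^ k) ^ (2 * (n - 1)) := by
      have h1 : 2 * n = 2 + 2 * (n - 1) := by omega
      rw [h1, pow_add]
      congr 1
      rw [← pow_mul, mul_comm, pow_mul]; norm_num
    rw [this]
    exact Nat.mul_lt_mul_of_pos_left hn3 (by positivity)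
  set A : ℝ := ((4 : ℝ) ^ k) ^ (2 * n) with hAdef
  have hA1 : (N : ℝ) ^ 5 ≤ A := by rw [hAdef]; exact_mod_cast hn1
  have hA2 : A ≤ 16 ^ k * (N : ℝ) ^ 5 := by rw [hAdef]; exact_mod_cast hA.le
  have hApos : 0 < A := by positivity
  have hN4 : N ^ 4 ≤ 2 * (4 ^ k) ^ (2 * n) := by
    calc N ^ 4 ≤ N ^ 5 := Nat.pow_le_pow_right hN1 (by norm_num)
      _ ≤ (4 ^ k) ^ (2 * n) := hn1
      _ ≤ _ := by omega
  have hm := hmain n hN4
  rw [← hAdef] at hm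
  -- x = lam / s
  set x := lam / s with hx
  have hxpos : 0 < x := div_pos hlam hspos
  have hlamx : lam = x * s := by rw [hx]; field_simp
  set θ : ℝ := C * (k + 1) * 2 ^ k / s with hθ
  have hθ0 : 0 ≤ θ := by positivity
  have hθ1 : θ ≤ (2 : ℝ) ^ (-((39 / 40) * k) : ℝ) := by
    have h1 : θ ≤ C * (k + 1) * 2 ^ k / (c * 4 ^ k) := by
      rw [hθ]; gcongr
    have h2 : C * (k + 1) * 2 ^ k / (c * 4 ^ k) = (C / c * (k + 1)) * (2 : ℝ) ^ (-(k : ℝ)) := by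
      rw [Real.rpow_neg (by norm_num), Real.rpow_natCast]
      have : (4 : ℝ) ^ k = 2 ^ k * 2 ^ k := by rw [← mul_pow]; norm_num
      rw [this]
      field_simp
    rw [h2] at h1
    calc θ ≤ _ := h1
      _ ≤ (2 : ℝ) ^ ((k : ℝ) / 40) * (2 : ℝ) ^ (-(k : ℝ)) := by gcongr
      _ = _ := by
          rw [← Real.rpow_add (by norm_num)]
          congr 1; ring
  -- bound on θ^(2n)
  have hθn : θ ^ (2 * n) ≤ (N : ℝ) ^ (-(39 / 16) : ℝ) := by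
    calc θ ^ (2 * n) ≤ ((2 : ℝ) ^ (-((39 / 40) * k) : ℝ)) ^ (2 * n) := by gcongr
      _ = A ^ (-(39 / 80) : ℝ) := by
          rw [hAdef, ← Real.rpow_natCast, ← Real.rpow_mul (by norm_num), ← Real.rpow_natCast,
            ← Real.rpow_natCast, ← Real.rpow_mul (by norm_num), ← Real.rpow_mul (by norm_num)]
          have : (4 : ℝ) = 2 ^ (2 : ℝ) := by norm_num
          rw [this, ← Real.rpow_mul (by norm_num)]
          congr 1
          push_cast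
          ring
      _ ≤ ((N : ℝ) ^ 5) ^ (-(39 / 80) : ℝ) := by
          apply Real.rpow_le_rpow_of_nonpos (by positivity) hA1 (by norm_num)
      _ = _ := by
          rw [← Real.rpow_natCast, ← Real.rpow_mul hNpos.le]
          congr 1
          norm_num
  -- bounds on the other factors
  have h16 : (1 : ℝ) ≤ 16 ^ k := one_le_pow₀ (by norm_num)
  have hY1 : (2 * A) ^ (1 / 40 : ℝ) ≤ (2 * 16 ^ k) * (N : ℝ) ^ (1 / 8 : ℝ) := by
    calc (2 * A) ^ (1 / 40 : ℝ) ≤ ((2 * 16 ^ k) * (N : ℝ) ^ 5) ^ (1 / 40 : ℝ) := by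
          apply Real.rpow_le_rpow (by positivity) (by linarith) (by norm_num)
      _ = (2 * 16 ^ k) ^ (1 / 40 : ℝ) * (N : ℝ) ^ (1 / 8 : ℝ) := by
          rw [Real.mul_rpow (by positivity) (by positivity), ← Real.rpow_natCast (N : ℝ) 5,
            ← Real.rpow_mul hNpos.le]
          norm_num
      _ ≤ _ := by
          gcongr
          calc (2 * 16 ^ k : ℝ) ^ (1 / 40 : ℝ) ≤ (2 * 16 ^ k : ℝ) ^ (1 : ℝ) :=
                Real.rpow_le_rpow_of_exponent_le (by linarith) (by norm_num)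
            _ = _ := Real.rpow_one _
  have hY2 : 1 + 2 * A / (N : ℝ) ^ 5 ≤ 3 * 16 ^ k := by
    have : 2 * A / (N : ℝ) ^ 5 ≤ 2 * 16 ^ k := by
      rw [div_le_iff₀ (by positivity)]
      linarith
    linarith
  -- combine
  have hdim2 : (N : ℝ) ≤ 2 * (C1 * (N : ℝ) ^ (1 / 40 : ℝ)) ^ 2 * dim := by
    calc (N : ℝ) ≤ 2 * τ ^ 2 * dim := hNdim
      _ ≤ _ := by gcongr
  have hkey : (N : ℝ) * x ^ (2 * n) ≤ C3 * (N : ℝ) ^ ((3 : ℝ) - 39 / 16 + 1 / 8 + 1 / 20) := by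
    have h1 : (N : ℝ) * lam ^ (2 * n) ≤ 2 * (C1 * (N : ℝ) ^ (1 / 40 : ℝ)) ^ 2 *
        ((N : ℝ) ^ 3 * ((C * (k + 1) * 2 ^ k) ^ (2 * n) *
          (√2 * (C2 * (2 * A) ^ (1 / 40 : ℝ) * (1 + (2 * A) / (N : ℝ) ^ 5))))) := by
      calc (N : ℝ) * lam ^ (2 * n) ≤ (2 * (C1 * (N : ℝ) ^ (1 / 40 : ℝ)) ^ 2 * dim) *
            lam ^ (2 * n) := by gcongr
        _ = 2 * (C1 * (N : ℝ) ^ (1 / 40 : ℝ)) ^ 2 * (dim * lam ^ (2 * n)) := by ring
        _ ≤ _ := by gcongr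
    have h2 : (N : ℝ) * x ^ (2 * n) ≤ 2 * (C1 * (N : ℝ) ^ (1 / 40 : ℝ)) ^ 2 *
        ((N : ℝ) ^ 3 * (θ ^ (2 * n) *
          (√2 * (C2 * (2 * A) ^ (1 / 40 : ℝ) * (1 + (2 * A) / (N : ℝ) ^ 5))))) := by
      have hsn : 0 < s ^ (2 * n) := by positivity
      rw [hx, hθ, div_pow, div_pow]
      rw [mul_div_assoc', div_le_iff₀ hsn]
      calc (N : ℝ) * lam ^ (2 * n) ≤ _ := h1
        _ = _ := by field_simp
    calc (N : ℝ) * x ^ (2 * n) ≤ _ := h2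
      _ ≤ 2 * (C1 * (N : ℝ) ^ (1 / 40 : ℝ)) ^ 2 *
        ((N : ℝ) ^ 3 * ((N : ℝ) ^ (-(39 / 16) : ℝ) *
          (√2 * (C2 * ((2 * 16 ^ k) * (N : ℝ) ^ (1 / 8 : ℝ)) * (3 * 16 ^ k))))) := by gcongr
      _ = C3 * ((N : ℝ) ^ (3 : ℝ) * (N : ℝ) ^ (-(39 / 16) : ℝ) * (N : ℝ) ^ (1 / 8 : ℝ) *
            ((N : ℝ) ^ (1 / 40 : ℝ)) ^ (2 : ℕ)) := by
          have h3 : (N : ℝ) ^ (3 : ℝ) = (N : ℝ) ^ 3 := by exact_mod_cast Real.rpow_natCast (N : ℝ) 3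
          rw [h3, hC3]
          ring
      _ = _ := by
          rw [← Real.rpow_natCast ((N : ℝ) ^ (1 / 40 : ℝ)) 2, ← Real.rpow_mul hNpos.le,
            ← Real.rpow_add hNpos, ← Real.rpow_add hNpos, ← Real.rpow_add hNpos]
          norm_num
  have hx2n : x ^ (2 * n) ≤ (N : ℝ) ^ (-(1 / 8) : ℝ) := by
    have h1 : x ^ (2 * n) ≤ C3 * (N : ℝ) ^ ((3 : ℝ) - 39 / 16 + 1 / 8 + 1 / 20 - 1) := by
      rw [Real.rpow_sub_one hNpos.ne', mul_div_assoc', le_div_iff₀ hNpos]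
      linarith
    calc x ^ (2 * n) ≤ _ := h1
      _ ≤ (N : ℝ) ^ (0.1375 : ℝ) * (N : ℝ) ^ ((3 : ℝ) - 39 / 16 + 1 / 8 + 1 / 20 - 1) := by
          gcongr
          exact hN₀C N hN
      _ = _ := by
          rw [← Real.rpow_add hNpos]
          norm_num
  have hfin : x ^ (2 * n) ≤ (((4 : ℝ) ^ k) ^ (-(1 / 80) : ℝ)) ^ (2 * n) := by
    calc x ^ (2 * n) ≤ (N : ℝ) ^ (-(1 / 8) : ℝ) := hx2n
      _ = ((N : ℝ) ^ 5) ^ (-(1 / 40) : ℝ) := by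
          rw [← Real.rpow_natCast, ← Real.rpow_mul hNpos.le]
          norm_num
      _ ≤ (((4 : ℝ) ^ k) ^ (2 * (n - 1))) ^ (-(1 / 40) : ℝ) := by
          apply Real.rpow_le_rpow_of_nonpos (by positivity) _ (by norm_num)
          exact_mod_cast hn3.le
      _ = ((4 : ℝ) ^ k) ^ ((2 * (n - 1) : ℕ) * (-(1 / 40)) : ℝ) := by
          rw [← Real.rpow_natCast, ← Real.rpow_mul (by positivity)]
      _ ≤ ((4 : ℝ) ^ k) ^ ((-(1 / 80)) * (2 * n : ℕ) : ℝ) := by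
          apply Real.rpow_le_rpow_of_exponent_le h4k.le
          have : (n : ℝ) ≥ 2 := by exact_mod_cast hn2
          rw [Nat.cast_mul, Nat.cast_mul, Nat.cast_sub (by omega)]
          push_cast
          linarith
      _ = _ := by
          rw [Real.rpow_mul (by positivity), Real.rpow_natCast]
  have hxle : x ≤ ((4 : ℝ) ^ k) ^ (-(1 / 80) : ℝ) :=
    le_of_pow_le_pow_left₀ (by omega) (by positivity) hfin
  rw [hlamx]
  exact mul_le_mul_of_nonneg_right hxle hspos.le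

end H80.Gon
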