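import Pool.Agent.H80.Gon.Defs

open Matrix MatrixGroups

namespace H80.Gon

/-- one-sided harmonic bound for separated families -/
lemma M2_sep_sum {ι : Type*} (T : Finset ι) (s : ι → ℝ) (δ μ : ℝ) (L : ℕ) (hδ : 0 < δ) (hμ : 0 < μ)
    (h0 : ∀ x ∈ T, 0 ≤ s x) (hL : ∀ x ∈ T, s x ≤ δ * L)
    (hsep : ∀ x ∈ T, ∀ y ∈ T, x ≠ y → δ ≤ |s x - s y|) :
    ∑ x ∈ T, 1 / max (s x) μ ≤ 1 / μ + (1 / δ) * (1 + Real.log L) := by
  classical
  set h : ℕ → ℝ := fun m => if m = 0 then 1 / μ else 1 / (m * δ) with hh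
  have hnn : ∀ m, 0 ≤ h m := by
    intro m
    simp only [hh]
    split_ifs <;> positivity
  have h1 : ∀ x ∈ T, 1 / max (s x) μ ≤ h ⌊s x / δ⌋₊ := by
    intro x hx
    simp only [hh]
    split_ifs with hz
    · exact one_div_le_one_div_of_le hμ (le_max_right _ _)
    · have h2 : ((⌊s x / δ⌋₊ : ℕ) : ℝ) ≤ s x / δ := Nat.floor_le (div_nonneg (h0 x hx) hδ.le)
      have h3 : ((⌊s x / δ⌋₊ : ℕ) : ℝ) * δ ≤ s x := by
        rwa [le_div_iff₀ hδ] at h2
      have h4 : (0 : ℝ) < (⌊s x / δ⌋₊ : ℕ) := by exact_mod_cast Nat.pos_of_ne_zero hz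
      exact one_div_le_one_div_of_le (by positivity) (h3.trans (le_max_left _ _))
  have hinj : Set.InjOn (fun x => ⌊s x / δ⌋₊) (T : Set ι) := by
    intro x hx y hy hxy
    by_contra hne
    have h2 := hsep x hx y hy hne
    have hx1 : ((⌊s x / δ⌋₊ : ℕ) : ℝ) ≤ s x / δ := Nat.floor_le (div_nonneg (h0 x hx) hδ.le)
    have hy1 : ((⌊s y / δ⌋₊ : ℕ) : ℝ) ≤ s y / δ := Nat.floor_le (div_nonneg (h0 y hy) hδ.le)
    have hx2 : s x / δ < (⌊s x / δ⌋₊ : ℕ) + 1 := Nat.lt_floor_add_one _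
    have hy2 : s y / δ < (⌊s y / δ⌋₊ : ℕ) + 1 := Nat.lt_floor_add_one _
    have hxy' : ((⌊s x / δ⌋₊ : ℕ) : ℝ) = (⌊s y / δ⌋₊ : ℕ) := by
      have : ⌊s x / δ⌋₊ = ⌊s y / δ⌋₊ := hxy
      rw [this]
    have h3 : |s x / δ - s y / δ| < 1 := by
      rw [abs_lt]; constructor <;> linarith
    have h4 : |s x - s y| / δ < 1 := by
      rw [← sub_div, abs_div, abs_of_pos hδ] at h3
      exact h3
    rw [div_lt_one hδ] at h4
    linarith
  calc ∑ x ∈ T, 1 / max (s x) μ ≤ ∑ x ∈ T, h ⌊s x / δ⌋₊ := Finset.sum_le_sum h1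
    _ = ∑ m ∈ T.image (fun x => ⌊s x / δ⌋₊), h m := (Finset.sum_image hinj).symm
    _ ≤ ∑ m ∈ Finset.range (L + 1), h m := by
        apply Finset.sum_le_sum_of_subset_of_nonneg
        · intro m hm
          rw [Finset.mem_image] at hm
          obtain ⟨x, hx, rfl⟩ := hm
          rw [Finset.mem_range]
          have h2 : ((⌊s x / δ⌋₊ : ℕ) : ℝ) ≤ L := by
            refine (Nat.floor_le (div_nonneg (h0 x hx) hδ.le)).trans ?_
            rw [div_le_iff₀ hδ, mul_comm]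
            exact hL x hx
          have h3 : ⌊s x / δ⌋₊ ≤ L := by exact_mod_cast h2
          omega
        · intro m _ _
          exact hnn m
    _ = 1 / μ + (1 / δ) * ((harmonic L : ℚ) : ℝ) := by
        rw [Finset.sum_range_succ']
        simp only [hh]
        rw [harmonic]
        push_cast
        rw [Finset.mul_sum, add_comm]
        congr 1
        apply Finset.sum_congr rfl
        intro i _
        have : (i : ℝ) + 1 ≠ 0 := by positivity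
        field_simp
    _ ≤ 1 / μ + (1 / δ) * (1 + Real.log L) := by
        have := harmonic_le_one_add_log L
        gcongr

/-- the coordinate along `v` -/
noncomputable def M2_xi (v : ℝ × ℝ) (r : ℤ × ℤ) : ℝ := r.1 * v.1 + r.2 * v.2
/-- the coordinate orthogonal to `v` -/
noncomputable def M2_eta (v : ℝ × ℝ) (r : ℤ × ℤ) : ℝ := r.2 * v.1 - r.1 * v.2

lemma M2_pyth (v : ℝ × ℝ) (hv : v.1 ^ 2 + v.2 ^ 2 = 1) (r : ℤ × ℤ) :
    M2_xi v r ^ 2 + M2_eta v r ^ 2 = (r.1 : ℝ) ^ 2 + (r.2 : ℝ) ^ 2 := by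
  have : M2_xi v r ^ 2 + M2_eta v r ^ 2 =
    ((r.1 : ℝ) ^ 2 + (r.2 : ℝ) ^ 2) * (v.1 ^ 2 + v.2 ^ 2) := by
    unfold M2_xi M2_eta; ring
  rw [this, hv, mul_one]

lemma M2_det (v : ℝ × ℝ) (hv : v.1 ^ 2 + v.2 ^ 2 = 1) (r r' : ℤ × ℤ) :
    M2_xi v r * M2_eta v r' - M2_xi v r' * M2_eta v r =
      ((r.1 * r'.2 - r'.1 * r.2 : ℤ) : ℝ) := by
  have : M2_xi v r * M2_eta v r' - M2_xi v r' * M2_eta v r =
    ((r.1 * r'.2 - r'.1 * r.2 : ℤ) : ℝ) * (v.1 ^ 2 + v.2 ^ 2) := by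
    unfold M2_xi M2_eta; push_cast; ring
  rw [this, hv, mul_one]

/-- One sign class of one shell. -/
lemma M2_class (j : ℕ) (v : ℝ × ℝ) (hv : v.1 ^ 2 + v.2 ^ 2 = 1) (e₁ e₂ : ℝ)
    (he₁ : e₁ ^ 2 = 1) (he₂ : e₂ ^ 2 = 1) (T : Finset (ℤ × ℤ))
    (hcop : ∀ r ∈ T, IsCoprime r.1 r.2)
    (hlow : ∀ r ∈ T, (4 : ℤ) ^ j ≤ r.1 ^ 2 + r.2 ^ 2)
    (hupp : ∀ r ∈ T, r.1 ^ 2 + r.2 ^ 2 < (4 : ℤ) ^ (j + 1))
    (hη : ∀ r ∈ T, 0 < e₁ * M2_eta v r) (hξ : ∀ r ∈ T, 0 ≤ e₂ * M2_xi v r)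
    (hle : ∀ r ∈ T, 4 * M2_xi v r ^ 2 ≤ (r.1 : ℝ) ^ 2 + (r.2 : ℝ) ^ 2) :
    ∑ r ∈ T, 1 / max |M2_xi v r| (1 / 2 ^ (j + 2)) ≤ 32 * (j + 1) * 2 ^ j := by
  have he₁' : |e₁| = 1 := by
    rw [← sq_eq_sq₀ (abs_nonneg _) zero_le_one, sq_abs, he₁, one_pow]
  have he₂' : |e₂| = 1 := by
    rw [← sq_eq_sq₀ (abs_nonneg _) zero_le_one, sq_abs, he₂, one_pow]
  have habsη : ∀ r ∈ T, |M2_eta v r| = e₁ * M2_eta v r := by
    intro r hr
    rw [← abs_of_pos (hη r hr), abs_mul, he₁', one_mul]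
  have habsξ : ∀ r ∈ T, |M2_xi v r| = e₂ * M2_xi v r := by
    intro r hr
    rw [← abs_of_nonneg (hξ r hr), abs_mul, he₂', one_mul]
  have hlowR : ∀ r ∈ T, (4 : ℝ) ^ j ≤ (r.1 : ℝ) ^ 2 + (r.2 : ℝ) ^ 2 := by
    intro r hr; exact_mod_cast hlow r hr
  have huppR : ∀ r ∈ T, (r.1 : ℝ) ^ 2 + (r.2 : ℝ) ^ 2 < (4 : ℝ) ^ (j + 1) := by
    intro r hr; exact_mod_cast hupp r hr
  have h42 : (4 : ℝ) ^ j = (2 ^ j) ^ 2 := by
    rw [← pow_mul, mul_comm, pow_mul]; norm_num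
  have h2pos : (0 : ℝ) < 2 ^ j := by positivity
  -- bounds on eta
  have hηlow : ∀ r ∈ T, 2 ^ j / 2 ≤ |M2_eta v r| := by
    intro r hr
    have h1 := M2_pyth v hv r
    have h2 := hle r hr
    have h3 := hlowR r hr
    apply abs_le_of_sq_le_sq' _ (abs_nonneg _) |>.2
    rw [sq_abs]
    rw [h42] at h3
    nlinarith
  have hηupp : ∀ r ∈ T, |M2_eta v r| ≤ 2 ^ (j + 1) := by
    intro r hr
    have h1 := M2_pyth v hv r
    have h3 := huppR r hr
    apply abs_le_of_sq_le_sq _ (by positivity)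
    have : ((2 : ℝ) ^ (j + 1)) ^ 2 = 4 ^ (j + 1) := by
      rw [← pow_mul, mul_comm, pow_mul]; norm_num
    rw [this]
    nlinarith [sq_nonneg (M2_xi v r)]
  -- slopes
  set s : ℤ × ℤ → ℝ := fun r => |M2_xi v r| / |M2_eta v r| with hs
  have hsep : ∀ r ∈ T, ∀ r' ∈ T, r ≠ r' → 1 / 4 ^ (j + 1) ≤ |s r - s r'| := by
    intro r hr r' hr' hne
    have hp := lt_of_lt_of_le (by positivity : (0:ℝ) < 2 ^ j / 2) (hηlow r hr)
    have hp' := lt_of_lt_of_le (by positivity : (0:ℝ) < 2 ^ j / 2) (hηlow r' hr')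
    have hd : s r - s r' = (e₁ * e₂) * (M2_xi v r * M2_eta v r' - M2_xi v r' * M2_eta v r) /
        (|M2_eta v r| * |M2_eta v r'|) := by
      simp only [hs]
      rw [div_sub_div _ _ hp.ne' hp'.ne', habsξ r hr, habsξ r' hr']
      congr 1
      rw [habsη r hr, habsη r' hr']
      ring
    have hD : (1 : ℝ) ≤ |M2_xi v r * M2_eta v r' - M2_xi v r' * M2_eta v r| := by
      rw [M2_det v hv]
      have hnz : r.1 * r'.2 - r'.1 * r.2 ≠ 0 := by
        intro h0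
        apply hne
        obtain ⟨p, q, hpq⟩ := hcop r hr
        have h1 : r'.1 = (p * r'.1 + q * r'.2) * r.1 := by
          linear_combination (-r'.1) * hpq - q * h0
        have h2 : r'.2 = (p * r'.1 + q * r'.2) * r.2 := by
          linear_combination (-r'.2) * hpq + p * h0
        set t := p * r'.1 + q * r'.2 with ht
        have h3 : M2_eta v r' = t * M2_eta v r := by
          unfold M2_eta
          rw [h1, h2]; push_cast; ring
        have h4 : (0 : ℝ) < t := by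
          have h5 := hη r' hr'
          rw [h3] at h5
          have h6 := hη r hr
          by_contra hcon
          push Not at hcon
          nlinarith
        have h4' : 0 < t := by exact_mod_cast h4
        have h5 : t ^ 2 * (r.1 ^ 2 + r.2 ^ 2) < 4 * (r.1 ^ 2 + r.2 ^ 2) := by
          have h6 := hupp r' hr'
          have h7 := hlow r hr
          have h8 : r'.1 ^ 2 + r'.2 ^ 2 = t ^ 2 * (r.1 ^ 2 + r.2 ^ 2) := by
            rw [h1, h2]; ring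
          rw [h8] at h6
          rw [pow_succ (4 : ℤ) j] at h6
          linarith
        have h6 : t ^ 2 < 4 := by
          have h7 := hlow r hr
          have h8 : (0 : ℤ) < 4 ^ j := by positivity
          exact lt_of_mul_lt_mul_right h5 (by linarith)
        have h7 : t < 2 := by nlinarith
        have h8 : t = 1 := by omega
        ext
        · rw [h1, h8, one_mul]
        · rw [h2, h8, one_mul]
      have := Int.one_le_abs hnz
      rw [← Int.cast_abs]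
      exact_mod_cast this
    rw [hd, abs_div, abs_mul, abs_mul, he₁', he₂', one_mul, one_mul, abs_mul, abs_abs, abs_abs]
    have hprod : |M2_eta v r| * |M2_eta v r'| ≤ 4 ^ (j + 1) := by
      have : (4 : ℝ) ^ (j + 1) = 2 ^ (j + 1) * 2 ^ (j + 1) := by
        rw [← mul_pow]; norm_num
      rw [this]
      exact mul_le_mul (hηupp r hr) (hηupp r' hr') (abs_nonneg _) (by positivity)
    rw [div_le_div_iff₀ (by positivity) (by positivity)]
    have h44 : (0 : ℝ) < 4 ^ (j + 1) := by positivity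
    nlinarith
  have h0 : ∀ r ∈ T, 0 ≤ s r := by
    intro r _; simp only [hs]; positivity
  have hL : ∀ r ∈ T, s r ≤ (1 / 4 ^ (j + 1)) * ((4 ^ (j + 1) : ℕ) : ℝ) := by
    intro r hr
    push_cast
    rw [one_div, inv_mul_cancel₀ (by positivity)]
    have hp := lt_of_lt_of_le (by positivity : (0:ℝ) < 2 ^ j / 2) (hηlow r hr)
    simp only [hs]
    rw [div_le_one hp]
    apply sq_le_sq.mp
    have h1 := M2_pyth v hv r
    have h2 := hle r hr
    nlinarith [sq_nonneg (M2_xi v r)]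
  have hmain := M2_sep_sum T s (1 / 4 ^ (j + 1)) (1 / 2 ^ (2 * j + 1)) (4 ^ (j + 1))
    (by positivity) (by positivity) h0 hL hsep
  have hterm : ∀ r ∈ T, 1 / max |M2_xi v r| (1 / 2 ^ (j + 2)) ≤
      (2 / 2 ^ j) * (1 / max (s r) (1 / 2 ^ (2 * j + 1))) := by
    intro r hr
    have hp := lt_of_lt_of_le (by positivity : (0:ℝ) < 2 ^ j / 2) (hηlow r hr)
    have hm : (2 ^ j / 2) * max (s r) (1 / 2 ^ (2 * j + 1)) ≤
        max |M2_xi v r| (1 / 2 ^ (j + 2)) := by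
      rw [mul_max_of_nonneg _ _ (by positivity)]
      apply max_le_max
      · have : |M2_xi v r| = |M2_eta v r| * s r := by
          simp only [hs]; field_simp
        rw [this]
        exact mul_le_mul_of_nonneg_right (hηlow r hr) (h0 r hr)
      · apply le_of_eq
        rw [show 2 * j + 1 = j + (j + 1) by ring, pow_add, pow_add, pow_add]
        field_simp
    have hpos : 0 < (2 ^ j / 2) * max (s r) (1 / 2 ^ (2 * j + 1)) := by
      have : (0 : ℝ) < 1 / 2 ^ (2 * j + 1) := by positivity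
      have h2 : 0 < max (s r) (1 / 2 ^ (2 * j + 1)) := lt_max_of_lt_right this
      positivity
    calc 1 / max |M2_xi v r| (1 / 2 ^ (j + 2)) ≤
        1 / ((2 ^ j / 2) * max (s r) (1 / 2 ^ (2 * j + 1))) :=
          one_div_le_one_div_of_le hpos hm
      _ = (2 / 2 ^ j) * (1 / max (s r) (1 / 2 ^ (2 * j + 1))) := by
          simp only [one_div, mul_inv, inv_div]
  calc ∑ r ∈ T, 1 / max |M2_xi v r| (1 / 2 ^ (j + 2))
      ≤ ∑ r ∈ T, (2 / 2 ^ j) * (1 / max (s r) (1 / 2 ^ (2 * j + 1))) := Finset.sum_le_sum hterm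
    _ = (2 / 2 ^ j) * ∑ r ∈ T, (1 / max (s r) (1 / 2 ^ (2 * j + 1))) := by
        rw [Finset.mul_sum]
    _ ≤ (2 / 2 ^ j) * (1 / (1 / 2 ^ (2 * j + 1)) + 1 / (1 / 4 ^ (j + 1)) *
          (1 + Real.log ((4 ^ (j + 1) : ℕ) : ℝ))) := by
        gcongr
    _ ≤ 32 * (j + 1) * 2 ^ j := by
        have hlog : Real.log ((4 ^ (j + 1) : ℕ) : ℝ) ≤ (j + 1) * 2 := by
          push_cast
          rw [Real.log_pow]
          have : Real.log 4 ≤ 2 := by
            have h4 : (4 : ℝ) = 2 ^ 2 := by norm_num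
            rw [h4, Real.log_pow]
            have := Real.log_two_lt_d9
            push_cast
            linarith
          push_cast
          gcongr
        have h1 : (2 / 2 ^ j : ℝ) * (1 / (1 / 2 ^ (2 * j + 1)) + 1 / (1 / 4 ^ (j + 1)) *
          (1 + Real.log ((4 ^ (j + 1) : ℕ) : ℝ))) =
          2 ^ j * (4 + 8 * (1 + Real.log ((4 ^ (j + 1) : ℕ) : ℝ))) := by
          rw [one_div_one_div, one_div_one_div, pow_succ (4:ℝ) j, h42,
            show 2 * j + 1 = j + j + 1 by ring, pow_add, pow_add]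
          field_simp
          ring
        rw [h1]
        have hj : (0 : ℝ) ≤ j := by positivity
        nlinarith

/-- One shell. -/
lemma M2_shell (j : ℕ) (v : ℝ × ℝ) (hv : v.1 ^ 2 + v.2 ^ 2 = 1) (T : Finset (ℤ × ℤ))
    (hcop : ∀ r ∈ T, IsCoprime r.1 r.2)
    (hlow : ∀ r ∈ T, (4 : ℤ) ^ j ≤ r.1 ^ 2 + r.2 ^ 2)
    (hupp : ∀ r ∈ T, r.1 ^ 2 + r.2 ^ 2 < (4 : ℤ) ^ (j + 1)) :
    ∑ r ∈ T, 1 / max |M2_xi v r| (1 / 2 ^ (j + 2)) ≤ 178 * (j + 1) * 2 ^ j := by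
  classical
  have h42 : (4 : ℝ) ^ j = (2 ^ j) ^ 2 := by
    rw [← pow_mul, mul_comm, pow_mul]; norm_num
  have h2pos : (0 : ℝ) < 2 ^ j := by positivity
  set f : ℤ × ℤ → ℝ := fun r => 1 / max |M2_xi v r| (1 / 2 ^ (j + 2)) with hf
  have hlowR : ∀ r ∈ T, (4 : ℝ) ^ j ≤ (r.1 : ℝ) ^ 2 + (r.2 : ℝ) ^ 2 := by
    intro r hr; exact_mod_cast hlow r hr
  -- the large-xi part
  have hbig : ∑ r ∈ T.filter (fun r => (r.1 : ℝ) ^ 2 + (r.2 : ℝ) ^ 2 < 4 * M2_xi v r ^ 2), f r ≤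
      50 * 2 ^ j := by
    have hcard : ((T.filter (fun r => (r.1 : ℝ) ^ 2 + (r.2 : ℝ) ^ 2 < 4 * M2_xi v r ^ 2)).card : ℝ)
        ≤ 25 * 4 ^ j := by
      have hsub : T.filter (fun r => (r.1 : ℝ) ^ 2 + (r.2 : ℝ) ^ 2 < 4 * M2_xi v r ^ 2) ⊆
          Finset.Icc (-(2 : ℤ) ^ (j + 1)) (2 ^ (j + 1)) ×ˢ
            Finset.Icc (-(2 : ℤ) ^ (j + 1)) (2 ^ (j + 1)) := by
        intro r hr
        have hrT := (Finset.mem_filter.1 hr).1
        have h1 := hupp r hrT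
        have h44 : (4 : ℤ) ^ (j + 1) = (2 ^ (j + 1)) ^ 2 := by
          rw [← pow_mul, mul_comm, pow_mul]; norm_num
        rw [h44] at h1
        have hp : (0 : ℤ) < 2 ^ (j + 1) := by positivity
        simp only [Finset.mem_product, Finset.mem_Icc]
        have h2 : |r.1| ≤ 2 ^ (j + 1) := by
          apply abs_le_of_sq_le_sq _ hp.le
          nlinarith [sq_nonneg r.2]
        have h3 : |r.2| ≤ 2 ^ (j + 1) := by
          apply abs_le_of_sq_le_sq _ hp.le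
          nlinarith [sq_nonneg r.1]
        exact ⟨abs_le.1 h2, abs_le.1 h3⟩
      have h1 := Finset.card_le_card hsub
      rw [Finset.card_product, Int.card_Icc] at h1
      have h2 : ((2 : ℤ) ^ (j + 1) + 1 - -2 ^ (j + 1)).toNat = 4 * 2 ^ j + 1 := by
        have : (2 : ℤ) ^ (j + 1) + 1 - -2 ^ (j + 1) = ((4 * 2 ^ j + 1 : ℕ) : ℤ) := by
          push_cast; ring
        rw [this, Int.toNat_natCast]
      rw [h2] at h1
      have h3 : (4 * 2 ^ j + 1) * (4 * 2 ^ j + 1) ≤ 25 * 4 ^ j := by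
        have h4 : (4 : ℕ) ^ j = 2 ^ j * 2 ^ j := by rw [← mul_pow]; norm_num
        have h5 : 1 ≤ 2 ^ j := Nat.one_le_two_pow
        rw [h4]
        nlinarith
      exact_mod_cast h1.trans h3
    have hterm : ∀ r ∈ T.filter (fun r => (r.1 : ℝ) ^ 2 + (r.2 : ℝ) ^ 2 < 4 * M2_xi v r ^ 2),
        f r ≤ 2 / 2 ^ j := by
      intro r hr
      obtain ⟨hrT, hr2⟩ := Finset.mem_filter.1 hr
      have h1 := hlowR r hrT
      have h2 : 2 ^ j / 2 ≤ |M2_xi v r| := by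
        apply abs_le_of_sq_le_sq' _ (abs_nonneg _) |>.2
        rw [sq_abs]
        rw [h42] at h1
        nlinarith
      simp only [hf]
      calc 1 / max |M2_xi v r| (1 / 2 ^ (j + 2)) ≤ 1 / (2 ^ j / 2) :=
            one_div_le_one_div_of_le (by positivity) (h2.trans (le_max_left _ _))
        _ = 2 / 2 ^ j := by rw [one_div_div]
    calc _ ≤ (T.filter (fun r => (r.1 : ℝ) ^ 2 + (r.2 : ℝ) ^ 2 < 4 * M2_xi v r ^ 2)).card •
          (2 / 2 ^ j : ℝ) := Finset.sum_le_card_nsmul _ _ _ hterm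
      _ = ((T.filter (fun r => (r.1 : ℝ) ^ 2 + (r.2 : ℝ) ^ 2 < 4 * M2_xi v r ^ 2)).card : ℝ) *
          (2 / 2 ^ j : ℝ) := by rw [nsmul_eq_mul]
      _ ≤ (25 * 4 ^ j) * (2 / 2 ^ j) := by gcongr
      _ = 50 * 2 ^ j := by rw [h42]; field_simp; ring
  -- the four classes
  have hcl : ∀ (e₁ e₂ : ℝ), e₁ ^ 2 = 1 → e₂ ^ 2 = 1 → ∀ T' : Finset (ℤ × ℤ),
      T' ⊆ T.filter (fun r => ¬ ((r.1 : ℝ) ^ 2 + (r.2 : ℝ) ^ 2 < 4 * M2_xi v r ^ 2)) →
      (∀ r ∈ T', 0 ≤ e₁ * M2_eta v r) → (∀ r ∈ T', 0 ≤ e₂ * M2_xi v r) →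
      ∑ r ∈ T', f r ≤ 32 * (j + 1) * 2 ^ j := by
    intro e₁ e₂ he₁ he₂ T' hT' hη hξ
    have hT'' : ∀ r ∈ T', r ∈ T ∧ 4 * M2_xi v r ^ 2 ≤ (r.1 : ℝ) ^ 2 + (r.2 : ℝ) ^ 2 := by
      intro r hr
      have := Finset.mem_filter.1 (hT' hr)
      exact ⟨this.1, not_lt.1 this.2⟩
    apply M2_class j v hv e₁ e₂ he₁ he₂ T' (fun r hr => hcop r (hT'' r hr).1)
      (fun r hr => hlow r (hT'' r hr).1) (fun r hr => hupp r (hT'' r hr).1) _ hξ
      (fun r hr => (hT'' r hr).2)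
    intro r hr
    refine lt_of_le_of_ne (hη r hr) ?_
    intro h0
    have h1 : M2_eta v r = 0 := by
      have : e₁ ≠ 0 := by rintro rfl; norm_num at he₁
      exact (mul_eq_zero.1 h0.symm).resolve_left this
    have h2 := M2_pyth v hv r
    have h3 := (hT'' r hr).2
    have h4 := hlowR r (hT'' r hr).1
    have h5 : (0 : ℝ) < 4 ^ j := by positivity
    rw [h1] at h2
    nlinarith [sq_nonneg (M2_xi v r)]
  set T1 := T.filter (fun r => ¬ ((r.1 : ℝ) ^ 2 + (r.2 : ℝ) ^ 2 < 4 * M2_xi v r ^ 2)) with hT1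
  have hs1 : ∑ r ∈ T, f r =
      ∑ r ∈ T.filter (fun r => (r.1 : ℝ) ^ 2 + (r.2 : ℝ) ^ 2 < 4 * M2_xi v r ^ 2), f r +
      ∑ r ∈ T1, f r := (Finset.sum_filter_add_sum_filter_not _ _ _).symm
  have hs2 : ∑ r ∈ T1, f r = ∑ r ∈ T1.filter (fun r => 0 ≤ M2_eta v r), f r +
      ∑ r ∈ T1.filter (fun r => ¬ 0 ≤ M2_eta v r), f r :=
    (Finset.sum_filter_add_sum_filter_not _ _ _).symm
  have hs3 : ∑ r ∈ T1.filter (fun r => 0 ≤ M2_eta v r), f r =
      ∑ r ∈ (T1.filter (fun r => 0 ≤ M2_eta v r)).filter (fun r => 0 ≤ M2_xi v r), f r +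
      ∑ r ∈ (T1.filter (fun r => 0 ≤ M2_eta v r)).filter (fun r => ¬ 0 ≤ M2_xi v r), f r :=
    (Finset.sum_filter_add_sum_filter_not _ _ _).symm
  have hs4 : ∑ r ∈ T1.filter (fun r => ¬ 0 ≤ M2_eta v r), f r =
      ∑ r ∈ (T1.filter (fun r => ¬ 0 ≤ M2_eta v r)).filter (fun r => 0 ≤ M2_xi v r), f r +
      ∑ r ∈ (T1.filter (fun r => ¬ 0 ≤ M2_eta v r)).filter (fun r => ¬ 0 ≤ M2_xi v r), f r :=
    (Finset.sum_filter_add_sum_filter_not _ _ _).symm
  have c1 := hcl 1 1 (by norm_num) (by norm_num)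
    ((T1.filter (fun r => 0 ≤ M2_eta v r)).filter (fun r => 0 ≤ M2_xi v r))
    ((Finset.filter_subset _ _).trans (Finset.filter_subset _ _))
    (by intro r hr; simp only [Finset.mem_filter] at hr; rw [one_mul]; exact hr.1.2)
    (by intro r hr; simp only [Finset.mem_filter] at hr; rw [one_mul]; exact hr.2)
  have c2 := hcl 1 (-1) (by norm_num) (by norm_num)
    ((T1.filter (fun r => 0 ≤ M2_eta v r)).filter (fun r => ¬ 0 ≤ M2_xi v r))
    ((Finset.filter_subset _ _).trans (Finset.filter_subset _ _))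
    (by intro r hr; simp only [Finset.mem_filter] at hr; rw [one_mul]; exact hr.1.2)
    (by intro r hr; simp only [Finset.mem_filter, not_le] at hr; linarith [hr.2])
  have c3 := hcl (-1) 1 (by norm_num) (by norm_num)
    ((T1.filter (fun r => ¬ 0 ≤ M2_eta v r)).filter (fun r => 0 ≤ M2_xi v r))
    ((Finset.filter_subset _ _).trans (Finset.filter_subset _ _))
    (by intro r hr; simp only [Finset.mem_filter, not_le] at hr; linarith [hr.1.2])
    (by intro r hr; simp only [Finset.mem_filter] at hr; rw [one_mul]; exact hr.2)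
  have c4 := hcl (-1) (-1) (by norm_num) (by norm_num)
    ((T1.filter (fun r => ¬ 0 ≤ M2_eta v r)).filter (fun r => ¬ 0 ≤ M2_xi v r))
    ((Finset.filter_subset _ _).trans (Finset.filter_subset _ _))
    (by intro r hr; simp only [Finset.mem_filter, not_le] at hr; linarith [hr.1.2])
    (by intro r hr; simp only [Finset.mem_filter, not_le] at hr; linarith [hr.2])
  rw [hs1, hs2, hs3, hs4]
  have hj : (0 : ℝ) ≤ j * 2 ^ j := by positivity
  nlinarith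

/-- The squared length of the top row. -/
def M2_top (σ : SL(2, ℤ)) : ℤ := (σ 0 0) ^ 2 + (σ 0 1) ^ 2
/-- The squared length of the bottom row. -/
def M2_bot (σ : SL(2, ℤ)) : ℤ := (σ 1 0) ^ 2 + (σ 1 1) ^ 2

lemma M2_detone (σ : SL(2, ℤ)) : σ 0 0 * σ 1 1 - σ 0 1 * σ 1 0 = 1 := by
  have := σ.det_coe
  rw [Matrix.det_fin_two] at this
  exact this

lemma M2_nsq (σ : SL(2, ℤ)) : nsq σ = M2_top σ + M2_bot σ := by
  unfold nsq M2_top M2_bot; ring

/-- the top row as a vector -/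
def M2_row (σ : SL(2, ℤ)) : ℤ × ℤ := (σ 0 0, σ 0 1)

lemma M2_fibre (B : Finset SL(2, ℤ)) (hB : ∀ σ ∈ B, M2_bot σ ≤ M2_top σ) (r : ℤ × ℤ) :
    (B.filter (fun σ => M2_row σ = r)).card ≤ 5 := by
  classical
  rcases (B.filter (fun σ => M2_row σ = r)).eq_empty_or_nonempty with h0 | ⟨τ, hτ⟩
  · rw [h0]; simp
  have hc : (Finset.Icc (-2 : ℤ) 2).card = 5 := by decide
  rw [← hc]
  obtain ⟨hτB, hτr⟩ := Finset.mem_filter.1 hτ
  have hr1 : τ 0 0 = r.1 := by rw [← hτr]; rfl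
  have hr2 : τ 0 1 = r.2 := by rw [← hτr]; rfl
  have hdτ := M2_detone τ
  rw [hr1, hr2] at hdτ
  have key : ∀ σ ∈ B.filter (fun σ => M2_row σ = r),
      σ 0 0 = r.1 ∧ σ 0 1 = r.2 ∧
      σ 1 0 = τ 1 0 + (τ 1 1 * σ 1 0 - τ 1 0 * σ 1 1) * r.1 ∧
      σ 1 1 = τ 1 1 + (τ 1 1 * σ 1 0 - τ 1 0 * σ 1 1) * r.2 := by
    intro σ hσ
    obtain ⟨hσB, hσr⟩ := Finset.mem_filter.1 hσ
    have h1 : σ 0 0 = r.1 := by rw [← hσr]; rfl
    have h2 : σ 0 1 = r.2 := by rw [← hσr]; rfl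
    have hdσ := M2_detone σ
    rw [h1, h2] at hdσ
    refine ⟨h1, h2, ?_, ?_⟩
    · linear_combination (-σ 1 0) * hdτ + (τ 1 0) * hdσ
    · linear_combination (-σ 1 1) * hdτ + (τ 1 1) * hdσ
  apply Finset.card_le_card_of_injOn (fun σ => τ 1 1 * σ 1 0 - τ 1 0 * σ 1 1)
  · intro σ hσ
    have hσ' : σ ∈ B.filter (fun σ => M2_row σ = r) := hσ
    obtain ⟨h1, h2, h3, h4⟩ := key σ hσ'
    have hσB := (Finset.mem_filter.1 hσ').1
    have hbσ := hB σ hσB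
    have hbτ := hB τ hτB
    unfold M2_bot M2_top at hbσ hbτ
    rw [h1, h2] at hbσ
    rw [hr1, hr2] at hbτ
    set t := τ 1 1 * σ 1 0 - τ 1 0 * σ 1 1 with ht
    have hpos : 0 < r.1 ^ 2 + r.2 ^ 2 := by
      rcases eq_or_ne r.1 0 with h | h
      · rcases eq_or_ne r.2 0 with h' | h'
        · rw [h, h'] at hdτ; simp at hdτ
        · positivity
      · positivity
    have h5 : t ^ 2 * (r.1 ^ 2 + r.2 ^ 2) ≤ 4 * (r.1 ^ 2 + r.2 ^ 2) := by
      have e1 : t ^ 2 * (r.1 ^ 2 + r.2 ^ 2) = (σ 1 0 - τ 1 0) ^ 2 + (σ 1 1 - τ 1 1) ^ 2 := by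
        rw [h3, h4]; ring
      rw [e1]
      nlinarith [sq_nonneg (σ 1 0 + τ 1 0), sq_nonneg (σ 1 1 + τ 1 1)]
    have h6 : t ^ 2 ≤ 4 := le_of_mul_le_mul_right h5 hpos
    show t ∈ ((Finset.Icc (-2 : ℤ) 2 : Finset ℤ) : Set ℤ)
    rw [Finset.coe_Icc, Set.mem_Icc]
    constructor <;> nlinarith
  · intro σ hσ σ' hσ' heq
    obtain ⟨h1, h2, h3, h4⟩ := key σ hσ
    obtain ⟨h1', h2', h3', h4'⟩ := key σ' hσ'
    have heq' : τ 1 1 * σ 1 0 - τ 1 0 * σ 1 1 = τ 1 1 * σ' 1 0 - τ 1 0 * σ' 1 1 := heq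
    rw [heq'] at h3 h4
    ext i j
    fin_cases i <;> fin_cases j
    · exact h1.trans h1'.symm
    · exact h2.trans h2'.symm
    · exact h3.trans h3'.symm
    · exact h4.trans h4'.symm

lemma M2_en_sq (w : ℝ × ℝ) : en w ^ 2 = w.1 ^ 2 + w.2 ^ 2 := by
  unfold en
  rw [Real.sq_sqrt (by positivity)]

lemma M2_en_nonneg (w : ℝ × ℝ) : 0 ≤ en w := Real.sqrt_nonneg _

/-- lower bound for `|σ v|` -/
lemma M2_lower (σ : SL(2, ℤ)) (v : ℝ × ℝ) (hv : v.1 ^ 2 + v.2 ^ 2 = 1) (j : ℕ)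
    (hb : M2_bot σ ≤ M2_top σ) (hj : M2_top σ < 4 ^ (j + 1)) :
    max |M2_xi v (M2_row σ)| (1 / 2 ^ (j + 2)) ≤ en (mv σ v) := by
  have hsq := M2_en_sq (mv σ v)
  have hd : ((σ 0 0 : ℤ) : ℝ) * σ 1 1 - σ 0 1 * σ 1 0 = 1 := by exact_mod_cast M2_detone σ
  apply max_le
  · apply abs_le_of_sq_le_sq _ (M2_en_nonneg _)
    rw [hsq]
    have : (mv σ v).1 = M2_xi v (M2_row σ) := rfl
    rw [this]
    nlinarith [sq_nonneg (mv σ v).2]
  · apply abs_le_of_sq_le_sq' _ (M2_en_nonneg _) |>.2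
    rw [hsq]
    set x := (mv σ v).1 with hx
    set y := (mv σ v).2 with hy
    set a : ℝ := ((σ 0 0 : ℤ) : ℝ)
    set b : ℝ := ((σ 0 1 : ℤ) : ℝ)
    set c : ℝ := ((σ 1 0 : ℤ) : ℝ)
    set d : ℝ := ((σ 1 1 : ℤ) : ℝ)
    have hx' : x = a * v.1 + b * v.2 := rfl
    have hy' : y = c * v.1 + d * v.2 := rfl
    have h1 : v.1 = d * x - b * y := by rw [hx', hy']; linear_combination (-v.1) * hd
    have h2 : v.2 = a * y - c * x := by rw [hx', hy']; linear_combination (-v.2) * hd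
    have h3 : 1 ≤ (a ^ 2 + b ^ 2 + c ^ 2 + d ^ 2) * (x ^ 2 + y ^ 2) := by
      rw [← hv]
      nth_rw 1 [h1]
      nth_rw 1 [h2]
      nlinarith [sq_nonneg (d * y + b * x), sq_nonneg (a * x + c * y)]
    have h4 : a ^ 2 + b ^ 2 + c ^ 2 + d ^ 2 ≤ 2 * 4 ^ (j + 1) := by
      have h5 : M2_top σ + M2_bot σ ≤ 2 * 4 ^ (j + 1) := by linarith
      have h6 : ((M2_top σ + M2_bot σ : ℤ) : ℝ) ≤ 2 * 4 ^ (j + 1) := by exact_mod_cast h5
      unfold M2_top M2_bot at h6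
      push_cast at h6
      linarith
    have h5 : (1 / 2 ^ (j + 2) : ℝ) ^ 2 = 1 / (4 * 4 ^ (j + 1)) := by
      rw [div_pow, one_pow, ← pow_mul, mul_comm (j + 2) 2, pow_mul]
      norm_num
      ring
    rw [h5, div_le_iff₀ (by positivity)]
    have h6 : (0 : ℝ) ≤ x ^ 2 + y ^ 2 := by positivity
    nlinarith

/-- The half of the ball where the top row is longer. -/
lemma M2_half (k : ℕ) (v : ℝ × ℝ) (hv : v.1 ^ 2 + v.2 ^ 2 = 1) (B : Finset SL(2, ℤ))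
    (hB : ∀ σ ∈ B, M2_bot σ ≤ M2_top σ) (hk : ∀ σ ∈ B, nsq σ ≤ 4 ^ k) :
    ∑ σ ∈ B, 1 / en (mv σ v) ≤ 1780 * (k + 1) * 2 ^ k := by
  classical
  set J : SL(2, ℤ) → ℕ := fun σ => Nat.log 4 (M2_top σ).toNat with hJ
  have htop : ∀ σ : SL(2, ℤ), 0 < M2_top σ := by
    intro σ
    unfold M2_top
    have hd := M2_detone σ
    rcases eq_or_ne (σ 0 0) 0 with h | h
    · rcases eq_or_ne (σ 0 1) 0 with h' | h'
      · rw [h, h'] at hd; simp at hd
      · positivity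
    · positivity
  have hJ1 : ∀ σ, (4 : ℤ) ^ (J σ) ≤ M2_top σ := by
    intro σ
    have h1 : (M2_top σ).toNat ≠ 0 := by have := htop σ; omega
    have h2 := Nat.pow_log_le_self 4 h1
    have h3 : ((4 ^ (Nat.log 4 (M2_top σ).toNat) : ℕ) : ℤ) ≤ ((M2_top σ).toNat : ℤ) := by
      exact_mod_cast h2
    rw [Int.toNat_of_nonneg (htop σ).le] at h3
    exact_mod_cast h3
  have hJ2 : ∀ σ, M2_top σ < (4 : ℤ) ^ (J σ + 1) := by
    intro σ
    have h2 := Nat.lt_pow_succ_log_self (b := 4) (by norm_num) (M2_top σ).toNat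
    have h3 : ((M2_top σ).toNat : ℤ) < ((4 ^ (Nat.log 4 (M2_top σ).toNat + 1) : ℕ) : ℤ) := by
      exact_mod_cast h2
    rw [Int.toNat_of_nonneg (htop σ).le] at h3
    exact_mod_cast h3
  have hJk : ∀ σ ∈ B, J σ ∈ Finset.range (k + 1) := by
    intro σ hσ
    rw [Finset.mem_range]
    have h1 := hJ1 σ
    have h2 := hk σ hσ
    rw [M2_nsq] at h2
    have h3 : 0 ≤ M2_bot σ := by unfold M2_bot; positivity
    have h4 : (4 : ℤ) ^ (J σ) ≤ 4 ^ k := by linarith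
    have h5 : J σ ≤ k := (pow_le_pow_iff_right₀ (by norm_num : (1 : ℤ) < 4)).1 h4
    omega
  rw [← Finset.sum_fiberwise_of_maps_to hJk]
  have hin : ∀ j ∈ Finset.range (k + 1), ∑ σ ∈ B.filter (fun σ => J σ = j), 1 / en (mv σ v) ≤
      890 * (k + 1) * 2 ^ j := by
    intro j hj
    have hj' : (j : ℝ) ≤ k := by
      have := Finset.mem_range.1 hj
      exact_mod_cast Nat.lt_succ_iff.1 this
    set Bj := B.filter (fun σ => J σ = j) with hBj
    have hBj1 : ∀ σ ∈ Bj, σ ∈ B ∧ J σ = j := fun σ hσ => Finset.mem_filter.1 hσ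
    have h1 : ∀ σ ∈ Bj, 1 / en (mv σ v) ≤ 1 / max |M2_xi v (M2_row σ)| (1 / 2 ^ (j + 2)) := by
      intro σ hσ
      obtain ⟨hσB, hσj⟩ := hBj1 σ hσ
      apply one_div_le_one_div_of_le
      · exact lt_max_of_lt_right (by positivity)
      · apply M2_lower σ v hv j (hB σ hσB)
        rw [← hσj]; exact hJ2 σ
    have h2 := Finset.sum_comp (s := Bj)
      (fun r : ℤ × ℤ => 1 / max |M2_xi v r| (1 / 2 ^ (j + 2))) M2_row
    have h3 : ∑ r ∈ Bj.image M2_row, 1 / max |M2_xi v r| (1 / 2 ^ (j + 2)) ≤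
        178 * (j + 1) * 2 ^ j := by
      apply M2_shell j v hv
      · intro r hr
        obtain ⟨σ, hσ, rfl⟩ := Finset.mem_image.1 hr
        have hd := M2_detone σ
        exact ⟨σ 1 1, - σ 1 0, by
          show σ 1 1 * σ 0 0 + - σ 1 0 * σ 0 1 = 1
          linarith⟩
      · intro r hr
        obtain ⟨σ, hσ, rfl⟩ := Finset.mem_image.1 hr
        rw [← (hBj1 σ hσ).2]
        exact hJ1 σ
      · intro r hr
        obtain ⟨σ, hσ, rfl⟩ := Finset.mem_image.1 hr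
        rw [← (hBj1 σ hσ).2]
        exact hJ2 σ
    calc ∑ σ ∈ Bj, 1 / en (mv σ v)
        ≤ ∑ σ ∈ Bj, 1 / max |M2_xi v (M2_row σ)| (1 / 2 ^ (j + 2)) := Finset.sum_le_sum h1
      _ = ∑ r ∈ Bj.image M2_row, (Bj.filter (fun σ => M2_row σ = r)).card •
            (1 / max |M2_xi v r| (1 / 2 ^ (j + 2))) := h2
      _ ≤ ∑ r ∈ Bj.image M2_row, 5 * (1 / max |M2_xi v r| (1 / 2 ^ (j + 2))) := by
          apply Finset.sum_le_sum
          intro r _
          rw [nsmul_eq_mul]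
          have h5 : ((Bj.filter (fun σ => M2_row σ = r)).card : ℝ) ≤ 5 := by
            exact_mod_cast M2_fibre Bj (fun σ hσ => hB σ (hBj1 σ hσ).1) r
          have h6 : (0 : ℝ) ≤ 1 / max |M2_xi v r| (1 / 2 ^ (j + 2)) := by positivity
          exact mul_le_mul_of_nonneg_right h5 h6
      _ = 5 * ∑ r ∈ Bj.image M2_row, (1 / max |M2_xi v r| (1 / 2 ^ (j + 2))) := by
          rw [Finset.mul_sum]
      _ ≤ 5 * (178 * (j + 1) * 2 ^ j) := by gcongr
      _ ≤ 5 * (178 * (k + 1) * 2 ^ j) := by gcongr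
      _ = 890 * (k + 1) * 2 ^ j := by ring
  calc _ ≤ ∑ j ∈ Finset.range (k + 1), 890 * ((k : ℝ) + 1) * 2 ^ j := Finset.sum_le_sum hin
    _ = 890 * ((k : ℝ) + 1) * ∑ j ∈ Finset.range (k + 1), (2 : ℝ) ^ j := by
        rw [Finset.mul_sum]
    _ ≤ 890 * ((k : ℝ) + 1) * 2 ^ (k + 1) := by
        have : ∑ j ∈ Finset.range (k + 1), (2 : ℝ) ^ j ≤ 2 ^ (k + 1) := by
          rw [geom_sum_eq (by norm_num)]
          norm_num
        gcongr
    _ = 1780 * (k + 1) * 2 ^ k := by ring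

/-- M2 -/
theorem countA : ∃ C : ℝ, 0 < C ∧ ∀ (k : ℕ) (v : ℝ × ℝ), en v = 1 →
    ∑ σ ∈ ball (4 ^ k), 1 / en (mv σ v) ≤ C * (k + 1) * 2 ^ k := by
  classical
  refine ⟨3560, by norm_num, ?_⟩
  intro k v hv
  have hv' : v.1 ^ 2 + v.2 ^ 2 = 1 := by
    rw [← M2_en_sq, hv, one_pow]
  set B1 := (ball (4 ^ k)).filter (fun σ => M2_bot σ ≤ M2_top σ) with hB1
  set B2 := (ball (4 ^ k)).filter (fun σ => ¬ M2_bot σ ≤ M2_top σ) with hB2
  have hsplit : ∑ σ ∈ ball (4 ^ k), 1 / en (mv σ v) =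
      ∑ σ ∈ B1, 1 / en (mv σ v) + ∑ σ ∈ B2, 1 / en (mv σ v) :=
    (Finset.sum_filter_add_sum_filter_not _ _ _).symm
  have h1 : ∑ σ ∈ B1, 1 / en (mv σ v) ≤ 1780 * (k + 1) * 2 ^ k := by
    apply M2_half k v hv' B1
    · intro σ hσ; exact (Finset.mem_filter.1 hσ).2
    · intro σ hσ; exact mem_ball.1 (Finset.mem_filter.1 hσ).1
  -- the swap
  have hS : ∀ σ : SL(2, ℤ), (ModularGroup.S * σ) 0 0 = - σ 1 0 ∧
      (ModularGroup.S * σ) 0 1 = - σ 1 1 ∧ (ModularGroup.S * σ) 1 0 = σ 0 0 ∧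
      (ModularGroup.S * σ) 1 1 = σ 0 1 := by
    intro σ
    have hmul : ∀ i j : Fin 2, (ModularGroup.S * σ) i j =
        (!![(0 : ℤ), -1; 1, 0] : Matrix (Fin 2) (Fin 2) ℤ) i 0 * σ 0 j +
        (!![(0 : ℤ), -1; 1, 0] : Matrix (Fin 2) (Fin 2) ℤ) i 1 * σ 1 j := by
      intro i j
      have h1 : (ModularGroup.S * σ) i j =
        ((!![(0 : ℤ), -1; 1, 0] : Matrix (Fin 2) (Fin 2) ℤ) * σ.1) i j := rfl
      rw [h1, Matrix.mul_apply, Fin.sum_univ_two]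
    refine ⟨?_, ?_, ?_, ?_⟩ <;> rw [hmul] <;> simp
  have h2 : ∑ σ ∈ B2, 1 / en (mv σ v) ≤ 1780 * (k + 1) * 2 ^ k := by
    have hbij : ∑ σ ∈ B2, 1 / en (mv σ v) =
        ∑ τ ∈ B2.image (fun σ => ModularGroup.S * σ), 1 / en (mv τ v) := by
      rw [Finset.sum_image]
      · apply Finset.sum_congr rfl
        intro σ _
        congr 1
        unfold en mv
        obtain ⟨a1, a2, a3, a4⟩ := hS σ
        rw [a1, a2, a3, a4]
        congr 1
        push_cast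
        ring
      · intro a _ b _ hab
        exact mul_left_cancel hab
    rw [hbij]
    apply M2_half k v hv'
    · intro τ hτ
      obtain ⟨σ, hσ, rfl⟩ := Finset.mem_image.1 hτ
      have h3 := (Finset.mem_filter.1 hσ).2
      unfold M2_bot M2_top at h3 ⊢
      obtain ⟨a1, a2, a3, a4⟩ := hS σ
      rw [a1, a2, a3, a4]
      nlinarith
    · intro τ hτ
      obtain ⟨σ, hσ, rfl⟩ := Finset.mem_image.1 hτ
      have h3 := mem_ball.1 (Finset.mem_filter.1 hσ).1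
      unfold nsq at h3 ⊢
      obtain ⟨a1, a2, a3, a4⟩ := hS σ
      rw [a1, a2, a3, a4]
      nlinarith
  rw [hsplit]
  linarith

end H80.Gon
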