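import Pool.Agent.H80.Gon.Defs

/-! Module M3: lower bound for the number of integral matrices in a ball. -/

open Matrix MatrixGroups

namespace H80.Gon

lemma exists_mat (X : ℕ) (c d : ℕ) (hc : 1 ≤ c) (hd : 1 ≤ d) (hcX : c ≤ X) (hdX : d ≤ X)
    (h : Nat.Coprime c d) :
    ∃ σ : SL(2, ℤ), σ 1 0 = (c : ℤ) ∧ σ 1 1 = (d : ℤ) ∧ nsq σ ≤ 4 * (X : ℤ) ^ 2 := by
  -- a with a * d ≡ 1 mod c, 1 ≤ a ≤ c
  obtain ⟨u, v, huv⟩ : ∃ u v : ℤ, u * d - v * c = 1 := by
    have := (Nat.isCoprime_iff_coprime.2 h.symm)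
    obtain ⟨u, v, huv⟩ := this
    exact ⟨u, -v, by linarith⟩
  have hc0 : (0 : ℤ) < c := by exact_mod_cast hc
  have hd0 : (0 : ℤ) < d := by exact_mod_cast hd
  -- a = (u - 1) % c + 1
  set q := (u - 1) / (c : ℤ) with hq
  set a := (u - 1) % (c : ℤ) + 1 with ha
  have ha1 : 1 ≤ a := by
    have := Int.emod_nonneg (u - 1) hc0.ne'
    omega
  have ha2 : a ≤ c := by
    have := Int.emod_lt_of_pos (u - 1) hc0
    omega
  have hau : a = u - q * c := by
    have := Int.emod_add_mul_ediv (u - 1) (c : ℤ)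
    rw [ha, hq]; linarith
  set b := v - q * d with hb
  have hdet : a * d - b * c = 1 := by
    rw [hau, hb]; linear_combination huv
  have hb0 : 0 ≤ b := by
    by_contra hneg
    push Not at hneg
    have : b * c ≤ -1 := by nlinarith
    nlinarith
  have hbd : b ≤ d := by
    by_contra hneg
    push Not at hneg
    have : b * c ≥ (d + 1) * c := by nlinarith
    nlinarith
  refine ⟨⟨!![a, b; (c : ℤ), (d : ℤ)], ?_⟩, ?_, ?_, ?_⟩
  · rw [Matrix.det_fin_two_of]; linarith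
  · simp
  · simp
  · have hcX' : (c : ℤ) ≤ X := by exact_mod_cast hcX
    have hdX' : (d : ℤ) ≤ X := by exact_mod_cast hdX
    simp only [nsq]
    simp
    nlinarith

lemma sum_inv_sq (n : ℕ) (hn : 2 ≤ n) :
    ∑ g ∈ Finset.Icc 2 n, (1 / (g : ℝ) ^ 2) ≤ 3 / 4 - 1 / (n : ℝ) := by
  induction n, hn using Nat.le_induction with
  | base => norm_num
  | succ n hn ih =>
    rw [Finset.sum_Icc_succ_top (by omega)]
    have hn' : (2 : ℝ) ≤ n := by exact_mod_cast hn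
    have h1 : (1 : ℝ) / ((n : ℝ) + 1) ^ 2 ≤ 1 / n - 1 / (n + 1) := by
      rw [div_sub_div _ _ (by positivity) (by positivity), div_le_div_iff₀ (by positivity) (by positivity)]
      nlinarith
    push_cast
    linarith

lemma coprime_count (X : ℕ) (hX : 1 ≤ X) :
    (X : ℝ) ^ 2 / 4 ≤ (((Finset.Icc 1 X ×ˢ Finset.Icc 1 X).filter
      (fun p : ℕ × ℕ => Nat.Coprime p.1 p.2)).card : ℝ) := by
  classical
  set S := Finset.Icc 1 X ×ˢ Finset.Icc 1 X with hS
  set A := S.filter (fun p : ℕ × ℕ => Nat.Coprime p.1 p.2) with hA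
  set B := S.filter (fun p : ℕ × ℕ => ¬ Nat.Coprime p.1 p.2) with hB
  have hcard : A.card + B.card = X ^ 2 := by
    rw [hA, hB, Finset.card_filter_add_card_filter_not, hS, Finset.card_product]
    simp [sq]
  have hBsub : B ⊆ (Finset.Icc 2 X).biUnion (fun g =>
      (Finset.Icc 1 (X / g) ×ˢ Finset.Icc 1 (X / g)).image (fun p : ℕ × ℕ => (g * p.1, g * p.2))) := by
    intro p hp
    simp only [hB, hS, Finset.mem_filter, Finset.mem_product, Finset.mem_Icc] at hp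
    obtain ⟨⟨⟨h1, h2⟩, h3, h4⟩, h5⟩ := hp
    simp only [Finset.mem_biUnion, Finset.mem_Icc, Finset.mem_image, Finset.mem_product]
    set g := Nat.gcd p.1 p.2 with hg
    have hg0 : 0 < g := Nat.gcd_pos_of_pos_left _ (by omega)
    have hg1 : g ≠ 1 := h5
    have hgd1 : g ∣ p.1 := Nat.gcd_dvd_left _ _
    have hgd2 : g ∣ p.2 := Nat.gcd_dvd_right _ _
    refine ⟨g, ⟨by omega, (Nat.le_of_dvd (by omega) hgd1).trans h2⟩, (p.1 / g, p.2 / g), ?_, ?_⟩
    · refine ⟨⟨?_, Nat.div_le_div_right h2⟩, ?_, Nat.div_le_div_right h4⟩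
      · exact Nat.div_pos (Nat.le_of_dvd (by omega) hgd1) hg0
      · exact Nat.div_pos (Nat.le_of_dvd (by omega) hgd2) hg0
    · ext
      · exact Nat.mul_div_cancel' hgd1
      · exact Nat.mul_div_cancel' hgd2
  have hBcard : (B.card : ℝ) ≤ 3 / 4 * (X : ℝ) ^ 2 := by
    have h1 : B.card ≤ ∑ g ∈ Finset.Icc 2 X, (X / g) ^ 2 := by
      refine (Finset.card_le_card hBsub).trans (Finset.card_biUnion_le.trans ?_)
      refine Finset.sum_le_sum fun g _ => ?_
      refine Finset.card_image_le.trans ?_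
      rw [Finset.card_product]; simp [sq]
    have h2 : (B.card : ℝ) ≤ ∑ g ∈ Finset.Icc 2 X, ((X : ℝ) ^ 2 * (1 / (g : ℝ) ^ 2)) := by
      refine (Nat.cast_le.2 h1).trans ?_
      push_cast
      refine Finset.sum_le_sum fun g hg => ?_
      have hg2 : 2 ≤ g := (Finset.mem_Icc.1 hg).1
      have : ((X / g : ℕ) : ℝ) ≤ (X : ℝ) / g := Nat.cast_div_le
      calc ((X / g : ℕ) : ℝ) ^ 2 ≤ ((X : ℝ) / g) ^ 2 := by gcongr
        _ = (X : ℝ) ^ 2 * (1 / (g : ℝ) ^ 2) := by rw [div_pow]; ring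
    rw [← Finset.mul_sum] at h2
    rcases Nat.lt_or_ge X 2 with hlt | hge
    · have : Finset.Icc 2 X = ∅ := Finset.Icc_eq_empty (by omega)
      rw [this] at h2
      simp at h2
      rw [h2]; simp
    · have h3 := sum_inv_sq X hge
      have h4 : (0 : ℝ) ≤ 1 / X := by positivity
      calc (B.card : ℝ) ≤ _ := h2
        _ ≤ (X : ℝ) ^ 2 * (3 / 4) := by
          refine mul_le_mul_of_nonneg_left (by linarith) (by positivity)
        _ = _ := by ring
  have : (A.card : ℝ) + B.card = (X : ℝ) ^ 2 := by exact_mod_cast hcard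
  linarith

/-- M3 -/
theorem ball_card : ∃ c : ℝ, 0 < c ∧ ∀ k : ℕ, 1 ≤ k → c * 4 ^ k ≤ ((ball (4 ^ k)).card : ℝ) := by
  classical
  refine ⟨1 / 16, by norm_num, fun k hk => ?_⟩
  obtain ⟨j, rfl⟩ : ∃ j, k = j + 1 := ⟨k - 1, by omega⟩
  set X : ℕ := 2 ^ j with hX
  have hX1 : 1 ≤ X := Nat.one_le_two_pow
  have h4 : ((4 : ℤ) ^ (j + 1)) = 4 * (X : ℤ) ^ 2 := by
    rw [hX]; push_cast; rw [pow_succ, ← pow_mul, mul_comm j 2, pow_mul]; norm_num; ring
  set A := ((Finset.Icc 1 X ×ˢ Finset.Icc 1 X).filter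
      (fun p : ℕ × ℕ => Nat.Coprime p.1 p.2)) with hA
  have hex : ∀ p ∈ A, ∃ σ : SL(2, ℤ), σ 1 0 = (p.1 : ℤ) ∧ σ 1 1 = (p.2 : ℤ) ∧
      nsq σ ≤ 4 * (X : ℤ) ^ 2 := by
    intro p hp
    simp only [hA, Finset.mem_filter, Finset.mem_product, Finset.mem_Icc] at hp
    exact exists_mat X p.1 p.2 hp.1.1.1 hp.1.2.1 hp.1.1.2 hp.1.2.2 hp.2
  choose! f hf using hex
  have hle : A.card ≤ (ball (4 ^ (j + 1))).card := by
    refine Finset.card_le_card_of_injOn f ?_ ?_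
    · intro p hp
      rw [Finset.mem_coe, mem_ball, h4]
      exact (hf p hp).2.2
    · intro p hp q hq hpq
      have hp' := hf p hp
      have hq' := hf q hq
      have h1 : (p.1 : ℤ) = q.1 := by rw [← hp'.1, ← hq'.1, hpq]
      have h2 : (p.2 : ℤ) = q.2 := by rw [← hp'.2.1, ← hq'.2.1, hpq]
      ext
      · exact_mod_cast h1
      · exact_mod_cast h2
  have hc := coprime_count X hX1
  have h5 : (4 : ℝ) ^ (j + 1) = 4 * (X : ℝ) ^ 2 := by exact_mod_cast h4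
  have h6 : (A.card : ℝ) ≤ ((ball (4 ^ (j + 1))).card : ℝ) := by exact_mod_cast hle
  rw [h5]
  linarith

end H80.Gon
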