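import Pool.Agent.H80.Gon.Defs

/-!
M4: trace bound for the averaging operator over a ball of `SL(2, ℤ)`.
-/

set_option linter.unusedSectionVars false
set_option linter.unusedVariables false

open Matrix MatrixGroups
open scoped InnerProductSpace

namespace H80.Gon

namespace M4

/-- the frequencies of the words of length `n` in `B` -/
noncomputable def w {G : Type*} [Group G] [DecidableEq G] {ι : Type*} (B : Finset ι) (s : ι → G) :
    ℕ → G → ℝ
  | 0 => fun g => if g = 1 then 1 else 0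
  | n + 1 => fun g => ∑ σ ∈ B, w B s n ((s σ)⁻¹ * g)

section general

variable {G : Type*} [Group G] [DecidableEq G] {ι : Type*} (B : Finset ι) (s : ι → G)

theorem w_nonneg (n : ℕ) (g : G) : 0 ≤ w B s n g := by
  induction n generalizing g with
  | zero => simp only [w]; split_ifs <;> norm_num
  | succ n ih => exact Finset.sum_nonneg fun σ _ => ih _

variable [Fintype G]

theorem w_action {f : G → ℂ} {lam : ℝ} (hf : ∀ x, ∑ σ ∈ B, f (s σ * x) = (lam : ℂ) * f x) (n : ℕ)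
    (x : G) : ∑ h, (w B s n h : ℂ) * f (h * x) = (lam : ℂ) ^ n * f x := by
  induction n with
  | zero =>
    simp only [w]
    rw [Finset.sum_eq_single 1]
    · simp
    · intro b _ hb; simp [hb]
    · simp
  | succ n ih =>
    have h1 : ∀ h, (w B s (n + 1) h : ℂ) * f (h * x) =
        ∑ σ ∈ B, (w B s n ((s σ)⁻¹ * h) : ℂ) * f (h * x) := fun h => by
      simp only [w]; push_cast; rw [Finset.sum_mul]
    simp only [h1]
    rw [Finset.sum_comm]
    have h2 : ∀ σ ∈ B, ∑ h, (w B s n ((s σ)⁻¹ * h) : ℂ) * f (h * x) =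
        ∑ k, (w B s n k : ℂ) * f (s σ * (k * x)) := fun σ _ => by
      rw [← Equiv.sum_comp (Equiv.mulLeft (s σ))]
      refine Finset.sum_congr rfl fun k _ => ?_
      simp [mul_assoc]
    rw [Finset.sum_congr rfl h2, Finset.sum_comm]
    have h3 : ∀ k, ∑ σ ∈ B, (w B s n k : ℂ) * f (s σ * (k * x)) =
        (lam : ℂ) * ((w B s n k : ℂ) * f (k * x)) := fun k => by
      rw [← Finset.mul_sum, hf]; ring
    simp only [h3]
    rw [← Finset.mul_sum, ih, pow_succ]; ring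

theorem w_conv (m n : ℕ) (k : G) : ∑ h, w B s m h * w B s n (h⁻¹ * k) = w B s (m + n) k := by
  induction m generalizing k with
  | zero =>
    rw [Finset.sum_eq_single 1]
    · simp [w]
    · intro b _ hb; simp [w, hb]
    · simp
  | succ m ih =>
    have h1 : ∀ h, w B s (m + 1) h * w B s n (h⁻¹ * k) =
        ∑ σ ∈ B, w B s m ((s σ)⁻¹ * h) * w B s n (h⁻¹ * k) := fun h => by
      simp only [w]; rw [Finset.sum_mul]
    simp only [h1]
    rw [Finset.sum_comm, show m + 1 + n = (m + n) + 1 by ring, w]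
    refine Finset.sum_congr rfl fun σ _ => ?_
    rw [← ih, ← Equiv.sum_comp (Equiv.mulLeft (s σ))]
    refine Finset.sum_congr rfl fun h _ => ?_
    simp [mul_assoc]

theorem w_inv {ν : ι → ι} (hν : ∀ σ ∈ B, ν σ ∈ B) (hνν : ∀ σ, ν (ν σ) = σ)
    (hs : ∀ σ, s (ν σ) = (s σ)⁻¹) (n : ℕ) (g : G) : w B s n g⁻¹ = w B s n g := by
  have hsum : ∀ F : G → ℝ, ∑ σ ∈ B, F (s σ)⁻¹ = ∑ σ ∈ B, F (s σ) := by
    intro F
    refine Finset.sum_bij' (fun σ _ => ν σ) (fun σ _ => ν σ) hν hν (fun σ _ => hνν σ)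
      (fun σ _ => hνν σ) (fun σ _ => ?_)
    rw [hs]
  have hright : ∀ n g, w B s (n + 1) g = ∑ σ ∈ B, w B s n (g * s σ) := by
    intro n g
    rw [← w_conv B s n 1 g]
    have h1 : ∀ h, w B s n h * w B s 1 (h⁻¹ * g) =
        ∑ σ ∈ B, w B s n h * (if (s σ)⁻¹ * (h⁻¹ * g) = 1 then 1 else 0) := fun h => by
      simp only [w]; rw [Finset.mul_sum]
    simp only [h1]
    rw [Finset.sum_comm, ← hsum (fun t => w B s n (g * t))]
    refine Finset.sum_congr rfl fun σ _ => ?_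
    rw [Finset.sum_eq_single (g * (s σ)⁻¹)]
    · simp [mul_assoc]
    · intro b _ hb
      rw [if_neg, mul_zero]
      intro h
      apply hb
      have : b⁻¹ * g = s σ := by
        rw [inv_mul_eq_one] at h; exact h.symm
      rw [← this]; simp
    · simp
  induction n generalizing g with
  | zero => simp [w]
  | succ n ih =>
    rw [hright n g]
    simp only [w]
    have : ∀ σ, w B s n ((s σ)⁻¹ * g⁻¹) = w B s n (g * s σ) := fun σ => by
      rw [← _root_.mul_inv_rev, ih]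
    simp only [this]

/-- the dimension bound -/
theorem dim_bound {ν : ι → ι} (hν : ∀ σ ∈ B, ν σ ∈ B) (hνν : ∀ σ, ν (ν σ) = σ)
    (hs : ∀ σ, s (ν σ) = (s σ)⁻¹) (V : Submodule ℂ (G → ℂ)) (lam : ℝ)
    (hV : ∀ f ∈ V, ∀ x, ∑ σ ∈ B, f (s σ * x) = (lam : ℂ) * f x) (n : ℕ) :
    (Module.finrank ℂ V : ℝ) * lam ^ (2 * n) ≤ (Fintype.card G : ℝ) * w B s (2 * n) 1 := by
  classical
  set e : WithLp 2 (G → ℂ) ≃ₗ[ℂ] (G → ℂ) := WithLp.linearEquiv 2 ℂ (G → ℂ) with he
  set V' : Submodule ℂ (EuclideanSpace ℂ G) := V.map e.symm.toLinearMap with hV'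
  have hfr : Module.finrank ℂ V' = Module.finrank ℂ V := LinearEquiv.finrank_map_eq e.symm V
  set b := stdOrthonormalBasis ℂ V' with hb
  set v : Fin (Module.finrank ℂ V') → EuclideanSpace ℂ G := fun j => (b j : EuclideanSpace ℂ G)
    with hv
  have hon : Orthonormal ℂ v := b.orthonormal.comp_linearIsometry V'.subtypeₗᵢ
  have hmem : ∀ j, (fun x => v j x) ∈ V := by
    intro j
    obtain ⟨f, hf, hfe⟩ := (b j).2
    have : (fun x => v j x) = f := by
      funext x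
      simp only [hv, ← hfe]
      rfl
    rw [this]; exact hf
  set m : G → EuclideanSpace ℂ G := fun x => WithLp.toLp 2 (fun y => ((w B s n (y * x⁻¹) : ℝ) : ℂ))
    with hm
  have hinner : ∀ x j, ‖⟪v j, m x⟫_ℂ‖ ^ 2 = lam ^ (2 * n) * ‖v j x‖ ^ 2 := by
    intro x j
    have h1 : (starRingEnd ℂ) ⟪v j, m x⟫_ℂ = (lam : ℂ) ^ n * v j x := by
      rw [PiLp.inner_apply, map_sum, ← w_action B s (hV _ (hmem j)) n x,
        ← Equiv.sum_comp (Equiv.mulRight x)]
      refine Finset.sum_congr rfl fun h _ => ?_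
      simp only [RCLike.inner_apply, hm, Equiv.coe_mulRight, map_mul, Complex.conj_ofReal,
        Complex.conj_conj, mul_inv_cancel_right]
    have h2 : ‖⟪v j, m x⟫_ℂ‖ = |lam| ^ n * ‖v j x‖ := by
      rw [← RCLike.norm_conj, h1, norm_mul, norm_pow, Complex.norm_real, Real.norm_eq_abs]
    rw [h2, mul_pow, ← pow_mul, mul_comm n 2, pow_mul, sq_abs, ← pow_mul]
  have hbes : ∀ x, ∑ j, lam ^ (2 * n) * ‖v j x‖ ^ 2 ≤ w B s (2 * n) 1 := by
    intro x
    have h1 := hon.sum_inner_products_le (s := Finset.univ) (m x)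
    simp only [hinner] at h1
    refine h1.trans (le_of_eq ?_)
    rw [EuclideanSpace.norm_sq_eq]
    rw [← Equiv.sum_comp (Equiv.mulRight x)]
    have h2 : ∀ h, ‖(m x).ofLp ((Equiv.mulRight x) h)‖ ^ 2 = w B s n h * w B s n (h⁻¹ * 1) := by
      intro h
      simp only [hm, Equiv.coe_mulRight, mul_inv_cancel_right, mul_one]
      rw [Complex.norm_real, Real.norm_eq_abs, sq_abs, w_inv B s hν hνν hs]
      ring
    simp only [h2]
    rw [w_conv]
    congr 1
    ring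
  have h1 : ∑ x, ∑ j, lam ^ (2 * n) * ‖v j x‖ ^ 2 ≤ (Fintype.card G : ℝ) * w B s (2 * n) 1 := by
    refine (Finset.sum_le_sum fun x _ => hbes x).trans (le_of_eq ?_)
    rw [Finset.sum_const, Finset.card_univ, nsmul_eq_mul]
  have h2 : ∑ x, ∑ j, lam ^ (2 * n) * ‖v j x‖ ^ 2 = (Module.finrank ℂ V : ℝ) * lam ^ (2 * n) := by
    rw [Finset.sum_comm]
    have h3 : ∀ j, ∑ x, lam ^ (2 * n) * ‖v j x‖ ^ 2 = lam ^ (2 * n) := by
      intro j
      rw [← Finset.mul_sum, ← EuclideanSpace.norm_sq_eq, hon.1 j]; simp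
    simp only [h3, Finset.sum_const, Finset.card_univ, Fintype.card_fin, nsmul_eq_mul]
    rw [hfr]
  rw [← h2]; exact h1

end general

/-- frequencies upstairs and downstairs -/
theorem w_tsum {G Γ : Type*} [Group G] [DecidableEq G] [Group Γ] [DecidableEq Γ] {ι : Type*}
    (B : Finset ι) (t : ι → Γ) (φ : Γ →* G) (S : ℕ → Finset Γ)
    (hS : ∀ n g, w B t n g ≠ 0 → g ∈ S n) (n : ℕ) (h : G) :
    w B (fun σ => φ (t σ)) n h = ∑' g : Γ, if φ g = h then w B t n g else 0 := by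
  have hsum : ∀ n h, Summable fun g : Γ => if φ g = h then w B t n g else 0 := by
    intro n h
    refine summable_of_hasFiniteSupport ((S n).finite_toSet.subset fun g hg => ?_)
    refine hS n g fun h0 => hg ?_
    simp only [h0, ite_self]
  induction n generalizing h with
  | zero =>
    rw [tsum_eq_single (1 : Γ)]
    · simp only [w, map_one, if_true, eq_comm]
    · intro g hg; simp [w, hg]
  | succ n ih =>
    simp only [w]
    have h1 : ∀ σ ∈ B, w B (fun σ => φ (t σ)) n ((φ (t σ))⁻¹ * h) =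
        ∑' g : Γ, if φ g = h then w B t n ((t σ)⁻¹ * g) else 0 := by
      intro σ _
      rw [ih, ← (Equiv.mulLeft (t σ)⁻¹).tsum_eq]
      refine tsum_congr fun g => ?_
      simp only [Equiv.coe_mulLeft, map_mul, map_inv, mul_right_inj]
    rw [Finset.sum_congr rfl h1, ← Summable.tsum_finsetSum]
    · refine tsum_congr fun g => ?_
      split_ifs <;> simp
    · intro σ _
      have h2 := (Equiv.mulLeft (t σ)⁻¹).summable_iff.2 (hsum n ((φ (t σ))⁻¹ * h))
      refine h2.congr fun g => ?_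
      simp only [Function.comp, Equiv.coe_mulLeft, map_mul, map_inv, mul_right_inj]

theorem nsq_one : nsq 1 = 2 := by simp [nsq]

theorem nsq_inv (g : SL(2, ℤ)) : nsq g⁻¹ = nsq g := by
  simp only [nsq, Matrix.SpecialLinearGroup.SL2_inv_expl, Matrix.SpecialLinearGroup.coe_mk]
  simp
  ring

theorem nsq_mul (a b : SL(2, ℤ)) : nsq (a * b) ≤ nsq a * nsq b := by
  simp only [nsq, Matrix.SpecialLinearGroup.coe_mul, Matrix.mul_apply, Fin.sum_univ_two]
  nlinarith [sq_nonneg (a 0 0 * b 1 0 - a 0 1 * b 0 0), sq_nonneg (a 0 0 * b 1 1 - a 0 1 * b 0 1),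
    sq_nonneg (a 1 0 * b 1 0 - a 1 1 * b 0 0), sq_nonneg (a 1 0 * b 1 1 - a 1 1 * b 0 1)]

theorem nsq_nonneg (g : SL(2, ℤ)) : 0 ≤ nsq g := by
  simp only [nsq]; positivity

theorem w_supp {X : ℤ} (hX : 1 ≤ X) (n : ℕ) (g : SL(2, ℤ))
    (h : w (ball X) (fun σ => σ) n g ≠ 0) : g ∈ ball (2 * X ^ n) := by
  rw [mem_ball]
  induction n generalizing g with
  | zero =>
    simp only [w] at h
    have : g = 1 := by by_contra hne; exact h (if_neg hne)
    rw [this, nsq_one]; simp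
  | succ n ih =>
    simp only [w] at h
    obtain ⟨σ, hσ, hne⟩ := Finset.exists_ne_zero_of_sum_ne_zero h
    have h1 := ih _ hne
    have h2 := nsq_mul σ (σ⁻¹ * g)
    rw [mul_inv_cancel_left] at h2
    rw [mem_ball] at hσ
    have h3 : nsq σ * nsq (σ⁻¹ * g) ≤ X * (2 * X ^ n) :=
      mul_le_mul hσ h1 (nsq_nonneg _) (by linarith)
    rw [pow_succ]
    linarith

theorem mv_mul (a b : SL(2, ℤ)) (v : ℝ × ℝ) : mv (a * b) v = mv a (mv b v) := by
  simp only [mv, Matrix.SpecialLinearGroup.coe_mul, Matrix.mul_apply, Fin.sum_univ_two]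
  push_cast
  ext <;> simp <;> ring

theorem mv_one (v : ℝ × ℝ) : mv 1 v = v := by
  simp [mv]

theorem en_smul {c : ℝ} (hc : 0 ≤ c) (v : ℝ × ℝ) : en (c * v.1, c * v.2) = c * en v := by
  unfold en
  simp only
  rw [show (c * v.1) ^ 2 + (c * v.2) ^ 2 = c ^ 2 * (v.1 ^ 2 + v.2 ^ 2) by ring,
    Real.sqrt_mul (by positivity), Real.sqrt_sq hc]

theorem mv_smul (σ : SL(2, ℤ)) (c : ℝ) (v : ℝ × ℝ) :
    mv σ (c * v.1, c * v.2) = (c * (mv σ v).1, c * (mv σ v).2) := by
  simp only [mv]; ext <;> simp <;> ring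

theorem en_pos {v : ℝ × ℝ} (hv : en v = 1) (g : SL(2, ℤ)) : 0 < en (mv g v) := by
  refine lt_of_le_of_ne (Real.sqrt_nonneg _) fun h0 => ?_
  have h1 : (mv g v).1 ^ 2 + (mv g v).2 ^ 2 = 0 := by
    have := h0.symm
    rwa [en, Real.sqrt_eq_zero (by positivity)] at this
  have h2 : (mv g v).1 = 0 := by nlinarith [sq_nonneg (mv g v).1, sq_nonneg (mv g v).2]
  have h3 : (mv g v).2 = 0 := by nlinarith [sq_nonneg (mv g v).1, sq_nonneg (mv g v).2]
  have h4 : v = mv g⁻¹ (mv g v) := by rw [← mv_mul, inv_mul_cancel, mv_one]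
  have h5 : v = (0, 0) := by
    rw [h4]
    have h6 : mv g v = (0, 0) := by ext <;> assumption
    rw [h6]; simp [mv]
  rw [h5] at hv
  simp [en] at hv

/-- the walk bound -/
theorem w_le {X : ℤ} {κ : ℝ}
    (hκ : ∀ v : ℝ × ℝ, en v = 1 → ∑ σ ∈ ball X, 1 / en (mv σ v) ≤ κ) (n : ℕ) (g : SL(2, ℤ))
    {v : ℝ × ℝ} (hv : en v = 1) :
    w (ball X) (fun σ => σ) n g ≤ κ ^ n / en (mv g v) := by
  have hκ0 : 0 ≤ κ := (Finset.sum_nonneg fun σ _ => by
    have := (en_pos hv σ).le; positivity).trans (hκ v hv)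
  induction n generalizing g with
  | zero =>
    simp only [w, pow_zero]
    split_ifs with h
    · rw [h, mv_one, hv]; norm_num
    · have := (en_pos hv g).le; positivity
  | succ n ih =>
    simp only [w]
    set u := mv g v with hu
    set r := en u with hr
    have hr0 : 0 < r := en_pos hv g
    set u' : ℝ × ℝ := (r⁻¹ * u.1, r⁻¹ * u.2) with hu'
    have hu1 : en u' = 1 := by
      rw [hu', en_smul (by positivity)]
      exact inv_mul_cancel₀ hr0.ne'
    have h1 : ∀ σ ∈ ball X, w (ball X) (fun σ => σ) n (σ⁻¹ * g) ≤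
        κ ^ n * (r⁻¹ * (1 / en (mv σ⁻¹ u'))) := by
      intro σ _
      refine (ih (σ⁻¹ * g)).trans (le_of_eq ?_)
      rw [mv_mul, ← hu]
      have h2 : mv σ⁻¹ u' = (r⁻¹ * (mv σ⁻¹ u).1, r⁻¹ * (mv σ⁻¹ u).2) := by
        rw [hu', mv_smul]
      rw [h2, en_smul (by positivity)]
      field_simp
    refine (Finset.sum_le_sum h1).trans ?_
    rw [← Finset.mul_sum, ← Finset.mul_sum]
    have h3 : ∑ σ ∈ ball X, 1 / en (mv σ⁻¹ u') = ∑ σ ∈ ball X, 1 / en (mv σ u') := by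
      refine Finset.sum_bij' (fun σ _ => σ⁻¹) (fun σ _ => σ⁻¹) ?_ ?_ ?_ ?_ ?_
      · intro σ hσ; rw [mem_ball] at hσ ⊢; rw [nsq_inv]; exact hσ
      · intro σ hσ; rw [mem_ball] at hσ ⊢; rw [nsq_inv]; exact hσ
      · intro σ _; exact inv_inv σ
      · intro σ _; exact inv_inv σ
      · intro σ _; rfl
    rw [h3]
    have h4 := hκ u' hu1
    calc κ ^ n * (r⁻¹ * ∑ σ ∈ ball X, 1 / en (mv σ u')) ≤ κ ^ n * (r⁻¹ * κ) := by gcongr
      _ = κ ^ (n + 1) / r := by rw [pow_succ]; field_simp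

theorem w_le' {X : ℤ} {κ : ℝ}
    (hκ : ∀ v : ℝ × ℝ, en v = 1 → ∑ σ ∈ ball X, 1 / en (mv σ v) ≤ κ) (n : ℕ) (g : SL(2, ℤ)) :
    w (ball X) (fun σ => σ) n g ≤ κ ^ n * (Real.sqrt 2 / Real.sqrt (nsq g : ℝ)) := by
  have he1 : en (1, 0) = 1 := by simp [en]
  have he2 : en (0, 1) = 1 := by simp [en]
  have hκ0 : 0 ≤ κ := (Finset.sum_nonneg fun σ _ => by
    have := (en_pos he1 σ).le; positivity).trans (hκ _ he1)
  have key : ∀ v : ℝ × ℝ, en v = 1 → (nsq g : ℝ) / 2 ≤ (mv g v).1 ^ 2 + (mv g v).2 ^ 2 →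
      w (ball X) (fun σ => σ) n g ≤ κ ^ n * (Real.sqrt 2 / Real.sqrt (nsq g : ℝ)) := by
    intro v hv h
    refine (w_le hκ n g hv).trans ?_
    rw [div_eq_mul_inv]
    refine mul_le_mul_of_nonneg_left ?_ (by positivity)
    have hn : (0 : ℝ) < nsq g := by
      have h0 : (0 : ℝ) ≤ nsq g := by exact_mod_cast nsq_nonneg g
      rcases h0.eq_or_lt with h1 | h1
      · exfalso
        have h2 : nsq g = 0 := by exact_mod_cast h1.symm
        have h3 := nsq_mul g g⁻¹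
        rw [mul_inv_cancel, nsq_one, h2, zero_mul] at h3
        omega
      · exact h1
    have h1 : Real.sqrt (nsq g : ℝ) / Real.sqrt 2 ≤ en (mv g v) := by
      rw [← Real.sqrt_div hn.le, en]
      exact Real.sqrt_le_sqrt h
    have h2 : 0 < Real.sqrt (nsq g : ℝ) / Real.sqrt 2 := by positivity
    rw [← inv_div]
    exact inv_anti₀ h2 h1
  have hsum : (nsq g : ℝ) = ((mv g (1, 0)).1 ^ 2 + (mv g (1, 0)).2 ^ 2) +
      ((mv g (0, 1)).1 ^ 2 + (mv g (0, 1)).2 ^ 2) := by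
    simp only [nsq, mv]; push_cast; ring
  rcases le_total ((mv g (1, 0)).1 ^ 2 + (mv g (1, 0)).2 ^ 2)
    ((mv g (0, 1)).1 ^ 2 + (mv g (0, 1)).2 ^ 2) with h | h
  · exact key _ he2 (by linarith)
  · exact key _ he1 (by linarith)

end M4

/-- M4 -/
theorem trace_bound (N : ℕ) [NeZero N] (X : ℤ) (hX : 1 ≤ X) (κ : ℝ)
    (hκ : ∀ v : ℝ × ℝ, en v = 1 → ∑ σ ∈ ball X, 1 / en (mv σ v) ≤ κ)
    (V : Submodule ℂ (SL(2, ZMod N) → ℂ)) (lam : ℝ)
    (hV : ∀ f ∈ V, ∀ x, ∑ σ ∈ ball X, f (red N σ * x) = (lam : ℂ) * f x) (n : ℕ) :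
    (Module.finrank ℂ V : ℝ) * lam ^ (2 * n) ≤
      (Fintype.card SL(2, ZMod N) : ℝ) * (κ ^ (2 * n) *
        ∑ γ ∈ (ball (2 * X ^ (2 * n))).filter (fun γ => red N γ = 1),
          Real.sqrt 2 / Real.sqrt (nsq γ : ℝ)) := by
  have h1 := M4.dim_bound (ball X) (fun σ => red N σ) (ν := fun σ => σ⁻¹)
    (fun σ hσ => by rw [mem_ball] at hσ ⊢; rw [M4.nsq_inv]; exact hσ) (fun σ => inv_inv σ)
    (fun σ => map_inv _ _) V lam hV n
  refine h1.trans (mul_le_mul_of_nonneg_left ?_ (by positivity))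
  rw [M4.w_tsum (ball X) (fun σ => σ) (red N) (fun n => ball (2 * X ^ n))
    (fun n g => M4.w_supp hX n g) (2 * n) 1, Finset.mul_sum, Finset.sum_filter]
  rw [tsum_eq_sum (s := ball (2 * X ^ (2 * n)))]
  · refine Finset.sum_le_sum fun g _ => ?_
    split_ifs with h
    · exact M4.w_le' hκ (2 * n) g
    · exact le_rfl
  · intro g hg
    have : M4.w (ball X) (fun σ => σ) (2 * n) g = 0 := by
      by_contra hne
      exact hg (M4.w_supp hX _ _ hne)
    rw [this, ite_self]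

end H80.Gon
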