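import Pool.Agent.H80.Gon.M1

/-!
M5: counting in the principal congruence subgroup.
-/

namespace H80.Gon

open Matrix MatrixGroups Finset

lemma cong_facts (N : ℕ) (γ : SL(2, ℤ)) (h : red N γ = 1) :
    (N : ℤ) ∣ γ 0 0 - 1 ∧ (N : ℤ) ∣ γ 0 1 ∧ (N : ℤ) ∣ γ 1 0 ∧ (N : ℤ) ∣ γ 1 1 - 1 := by
  have e : ∀ i j, ((γ i j : ℤ) : ZMod N) = (1 : SL(2, ZMod N)) i j := by
    intro i j
    have := congrArg (fun M : SL(2, ZMod N) => M i j) h
    simpa using this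
  have e00 := e 0 0
  have e01 := e 0 1
  have e10 := e 1 0
  have e11 := e 1 1
  simp at e00 e01 e10 e11
  refine ⟨?_, ?_, ?_, ?_⟩
  · rw [← ZMod.intCast_zmod_eq_zero_iff_dvd]; push_cast; rw [e00]; simp
  · rw [← ZMod.intCast_zmod_eq_zero_iff_dvd]; exact e01
  · rw [← ZMod.intCast_zmod_eq_zero_iff_dvd]; exact e10
  · rw [← ZMod.intCast_zmod_eq_zero_iff_dvd]; push_cast; rw [e11]; simp

lemma det_fact (γ : SL(2, ℤ)) : γ 0 0 * γ 1 1 - γ 0 1 * γ 1 0 = 1 := by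
  have := γ.det_coe
  rw [Matrix.det_fin_two] at this
  exact this

lemma trace_fact (N : ℕ) (hN : 0 < N) (γ : SL(2, ℤ)) (h : red N γ = 1) :
    ∃ j t : ℤ, γ 0 0 = 1 + N * j ∧ γ 1 1 = N ^ 2 * t + 2 - (1 + N * j) := by
  obtain ⟨⟨a, ha⟩, ⟨b, hb⟩, ⟨c, hc⟩, ⟨d, hd⟩⟩ := cong_facts N γ h
  have hdet := det_fact γ
  have ha' : γ 0 0 = 1 + N * a := by linarith
  have hd' : γ 1 1 = 1 + N * d := by linarith
  rw [ha', hd', hb, hc] at hdet
  have hN' : (N : ℤ) ≠ 0 := by exact_mod_cast hN.ne'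
  have h1 : (N : ℤ) * (a + d + N * (a * d - b * c)) = 0 := by linarith
  have h2 : a + d + N * (a * d - b * c) = 0 := by
    rcases mul_eq_zero.mp h1 with h3 | h3
    · exact absurd h3 hN'
    · exact h3
  refine ⟨a, -(a * d - b * c), ha', ?_⟩
  rw [hd']
  have h3 : d = -a - N * (a * d - b * c) := by linarith
  rw [show (1 : ℤ) + N * d = 1 + N * (-a - N * (a * d - b * c)) by rw [← h3]]
  ring

lemma entry_le {Z : ℕ} {γ : SL(2, ℤ)} (h : nsq γ ≤ Z) (i j : Fin 2) :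
    (γ i j).natAbs ≤ Nat.sqrt Z := by
  rw [Nat.le_sqrt']
  have h1 : (γ i j) ^ 2 ≤ (Z : ℤ) := by
    unfold nsq at h
    have := sq_nonneg (γ 0 0)
    have := sq_nonneg (γ 0 1)
    have := sq_nonneg (γ 1 0)
    have := sq_nonneg (γ 1 1)
    fin_cases i <;> fin_cases j <;> simp <;> linarith
  have h2 : (((γ i j).natAbs ^ 2 : ℕ) : ℤ) = (γ i j) ^ 2 := by
    push_cast
    rw [sq_abs]
  exact_mod_cast (h2 ▸ h1 : (((γ i j).natAbs ^ 2 : ℕ) : ℤ) ≤ (Z : ℤ))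

/-- the congruence ball -/
noncomputable def cball (N Z : ℕ) : Finset SL(2, ℤ) :=
  (ball (Z : ℤ)).filter (fun γ => red N γ = 1)

lemma mem_cball {N Z : ℕ} {γ : SL(2, ℤ)} : γ ∈ cball N Z ↔ nsq γ ≤ Z ∧ red N γ = 1 := by
  simp [cball]

lemma image_card (N Z : ℕ) (hN : 0 < N) :
    ((cball N Z).image (fun γ => (γ 0 0, γ 1 1))).card ≤
      (2 * ((Nat.sqrt Z + 1) / N) + 1) * (2 * ((2 * Nat.sqrt Z + 2) / N ^ 2) + 1) := by
  set R := Nat.sqrt Z with hR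
  set U := (R + 1) / N with hU
  set V := (2 * R + 2) / N ^ 2 with hV
  have hsub : (cball N Z).image (fun γ => (γ 0 0, γ 1 1)) ⊆
      ((Icc (-(U : ℤ)) U) ×ˢ (Icc (-(V : ℤ)) V)).image
        (fun p : ℤ × ℤ => (1 + N * p.1, N ^ 2 * p.2 + 2 - (1 + N * p.1))) := by
    intro q hq
    rw [mem_image] at hq
    obtain ⟨γ, hγ, rfl⟩ := hq
    obtain ⟨hn, hr⟩ := mem_cball.mp hγ
    obtain ⟨j, t, h0, h1⟩ := trace_fact N hN γ hr
    have b0 := entry_le hn 0 0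
    have b1 := entry_le hn 1 1
    rw [← hR] at b0 b1
    rw [mem_image]
    refine ⟨(j, t), ?_, by simp only [h0, h1]⟩
    have hj : j.natAbs ≤ U := by
      rw [hU, Nat.le_div_iff_mul_le hN]
      have e1 : (N : ℤ) * j = γ 0 0 - 1 := by linarith
      have e2 : ((N : ℤ) * j).natAbs = N * j.natAbs := by
        rw [Int.natAbs_mul]; simp
      rw [mul_comm, ← e2, e1]
      omega
    have ht : t.natAbs ≤ V := by
      rw [hV, Nat.le_div_iff_mul_le (by positivity)]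
      have e1 : ((N : ℤ) ^ 2) * t = γ 0 0 + γ 1 1 - 2 := by linarith
      have e2 : (((N : ℤ) ^ 2) * t).natAbs = N ^ 2 * t.natAbs := by
        rw [Int.natAbs_mul, Int.natAbs_pow]; simp
      rw [mul_comm, ← e2, e1]
      omega
    rw [mem_product, mem_Icc, mem_Icc]
    simp only
    omega
  refine (card_le_card hsub).trans (card_image_le.trans ?_)
  rw [card_product, Int.card_Icc, Int.card_Icc]
  apply le_of_eq
  congr 1 <;> omega

lemma fiber_card (N Z D : ℕ) (hD : ∀ m : ℕ, 1 ≤ m → m ≤ Z → (Nat.divisors m).card ≤ D)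
    (a d : ℤ) :
    (((cball N Z).filter (fun γ => γ 0 1 * γ 1 0 ≠ 0)).filter
      (fun γ => (γ 0 0, γ 1 1) = (a, d))).card ≤ 2 * D := by
  set S := ((cball N Z).filter (fun γ => γ 0 1 * γ 1 0 ≠ 0)).filter
      (fun γ => (γ 0 0, γ 1 1) = (a, d)) with hS
  rcases S.eq_empty_or_nonempty with h0 | ⟨γ0, hγ0⟩
  · rw [h0]; simp
  set m : ℤ := a * d - 1 with hm
  have hmem : ∀ γ ∈ S, nsq γ ≤ Z ∧ γ 0 1 * γ 1 0 ≠ 0 ∧ γ 0 0 = a ∧ γ 1 1 = d ∧
      γ 0 1 * γ 1 0 = m := by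
    intro γ hγ
    rw [hS, mem_filter, mem_filter, mem_cball, Prod.mk.injEq] at hγ
    obtain ⟨⟨⟨h1, h2⟩, h3⟩, h4, h5⟩ := hγ
    refine ⟨h1, h3, h4, h5, ?_⟩
    have := det_fact γ
    rw [h4, h5] at this
    linarith
  have hm0 : m ≠ 0 := by
    obtain ⟨_, h2, _, _, h3⟩ := hmem γ0 hγ0
    rwa [h3] at h2
  have hmZ : m.natAbs ≤ Z := by
    obtain ⟨h1, _, _, _, h3⟩ := hmem γ0 hγ0
    have h4 : |m| ≤ (Z : ℤ) := by
      rw [← h3, abs_mul]
      unfold nsq at h1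
      have e1 : |γ0 0 1| ^ 2 = (γ0 0 1) ^ 2 := sq_abs _
      have e2 : |γ0 1 0| ^ 2 = (γ0 1 0) ^ 2 := sq_abs _
      nlinarith [sq_nonneg (|γ0 0 1| - |γ0 1 0|), sq_nonneg (γ0 0 0), sq_nonneg (γ0 1 1),
        sq_nonneg (|γ0 0 1|), sq_nonneg (|γ0 1 0|), abs_nonneg (γ0 0 1), abs_nonneg (γ0 1 0)]
    have h5 : ((m.natAbs : ℕ) : ℤ) = |m| := Int.natCast_natAbs m
    have h6 : ((m.natAbs : ℕ) : ℤ) ≤ (Z : ℤ) := by rw [h5]; exact h4
    exact_mod_cast h6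
  have hinj : Set.InjOn (fun γ : SL(2, ℤ) => γ 0 1) (S : Set SL(2, ℤ)) := by
    intro γ hγ δ hδ heq
    obtain ⟨_, p1, p2, p3, p4⟩ := hmem γ hγ
    obtain ⟨_, q1, q2, q3, q4⟩ := hmem δ hδ
    simp only at heq
    have hb : γ 0 1 ≠ 0 := left_ne_zero_of_mul p1
    have hc : γ 1 0 = δ 1 0 := by
      apply mul_left_cancel₀ hb
      rw [p4, heq, q4]
    ext i j
    fin_cases i <;> fin_cases j <;> simp [*]
  have himg : S.image (fun γ : SL(2, ℤ) => γ 0 1) ⊆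
      ((Nat.divisors m.natAbs).image (fun x : ℕ => (x : ℤ))) ∪
      ((Nat.divisors m.natAbs).image (fun x : ℕ => -(x : ℤ))) := by
    intro b hb
    rw [mem_image] at hb
    obtain ⟨γ, hγ, rfl⟩ := hb
    obtain ⟨_, p1, p2, p3, p4⟩ := hmem γ hγ
    have hdvd : (γ 0 1).natAbs ∈ Nat.divisors m.natAbs := by
      rw [Nat.mem_divisors]
      refine ⟨?_, by simpa using hm0⟩
      rw [Int.natAbs_dvd_natAbs]
      exact ⟨_, p4.symm⟩
    rw [mem_union, mem_image, mem_image]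
    rcases Int.natAbs_eq (γ 0 1) with h | h
    · left; exact ⟨_, hdvd, h.symm⟩
    · right; exact ⟨_, hdvd, h.symm⟩
  rw [← card_image_of_injOn hinj]
  refine (card_le_card himg).trans ((card_union_le _ _).trans ?_)
  have h1 := hD m.natAbs (Int.natAbs_pos.mpr hm0) hmZ
  have h2 : ((Nat.divisors m.natAbs).image (fun x : ℕ => (x : ℤ))).card ≤ D :=
    card_image_le.trans h1
  have h3 : ((Nat.divisors m.natAbs).image (fun x : ℕ => -(x : ℤ))).card ≤ D :=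
    card_image_le.trans h1
  omega

lemma diag_one (N : ℕ) (hN : 3 ≤ N) (γ : SL(2, ℤ)) (h : red N γ = 1)
    (h0 : γ 0 1 * γ 1 0 = 0) : γ 0 0 = 1 ∧ γ 1 1 = 1 := by
  have hdet := det_fact γ
  rw [h0, sub_zero] at hdet
  obtain ⟨h1, _, _, h2⟩ := cong_facts N γ h
  rcases Int.eq_one_or_neg_one_of_mul_eq_one hdet with h3 | h3
  · refine ⟨h3, ?_⟩
    rw [h3, one_mul] at hdet
    exact hdet
  · exfalso
    rw [h3] at h1
    have h4 : (N : ℤ) ∣ 2 := by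
      have : (-1 - 1 : ℤ) = -2 := by norm_num
      rw [this] at h1
      exact (dvd_neg.mp h1)
    have h5 := Int.le_of_dvd (by norm_num) h4
    omega

lemma degenerate_card (N Z : ℕ) (hN : 3 ≤ N) :
    ((cball N Z).filter (fun γ => ¬ (γ 0 1 * γ 1 0 ≠ 0))).card ≤
      2 * (2 * (Nat.sqrt Z / N) + 1) := by
  set S := (cball N Z).filter (fun γ => ¬ (γ 0 1 * γ 1 0 ≠ 0)) with hS
  set W := Nat.sqrt Z / N with hW
  have hmem : ∀ γ ∈ S, nsq γ ≤ Z ∧ red N γ = 1 ∧ γ 0 1 * γ 1 0 = 0 ∧ γ 0 0 = 1 ∧ γ 1 1 = 1 := by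
    intro γ hγ
    rw [hS, mem_filter, mem_cball, not_not] at hγ
    obtain ⟨⟨h1, h2⟩, h3⟩ := hγ
    obtain ⟨h4, h5⟩ := diag_one N hN γ h2 h3
    exact ⟨h1, h2, h3, h4, h5⟩
  have hinj : Set.InjOn (fun γ : SL(2, ℤ) => (γ 0 1, γ 1 0)) (S : Set SL(2, ℤ)) := by
    intro γ hγ δ hδ heq
    obtain ⟨_, _, _, p3, p4⟩ := hmem γ hγ
    obtain ⟨_, _, _, q3, q4⟩ := hmem δ hδ
    simp only [Prod.mk.injEq] at heq
    obtain ⟨e1, e2⟩ := heq
    ext i j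
    fin_cases i <;> fin_cases j <;> simp [*]
  have hb : ∀ x : ℤ, (N : ℤ) ∣ x → x.natAbs ≤ Nat.sqrt Z →
      ∃ j ∈ Icc (-(W : ℤ)) W, x = N * j := by
    rintro x ⟨j, rfl⟩ hx
    refine ⟨j, ?_, rfl⟩
    have hj : j.natAbs ≤ W := by
      rw [hW, Nat.le_div_iff_mul_le (by omega)]
      have e2 : ((N : ℤ) * j).natAbs = N * j.natAbs := by
        rw [Int.natAbs_mul]; simp
      rw [mul_comm, ← e2]
      exact hx
    rw [mem_Icc]
    omega
  have himg : S.image (fun γ : SL(2, ℤ) => (γ 0 1, γ 1 0)) ⊆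
      ((Icc (-(W : ℤ)) W).image (fun j : ℤ => ((N : ℤ) * j, (0 : ℤ)))) ∪
      ((Icc (-(W : ℤ)) W).image (fun j : ℤ => ((0 : ℤ), (N : ℤ) * j))) := by
    intro b hb'
    rw [mem_image] at hb'
    obtain ⟨γ, hγ, rfl⟩ := hb'
    obtain ⟨p0, p1, p2, p3, p4⟩ := hmem γ hγ
    obtain ⟨_, c1, c2, _⟩ := cong_facts N γ p1
    rw [mem_union, mem_image, mem_image]
    rcases mul_eq_zero.mp p2 with h | h
    · right
      obtain ⟨j, hj, e⟩ := hb _ c2 (entry_le p0 1 0)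
      exact ⟨j, hj, by rw [h, ← e]⟩
    · left
      obtain ⟨j, hj, e⟩ := hb _ c1 (entry_le p0 0 1)
      exact ⟨j, hj, by rw [h, ← e]⟩
  rw [← card_image_of_injOn hinj]
  refine (card_le_card himg).trans ((card_union_le _ _).trans ?_)
  have hc : (Icc (-(W : ℤ)) W).card = 2 * W + 1 := by
    rw [Int.card_Icc]; omega
  have h2 : ((Icc (-(W : ℤ)) W).image (fun j : ℤ => ((N : ℤ) * j, (0 : ℤ)))).card ≤ 2 * W + 1 :=
    card_image_le.trans hc.le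
  have h3 : ((Icc (-(W : ℤ)) W).image (fun j : ℤ => ((0 : ℤ), (N : ℤ) * j))).card ≤ 2 * W + 1 :=
    card_image_le.trans hc.le
  omega

lemma cball_card (ε : ℝ) (hε : 0 < ε) : ∃ C : ℝ, 0 < C ∧ ∀ N Z : ℕ, 3 ≤ N → N ^ 4 ≤ Z →
    ((cball N Z).card : ℝ) ≤ C * (Z : ℝ) ^ ε * ((Z : ℝ) / (N : ℝ) ^ 3) := by
  obtain ⟨C, hC, hdiv⟩ := divisor_bound ε hε
  refine ⟨90 * C + 6, by positivity, ?_⟩
  intro N Z hN hNZ
  have hZ1 : 1 ≤ Z := le_trans (Nat.one_le_pow _ _ (by omega)) hNZ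
  have hZ1' : (1 : ℝ) ≤ Z := by exact_mod_cast hZ1
  have hZe : (1 : ℝ) ≤ (Z : ℝ) ^ ε := Real.one_le_rpow hZ1' hε.le
  set R := Nat.sqrt Z with hR
  have hRN : N ^ 2 ≤ R := by
    rw [hR, Nat.le_sqrt']
    calc (N ^ 2) ^ 2 = N ^ 4 := by ring
      _ ≤ Z := hNZ
  have hRZ : R ^ 2 ≤ Z := Nat.sqrt_le' Z
  set D : ℕ := ⌊C * (Z : ℝ) ^ ε⌋₊ with hDdef
  have hD : ∀ m : ℕ, 1 ≤ m → m ≤ Z → (Nat.divisors m).card ≤ D := by
    intro m hm1 hm2
    rw [hDdef]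
    apply Nat.le_floor
    refine (hdiv m hm1).trans ?_
    apply mul_le_mul_of_nonneg_left _ hC.le
    exact Real.rpow_le_rpow (by positivity) (by exact_mod_cast hm2) hε.le
  have hDle : (D : ℝ) ≤ C * (Z : ℝ) ^ ε := Nat.floor_le (by positivity)
  -- splitting
  have hsplit := Finset.card_filter_add_card_filter_not (s := cball N Z)
    (fun γ : SL(2, ℤ) => γ 0 1 * γ 1 0 ≠ 0)
  have h1 : ((cball N Z).filter (fun γ => γ 0 1 * γ 1 0 ≠ 0)).card ≤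
      (2 * D) * ((cball N Z).image (fun γ => (γ 0 0, γ 1 1))).card := by
    refine (Finset.card_le_mul_card_image (f := fun γ : SL(2, ℤ) => (γ 0 0, γ 1 1)) _ (2 * D)
      ?_).trans ?_
    · rintro ⟨a, d⟩ _
      exact fiber_card N Z D hD a d
    · apply Nat.mul_le_mul_left
      apply card_le_card
      apply image_subset_image
      exact filter_subset _ _
  have h2 := image_card N Z (by omega)
  have h3 := degenerate_card N Z hN
  rw [← hR] at h2 h3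
  -- real estimates
  have hNr : (3 : ℝ) ≤ N := by exact_mod_cast hN
  have hNpos : (0 : ℝ) < N := by linarith
  have hRr : (N : ℝ) ^ 2 ≤ R := by exact_mod_cast hRN
  have hRZr : (R : ℝ) ^ 2 ≤ Z := by exact_mod_cast hRZ
  have hRpos : (0 : ℝ) < R := lt_of_lt_of_le (by positivity) hRr
  have hR1 : (N : ℝ) ≤ R := by nlinarith
  have hR1' : (1 : ℝ) ≤ R := by linarith
  have hU : (((2 * ((R + 1) / N) + 1 : ℕ)) : ℝ) ≤ 5 * R / N := by
    push_cast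
    have := Nat.cast_div_le (α := ℝ) (m := R + 1) (n := N)
    push_cast at this
    rw [le_div_iff₀ hNpos]
    have h4 : (((R + 1) / N : ℕ) : ℝ) * N ≤ R + 1 := by
      rwa [le_div_iff₀ hNpos] at this
    nlinarith
  have hV : (((2 * ((2 * R + 2) / N ^ 2) + 1 : ℕ)) : ℝ) ≤ 9 * R / N ^ 2 := by
    push_cast
    have := Nat.cast_div_le (α := ℝ) (m := 2 * R + 2) (n := N ^ 2)
    push_cast at this
    have hN2 : (0 : ℝ) < (N : ℝ) ^ 2 := by positivity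
    rw [le_div_iff₀ hN2]
    have h4 : (((2 * R + 2) / N ^ 2 : ℕ) : ℝ) * N ^ 2 ≤ 2 * R + 2 := by
      rwa [le_div_iff₀ hN2] at this
    nlinarith
  have hW : (((2 * (2 * (R / N) + 1) : ℕ)) : ℝ) ≤ 6 * R / N := by
    push_cast
    have := Nat.cast_div_le (α := ℝ) (m := R) (n := N)
    rw [le_div_iff₀ hNpos]
    have h4 : ((R / N : ℕ) : ℝ) * N ≤ R := by
      rwa [le_div_iff₀ hNpos] at this
    nlinarith
  have hcard : ((cball N Z).card : ℝ) ≤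
      (2 * D : ℝ) * ((5 * R / N) * (9 * R / N ^ 2)) + 6 * R / N := by
    rw [← hsplit]
    push_cast
    have h1' : (((cball N Z).filter (fun γ => γ 0 1 * γ 1 0 ≠ 0)).card : ℝ) ≤
        (2 * D : ℝ) * ((5 * R / N) * (9 * R / N ^ 2)) := by
      have h5 : (((cball N Z).filter (fun γ => γ 0 1 * γ 1 0 ≠ 0)).card : ℝ) ≤
          (2 * D : ℝ) * (((cball N Z).image (fun γ => (γ 0 0, γ 1 1))).card : ℝ) := by
        exact_mod_cast h1
      refine h5.trans ?_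
      apply mul_le_mul_of_nonneg_left _ (by positivity)
      have h6 : ((((cball N Z).image (fun γ => (γ 0 0, γ 1 1))).card : ℕ) : ℝ) ≤
          (((2 * ((R + 1) / N) + 1 : ℕ)) : ℝ) * (((2 * ((2 * R + 2) / N ^ 2) + 1 : ℕ)) : ℝ) := by
        exact_mod_cast h2
      refine h6.trans ?_
      exact mul_le_mul hU hV (by positivity) (by positivity)
    have h3' : (((cball N Z).filter (fun γ => ¬ (γ 0 1 * γ 1 0 ≠ 0))).card : ℝ) ≤
        6 * R / N := by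
      refine le_trans ?_ hW
      exact_mod_cast h3
    linarith
  refine hcard.trans ?_
  have e1 : (5 * (R : ℝ) / N) * (9 * R / N ^ 2) = 45 * ((R : ℝ) ^ 2 / N ^ 3) := by
    field_simp
    ring
  have e2 : 6 * (R : ℝ) / N ≤ 6 * ((R : ℝ) ^ 2 / N ^ 3) := by
    have : (R : ℝ) / N ≤ (R : ℝ) ^ 2 / N ^ 3 := by
      rw [div_le_div_iff₀ hNpos (by positivity)]
      nlinarith [mul_pos hRpos hNpos, mul_le_mul_of_nonneg_left hRr (mul_pos hRpos hNpos).le]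
    calc 6 * (R : ℝ) / N = 6 * (R / N) := by ring
      _ ≤ _ := by linarith
  have e3 : (R : ℝ) ^ 2 / N ^ 3 ≤ (Z : ℝ) / N ^ 3 := by
    apply div_le_div_of_nonneg_right hRZr (by positivity)
  rw [e1]
  set q : ℝ := (R : ℝ) ^ 2 / N ^ 3 with hq
  set z : ℝ := (Z : ℝ) / N ^ 3 with hz
  have hq0 : 0 ≤ q := by positivity
  have hz0 : 0 ≤ z := by positivity
  calc (2 * D : ℝ) * (45 * q) + 6 * (R : ℝ) / N
      ≤ (2 * (C * (Z : ℝ) ^ ε)) * (45 * z) + 6 * z := by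
        have : (2 * D : ℝ) * (45 * q) ≤ (2 * (C * (Z : ℝ) ^ ε)) * (45 * z) := by
          apply mul_le_mul _ _ (by positivity) (by positivity)
          · linarith
          · linarith
        linarith
    _ ≤ (2 * (C * (Z : ℝ) ^ ε)) * (45 * z) + 6 * ((Z : ℝ) ^ ε * z) := by
        have : z ≤ (Z : ℝ) ^ ε * z := le_mul_of_one_le_left hz0 hZe
        linarith
    _ = (90 * C + 6) * (Z : ℝ) ^ ε * z := by ring

lemma nsq_ge (N : ℕ) (hN : 3 ≤ N) (γ : SL(2, ℤ)) (h : red N γ = 1) (h1 : γ ≠ 1) :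
    (N : ℤ) ^ 2 ≤ nsq γ := by
  obtain ⟨_, c1, c2, _⟩ := cong_facts N γ h
  have key : ∀ x : ℤ, (N : ℤ) ∣ x → x ≠ 0 → (N : ℤ) ^ 2 ≤ x ^ 2 := by
    intro x hx hx0
    have h2 : (N : ℤ) ≤ |x| := Int.le_of_dvd (abs_pos.mpr hx0) ((dvd_abs _ _).mpr hx)
    have h3 : (0 : ℤ) ≤ N := by positivity
    calc (N : ℤ) ^ 2 ≤ |x| ^ 2 := by
          apply pow_le_pow_left₀ h3 h2
      _ = x ^ 2 := sq_abs x
  unfold nsq
  by_cases hb : γ 0 1 = 0
  · by_cases hc : γ 1 0 = 0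
    · exfalso
      obtain ⟨h2, h3⟩ := diag_one N hN γ h (by rw [hb]; ring)
      apply h1
      ext i j
      fin_cases i <;> fin_cases j <;> simp [*]
    · have := key _ c2 hc
      have := sq_nonneg (γ 0 0)
      have := sq_nonneg (γ 0 1)
      have := sq_nonneg (γ 1 1)
      linarith
  · have := key _ c1 hb
    have := sq_nonneg (γ 0 0)
    have := sq_nonneg (γ 1 0)
    have := sq_nonneg (γ 1 1)
    linarith

/-- M5 -/
theorem countB (ε : ℝ) (hε : 0 < ε) : ∃ C : ℝ, 0 < C ∧ ∀ N Y : ℕ, 3 ≤ N → N ^ 4 ≤ Y →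
    ∑ γ ∈ (ball (Y : ℤ)).filter (fun γ => red N γ = 1), 1 / Real.sqrt (nsq γ : ℝ) ≤
      C * (Y : ℝ) ^ ε * (1 + (Y : ℝ) / (N : ℝ) ^ 5) := by
  obtain ⟨C, hC, hcard⟩ := cball_card ε hε
  refine ⟨1 + C, by positivity, ?_⟩
  intro N Y hN hNY
  have hNr : (3 : ℝ) ≤ N := by exact_mod_cast hN
  have hNpos : (0 : ℝ) < N := by linarith
  have hY1 : 1 ≤ Y := le_trans (Nat.one_le_pow _ _ (by omega)) hNY
  have hY1' : (1 : ℝ) ≤ Y := by exact_mod_cast hY1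
  have hYe : (1 : ℝ) ≤ (Y : ℝ) ^ ε := Real.one_le_rpow hY1' hε.le
  change ∑ γ ∈ cball N Y, 1 / Real.sqrt (nsq γ : ℝ) ≤ _
  have hpt : ∀ γ ∈ cball N Y, 1 / Real.sqrt (nsq γ : ℝ) ≤
      (if γ = 1 then 1 else 0) + (if nsq γ ≤ ((N ^ 4 : ℕ) : ℤ) then 1 / (N : ℝ) else 0) +
        1 / (N : ℝ) ^ 2 := by
    intro γ hγ
    obtain ⟨h1, h2⟩ := mem_cball.mp hγ
    by_cases hg : γ = 1
    · rw [if_pos hg]
      have : 1 / Real.sqrt (nsq γ : ℝ) ≤ 1 := by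
        rw [hg]
        have e : nsq (1 : SL(2, ℤ)) = 2 := by simp [nsq]
        rw [e, div_le_one (by positivity)]
        rw [Real.one_le_sqrt]
        norm_num
      have h3 : (0 : ℝ) ≤ (if nsq γ ≤ ((N ^ 4 : ℕ) : ℤ) then 1 / (N : ℝ) else 0) := by
        split_ifs <;> positivity
      have h4 : (0 : ℝ) ≤ 1 / (N : ℝ) ^ 2 := by positivity
      linarith
    · rw [if_neg hg, zero_add]
      have h3 := nsq_ge N hN γ h2 hg
      have h3' : ((N : ℝ)) ^ 2 ≤ (nsq γ : ℝ) := by exact_mod_cast h3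
      by_cases hs : nsq γ ≤ ((N ^ 4 : ℕ) : ℤ)
      · rw [if_pos hs]
        have h4 : 1 / Real.sqrt (nsq γ : ℝ) ≤ 1 / (N : ℝ) := by
          apply one_div_le_one_div_of_le hNpos
          exact Real.le_sqrt_of_sq_le h3'
        have h5 : (0 : ℝ) ≤ 1 / (N : ℝ) ^ 2 := by positivity
        linarith
      · rw [if_neg hs, zero_add]
        apply one_div_le_one_div_of_le (by positivity)
        apply Real.le_sqrt_of_sq_le
        have h6 : ((N ^ 4 : ℕ) : ℤ) ≤ nsq γ := by omega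
        have h7 : (((N ^ 4 : ℕ) : ℤ) : ℝ) ≤ (nsq γ : ℝ) := by exact_mod_cast h6
        push_cast at h7
        calc ((N : ℝ) ^ 2) ^ 2 = (N : ℝ) ^ 4 := by ring
          _ ≤ _ := h7
  refine (Finset.sum_le_sum hpt).trans ?_
  rw [Finset.sum_add_distrib, Finset.sum_add_distrib]
  have s1 : ∑ γ ∈ cball N Y, (if γ = 1 then (1 : ℝ) else 0) ≤ 1 := by
    rw [Finset.sum_ite_eq']
    split_ifs <;> norm_num
  have s2 : ∑ γ ∈ cball N Y, (if nsq γ ≤ ((N ^ 4 : ℕ) : ℤ) then 1 / (N : ℝ) else 0) ≤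
      C * (Y : ℝ) ^ ε := by
    rw [← Finset.sum_filter, Finset.sum_const, nsmul_eq_mul]
    have hsub : (cball N Y).filter (fun γ => nsq γ ≤ ((N ^ 4 : ℕ) : ℤ)) ⊆ cball N (N ^ 4) := by
      intro γ hγ
      rw [mem_filter, mem_cball] at hγ
      rw [mem_cball]
      exact ⟨hγ.2, hγ.1.2⟩
    have h1 : (((cball N Y).filter (fun γ => nsq γ ≤ ((N ^ 4 : ℕ) : ℤ))).card : ℝ) ≤
        C * ((N ^ 4 : ℕ) : ℝ) ^ ε * (((N ^ 4 : ℕ) : ℝ) / (N : ℝ) ^ 3) := by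
      refine le_trans ?_ (hcard N (N ^ 4) hN le_rfl)
      exact_mod_cast card_le_card hsub
    have h2 : (((N ^ 4 : ℕ) : ℝ) / (N : ℝ) ^ 3) = N := by
      push_cast; field_simp
    rw [h2] at h1
    have h3 : ((N ^ 4 : ℕ) : ℝ) ^ ε ≤ (Y : ℝ) ^ ε :=
      Real.rpow_le_rpow (by positivity) (by exact_mod_cast hNY) hε.le
    calc _ ≤ (C * ((N ^ 4 : ℕ) : ℝ) ^ ε * N) * (1 / (N : ℝ)) := by
          apply mul_le_mul_of_nonneg_right h1 (by positivity)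
      _ = C * ((N ^ 4 : ℕ) : ℝ) ^ ε := by field_simp
      _ ≤ _ := by apply mul_le_mul_of_nonneg_left h3 hC.le
  have s3 : ∑ _γ ∈ cball N Y, 1 / (N : ℝ) ^ 2 ≤ C * (Y : ℝ) ^ ε * ((Y : ℝ) / (N : ℝ) ^ 5) := by
    rw [Finset.sum_const, nsmul_eq_mul]
    have h1 := hcard N Y hN hNY
    calc _ ≤ (C * (Y : ℝ) ^ ε * ((Y : ℝ) / (N : ℝ) ^ 3)) * (1 / (N : ℝ) ^ 2) := by
          apply mul_le_mul_of_nonneg_right h1 (by positivity)
      _ = _ := by field_simp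
  have s4 : (0 : ℝ) ≤ (Y : ℝ) / (N : ℝ) ^ 5 := by positivity
  have s5 : (0 : ℝ) ≤ (Y : ℝ) ^ ε * ((Y : ℝ) / (N : ℝ) ^ 5) := by positivity
  nlinarith [s1, s2, s3, s4, s5, hYe]

end H80.Gon
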