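import Pool.Agent.H80.Gon.Defs

/-!
Module M6 for MP_db315d_nt: the dimension of a space of functions on `SL(2, Z/N)` which is stable
under right translations and has no vectors invariant under the kernels of the reductions to proper
levels (helper60).
-/

open Matrix MatrixGroups

namespace H80.Gon.M6

section group

variable {R : Type*} [CommRing R]

/-- Upper unipotent. -/
def U (x : R) : SL(2, R) := ⟨!![1, x; 0, 1], by simp [Matrix.det_fin_two_of]⟩

/-- Lower unipotent. -/
def L (x : R) : SL(2, R) := ⟨!![1, 0; x, 1], by simp [Matrix.det_fin_two_of]⟩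

/-- Diagonal. -/
def D (t : Rˣ) : SL(2, R) := ⟨!![(t : R), 0; 0, ((t⁻¹ : Rˣ) : R)], by
  simp [Matrix.det_fin_two_of]⟩

lemma U_coe (x : R) : ((U x : SL(2, R)) : Matrix (Fin 2) (Fin 2) R) = !![1, x; 0, 1] := rfl
lemma L_coe (x : R) : ((L x : SL(2, R)) : Matrix (Fin 2) (Fin 2) R) = !![1, 0; x, 1] := rfl
lemma D_coe (t : Rˣ) : ((D t : SL(2, R)) : Matrix (Fin 2) (Fin 2) R) =
    !![(t : R), 0; 0, ((t⁻¹ : Rˣ) : R)] := rfl

lemma U_mul (x y : R) : U x * U y = U (x + y) := by
  ext i j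
  fin_cases i <;> fin_cases j <;>
    simp [U_coe, Matrix.mul_apply, Fin.sum_univ_two, add_comm]

lemma L_mul (x y : R) : L x * L y = L (x + y) := by
  ext i j
  fin_cases i <;> fin_cases j <;>
    simp [L_coe, Matrix.mul_apply, Fin.sum_univ_two]

@[simp] lemma U_zero : U (0 : R) = 1 := by
  ext i j
  fin_cases i <;> fin_cases j <;> simp [U_coe]

@[simp] lemma L_zero : L (0 : R) = 1 := by
  ext i j
  fin_cases i <;> fin_cases j <;> simp [L_coe]

lemma U_inv (x : R) : (U x)⁻¹ = U (-x) := by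
  rw [inv_eq_iff_mul_eq_one, U_mul]; simp

lemma L_inv (x : R) : (L x)⁻¹ = L (-x) := by
  rw [inv_eq_iff_mul_eq_one, L_mul]; simp

lemma U_pow (x : R) (n : ℕ) : U x ^ n = U (n * x) := by
  induction n with
  | zero => simp
  | succ n ih => rw [pow_succ, ih, U_mul]; push_cast; congr 1; ring

lemma L_pow (x : R) (n : ℕ) : L x ^ n = L (n * x) := by
  induction n with
  | zero => simp
  | succ n ih => rw [pow_succ, ih, L_mul]; push_cast; congr 1; ring

/-- `D t⁻¹ * U j * D t = U (t⁻² j)`. -/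
lemma D_conj (t : Rˣ) (j : R) : U j * D t = D t * U (((t⁻¹ : Rˣ) : R) ^ 2 * j) := by
  ext a b
  fin_cases a <;> fin_cases b <;>
    simp [U_coe, D_coe, Matrix.mul_apply, Fin.sum_univ_two]
  rw [pow_two, mul_assoc, ← mul_assoc, Units.mul_inv]; ring

end group

section kernel

variable {N : ℕ} [NeZero N]

lemma exists_of_cast_eq_zero {m : ℕ} (hm : m ∣ N) (x : ZMod N)
    (hx : ZMod.castHom hm (ZMod m) x = 0) : ∃ y : ZMod N, x = (m : ZMod N) * y := by
  have h1 : ((x.val : ℕ) : ZMod N) = x := ZMod.natCast_zmod_val x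
  rw [← h1, map_natCast, ZMod.natCast_eq_zero_iff] at hx
  obtain ⟨k, hk⟩ := hx
  refine ⟨(k : ZMod N), ?_⟩
  rw [← h1, hk]
  push_cast
  rfl

lemma isUnit_of_forall (x : ZMod N)
    (h : ∀ q : ℕ, q.Prime → ∀ hq : q ∣ N, ZMod.castHom hq (ZMod q) x ≠ 0) : IsUnit x := by
  have h1 : ((x.val : ℕ) : ZMod N) = x := ZMod.natCast_zmod_val x
  rw [← h1, ZMod.isUnit_iff_coprime]
  by_contra hc
  rw [Nat.Prime.not_coprime_iff_dvd] at hc
  obtain ⟨q, hq, hq1, hq2⟩ := hc
  refine h q hq hq2 ?_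
  rw [← h1, map_natCast, ZMod.natCast_eq_zero_iff]
  exact hq1

omit [NeZero N] in
lemma cast_div_eq_zero {p q : ℕ} (hp : p.Prime) (hq : q.Prime) (hpq : q ≠ p) (hpN : p ∣ N)
    (hqN : q ∣ N) : ZMod.castHom hqN (ZMod q) ((N / p : ℕ) : ZMod N) = 0 := by
  rw [map_natCast, ZMod.natCast_eq_zero_iff]
  have hco : Nat.Coprime q p := (Nat.coprime_primes hq hp).2 hpq
  have : q ∣ p * (N / p) := by rw [Nat.mul_div_cancel' hpN]; exact hqN
  exact hco.dvd_of_dvd_mul_left this

theorem kernel_mem {p : ℕ} (hp : p.Prime) (hpN : p ∣ N) (e s : ZMod N)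
    (hs : s = ((N / p : ℕ) : ZMod N)) (hes : e * s = s)
    (H : Subgroup SL(2, ZMod N)) (h1 : U s ∈ H) (h2 : L (-e) * U s * L e ∈ H)
    (h3 : U e * (L (-e) * U s * L e) * U (-e) ∈ H) (g : SL(2, ZMod N))
    (hg : Matrix.SpecialLinearGroup.map
      (ZMod.castHom (Nat.div_dvd_of_dvd hpN) (ZMod (N / p))) g = 1) : g ∈ H := by
  have hU : ∀ y : ZMod N, U (s * y) ∈ H := by
    intro y
    have := H.pow_mem h1 y.val
    rwa [U_pow, ZMod.natCast_zmod_val, mul_comm] at this
  have hL' : U e * (L (-e) * U s * L e) * U (-e) = L (-s) := by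
    ext a b
    fin_cases a <;> fin_cases b <;>
      simp [U_coe, L_coe, Matrix.mul_apply, Fin.sum_univ_two]
    all_goals grind
  rw [hL'] at h3
  have hL : ∀ y : ZMod N, L (s * y) ∈ H := by
    intro y
    have := H.inv_mem (H.pow_mem h3 y.val)
    rwa [L_pow, L_inv, ZMod.natCast_zmod_val, mul_neg, neg_neg, mul_comm] at this
  have hh : ∀ y : ZMod N, L (-e) * U (s * y) * L e ∈ H := by
    intro y
    have h4 : ∀ n : ℕ, (L (-e) * U s * L e) ^ n = L (-e) * U (n * s) * L e := by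
      intro n
      have : L (-e) = (L e)⁻¹ := by rw [L_inv]
      rw [this]
      have h5 : (L e)⁻¹ * U s * L e = (L e)⁻¹ * U s * ((L e)⁻¹)⁻¹ := by rw [inv_inv]
      rw [h5, conj_pow, U_pow, inv_inv]
    have := H.pow_mem h2 y.val
    rwa [h4, ZMod.natCast_zmod_val, mul_comm] at this
  -- diagonal matrices
  have hD : ∀ (u : (ZMod N)ˣ) (α : ZMod N), (u : ZMod N) = 1 + s * α → D u ∈ H := by
    intro u α hu
    have key : D u = L (s * (α * ((u⁻¹ : (ZMod N)ˣ) : ZMod N))) * (L (-e) * U (s * α) * L e) *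
        U (s * (-(α * ((u⁻¹ : (ZMod N)ˣ) : ZMod N)))) := by
      have hi : (u : ZMod N) * ((u⁻¹ : (ZMod N)ˣ) : ZMod N) = 1 := Units.mul_inv u
      set v : ZMod N := ((u⁻¹ : (ZMod N)ˣ) : ZMod N) with hv
      rw [hu] at hi
      ext a b
      fin_cases a <;> fin_cases b <;>
        simp [U_coe, L_coe, D_coe, Matrix.mul_apply, Fin.sum_univ_two, hu]
      all_goals grind
    rw [key]
    exact H.mul_mem (H.mul_mem (hL _) (hh _)) (hU _)
  -- entries of elements of the kernel
  have hentries : ∀ g : SL(2, ZMod N), Matrix.SpecialLinearGroup.map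
      (ZMod.castHom (Nat.div_dvd_of_dvd hpN) (ZMod (N / p))) g = 1 →
      ∃ α β γ : ZMod N, g 0 0 = 1 + s * α ∧ g 0 1 = s * β ∧ g 1 0 = s * γ := by
    intro g hg
    have hmap : ∀ i j, ZMod.castHom (Nat.div_dvd_of_dvd hpN) (ZMod (N / p)) (g i j) =
        (1 : Matrix (Fin 2) (Fin 2) (ZMod (N / p))) i j := by
      intro i j
      have := congrArg (fun x : SL(2, ZMod (N / p)) => x i j) hg
      simpa using this
    obtain ⟨α, hα⟩ := exists_of_cast_eq_zero (Nat.div_dvd_of_dvd hpN) (g 0 0 - 1) (by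
      rw [map_sub, hmap, map_one]; simp)
    obtain ⟨β, hβ⟩ := exists_of_cast_eq_zero (Nat.div_dvd_of_dvd hpN) (g 0 1) (by
      rw [hmap]; simp)
    obtain ⟨γ, hγ⟩ := exists_of_cast_eq_zero (Nat.div_dvd_of_dvd hpN) (g 1 0) (by
      rw [hmap]; simp)
    refine ⟨α, β, γ, ?_, ?_, ?_⟩
    · rw [hs, ← hα]; ring
    · rw [hs, ← hβ]
    · rw [hs, ← hγ]
  have hunit : ∀ g : SL(2, ZMod N), Matrix.SpecialLinearGroup.map
      (ZMod.castHom (Nat.div_dvd_of_dvd hpN) (ZMod (N / p))) g = 1 → IsUnit (g 0 0) →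
      g ∈ H := by
    intro g hg hu
    obtain ⟨α, β, γ, h00, h01, h10⟩ := hentries g hg
    obtain ⟨u, hu⟩ := hu
    have hdet : g 0 0 * g 1 1 - g 0 1 * g 1 0 = 1 := by
      have := g.det_coe
      rwa [Matrix.det_fin_two] at this
    have key : g = L (s * (γ * ((u⁻¹ : (ZMod N)ˣ) : ZMod N))) * D u *
        U (s * (β * ((u⁻¹ : (ZMod N)ˣ) : ZMod N))) := by
      have hi : (u : ZMod N) * ((u⁻¹ : (ZMod N)ˣ) : ZMod N) = 1 := Units.mul_inv u
      set v : ZMod N := ((u⁻¹ : (ZMod N)ˣ) : ZMod N) with hv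
      rw [← hu, h01, h10] at hdet
      ext a b
      fin_cases a <;> fin_cases b <;>
        simp [U_coe, L_coe, D_coe, Matrix.mul_apply, Fin.sum_univ_two, ← hu, h01, h10, ← hv]
      all_goals grind
    rw [key]
    exact H.mul_mem (H.mul_mem (hL _) (hD u α (by rw [hu, h00]))) (hU _)
  by_cases hu : IsUnit (g 0 0)
  · exact hunit g hg hu
  · -- multiply by `L s`
    have hLs : L s ∈ H := by simpa using hL 1
    have hmem : g * L s ∈ H := by
      apply hunit
      · rw [map_mul, hg, one_mul]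
        ext i j
        have hs0 : ZMod.castHom (Nat.div_dvd_of_dvd hpN) (ZMod (N / p)) s = 0 := by
          rw [hs, map_natCast, ZMod.natCast_self]
        fin_cases i <;> fin_cases j <;>
          simp [L_coe, -ZMod.castHom_apply, hs0]
      · obtain ⟨α, β, γ, h00, h01, h10⟩ := hentries g hg
        have hdet : g 0 0 * g 1 1 - g 0 1 * g 1 0 = 1 := by
          have := g.det_coe
          rwa [Matrix.det_fin_two] at this
        have hval : (g * L s) 0 0 = g 0 0 + g 0 1 * s := by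
          simp [L_coe, Matrix.mul_apply, Fin.sum_univ_two]
        rw [hval]
        apply isUnit_of_forall
        intro q hq hqN
        by_cases hqp : q = p
        · subst hqp
          have : Fact q.Prime := ⟨hq⟩
          -- `g 0 0` is zero modulo `q`
          have hA : ZMod.castHom hqN (ZMod q) (g 0 0) = 0 := by
            by_contra hA
            apply hu
            apply isUnit_of_forall
            intro r hr hrN
            by_cases hrq : r = q
            · subst hrq; exact hA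
            · rw [h00, map_add, map_mul, hs, cast_div_eq_zero hq hr hrq hqN hrN]
              have : Fact r.Prime := ⟨hr⟩
              rw [map_one, zero_mul, add_zero]
              exact one_ne_zero
          have hs0 : ZMod.castHom hqN (ZMod q) s ≠ 0 := by
            intro h0
            rw [h00, map_add, map_mul, h0, map_one, zero_mul, add_zero] at hA
            exact one_ne_zero hA
          have hB : ZMod.castHom hqN (ZMod q) (g 0 1) ≠ 0 := by
            intro h0
            have := congrArg (ZMod.castHom hqN (ZMod q)) hdet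
            rw [map_sub, map_mul, map_mul, hA, h0, zero_mul, zero_mul, sub_zero, map_one] at this
            exact zero_ne_one this
          rw [map_add, map_mul, hA, zero_add]
          exact mul_ne_zero hB hs0
        · have : Fact q.Prime := ⟨hq⟩
          rw [h00, map_add, map_add, map_mul, map_mul, hs,
            cast_div_eq_zero hp hq hqp hpN hqN, map_one, zero_mul, mul_zero, add_zero, add_zero]
          exact one_ne_zero
    have := H.mul_mem hmem (H.inv_mem hLs)
    simpa using this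

end kernel

section rep

variable {N : ℕ} [NeZero N]

/-- Right translation. -/
noncomputable def rho (g : SL(2, ZMod N)) :
    (SL(2, ZMod N) → ℂ) →ₗ[ℂ] (SL(2, ZMod N) → ℂ) :=
  LinearMap.funLeft ℂ ℂ (fun x => x * g)

omit [NeZero N] in
lemma rho_apply (g x : SL(2, ZMod N)) (f : SL(2, ZMod N) → ℂ) : rho g f x = f (x * g) := rfl

omit [NeZero N] in
lemma rho_mul (g h : SL(2, ZMod N)) (f : SL(2, ZMod N) → ℂ) :
    rho (g * h) f = rho g (rho h f) := by
  ext x; simp [rho_apply, mul_assoc]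

omit [NeZero N] in
lemma rho_one (f : SL(2, ZMod N) → ℂ) : rho (1 : SL(2, ZMod N)) f = f := by
  ext x; simp [rho_apply]

/-- The sum over the translations by the unipotents `U (j N / q)`. -/
noncomputable def av (q : ℕ) : (SL(2, ZMod N) → ℂ) →ₗ[ℂ] (SL(2, ZMod N) → ℂ) :=
  ∑ j : ZMod N, rho (U (j * ((N / q : ℕ) : ZMod N)))

lemma av_apply (q : ℕ) (f : SL(2, ZMod N) → ℂ) :
    av q f = ∑ j : ZMod N, rho (U (j * ((N / q : ℕ) : ZMod N))) f := by
  simp [av]

lemma av_comm (q : ℕ) (g : SL(2, ZMod N))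
    (hg : ∀ j : ZMod N, g * U (j * ((N / q : ℕ) : ZMod N)) = U (j * ((N / q : ℕ) : ZMod N)) * g)
    (f : SL(2, ZMod N) → ℂ) : av q (rho g f) = rho g (av q f) := by
  rw [av_apply, av_apply, map_sum]
  refine Finset.sum_congr rfl fun j _ => ?_
  rw [← rho_mul, ← rho_mul, hg]

lemma rho_av (q : ℕ) (i : ZMod N) (f : SL(2, ZMod N) → ℂ) :
    rho (U (i * ((N / q : ℕ) : ZMod N))) (av q f) = av q f := by
  rw [av_apply, map_sum]
  simp_rw [← rho_mul, U_mul, ← add_mul]
  exact Fintype.sum_equiv (Equiv.addLeft i) _ _ (fun j => rfl)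

lemma av_av (q : ℕ) (f : SL(2, ZMod N) → ℂ) : av q (av q f) = (N : ℂ) • av q f := by
  rw [av_apply q (av q f)]
  simp_rw [rho_av]
  rw [Finset.sum_const, Finset.card_univ, ZMod.card, ← Nat.cast_smul_eq_nsmul ℂ]

lemma av_av_comm (q p : ℕ) (f : SL(2, ZMod N) → ℂ) : av q (av p f) = av p (av q f) := by
  rw [av_apply p f, map_sum, av_apply p (av q f)]
  refine Finset.sum_congr rfl fun j _ => ?_
  apply av_comm
  intro i
  rw [U_mul, U_mul, add_comm]

variable (V : Submodule ℂ (SL(2, ZMod N) → ℂ))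

lemma av_mem (hinv : ∀ g : SL(2, ZMod N), ∀ f ∈ V, rho g f ∈ V) (q : ℕ)
    (f : SL(2, ZMod N) → ℂ) (hf : f ∈ V) : av q f ∈ V := by
  rw [av_apply]
  exact V.sum_mem fun j _ => hinv _ _ hf

/-- The stabiliser of a function under right translations. -/
def stab (f : SL(2, ZMod N) → ℂ) : Subgroup SL(2, ZMod N) where
  carrier := {g | rho g f = f}
  mul_mem' := by
    intro a b ha hb
    simp only [Set.mem_ofPred_eq] at ha hb ⊢
    rw [rho_mul, hb, ha]
  one_mem' := rho_one f
  inv_mem' := by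
    intro a ha
    simp only [Set.mem_ofPred_eq] at ha ⊢
    nth_rewrite 1 [← ha]
    rw [← rho_mul, inv_mul_cancel, rho_one]

omit [NeZero N] in
lemma mem_stab (f : SL(2, ZMod N) → ℂ) (g : SL(2, ZMod N)) : g ∈ stab f ↔ rho g f = f := Iff.rfl

omit [NeZero N] in
lemma exists_e (p : ℕ) (hp : p.Prime) (hpN : p ∣ N) (S : Finset ℕ) (hpS : p ∉ S)
    (hS : ∀ q ∈ S, q.Prime ∧ q ∣ N) :
    ∃ e : ZMod N, e * ((N / p : ℕ) : ZMod N) = ((N / p : ℕ) : ZMod N) ∧
      ∀ q ∈ S, e * ((N / q : ℕ) : ZMod N) = 0 := by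
  have hco : Nat.Coprime p (∏ q ∈ S, q) := by
    apply Nat.Coprime.prod_right
    intro q hq
    exact (Nat.coprime_primes hp (hS q hq).1).2 (fun h => hpS (h ▸ hq))
  obtain ⟨e, he1, he2⟩ := Nat.chineseRemainder hco 1 0
  refine ⟨(e : ZMod N), ?_, ?_⟩
  · have h1 : ((e : ℤ) - 1) = ((p : ℤ) * (((e : ℤ) - 1) / p)) := by
      rw [Int.mul_ediv_cancel']
      have := (Nat.modEq_iff_dvd.1 he1.symm)
      simpa using this
    have h2 : ((e : ZMod N) - 1) * ((N / p : ℕ) : ZMod N) = 0 := by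
      have h3 : ((e : ZMod N) - 1) = (((e : ℤ) - 1 : ℤ) : ZMod N) := by push_cast; rfl
      rw [h3, h1]
      push_cast
      have h4 : (p : ZMod N) * ((N / p : ℕ) : ZMod N) = 0 := by
        rw [← Nat.cast_mul, Nat.mul_div_cancel' hpN, ZMod.natCast_self]
      rw [mul_right_comm, h4, zero_mul]
    have h5 : (e : ZMod N) * ((N / p : ℕ) : ZMod N) =
        ((e : ZMod N) - 1) * ((N / p : ℕ) : ZMod N) + ((N / p : ℕ) : ZMod N) := by ring
    rw [h5, h2, zero_add]
  · intro q hq
    have h1 : q ∣ e := dvd_trans (Finset.dvd_prod_of_mem _ hq) ((Nat.modEq_zero_iff_dvd).1 he2)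
    obtain ⟨c, hc⟩ := h1
    have h4 : (q : ZMod N) * ((N / q : ℕ) : ZMod N) = 0 := by
      rw [← Nat.cast_mul, Nat.mul_div_cancel' (hS q hq).2, ZMod.natCast_self]
    rw [hc]
    push_cast
    rw [mul_right_comm, h4, zero_mul]

lemma exists_av_zero (hne : V ≠ ⊥) (hinv : ∀ g : SL(2, ZMod N), ∀ f ∈ V, rho g f ∈ V)
    (hnew : ∀ p : ℕ, p.Prime → ∀ hp : p ∣ N, ∀ f ∈ V,
      (∀ g : SL(2, ZMod N),
        Matrix.SpecialLinearGroup.map (ZMod.castHom (Nat.div_dvd_of_dvd hp) (ZMod (N / p))) g = 1 →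
        ∀ x, f (x * g) = f x) → f = 0) (S : Finset ℕ) (hS : ∀ q ∈ S, q.Prime ∧ q ∣ N) :
    ∃ f ∈ V, f ≠ 0 ∧ ∀ q ∈ S, av q f = 0 := by
  have hN : (N : ℂ) ≠ 0 := Nat.cast_ne_zero.2 (NeZero.ne N)
  induction S using Finset.induction_on with
  | empty =>
    obtain ⟨f, hf, hf0⟩ := V.exists_mem_ne_zero_of_ne_bot hne
    exact ⟨f, hf, hf0, by simp⟩
  | insert p S hpS ih =>
    obtain ⟨f, hfV, hf0, hfS⟩ := ih (fun q hq => hS q (Finset.mem_insert_of_mem hq))
    obtain ⟨hp, hpN⟩ := hS p (Finset.mem_insert_self p S)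
    obtain ⟨e, he1, he2⟩ := exists_e p hp hpN S hpS
      (fun q hq => hS q (Finset.mem_insert_of_mem hq))
    -- commutation
    have hLe : ∀ q ∈ S, ∀ j : ZMod N,
        L e * U (j * ((N / q : ℕ) : ZMod N)) = U (j * ((N / q : ℕ) : ZMod N)) * L e := by
      intro q hq j
      have := he2 q hq
      have h2 : j * ((N / q : ℕ) : ZMod N) * e = 0 := by
        rw [mul_assoc, mul_comm _ e, this, mul_zero]
      ext a b
      fin_cases a <;> fin_cases b <;>
        simp [U_coe, L_coe, Matrix.mul_apply, Fin.sum_univ_two]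
      · exact h2
      · rw [mul_comm]; exact h2
    have hUe : ∀ q ∈ S, ∀ j : ZMod N,
        U (-e) * U (j * ((N / q : ℕ) : ZMod N)) = U (j * ((N / q : ℕ) : ZMod N)) * U (-e) := by
      intro q hq j
      rw [U_mul, U_mul, add_comm]
    -- a conjugator for which the translate is not invariant
    have hex : ∃ g : SL(2, ZMod N), (∀ q ∈ S, ∀ j : ZMod N,
        g * U (j * ((N / q : ℕ) : ZMod N)) = U (j * ((N / q : ℕ) : ZMod N)) * g) ∧
        (N : ℂ) • rho g f - av p (rho g f) ≠ 0 := by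
      by_contra hcon
      push Not at hcon
      have hinvt : ∀ g : SL(2, ZMod N), (∀ q ∈ S, ∀ j : ZMod N,
        g * U (j * ((N / q : ℕ) : ZMod N)) = U (j * ((N / q : ℕ) : ZMod N)) * g) →
        g⁻¹ * U (((N / p : ℕ) : ZMod N)) * g ∈ stab f := by
        intro g hg
        have h0 := hcon g hg
        have h1 : (N : ℂ) • rho g f = av p (rho g f) := sub_eq_zero.1 h0
        have h2 : rho (U (((N / p : ℕ) : ZMod N))) (rho g f) = rho g f := by
          have h3 := rho_av p 1 (rho g f)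
          rw [one_mul, ← h1, map_smul] at h3
          exact smul_right_injective _ hN h3
        rw [mem_stab, mul_assoc, rho_mul, rho_mul, h2, ← rho_mul, inv_mul_cancel, rho_one]
      have hz : f = 0 := by
        apply hnew p hp hpN f hfV
        intro g hg x
        have hmem : g ∈ stab f := by
          refine kernel_mem hp hpN e _ rfl he1 (stab f) ?_ ?_ ?_ g hg
          · have := hinvt 1 (by intro q hq j; simp)
            simpa using this
          · have := hinvt (L e) hLe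
            rwa [L_inv] at this
          · have := hinvt (L e * U (-e)) (by
              intro q hq j
              rw [mul_assoc, hUe q hq j, ← mul_assoc, hLe q hq j, mul_assoc])
            rw [_root_.mul_inv_rev, U_inv, L_inv, neg_neg] at this
            have h5 : U e * (L (-e) * U (((N / p : ℕ) : ZMod N)) * L e) * U (-e) =
              U e * L (-e) * U (((N / p : ℕ) : ZMod N)) * (L e * U (-e)) := by group
            rw [h5]
            exact this
        have := congrFun hmem x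
        rwa [rho_apply] at this
      exact hf0 hz
    obtain ⟨g, hg, hgf⟩ := hex
    refine ⟨(N : ℂ) • rho g f - av p (rho g f), ?_, hgf, ?_⟩
    · exact V.sub_mem (V.smul_mem _ (hinv g f hfV)) (av_mem V hinv p _ (hinv g f hfV))
    · intro q hq
      rw [Finset.mem_insert] at hq
      rcases hq with rfl | hq
      · rw [map_sub, map_smul, av_av, sub_self]
      · rw [map_sub, map_smul, av_av_comm, av_comm q g (hg q hq), hfS q hq, map_zero, smul_zero,
          map_zero, sub_zero]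

/-- The component on which `U j` acts by the character `j ↦ ψ (j k)`. -/
noncomputable def pk (k : ZMod N) : (SL(2, ZMod N) → ℂ) →ₗ[ℂ] (SL(2, ZMod N) → ℂ) :=
  ∑ j : ZMod N, (ZMod.stdAddChar (-j * k) : ℂ) • rho (U j)

lemma pk_apply (k : ZMod N) (f : SL(2, ZMod N) → ℂ) :
    pk k f = ∑ j : ZMod N, (ZMod.stdAddChar (-j * k) : ℂ) • rho (U j) f := by
  simp [pk]

lemma rho_pk (k i : ZMod N) (f : SL(2, ZMod N) → ℂ) :
    rho (U i) (pk k f) = (ZMod.stdAddChar (i * k) : ℂ) • pk k f := by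
  rw [pk_apply, map_sum, Finset.smul_sum]
  refine Fintype.sum_equiv (Equiv.addLeft i) _ _ (fun j => ?_)
  rw [map_smul, ← rho_mul, U_mul, smul_smul, Equiv.coe_addLeft, ← AddChar.map_add_eq_mul]
  congr 2
  ring

lemma sum_pk (f : SL(2, ZMod N) → ℂ) : ∑ k : ZMod N, pk k f = (N : ℂ) • f := by
  simp_rw [pk_apply]
  rw [Finset.sum_comm]
  simp_rw [← Finset.sum_smul]
  have h : ∀ j : ZMod N, ∑ k : ZMod N, (ZMod.stdAddChar (-j * k) : ℂ) =
      if j = 0 then (N : ℂ) else 0 := by
    intro j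
    have := AddChar.sum_mulShift (-j) (ZMod.isPrimitive_stdAddChar N)
    simp_rw [mul_comm (-j)]
    rw [this]
    simp [ZMod.card]
  simp_rw [h]
  simp [ite_smul, rho_one]

lemma av_pk (q : ℕ) (k : ZMod N) (f : SL(2, ZMod N) → ℂ) (hf : av q f = 0) :
    av q (pk k f) = 0 := by
  rw [pk_apply, map_sum]
  refine Finset.sum_eq_zero fun j _ => ?_
  rw [map_smul, av_comm q (U j) (by intro i; rw [U_mul, U_mul, add_comm]), hf, map_zero, smul_zero]

lemma exists_unit_component (hinv : ∀ g : SL(2, ZMod N), ∀ f ∈ V, rho g f ∈ V)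
    (f : SL(2, ZMod N) → ℂ) (hf : f ∈ V) (hf0 : f ≠ 0)
    (hav : ∀ q : ℕ, q.Prime → q ∣ N → av q f = 0) :
    ∃ (k : (ZMod N)ˣ), ∃ h ∈ V, h ≠ 0 ∧
      ∀ i : ZMod N, rho (U i) h = (ZMod.stdAddChar (i * (k : ZMod N)) : ℂ) • h := by
  have hN : (N : ℂ) ≠ 0 := Nat.cast_ne_zero.2 (NeZero.ne N)
  have hex : ∃ k : ZMod N, pk k f ≠ 0 := by
    by_contra hcon
    push Not at hcon
    have := sum_pk f
    rw [Finset.sum_eq_zero (fun k _ => hcon k)] at this
    exact hf0 (by
      have h2 := this.symm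
      rwa [smul_eq_zero_iff_right hN] at h2)
  obtain ⟨k, hk⟩ := hex
  have hku : IsUnit k := by
    apply isUnit_of_forall
    intro q hq hqN h0
    obtain ⟨y, hy⟩ := exists_of_cast_eq_zero hqN k h0
    have h1 : ((N / q : ℕ) : ZMod N) * k = 0 := by
      have h4 : (q : ZMod N) * ((N / q : ℕ) : ZMod N) = 0 := by
        rw [← Nat.cast_mul, Nat.mul_div_cancel' hqN, ZMod.natCast_self]
      rw [hy, ← mul_assoc, mul_comm _ (q : ZMod N), h4, zero_mul]
    have h2 : av q (pk k f) = (N : ℂ) • pk k f := by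
      rw [av_apply]
      have : ∀ j : ZMod N, rho (U (j * ((N / q : ℕ) : ZMod N))) (pk k f) = pk k f := by
        intro j
        rw [rho_pk, mul_assoc, h1, mul_zero, AddChar.map_zero_eq_one, one_smul]
      simp_rw [this]
      rw [Finset.sum_const, Finset.card_univ, ZMod.card, ← Nat.cast_smul_eq_nsmul ℂ]
    rw [av_pk q k f (hav q hq hqN)] at h2
    exact hk (by
      have h3 := h2.symm
      rwa [smul_eq_zero_iff_right hN] at h3)
  obtain ⟨u, hu⟩ := hku
  refine ⟨u, pk k f, ?_, hk, ?_⟩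
  · rw [pk_apply]
    exact V.sum_mem fun j _ => V.smul_mem _ (hinv _ _ hf)
  · intro i
    rw [hu, rho_pk]

lemma card_le (hinv : ∀ g : SL(2, ZMod N), ∀ f ∈ V, rho g f ∈ V)
    (k : (ZMod N)ˣ) (h : SL(2, ZMod N) → ℂ) (hV : h ∈ V) (h0 : h ≠ 0)
    (hk : ∀ i : ZMod N, rho (U i) h = (ZMod.stdAddChar (i * (k : ZMod N)) : ℂ) • h) :
    (Finset.univ.image (fun t : (ZMod N)ˣ => t ^ 2)).card ≤ Module.finrank ℂ V := by
  classical
  set T := Finset.univ.image (fun t : (ZMod N)ˣ => t ^ 2) with hT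
  have hch : ∀ s : T, ∃ t : (ZMod N)ˣ, t ^ 2 = s.1 := by
    rintro ⟨s, hs⟩
    rw [hT, Finset.mem_image] at hs
    obtain ⟨t, _, ht⟩ := hs
    exact ⟨t, ht⟩
  choose t ht using hch
  let v : T → (SL(2, ZMod N) → ℂ) := fun s => rho (D (t s)⁻¹) h
  have hvV : ∀ s, v s ∈ V := fun s => hinv _ _ hV
  have hv0 : ∀ s, v s ≠ 0 := by
    intro s hs
    apply h0
    have : rho (D (t s)⁻¹)⁻¹ (v s) = h := by
      change rho (D (t s)⁻¹)⁻¹ (rho (D (t s)⁻¹) h) = h
      rw [← rho_mul, inv_mul_cancel, rho_one]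
    rw [← this, hs, map_zero]
  have heig : ∀ s : T, Module.End.HasEigenvector (rho (U (1 : ZMod N)))
      ((ZMod.stdAddChar (((s.1 : (ZMod N)ˣ) : ZMod N) * (k : ZMod N)) : ℂ)) (v s) := by
    intro s
    refine ⟨?_, hv0 s⟩
    rw [Module.End.mem_eigenspace_iff]
    change rho (U 1) (rho (D (t s)⁻¹) h) = _
    rw [← rho_mul, D_conj, rho_mul, hk, map_smul, inv_inv, mul_one]
    congr 3
    rw [← ht s]
    simp
  have hinj : Function.Injective (fun s : T =>
      ((ZMod.stdAddChar (((s.1 : (ZMod N)ˣ) : ZMod N) * (k : ZMod N)) : ℂ))) := by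
    intro a b hab
    have h1 := ZMod.injective_stdAddChar hab
    have h2 := k.isUnit.mul_left_injective h1
    exact Subtype.ext (Units.ext h2)
  have hli : LinearIndependent ℂ v :=
    Module.End.eigenvectors_linearIndependent' (rho (U (1 : ZMod N))) _ hinj v heig
  have hli2 : LinearIndependent ℂ (fun s : T => (⟨v s, hvV s⟩ : V)) := by
    apply LinearIndependent.of_comp V.subtype
    exact hli
  have := hli2.fintype_card_le_finrank
  simpa using this

end rep

end H80.Gon.M6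

namespace H80.Gon

/-- M6 -/
theorem new_dim (N : ℕ) [NeZero N] (V : Submodule ℂ (SL(2, ZMod N) → ℂ)) (hne : V ≠ ⊥)
    (hinv : ∀ g : SL(2, ZMod N), ∀ f ∈ V, (fun x => f (x * g)) ∈ V)
    (hnew : ∀ p : ℕ, p.Prime → ∀ hp : p ∣ N, ∀ f ∈ V,
      (∀ g : SL(2, ZMod N),
        Matrix.SpecialLinearGroup.map (ZMod.castHom (Nat.div_dvd_of_dvd hp) (ZMod (N / p))) g = 1 →
        ∀ x, f (x * g) = f x) → f = 0) :
    (Finset.univ.image (fun t : (ZMod N)ˣ => t ^ 2)).card ≤ Module.finrank ℂ V := by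
  have hinv' : ∀ g : SL(2, ZMod N), ∀ f ∈ V, M6.rho g f ∈ V := hinv
  obtain ⟨f, hf, hf0, hav⟩ := M6.exists_av_zero V hne hinv' hnew N.primeFactors
    (fun q hq => ⟨Nat.prime_of_mem_primeFactors hq, Nat.dvd_of_mem_primeFactors hq⟩)
  obtain ⟨k, h, hV, h0, hk⟩ := M6.exists_unit_component V hinv' f hf hf0
    (fun q hq hqN => hav q (Nat.mem_primeFactors.2 ⟨hq, hqN, NeZero.ne N⟩))
  exact M6.card_le V hinv' k h hV h0 hk

end H80.Gon
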