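import Pool.Agent.H80.Gon.Defs

/-!
# M7: squares of units
-/

namespace H80.Gon

lemma m7_dvd {N : ℕ} {t : ℤ} (h : (N : ℤ) ∣ (t - 1) * (t + 1)) {d : ℕ} (hN : 0 < N)
    (hd : d = Int.gcd (t - 1) N) : ((N / d : ℕ) : ℤ) ∣ t + 1 := by
  have hdN : d ∣ N := by
    rw [hd]; exact_mod_cast Int.gcd_dvd_right (t - 1) N
  have hd0 : 0 < d := Nat.pos_of_dvd_of_pos hdN hN
  obtain ⟨e, he⟩ := hdN
  have hNd : N / d = e := by rw [he]; exact Nat.mul_div_cancel_left e hd0
  rw [hNd]
  obtain ⟨s, hs⟩ : (d : ℤ) ∣ t - 1 := by rw [hd]; exact Int.gcd_dvd_left _ _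
  have hcop : IsCoprime (e : ℤ) s := by
    rw [Int.isCoprime_iff_gcd_eq_one]
    have h1 : Int.gcd (t - 1) N = d * Int.gcd s e := by
      rw [hs, he]
      push_cast
      rw [Int.gcd_mul_left]
      simp
    rw [← hd] at h1
    have h2 : Int.gcd s e = 1 := by
      have h4 : d * 1 = d * Int.gcd s e := by omega
      exact (Nat.eq_of_mul_eq_mul_left hd0 h4).symm
    rw [Int.gcd_comm]; exact h2
  have h3 : (e : ℤ) ∣ s * (t + 1) := by
    rw [hs, he] at h
    push_cast at h
    rw [mul_assoc] at h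
    exact Int.dvd_of_mul_dvd_mul_left (by exact_mod_cast hd0.ne') h
  exact hcop.dvd_of_dvd_mul_left h3

/-- the number of square roots of one -/
lemma m7_roots (N : ℕ) [NeZero N] :
    (Finset.univ.filter (fun t : (ZMod N)ˣ => t ^ 2 = 1)).card ≤ 2 * (Nat.divisors N).card := by
  have hN : 0 < N := NeZero.pos N
  have hv : ∀ t : (ZMod N)ˣ, t ^ 2 = 1 →
      (N : ℤ) ∣ (((t : ZMod N).val : ℤ) - 1) * (((t : ZMod N).val : ℤ) + 1) := by
    intro t ht
    rw [← ZMod.intCast_zmod_eq_zero_iff_dvd]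
    push_cast
    have h1 : ((t : ZMod N)) ^ 2 = 1 := by
      have := congrArg Units.val ht
      simpa using this
    simp
    linear_combination h1
  apply Finset.card_le_mul_card_image_of_maps_to
    (f := fun t : (ZMod N)ˣ => Int.gcd (((t : ZMod N).val : ℤ) - 1) N)
  · intro t _
    rw [Nat.mem_divisors]
    refine ⟨?_, hN.ne'⟩
    exact_mod_cast Int.gcd_dvd_right (((t : ZMod N).val : ℤ) - 1) N
  · intro d hd
    rw [Nat.mem_divisors] at hd
    have hd0 : 0 < d := Nat.pos_of_dvd_of_pos hd.1 hN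
    have hNd : d * (N / d) = N := Nat.mul_div_cancel' hd.1
    have he0 : 0 < N / d := Nat.div_pos (Nat.le_of_dvd hN hd.1) hd0
    obtain ⟨e, he⟩ : ∃ e, e = N / d := ⟨_, rfl⟩
    rw [← he] at hNd he0
    -- all elements of the fibre agree modulo the lcm
    have hfib : ∀ t : (ZMod N)ˣ, t ^ 2 = 1 → Int.gcd (((t : ZMod N).val : ℤ) - 1) N = d →
        (d : ℤ) ∣ ((t : ZMod N).val : ℤ) - 1 ∧ (e : ℤ) ∣ ((t : ZMod N).val : ℤ) + 1 := by
      intro t ht htd
      refine ⟨by rw [← htd]; exact Int.gcd_dvd_left _ _, ?_⟩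
      rw [he]
      exact m7_dvd (hv t ht) hN htd.symm
    rcases Finset.eq_empty_or_nonempty ((Finset.univ.filter (fun t : (ZMod N)ˣ => t ^ 2 = 1)).filter
      (fun t : (ZMod N)ˣ => Int.gcd (((t : ZMod N).val : ℤ) - 1) N = d)) with hem | ⟨t0, ht0⟩
    · rw [hem]; simp
    rw [Finset.mem_filter, Finset.mem_filter] at ht0
    obtain ⟨h1, h2⟩ := hfib t0 ht0.1.2 ht0.2
    have hg : Nat.gcd d e ∣ 2 := by
      have e1 : ((Nat.gcd d e : ℕ) : ℤ) ∣ ((t0 : ZMod N).val : ℤ) - 1 :=
        (by exact_mod_cast Nat.gcd_dvd_left d e : ((Nat.gcd d e : ℕ) : ℤ) ∣ (d : ℤ)).trans h1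
      have e2 : ((Nat.gcd d e : ℕ) : ℤ) ∣ ((t0 : ZMod N).val : ℤ) + 1 :=
        (by exact_mod_cast Nat.gcd_dvd_right d e : ((Nat.gcd d e : ℕ) : ℤ) ∣ (e : ℤ)).trans h2
      have e3 := dvd_sub e2 e1
      have e4 : ((t0 : ZMod N).val : ℤ) + 1 - (((t0 : ZMod N).val : ℤ) - 1) = 2 := by ring
      rw [e4] at e3
      exact_mod_cast e3
    have hg2 : Nat.gcd d e ≤ 2 := Nat.le_of_dvd (by norm_num) hg
    have hL : Nat.gcd d e * Nat.lcm d e = N := by rw [Nat.gcd_mul_lcm, hNd]
    have hL0 : 0 < Nat.lcm d e := Nat.lcm_pos hd0 he0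
    have hcard : ((Finset.univ.filter (fun t : (ZMod N)ˣ => t ^ 2 = 1)).filter
      (fun t : (ZMod N)ˣ => Int.gcd (((t : ZMod N).val : ℤ) - 1) N = d)).card ≤ (Finset.range 2).card := by
      apply Finset.card_le_card_of_injOn (fun t : (ZMod N)ˣ => (t : ZMod N).val / Nat.lcm d e)
      · intro t ht
        rw [Finset.mem_coe, Finset.mem_range]
        have h3 : (t : ZMod N).val < N := ZMod.val_lt _
        apply Nat.div_lt_of_lt_mul
        calc (t : ZMod N).val < N := h3
          _ = Nat.gcd d e * Nat.lcm d e := hL.symm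
          _ ≤ 2 * Nat.lcm d e := Nat.mul_le_mul_right _ hg2
          _ = Nat.lcm d e * 2 := by ring
      · intro t ht t' ht' htt
        rw [Finset.mem_coe, Finset.mem_filter, Finset.mem_filter] at ht ht'
        obtain ⟨a1, a2⟩ := hfib t ht.1.2 ht.2
        obtain ⟨b1, b2⟩ := hfib t' ht'.1.2 ht'.2
        have c1 : (d : ℤ) ∣ ((t : ZMod N).val : ℤ) - ((t' : ZMod N).val : ℤ) := by
          have := dvd_sub a1 b1
          have e4 : ((t : ZMod N).val : ℤ) - 1 - (((t' : ZMod N).val : ℤ) - 1) =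
            ((t : ZMod N).val : ℤ) - ((t' : ZMod N).val : ℤ) := by ring
          rwa [e4] at this
        have c2 : (e : ℤ) ∣ ((t : ZMod N).val : ℤ) - ((t' : ZMod N).val : ℤ) := by
          have := dvd_sub a2 b2
          have e4 : ((t : ZMod N).val : ℤ) + 1 - (((t' : ZMod N).val : ℤ) + 1) =
            ((t : ZMod N).val : ℤ) - ((t' : ZMod N).val : ℤ) := by ring
          rwa [e4] at this
        have m1 : (t' : ZMod N).val ≡ (t : ZMod N).val [MOD d] :=
          (Nat.modEq_iff_dvd).2 c1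
        have m2 : (t' : ZMod N).val ≡ (t : ZMod N).val [MOD e] :=
          (Nat.modEq_iff_dvd).2 c2
        have m3 : (t' : ZMod N).val ≡ (t : ZMod N).val [MOD Nat.lcm d e] := by
          rw [Nat.modEq_iff_dvd]
          have : ((Nat.lcm d e : ℕ) : ℤ) = ((Int.lcm d e : ℕ) : ℤ) := rfl
          rw [this]
          exact Int.coe_lcm_dvd c1 c2
        have htt' : (t : ZMod N).val / Nat.lcm d e = (t' : ZMod N).val / Nat.lcm d e := htt
        have h5 : (t : ZMod N).val = (t' : ZMod N).val := by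
          rw [← Nat.div_add_mod (t : ZMod N).val (Nat.lcm d e),
            ← Nat.div_add_mod (t' : ZMod N).val (Nat.lcm d e), htt', m3]
        exact Units.ext (ZMod.val_injective N h5)
    rw [Finset.card_range] at hcard
    exact hcard

/-- M7 -/
theorem card_unit_squares (N : ℕ) [NeZero N] :
    (N : ℝ) ≤ 2 * ((Nat.divisors N).card : ℝ) ^ 2 *
      ((Finset.univ.image (fun t : (ZMod N)ˣ => t ^ 2)).card : ℝ) := by
  have hN : 0 < N := NeZero.pos N
  have h1 : N ≤ (Nat.divisors N).card * Nat.totient N := by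
    calc N = ∑ d ∈ Nat.divisors N, Nat.totient d := (Nat.sum_totient N).symm
      _ ≤ ∑ d ∈ Nat.divisors N, Nat.totient N := by
          apply Finset.sum_le_sum
          intro d hd
          exact Nat.le_of_dvd (Nat.totient_pos.2 hN)
            (Nat.totient_dvd_of_dvd (Nat.dvd_of_mem_divisors hd))
      _ = _ := by rw [Finset.sum_const, smul_eq_mul]
  have h2 : Nat.totient N ≤ (2 * (Nat.divisors N).card) *
      (Finset.univ.image (fun t : (ZMod N)ˣ => t ^ 2)).card := by
    rw [← ZMod.card_units_eq_totient N, ← Finset.card_univ]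
    apply Finset.card_le_mul_card_image
    intro a _
    refine le_trans ?_ (m7_roots N)
    rcases Finset.eq_empty_or_nonempty
      (Finset.univ.filter (fun t : (ZMod N)ˣ => t ^ 2 = a)) with hem | ⟨t0, ht0⟩
    · rw [hem]; simp
    · rw [Finset.mem_filter] at ht0
      apply Finset.card_le_card_of_injOn (fun t => t * t0⁻¹)
      · intro t ht
        rw [Finset.mem_coe, Finset.mem_filter] at ht ⊢
        refine ⟨Finset.mem_univ _, ?_⟩
        rw [mul_pow, ht.2, inv_pow, ht0.2, mul_inv_cancel]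
      · intro t _ t' _ h
        exact mul_right_cancel h
  have h3 : N ≤ 2 * (Nat.divisors N).card ^ 2 *
      (Finset.univ.image (fun t : (ZMod N)ˣ => t ^ 2)).card := by
    calc N ≤ (Nat.divisors N).card * Nat.totient N := h1
      _ ≤ (Nat.divisors N).card * ((2 * (Nat.divisors N).card) *
          (Finset.univ.image (fun t : (ZMod N)ˣ => t ^ 2)).card) := Nat.mul_le_mul_left _ h2
      _ = _ := by ring
  exact_mod_cast h3

end H80.Gon
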