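import Pool.Agent.H80.Gon.Defs

/-!
# M8: reduction is onto
-/

open Matrix MatrixGroups

namespace H80.Gon

lemma m8_bottom (N : ℕ) [NeZero N] (c d a b : ℕ) (hc : 0 < c)
    (h : ((a : ℤ) * d - b * c : ℤ) ≡ 1 [ZMOD N]) :
    ∃ k : ℕ, k ≡ d [MOD N] ∧ Nat.Coprime c k := by
  set g := Nat.gcd N c with hg
  have hgc : (g : ℤ) ∣ c := by exact_mod_cast Nat.gcd_dvd_right N c
  have hgN : (g : ℤ) ∣ N := by exact_mod_cast Nat.gcd_dvd_left N c
  have hcop : Nat.Coprime d g := by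
    rw [← Nat.isCoprime_iff_coprime]
    obtain ⟨t, ht⟩ := h.symm.dvd
    obtain ⟨s, hs⟩ := hgc
    obtain ⟨w, hw⟩ := hgN
    refine ⟨a, -(b * s + w * t), ?_⟩
    have : (a : ℤ) * d - b * c - 1 = N * t := ht
    rw [hs, hw] at this
    linarith
  have : NeZero c := ⟨hc.ne'⟩
  obtain ⟨u, hu⟩ := ZMod.unitsMap_surjective (Nat.gcd_dvd_right N c) (ZMod.unitOfCoprime d hcop)
  have he : (u : ZMod c).val ≡ d [MOD g] := by
    rw [← ZMod.natCast_eq_natCast_iff]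
    have h1 := congrArg Units.val hu
    rw [ZMod.unitsMap_def, Units.coe_map, ZMod.coe_unitOfCoprime] at h1
    rw [← h1]
    simp
  obtain ⟨k, hk1, hk2⟩ := Nat.chineseRemainder' (n := N) (m := c) he.symm
  refine ⟨k, hk1, ?_⟩
  have h2 : Nat.Coprime (u : ZMod c).val c := ZMod.val_coe_unit_coprime u
  have h3 : Nat.gcd k c = Nat.gcd (u : ZMod c).val c := hk2.gcd_eq
  rw [Nat.coprime_comm, Nat.Coprime, h3]
  exact h2

/-- M8 -/
theorem red_surjective (N : ℕ) [NeZero N] : Function.Surjective (red N) := by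
  intro g
  obtain ⟨c, hc0, hc⟩ : ∃ c : ℕ, 0 < c ∧ (c : ZMod N) = g 1 0 := by
    refine ⟨(g 1 0).val + N, by have := NeZero.pos N; omega, ?_⟩
    push_cast
    simp
  obtain ⟨d, hd⟩ : ∃ d : ℕ, (d : ZMod N) = g 1 1 := ⟨(g 1 1).val, by simp⟩
  obtain ⟨a, ha⟩ : ∃ a : ℕ, (a : ZMod N) = g 0 0 := ⟨(g 0 0).val, by simp⟩
  obtain ⟨b, hb⟩ : ∃ b : ℕ, (b : ZMod N) = g 0 1 := ⟨(g 0 1).val, by simp⟩
  have hdet : g 0 0 * g 1 1 - g 0 1 * g 1 0 = 1 := by
    have := g.det_coe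
    rwa [Matrix.det_fin_two] at this
  have hmod : ((a : ℤ) * d - b * c : ℤ) ≡ 1 [ZMOD N] := by
    rw [← ZMod.intCast_eq_intCast_iff]
    push_cast
    rw [ha, hb, hc, hd]
    exact hdet
  obtain ⟨k, hk1, hk2⟩ := m8_bottom N c d a b hc0 hmod
  have hk : (k : ZMod N) = g 1 1 := by
    rw [← hd]; exact (ZMod.natCast_eq_natCast_iff _ _ _).2 hk1
  rw [← Nat.isCoprime_iff_coprime] at hk2
  obtain ⟨p, q, hpq⟩ := hk2
  obtain ⟨γ, hγ⟩ : ∃ γ : SL(2, ℤ), (γ : Matrix (Fin 2) (Fin 2) ℤ) =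
      !![q + (a * p + b * q) * c, -p + (a * p + b * q) * k; (c : ℤ), (k : ℤ)] :=
    ⟨⟨!![q + (a * p + b * q) * c, -p + (a * p + b * q) * k; (c : ℤ), (k : ℤ)], by
      rw [Matrix.det_fin_two_of]; linear_combination hpq⟩, rfl⟩
  have key : ∀ i j, (red N γ) i j = ((γ i j : ℤ) : ZMod N) := fun i j => rfl
  have hpq' : (p : ZMod N) * c + q * k = 1 := by exact_mod_cast congrArg (Int.cast : ℤ → ZMod N) hpq
  rw [← ha, ← hb, ← hc, ← hd] at hdet
  have hkd : (k : ZMod N) = d := by rw [hk, hd]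
  rw [← hkd] at hdet
  refine ⟨γ, ?_⟩
  have h00 : (red N γ) 0 0 = g 0 0 := by
    rw [key, hγ, ← ha]
    simp
    linear_combination (a : ZMod N) * hpq' - (q : ZMod N) * hdet
  have h01 : (red N γ) 0 1 = g 0 1 := by
    rw [key, hγ, ← hb]
    simp
    linear_combination (b : ZMod N) * hpq' + (p : ZMod N) * hdet
  have h10 : (red N γ) 1 0 = g 1 0 := by
    rw [key, hγ, ← hc]
    simp
  have h11 : (red N γ) 1 1 = g 1 1 := by
    rw [key, hγ, ← hk]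
    simp
  ext i j
  fin_cases i <;> fin_cases j
  · exact h00
  · exact h01
  · exact h10
  · exact h11

end H80.Gon
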