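import Pool.Agent.H80.Gon.M1
import Pool.Agent.H80.Gon.M2
import Pool.Agent.H80.Gon.M3
import Pool.Agent.H80.Gon.M4
import Pool.Agent.H80.Gon.M5
import Pool.Agent.H80.Gon.M6
import Pool.Agent.H80.Gon.M7
import Pool.Agent.H80.Gon.M8
import Pool.Agent.H80.Gon.M11
import Pool.Agent.H80.Gon.M13
import Pool.Agent.H80.Gon.M14
import Pool.Agent.H80.Gon.M15
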