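import Pool.Agent.H80.Gon.M9a
import Pool.Agent.H80.Gon.M9n
import Pool.Agent.H80.Gon.Mods

/-!
M9b: the uniform spectral gap for SL(2, Z/N).
-/

open Matrix MatrixGroups UpperHalfPlane ModularGroup MeasureTheory Finset

namespace H80.Gon

/-- Descent of an eigenfunction invariant under the kernel of `SL(2,Z/N) → SL(2,Z/M)`. -/
lemma descend (N M : ℕ) [NeZero N] [NeZero M] (hM : M ∣ N) (X : ℤ) (lam : ℝ)
    (f : SL(2, ZMod N) → ℂ) (hf : f ≠ 0) (h0 : ∑ x, f x = 0)
    (hP : ∀ x, ∑ σ ∈ ball X, f (red N σ * x) = (lam : ℂ) * f x)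
    (hinv : ∀ g : SL(2, ZMod N), Matrix.SpecialLinearGroup.map (ZMod.castHom hM (ZMod M)) g = 1 →
        ∀ x, f (x * g) = f x) :
    ∃ f' : SL(2, ZMod M) → ℂ, f' ≠ 0 ∧ ∑ x, f' x = 0 ∧
      (∀ x, ∑ σ ∈ ball X, f' (red M σ * x) = (lam : ℂ) * f' x) := by
  classical
  set π : SL(2, ZMod N) →* SL(2, ZMod M) :=
    Matrix.SpecialLinearGroup.map (ZMod.castHom hM (ZMod M)) with hπ
  have hcomp : ∀ σ : SL(2, ℤ), π (red N σ) = red M σ := by
    intro σ
    ext i j
    simp [hπ, red]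
  have hsurj : Function.Surjective π := by
    intro y
    obtain ⟨σ, rfl⟩ := red_surjective M y
    exact ⟨red N σ, hcomp σ⟩
  let f' : SL(2, ZMod M) → ℂ := fun y => f (Function.surjInv hsurj y)
  have hf' : ∀ x, f' (π x) = f x := by
    intro x
    have h1 : π (x⁻¹ * Function.surjInv hsurj (π x)) = 1 := by
      rw [map_mul, map_inv, Function.surjInv_eq hsurj]
      simp
    have := hinv _ h1 x
    rw [mul_inv_cancel_left] at this
    exact this
  refine ⟨f', ?_, ?_, ?_⟩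
  · intro h
    apply hf
    funext x
    rw [← hf' x, h]; rfl
  · have h1 : ∑ x, f x = ∑ y : SL(2, ZMod M), (Finset.univ.filter (fun x => π x = y)).card • f' y := by
      rw [← Finset.sum_fiberwise (s := Finset.univ) (g := π) (f := f)]
      refine Finset.sum_congr rfl fun y _ => ?_
      rw [← Finset.sum_const]
      refine Finset.sum_congr rfl fun x hx => ?_
      rw [Finset.mem_filter] at hx
      rw [← hx.2, hf']
    have h2 : ∀ y : SL(2, ZMod M), (Finset.univ.filter (fun x => π x = y)).card =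
        (Finset.univ.filter (fun x => π x = 1)).card := by
      intro y
      exact MonoidHom.card_fiber_eq_of_mem_range π (hsurj y) (hsurj 1)
    rw [h0] at h1
    simp only [h2] at h1
    rw [← Finset.smul_sum] at h1
    have h3 : (Finset.univ.filter (fun x => π x = 1)).card ≠ 0 := by
      rw [Finset.card_ne_zero]
      exact ⟨1, by simp⟩
    rcases smul_eq_zero.mp h1.symm with h4 | h4
    · exact absurd h4 h3
    · exact h4
  · intro y
    obtain ⟨x, rfl⟩ := hsurj y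
    rw [hf' x, ← hP x]
    refine Finset.sum_congr rfl fun σ _ => ?_
    rw [← hcomp σ, ← map_mul, hf']

/-- A uniform gap below a given level. -/
lemma gap_below (X : ℤ) (hX : 3 ≤ X) (M : ℕ) : ∃ κ : ℝ, κ < 1 ∧ ∀ (N : ℕ) [NeZero N], N < M →
    ∀ (lam : ℝ) (f : SL(2, ZMod N) → ℂ), f ≠ 0 → ∑ x, f x = 0 →
      (∀ x, ∑ σ ∈ ball X, f (red N σ * x) = (lam : ℂ) * f x) → lam ≤ κ * (ball X).card := by
  induction M with
  | zero => exact ⟨0, zero_lt_one, fun N _ h => absurd h (Nat.not_lt_zero _)⟩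
  | succ M ih =>
    obtain ⟨κ, hκ, h⟩ := ih
    rcases Nat.eq_zero_or_pos M with hM | hM
    · subst hM
      refine ⟨κ, hκ, fun N hN hlt => ?_⟩
      exact absurd hN.out (by omega)
    · haveI : NeZero M := ⟨hM.ne'⟩
      obtain ⟨κ', hκ', h'⟩ := level_gap M (red_surjective M) X hX
      refine ⟨max κ κ', max_lt hκ hκ', fun N hN hlt lam f hf h0 hP => ?_⟩
      rcases Nat.lt_succ_iff_lt_or_eq.mp hlt with h1 | h1
      · refine (h N h1 lam f hf h0 hP).trans ?_
        gcongr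
        exact le_max_left _ _
      · subst h1
        refine (h' lam f hf h0 hP).trans ?_
        gcongr
        exact le_max_right _ _

theorem eigen_gap : ∃ (X : ℤ) (κ : ℝ), 3 ≤ X ∧ κ < 1 ∧ ∀ (N : ℕ) [NeZero N] (lam : ℝ)
    (f : SL(2, ZMod N) → ℂ), f ≠ 0 → ∑ x, f x = 0 →
      (∀ x, ∑ σ ∈ ball X, f (red N σ * x) = (lam : ℂ) * f x) → lam ≤ κ * (ball X).card := by
  obtain ⟨c, hc, hball⟩ := ball_card
  obtain ⟨C, hC, hA⟩ := countA
  obtain ⟨C1, hC1, hdiv⟩ := divisor_bound (1 / 40) (by norm_num)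
  obtain ⟨C2, hC2, hB⟩ := countB (1 / 40) (by norm_num)
  obtain ⟨k, hk, N₀, κ₀, hκ0, hκ1, hnum⟩ := numeric c C C1 C2 hc hC hC1 hC2
  have hX3 : (3 : ℤ) ≤ 4 ^ k := by
    calc (3 : ℤ) ≤ 4 ^ 1 := by norm_num
      _ ≤ 4 ^ k := pow_le_pow_right₀ (by norm_num) hk
  obtain ⟨κ₁, hκ11, hlow⟩ := gap_below (4 ^ k) hX3 (max N₀ 3)
  refine ⟨4 ^ k, max κ₀ κ₁, hX3, max_lt hκ1 hκ11, ?_⟩
  intro N
  induction N using Nat.strong_induction_on with
  | _ N ih =>
  intro hNz lam f hf h0 hP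
  have hs0 : (0 : ℝ) ≤ ((ball (4 ^ k : ℤ)).card : ℝ) := by positivity
  rcases lt_or_ge N (max N₀ 3) with hN | hN
  · refine (hlow N hN lam f hf h0 hP).trans ?_
    gcongr
    exact le_max_right _ _
  have hN1 : N₀ ≤ N := le_trans (le_max_left _ _) hN
  have hN3 : 3 ≤ N := le_trans (le_max_right _ _) hN
  -- the eigenspace
  let V : Submodule ℂ (SL(2, ZMod N) → ℂ) :=
    { carrier := {f | ∑ x, f x = 0 ∧ ∀ x, ∑ σ ∈ ball (4 ^ k : ℤ), f (red N σ * x) = (lam : ℂ) * f x}
      add_mem' := by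
        rintro a b ⟨ha1, ha2⟩ ⟨hb1, hb2⟩
        refine ⟨by simp [Finset.sum_add_distrib, ha1, hb1], fun x => ?_⟩
        simp only [Pi.add_apply, Finset.sum_add_distrib, ha2, hb2]
        ring
      zero_mem' := by simp
      smul_mem' := by
        rintro r a ⟨ha1, ha2⟩
        refine ⟨by simp [← Finset.mul_sum, ha1], fun x => ?_⟩
        simp only [Pi.smul_apply, smul_eq_mul, ← Finset.mul_sum, ha2]
        ring }
  have hfV : f ∈ V := ⟨h0, hP⟩
  have hVne : V ≠ ⊥ := by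
    intro h
    rw [h] at hfV
    exact hf (by simpa using hfV)
  have hVinv : ∀ g : SL(2, ZMod N), ∀ f ∈ V, (fun x => f (x * g)) ∈ V := by
    rintro g a ⟨ha1, ha2⟩
    refine ⟨?_, fun x => ?_⟩
    · rw [← ha1]
      exact Equiv.sum_comp (Equiv.mulRight g) a
    · have := ha2 (x * g)
      simpa [mul_assoc] using this
  by_cases hnew : ∀ p : ℕ, p.Prime → ∀ hp : p ∣ N, ∀ f ∈ V,
      (∀ g : SL(2, ZMod N),
        Matrix.SpecialLinearGroup.map (ZMod.castHom (Nat.div_dvd_of_dvd hp) (ZMod (N / p))) g = 1 →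
        ∀ x, f (x * g) = f x) → f = 0
  · have hdim := new_dim N V hVne hVinv hnew
    have hsq := card_unit_squares N
    have hdimR : (((Finset.univ.image (fun t : (ZMod N)ˣ => t ^ 2)).card : ℕ) : ℝ) ≤
        (Module.finrank ℂ V : ℝ) := by exact_mod_cast hdim
    have hle : lam ≤ κ₀ * ((ball (4 ^ k : ℤ)).card : ℝ) := by
      refine hnum N hN1 _ lam (Module.finrank ℂ V) ((Nat.divisors N).card) (hball k hk)
        (by positivity) (by positivity) ?_ (hdiv N (by omega)) ?_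
      · calc (N : ℝ) ≤ _ := hsq
          _ ≤ _ := by gcongr
      · intro n hn
        have htr := trace_bound N (4 ^ k) (by linarith) (C * (k + 1) * 2 ^ k)
          (fun v hv => hA k v hv) V lam (fun f hf x => hf.2 x) n
        refine htr.trans ?_
        have hcardN : (Fintype.card SL(2, ZMod N) : ℝ) ≤ (N : ℝ) ^ 3 := by
          exact_mod_cast card_SL2_le N
        have hY := hB N (2 * (4 ^ k) ^ (2 * n)) hN3 hn
        push_cast at hY
        have hrew : ∑ γ ∈ (ball (2 * (4 ^ k) ^ (2 * n) : ℤ)).filter (fun γ => red N γ = 1),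
            Real.sqrt 2 / Real.sqrt (nsq γ : ℝ) =
            Real.sqrt 2 * ∑ γ ∈ (ball (2 * (4 ^ k) ^ (2 * n) : ℤ)).filter (fun γ => red N γ = 1),
              1 / Real.sqrt (nsq γ : ℝ) := by
          rw [Finset.mul_sum]
          refine Finset.sum_congr rfl fun γ _ => by ring
        rw [hrew]
        gcongr
    refine hle.trans ?_
    gcongr
    exact le_max_left _ _
  · push Not at hnew
    obtain ⟨p, hp, hpN, a, haV, hainv, ha0⟩ := hnew
    have hNp : N / p ≠ 0 := by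
      intro h
      have := Nat.div_mul_cancel hpN
      rw [h] at this
      omega
    haveI : NeZero (N / p) := ⟨hNp⟩
    obtain ⟨f', hf', h0', hP'⟩ := descend N (N / p) (Nat.div_dvd_of_dvd hpN) (4 ^ k) lam a ha0
      haV.1 haV.2 hainv
    exact ih (N / p) (Nat.div_lt_self (by omega) hp.one_lt) lam f' hf' h0' hP'

/-- Uniform spectral gap of `SL(2, Z/N)` with respect to `S, T`. -/
theorem spectral_gap : ∃ δ : ℝ, 0 < δ ∧ ∀ (N : ℕ) [NeZero N] (a : SL(2, ZMod N) → ℝ),
    ∑ x, a x = 0 → δ * ∑ x, a x ^ 2 ≤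
      ∑ x, (a (red N T * x) - a x) ^ 2 + ∑ x, (a (red N S * x) - a x) ^ 2 := by
  obtain ⟨X, κ, hX, hκ, h⟩ := eigen_gap
  refine gap_of_eigen X κ ?_ hκ h
  refine Finset.card_pos.mpr ⟨S, ?_⟩
  rw [mem_ball, nsq_S]; linarith

end H80.Gon
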