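import Pool.Agent.H80.Gon.M16c
import Pool.Agent.H80.Gon.M9b

/-!
M16d: a small-degree family forces `|SL(2,Z/N)| ≤ C c L`.
-/

open Matrix MatrixGroups UpperHalfPlane ModularGroup MeasureTheory
open scoped ENNReal NNReal

namespace H80.Gon

lemma const_mul_real_le_integral {Ω : Type*} [MeasurableSpace Ω] {μ : Measure Ω}
    [IsFiniteMeasure μ] {φ : Ω → ℝ} (hφ : Integrable φ μ) (h0 : ∀ z, 0 ≤ φ z) {s : Set Ω}
    (hs : MeasurableSet s) {k : ℝ} (hk : ∀ z ∈ s, k ≤ φ z) : k * μ.real s ≤ ∫ z, φ z ∂μ := by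
  calc k * μ.real s = ∫ _ in s, k ∂μ := by
        rw [setIntegral_const, smul_eq_mul]; ring
    _ ≤ ∫ z in s, φ z ∂μ := by
        refine setIntegral_mono_on (integrable_const k).integrableOn hφ.integrableOn hs hk
    _ ≤ ∫ z, φ z ∂μ := setIntegral_le_integral hφ (Filter.Eventually.of_forall h0)

/-- Passing from Lebesgue measure to hyperbolic measure in the two-point inequality. -/
lemma two_point_H {I : Type} [Fintype I] (xI : I → ℂ → ℂ) (x₀ : ℂ) (r : ℝ) (B : ℝ)
    (h : ∑ i, ∫⁻ z in boxK, ∫⁻ w in boxK,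
      ENNReal.ofReal ((uu x₀ r (xI i z) - uu x₀ r (xI i w)) ^ 2) ≤ ENNReal.ofReal B) :
    ∑ i, ∫⁻ z in KH, ∫⁻ w in KH,
      ENNReal.ofReal ((uu x₀ r (xI i z) - uu x₀ r (xI i w)) ^ 2) ≤
      ENNReal.ofReal ((64 / 49) ^ 2 * B) := by
  have h1 : ∀ i : I, ∫⁻ z in KH, ∫⁻ w in KH,
      ENNReal.ofReal ((uu x₀ r (xI i z) - uu x₀ r (xI i w)) ^ 2) ≤
      ENNReal.ofReal ((64 / 49) ^ 2) * ∫⁻ z in boxK, ∫⁻ w in boxK,
        ENNReal.ofReal ((uu x₀ r (xI i z) - uu x₀ r (xI i w)) ^ 2) := by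
    intro i
    calc ∫⁻ z in KH, ∫⁻ w in KH, ENNReal.ofReal ((uu x₀ r (xI i z) - uu x₀ r (xI i w)) ^ 2)
        ≤ ∫⁻ z in KH, (ENNReal.ofReal (64 / 49) * ∫⁻ w in boxK,
            ENNReal.ofReal ((uu x₀ r (xI i (z : ℂ)) - uu x₀ r (xI i w)) ^ 2)) := by
          refine lintegral_mono fun z => ?_
          exact lintegral_KH_le (fun w =>
            ENNReal.ofReal ((uu x₀ r (xI i (z : ℂ)) - uu x₀ r (xI i w)) ^ 2))
      _ = ENNReal.ofReal (64 / 49) * ∫⁻ z in KH, (∫⁻ w in boxK,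
            ENNReal.ofReal ((uu x₀ r (xI i (z : ℂ)) - uu x₀ r (xI i w)) ^ 2)) :=
          lintegral_const_mul' _ _ ENNReal.ofReal_ne_top
      _ ≤ ENNReal.ofReal (64 / 49) * (ENNReal.ofReal (64 / 49) * ∫⁻ z in boxK, (∫⁻ w in boxK,
            ENNReal.ofReal ((uu x₀ r (xI i z) - uu x₀ r (xI i w)) ^ 2))) := by
          gcongr
          exact lintegral_KH_le (fun z => ∫⁻ w in boxK,
            ENNReal.ofReal ((uu x₀ r (xI i z) - uu x₀ r (xI i w)) ^ 2))
      _ = _ := by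
          rw [← mul_assoc, ← ENNReal.ofReal_mul (by norm_num)]
          congr 2
          norm_num
  calc _ ≤ ∑ i, ENNReal.ofReal ((64 / 49) ^ 2) * ∫⁻ z in boxK, ∫⁻ w in boxK,
        ENNReal.ofReal ((uu x₀ r (xI i z) - uu x₀ r (xI i w)) ^ 2) :=
        Finset.sum_le_sum fun i _ => h1 i
    _ = ENNReal.ofReal ((64 / 49) ^ 2) * ∑ i, ∫⁻ z in boxK, ∫⁻ w in boxK,
        ENNReal.ofReal ((uu x₀ r (xI i z) - uu x₀ r (xI i w)) ^ 2) := by
        rw [Finset.mul_sum]
    _ ≤ ENNReal.ofReal ((64 / 49) ^ 2) * ENNReal.ofReal B := by gcongr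
    _ = _ := by rw [← ENNReal.ofReal_mul (by norm_num)]

lemma sum_le_of_ofReal {G : Type*} [Fintype G] {f : G → ℝ} {q : G → ℝ≥0∞} {B : ℝ} (hB : 0 ≤ B)
    (hf : ∀ g, 0 ≤ f g) (h : ∀ g, ENNReal.ofReal (f g) ≤ q g) (hq : ∑ g, q g ≤ ENNReal.ofReal B) :
    ∑ g, f g ≤ B := by
  have : ENNReal.ofReal (∑ g, f g) ≤ ENNReal.ofReal B := by
    rw [ENNReal.ofReal_sum_of_nonneg fun g _ => hf g]
    exact (Finset.sum_le_sum fun g _ => h g).trans hq
  exact (ENNReal.ofReal_le_ofReal_iff hB).mp this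

theorem part3 : ∃ C₃ : ℝ, 0 < C₃ ∧ ∀ (N : ℕ) [NeZero N] (c : ℕ) (I : Type) [Fintype I]
    [MulAction SL(2, ℤ) I] [Nonempty I] (π : I → SL(2, ZMod N))
    (_ : ∀ (σ : SL(2, ℤ)) i, π (σ • i) = red N σ * π i)
    (_ : ∀ g : SL(2, ZMod N), Nat.card {i // π i = g} ≤ c)
    (xI : I → ℂ → ℂ) (P : I → Set ℂ) (L : ℝ) (E : Set ℂ) (_ : 0 ≤ L) (_ : E.Countable)
    (_ : ∀ i, (P i).Countable) (_ : ∀ i, IsOpen ({z : ℂ | 0 < z.im} \ P i))
    (_ : ∀ i, DifferentiableOn ℂ (xI i) ({z : ℂ | 0 < z.im} \ P i))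
    (_ : ∀ α ∉ E, ∀ S : Finset (I × ℂ),
      (∀ p ∈ S, p.2 ∈ boxK ∧ p.2 ∉ P p.1 ∧ xI p.1 p.2 = α) → (S.card : ℝ) ≤ L)
    (_ : ∀ (σ : SL(2, ℤ)) (i : I) (z : ℍ), xI i ((σ • z : ℍ) : ℂ) = xI (σ⁻¹ • i) (z : ℂ))
    (_ : ∀ i (α : ℂ), {z : ℂ | 0 < z.im ∧ z ∉ P i ∧ xI i z = α}.Countable),
    (Fintype.card SL(2, ZMod N) : ℝ) ≤ C₃ * c * L := by
  obtain ⟨C₁, hC₁, htp⟩ := two_point
  obtain ⟨K₀, hK₀, hds⟩ := disc_select
  obtain ⟨δ, hδ, hgap⟩ := spectral_gap
  set b : ℝ := (volume BH).toReal with hb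
  have hBtop : volume BH < ⊤ := (measure_mono BH_subset_KH).trans_lt volume_KH_lt_top
  have hb0 : 0 < b := ENNReal.toReal_pos volume_BH_pos.ne' hBtop.ne
  have hbo : ENNReal.ofReal b = volume BH := ENNReal.ofReal_toReal hBtop.ne
  have hK₀R : (1 : ℝ) ≤ K₀ := by exact_mod_cast hK₀
  refine ⟨(1 / b * (1 / 2 + 2 / δ) * ((64 / 49) ^ 2 * C₁)) * (400 / 9) * (2 * K₀ / b),
    by positivity, ?_⟩
  intro N _ c I _ _ _ π hπ hc xI P L E hL hE hP hopen hd hfib hx hcount
  classical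
  have hm : ∀ i, Measurable (fun z : ℍ => xI i (z : ℂ)) := fun i =>
    measurable_of_family (xI i) (P i) (hP i) (hopen i) (hd i)
  have hfin : IsFiniteMeasure ((volume : Measure ℍ).restrict BH) := ⟨by
    rw [Measure.restrict_apply_univ]; exact hBtop⟩
  set μB : Measure ℍ := (volume : Measure ℍ).restrict BH with hμB
  have hμu : μB Set.univ = volume BH := by rw [hμB, Measure.restrict_apply_univ]
  have hμb : μB.real Set.univ = b := by
    rw [Measure.real, hμu, hb]
  set nG : ℝ := (Fintype.card SL(2, ZMod N) : ℝ) with hnG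
  have hnG0 : 0 < nG := by
    have := Fintype.card_pos (α := SL(2, ZMod N))
    rw [hnG]; exact_mod_cast this
  -- cardinalities
  have hsurj : Function.Surjective π := by
    intro g
    obtain ⟨i₀⟩ := ‹Nonempty I›
    obtain ⟨σ, hσ⟩ := red_surjective N (g * (π i₀)⁻¹)
    refine ⟨σ • i₀, ?_⟩
    rw [hπ, hσ, inv_mul_cancel_right]
  have hIcard : nG ≤ (Fintype.card I : ℝ) := by
    rw [hnG]; exact_mod_cast Fintype.card_le_of_surjective π hsurj
  have hcf : ∀ g : SL(2, ZMod N), (Finset.univ.filter (fun i => π i = g)).card ≤ c := by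
    intro g
    have := hc g
    rwa [Nat.card_eq_fintype_card, Fintype.card_subtype] at this
  have hc1 : 1 ≤ c := by
    obtain ⟨i₀⟩ := ‹Nonempty I›
    refine le_trans ?_ (hcf (π i₀))
    exact Finset.card_pos.mpr ⟨i₀, by simp⟩
  have hcR : (1 : ℝ) ≤ c := by exact_mod_cast hc1
  -- the measure ν
  set ν : Measure ℂ := ∑ i : I, μB.map (fun z : ℍ => xI i (z : ℂ)) with hν
  have hνapp : ∀ s : Set ℂ, MeasurableSet s →
      ν s = ∑ i : I, μB ((fun z : ℍ => xI i (z : ℂ)) ⁻¹' s) := by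
    intro s hs
    rw [hν, Measure.finsetSum_apply]
    exact Finset.sum_congr rfl fun i _ => Measure.map_apply (hm i) hs
  have hνuniv : ν Set.univ = (Fintype.card I : ℝ≥0∞) * volume BH := by
    rw [hνapp _ MeasurableSet.univ]
    simp [hμu]
  have : IsFiniteMeasure ν := ⟨by
    rw [hνuniv]; exact ENNReal.mul_lt_top (by simp) hBtop⟩
  have hatom : ∀ α : ℂ, ν {α} = 0 := by
    intro α
    rw [hνapp _ (measurableSet_singleton α)]
    refine Finset.sum_eq_zero fun i _ => ?_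
    refine le_antisymm ((Measure.restrict_apply_le _ _).trans ?_) bot_le
    refine le_of_eq (volume_countable ?_)
    refine Set.Countable.mono ?_ (((hP i).union (hcount i α)).preimage_of_injOn
      (f := UpperHalfPlane.coe) (fun a _ b _ h => UpperHalfPlane.ext h))
    intro z hz
    by_cases hzP : (z : ℂ) ∈ P i
    · exact Or.inl hzP
    · exact Or.inr ⟨z.im_pos, hzP, hz⟩
  set t : ℝ≥0∞ := ENNReal.ofReal (nG * b / (2 * K₀)) with ht
  have ht0 : 0 < t := ENNReal.ofReal_pos.mpr (by positivity)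
  have htu : t < ν Set.univ := by
    rw [hνuniv, ← hbo, ht]
    have : (Fintype.card I : ℝ≥0∞) = ENNReal.ofReal (Fintype.card I : ℝ) := by simp
    rw [this, ← ENNReal.ofReal_mul (by positivity)]
    rw [ENNReal.ofReal_lt_ofReal_iff (by
      have : (0 : ℝ) < Fintype.card I := lt_of_lt_of_le hnG0 hIcard
      positivity)]
    rw [div_lt_iff₀ (by positivity)]
    nlinarith [mul_pos hnG0 hb0, mul_le_mul_of_nonneg_right hIcard hb0.le]
  obtain ⟨x₀, r, hr, ht1, ht2⟩ := hds ν hatom t ht0 htu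
  -- the energies
  set Qt : ℝ := (64 / 49) ^ 2 * (C₁ * L) with hQt
  have hQt0 : 0 ≤ Qt := by positivity
  set V : SL(2, ZMod N) → ℍ → ℝ := fun g z => ((VV π xI x₀ r g z : ℝ≥0) : ℝ) with hV
  have hVm : ∀ g, Measurable (V g) := fun g => measurable_VV π xI x₀ r hm g
  have hV0 : ∀ g z, 0 ≤ V g z := fun g z => NNReal.coe_nonneg _
  have hV1 : ∀ g z, V g z ≤ 1 := fun g z => by
    have := VV_le_one π xI x₀ r g z
    exact_mod_cast this
  set q : SL(2, ZMod N) → ℝ≥0∞ := fun g => ∫⁻ z in KH, ∫⁻ w in KH,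
    ENNReal.ofReal ((V g z - V g w) ^ 2) with hq
  have hqsum : ∑ g, q g ≤ ENNReal.ofReal Qt :=
    (sum_Q_le π xI x₀ r hm).trans (two_point_H xI x₀ r (C₁ * L)
      (htp I xI P L E hL hE hP hopen hd hfib x₀ r hr))
  set J1 : SL(2, ZMod N) → ℝ := fun g => ∫ z, V g z ∂μB with hJ1
  set J2 : SL(2, ZMod N) → ℝ := fun g => ∫ z, V g z ^ 2 ∂μB with hJ2
  have hCS : ∀ g, J1 g ^ 2 ≤ b * J2 g := fun g =>
    sq_integral_le_b hμb (hVm g) (hV0 g) (hV1 g) hb0
  -- (a)
  have hvar : ∀ g, ENNReal.ofReal (2 * (b * J2 g - J1 g ^ 2)) ≤ q g := by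
    intro g
    have h1 := lintegral_sq_diff hμb hμb (hVm g) (hVm g) (hV0 g) (hV1 g) (hV0 g) (hV1 g)
    have e : 2 * (b * J2 g - J1 g ^ 2) = b * J2 g + b * J2 g - 2 * J1 g * J1 g := by ring
    rw [e]
    refine h1.symm.le.trans ?_
    calc ∫⁻ z in BH, ∫⁻ w in BH, ENNReal.ofReal ((V g z - V g w) ^ 2)
        ≤ ∫⁻ z in BH, ∫⁻ w in KH, ENNReal.ofReal ((V g z - V g w) ^ 2) :=
          lintegral_mono fun z => lintegral_mono_set BH_subset_KH
      _ ≤ q g := lintegral_mono_set BH_subset_KH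
  -- (b)
  have hedge : ∀ (τ : SL(2, ℤ)), (∀ z ∈ BH, τ • z ∈ KH) → ∀ g,
      ENNReal.ofReal ((J1 ((red N τ)⁻¹ * g) - J1 g) ^ 2) ≤ q g := by
    intro τ hτ g
    set g' := (red N τ)⁻¹ * g with hg'
    have hVτ : ∀ z, V g (τ • z) = V g' z := fun z => by
      have := VV_smul π xI x₀ r hπ hx τ g z
      simp only [hV]
      exact_mod_cast this
    have h1 := lintegral_sq_diff hμb hμb (hVm g') (hVm g) (hV0 g') (hV1 g') (hV0 g) (hV1 g)
    have h2 : (J1 g' - J1 g) ^ 2 ≤ b * J2 g' + b * J2 g - 2 * J1 g' * J1 g := by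
      nlinarith [hCS g', hCS g]
    refine (ENNReal.ofReal_le_ofReal h2).trans ?_
    refine h1.symm.le.trans ?_
    calc ∫⁻ z in BH, ∫⁻ w in BH, ENNReal.ofReal ((V g' z - V g w) ^ 2)
        ≤ ∫⁻ z in BH, ∫⁻ w in KH, ENNReal.ofReal ((V g' z - V g w) ^ 2) :=
          lintegral_mono fun z => lintegral_mono_set BH_subset_KH
      _ = ∫⁻ z in BH, (fun z' => ∫⁻ w in KH, ENNReal.ofReal ((V g z' - V g w) ^ 2)) (τ • z) := by
          refine lintegral_congr fun z => ?_
          simp only [hVτ]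
      _ = ∫⁻ z' in (fun z : ℍ => τ • z) '' BH, ∫⁻ w in KH,
            ENNReal.ofReal ((V g z' - V g w) ^ 2) := by
          exact (measurePreserving_sl τ).setLIntegral_comp_emb
            (MeasurableEquiv.smul (τ : GL (Fin 2) ℝ) : ℍ ≃ᵐ ℍ).measurableEmbedding
            (fun z' => ∫⁻ w in KH, ENNReal.ofReal ((V g z' - V g w) ^ 2)) BH
      _ ≤ q g := by
          refine lintegral_mono_set ?_
          rintro _ ⟨z, hz, rfl⟩
          exact hτ z hz
  have hT := hedge T (fun z hz => T_smul_mem_KH hz)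
  have hS := hedge S (fun z hz => BH_subset_KH (S_smul_mem_BH hz))
  have sumvar : ∑ g, 2 * (b * J2 g - J1 g ^ 2) ≤ Qt :=
    sum_le_of_ofReal hQt0 (fun g => by linarith [hCS g]) hvar hqsum
  have sumT : ∑ g, (J1 ((red N T)⁻¹ * g) - J1 g) ^ 2 ≤ Qt :=
    sum_le_of_ofReal hQt0 (fun g => sq_nonneg _) hT hqsum
  have sumS : ∑ g, (J1 ((red N S)⁻¹ * g) - J1 g) ^ 2 ≤ Qt :=
    sum_le_of_ofReal hQt0 (fun g => sq_nonneg _) hS hqsum
  -- (c) spectral gap
  set Jm : ℝ := (∑ g, J1 g) / nG with hJm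
  have hgapJ : δ * ∑ g, (J1 g - Jm) ^ 2 ≤ 2 * Qt := by
    have h0 : ∑ g : SL(2, ZMod N), (J1 g - Jm) = 0 := by
      rw [Finset.sum_sub_distrib, Finset.sum_const, nsmul_eq_mul, hJm]
      simp only [Finset.card_univ, ← hnG]
      field_simp
      ring
    have h1 := hgap N (fun g => J1 g - Jm) h0
    have h2 : ∀ τ : SL(2, ℤ), ∑ g : SL(2, ZMod N), ((J1 (red N τ * g) - Jm) - (J1 g - Jm)) ^ 2 =
        ∑ g, (J1 ((red N τ)⁻¹ * g) - J1 g) ^ 2 := by
      intro τ
      rw [← Equiv.sum_comp (Equiv.mulLeft (red N τ)) (fun g => (J1 ((red N τ)⁻¹ * g) - J1 g) ^ 2)]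
      refine Finset.sum_congr rfl fun g _ => ?_
      simp only [Equiv.coe_mulLeft, inv_mul_cancel_left]
      ring
    rw [h2, h2] at h1
    linarith
  -- (d)
  set α : ℝ := Jm / b with hα
  have hupper : ∑ g, ∫ z, (V g z - α) ^ 2 ∂μB ≤ 1 / b * (1 / 2 + 2 / δ) * Qt := by
    have h1 : ∀ g, ∫ z, (V g z - α) ^ 2 ∂μB =
        (1 / b) * (b * J2 g - J1 g ^ 2) + (1 / b) * (J1 g - Jm) ^ 2 := by
      intro g
      have e : (fun z => (V g z - α) ^ 2) = fun z => 1 * V g z ^ 2 - (2 * α) * V g z + α ^ 2 := by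
        funext z; ring
      rw [e, integral_quad (hVm g) (hV0 g) (hV1 g), hμb]
      change 1 * J2 g - 2 * α * J1 g + α ^ 2 * b = _
      rw [hα]
      field_simp
      ring
    simp only [h1]
    rw [Finset.sum_add_distrib, ← Finset.mul_sum, ← Finset.mul_sum]
    have h2 : ∑ g, (b * J2 g - J1 g ^ 2) ≤ Qt / 2 := by
      rw [← Finset.mul_sum] at sumvar
      linarith
    have h3 : ∑ g, (J1 g - Jm) ^ 2 ≤ 2 / δ * Qt := by
      rw [div_mul_eq_mul_div, le_div_iff₀ hδ]
      linarith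
    calc 1 / b * ∑ g, (b * J2 g - J1 g ^ 2) + 1 / b * ∑ g, (J1 g - Jm) ^ 2
        ≤ 1 / b * (Qt / 2) + 1 / b * (2 / δ * Qt) := by gcongr
      _ = _ := by ring
  -- (f)
  have hint : ∀ g, Integrable (fun z => (V g z - α) ^ 2) μB := by
    intro g
    have e : (fun z => (V g z - α) ^ 2) = fun z => 1 * V g z ^ 2 - (2 * α) * V g z + α ^ 2 := by
      funext z; ring
    rw [e]
    exact integrable_quad (hVm g) (hV0 g) (hV1 g) _ _ _
  have hK₀0 : (K₀ : ℝ) ≠ 0 := by positivity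
  have hfibsum : ∀ F : I → ℝ, ∑ g, ∑ i ∈ Finset.univ.filter (fun i => π i = g), F i = ∑ i, F i :=
    fun F => Finset.sum_fiberwise _ _ _
  have hνreal : ∀ s : Set ℂ, MeasurableSet s →
      (ν s).toReal = ∑ i : I, μB.real ((fun z : ℍ => xI i (z : ℂ)) ⁻¹' s) := by
    intro s hs
    rw [hνapp s hs, ENNReal.toReal_sum fun i _ => measure_ne_top _ _]
    rfl
  have hm1 : nG * b / (2 * K₀) ≤ c * ∑ g, μB.real {z | 3 / 10 ≤ V g z} := by
    have h1 : nG * b / (2 * K₀) ≤ (ν (Metric.closedBall x₀ r)).toReal := by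
      have := ENNReal.toReal_mono (measure_ne_top ν _) ht1
      rwa [ht, ENNReal.toReal_ofReal (by positivity)] at this
    rw [hνreal _ Metric.isClosed_closedBall.measurableSet, ← hfibsum] at h1
    refine h1.trans ?_
    rw [Finset.mul_sum]
    refine Finset.sum_le_sum fun g _ => ?_
    calc ∑ i ∈ Finset.univ.filter (fun i => π i = g),
          μB.real ((fun z : ℍ => xI i (z : ℂ)) ⁻¹' Metric.closedBall x₀ r)
        ≤ ∑ i ∈ Finset.univ.filter (fun i => π i = g), μB.real {z | 3 / 10 ≤ V g z} := by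
          refine Finset.sum_le_sum fun i hi => ?_
          refine measureReal_mono ?_ (measure_ne_top _ _)
          intro z hz
          have hz' : ‖xI i (z : ℂ) - x₀‖ ≤ r := by
            simpa [dist_eq_norm] using hz
          have h2 := cut_ge hr hz'
          have h3 : cut x₀ r (xI i (z : ℂ)) ≤ VV π xI x₀ r g z := by
            unfold VV
            exact Finset.le_sup (f := fun i => cut x₀ r (xI i (z : ℂ)))
              (by simpa using hi)
          have h4 : (cut x₀ r (xI i (z : ℂ)) : ℝ) ≤ V g z := by exact_mod_cast h3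
          exact h2.trans h4
      _ = (Finset.univ.filter (fun i => π i = g)).card * μB.real {z | 3 / 10 ≤ V g z} := by
          rw [Finset.sum_const, nsmul_eq_mul]
      _ ≤ c * μB.real {z | 3 / 10 ≤ V g z} := by
          gcongr
          exact hcf g
  have hm0 : nG * b / 2 ≤ ∑ g, μB.real {z | V g z = 0} := by
    have h1 : (ν (Metric.closedBall x₀ (2 * r))).toReal ≤ nG * b / 2 := by
      have := ENNReal.toReal_mono (by
        exact ENNReal.mul_ne_top (by simp) (by rw [ht]; exact ENNReal.ofReal_ne_top)) ht2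
      rw [ENNReal.toReal_mul, ht, ENNReal.toReal_ofReal (by positivity)] at this
      refine this.trans (le_of_eq ?_)
      simp only [ENNReal.toReal_natCast]
      field_simp
    rw [hνreal _ Metric.isClosed_closedBall.measurableSet, ← hfibsum] at h1
    have h2 : ∀ g, b - ∑ i ∈ Finset.univ.filter (fun i => π i = g),
        μB.real ((fun z : ℍ => xI i (z : ℂ)) ⁻¹' Metric.closedBall x₀ (2 * r)) ≤
        μB.real {z | V g z = 0} := by
      intro g
      have hcov : (Set.univ : Set ℍ) ⊆ {z | V g z = 0} ∪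
          ⋃ i ∈ Finset.univ.filter (fun i => π i = g),
            ((fun z : ℍ => xI i (z : ℂ)) ⁻¹' Metric.closedBall x₀ (2 * r)) := by
        intro z _
        by_cases hz : ∃ i ∈ Finset.univ.filter (fun i => π i = g),
            z ∈ ((fun z : ℍ => xI i (z : ℂ)) ⁻¹' Metric.closedBall x₀ (2 * r))
        · right
          obtain ⟨i, hi, hzi⟩ := hz
          exact Set.mem_biUnion (by exact_mod_cast hi) hzi
        · left
          push Not at hz
          have : VV π xI x₀ r g z = 0 := by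
            unfold VV
            apply le_antisymm _ bot_le
            refine Finset.sup_le fun i hi => ?_
            have h3 := hz i (by simpa using hi)
            have h4 : 2 * r < ‖xI i (z : ℂ) - x₀‖ := by
              simpa [dist_eq_norm] using h3
            exact (cut_eq_zero hr h4).le
          simp [hV, this]
      have h3 : μB.real Set.univ ≤ μB.real {z | V g z = 0} +
          ∑ i ∈ Finset.univ.filter (fun i => π i = g),
            μB.real ((fun z : ℍ => xI i (z : ℂ)) ⁻¹' Metric.closedBall x₀ (2 * r)) := by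
        calc μB.real Set.univ ≤ μB.real ({z | V g z = 0} ∪
          ⋃ i ∈ Finset.univ.filter (fun i => π i = g),
            ((fun z : ℍ => xI i (z : ℂ)) ⁻¹' Metric.closedBall x₀ (2 * r))) :=
              measureReal_mono hcov (measure_ne_top _ _)
          _ ≤ μB.real {z | V g z = 0} + μB.real (⋃ i ∈ Finset.univ.filter (fun i => π i = g),
            ((fun z : ℍ => xI i (z : ℂ)) ⁻¹' Metric.closedBall x₀ (2 * r))) :=
              measureReal_union_le _ _
          _ ≤ _ := by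
              gcongr
              exact measureReal_biUnion_finset_le _ _
      rw [hμb] at h3
      linarith
    have h4 := Finset.sum_le_sum (fun g (_ : g ∈ (Finset.univ : Finset SL(2, ZMod N))) => h2 g)
    rw [Finset.sum_sub_distrib, Finset.sum_const, nsmul_eq_mul, Finset.card_univ, ← hnG] at h4
    linarith
  -- (e), (g)
  have hlower : 9 / 400 * (nG * b / (2 * K₀ * c)) ≤ ∑ g, ∫ z, (V g z - α) ^ 2 ∂μB := by
    have hcpos : (0 : ℝ) < c := by linarith
    rcases le_or_gt (3 / 20) α with hα1 | hα1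
    · have h1 : ∀ g, 9 / 400 * μB.real {z | V g z = 0} ≤ ∫ z, (V g z - α) ^ 2 ∂μB := by
        intro g
        refine const_mul_real_le_integral (hint g) (fun z => sq_nonneg _) ?_ ?_
        · exact hVm g (measurableSet_singleton 0)
        · intro z hz
          rw [Set.mem_ofPred_eq] at hz
          rw [hz]
          nlinarith
      calc 9 / 400 * (nG * b / (2 * K₀ * c)) ≤ 9 / 400 * (nG * b / 2) := by
            gcongr
            nlinarith
        _ ≤ 9 / 400 * ∑ g, μB.real {z | V g z = 0} := by gcongr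
        _ = ∑ g, 9 / 400 * μB.real {z | V g z = 0} := by rw [Finset.mul_sum]
        _ ≤ _ := Finset.sum_le_sum fun g _ => h1 g
    · have h1 : ∀ g, 9 / 400 * μB.real {z | 3 / 10 ≤ V g z} ≤ ∫ z, (V g z - α) ^ 2 ∂μB := by
        intro g
        refine const_mul_real_le_integral (hint g) (fun z => sq_nonneg _) ?_ ?_
        · exact measurableSet_le measurable_const (hVm g)
        · intro z hz
          rw [Set.mem_ofPred_eq] at hz
          nlinarith
      calc 9 / 400 * (nG * b / (2 * K₀ * c)) = 9 / 400 * ((nG * b / (2 * K₀)) / c) := by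
            rw [div_div]
        _ ≤ 9 / 400 * ∑ g, μB.real {z | 3 / 10 ≤ V g z} := by
            gcongr
            rw [div_le_iff₀ hcpos]
            linarith
        _ = ∑ g, 9 / 400 * μB.real {z | 3 / 10 ≤ V g z} := by rw [Finset.mul_sum]
        _ ≤ _ := Finset.sum_le_sum fun g _ => h1 g
  have hfinal := hlower.trans hupper
  have hcpos : (0 : ℝ) < c := by linarith
  have h5 : nG = (9 / 400 * (nG * b / (2 * K₀ * c))) * (400 / 9) * (2 * K₀ / b) * c := by
    field_simp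
  rw [h5]
  calc (9 / 400 * (nG * b / (2 * K₀ * c))) * (400 / 9) * (2 * K₀ / b) * c
      ≤ (1 / b * (1 / 2 + 2 / δ) * Qt) * (400 / 9) * (2 * K₀ / b) * c := by gcongr
    _ = _ := by rw [hQt]; ring

end H80.Gon
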