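import Pool.Agent.H80.Gon.M16d

/-!
M17: final assembly for MP_db315d_nt: modular functions for subgroups of bounded congruence defect
have no nonconstant solutions of the Fermat equation of large degree.
-/

open Matrix MatrixGroups UpperHalfPlane ModularGroup MeasureTheory
open scoped ENNReal NNReal

namespace H80.Gon

lemma IsModularFunction.mono {Γ Γ' : Subgroup SL(2, ℤ)} (h : Γ' ≤ Γ) {x : ℍ → ℂ}
    (hx : IsModularFunction Γ x) : IsModularFunction Γ' x where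
  meromorphic := hx.meromorphic
  invariant := fun γ hγ => hx.invariant γ (h hγ)
  cusps := hx.cusps

/-- The map `SL(2,ℤ)/Γ → SL(2, Z/N)` for `Γ ≤ Γ(N)`. -/
noncomputable def piMap (N : ℕ) (Γ : Subgroup SL(2, ℤ)) (h : Γ ≤ CongruenceSubgroup.Gamma N) :
    SL(2, ℤ) ⧸ Γ → SL(2, ZMod N) :=
  Quotient.lift (fun g : SL(2, ℤ) => red N g) (by
    intro a b hab
    have h1 : a⁻¹ * b ∈ Γ := QuotientGroup.leftRel_apply.mp hab
    have h2 := h h1
    rw [CongruenceSubgroup.Gamma_mem'] at h2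
    rw [map_mul, map_inv] at h2
    exact inv_mul_eq_one.mp h2)

lemma piMap_mk (N : ℕ) (Γ : Subgroup SL(2, ℤ)) (h : Γ ≤ CongruenceSubgroup.Gamma N)
    (g : SL(2, ℤ)) : piMap N Γ h (QuotientGroup.mk g) = red N g := rfl

lemma piMap_smul (N : ℕ) (Γ : Subgroup SL(2, ℤ)) (h : Γ ≤ CongruenceSubgroup.Gamma N)
    (σ : SL(2, ℤ)) (i : SL(2, ℤ) ⧸ Γ) : piMap N Γ h (σ • i) = red N σ * piMap N Γ h i := by
  induction i using QuotientGroup.induction_on with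
  | H g =>
    rw [MulAction.Quotient.smul_mk, piMap_mk, piMap_mk, smul_eq_mul, map_mul]

lemma piMap_fibre (N : ℕ) (Γ : Subgroup SL(2, ℤ)) (h : Γ ≤ CongruenceSubgroup.Gamma N)
    (hne : Γ.relIndex (CongruenceSubgroup.Gamma N) ≠ 0) (g : SL(2, ZMod N)) :
    Nat.card {i // piMap N Γ h i = g} ≤ Γ.relIndex (CongruenceSubgroup.Gamma N) := by
  classical
  by_cases hex : ∃ i, piMap N Γ h i = g
  swap
  · have : IsEmpty {i // piMap N Γ h i = g} := ⟨fun i => hex ⟨i.1, i.2⟩⟩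
    simp
  obtain ⟨i₀, hi₀⟩ := hex
  set g₀ : SL(2, ℤ) := i₀.out with hg₀
  have hg₀i : (QuotientGroup.mk g₀ : SL(2, ℤ) ⧸ Γ) = i₀ := by
    rw [hg₀]; exact Quotient.out_eq' i₀
  have hred : ∀ i : {i // piMap N Γ h i = g}, g₀⁻¹ * (i.1.out) ∈ CongruenceSubgroup.Gamma N := by
    intro i
    rw [CongruenceSubgroup.Gamma_mem', map_mul, map_inv]
    have h1 : red N g₀ = g := by rw [← piMap_mk N Γ h, hg₀i, hi₀]
    have h2 : red N (i.1.out) = g := by
      rw [← piMap_mk N Γ h]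
      have : (QuotientGroup.mk (i.1.out) : SL(2, ℤ) ⧸ Γ) = i.1 := Quotient.out_eq' i.1
      rw [this, i.2]
    change (red N g₀)⁻¹ * red N (i.1.out) = 1
    rw [h1, h2, inv_mul_cancel]
  let F : {i // piMap N Γ h i = g} →
      (CongruenceSubgroup.Gamma N) ⧸ (Γ.subgroupOf (CongruenceSubgroup.Gamma N)) :=
    fun i => QuotientGroup.mk ⟨g₀⁻¹ * (i.1.out), hred i⟩
  have hF : Function.Injective F := by
    intro i j hij
    have h1 := QuotientGroup.eq.mp hij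
    rw [Subgroup.mem_subgroupOf] at h1
    simp only [Subgroup.coe_mul, Subgroup.coe_inv] at h1
    have h2 : (i.1.out)⁻¹ * j.1.out ∈ Γ := by
      have e : (g₀⁻¹ * i.1.out)⁻¹ * (g₀⁻¹ * j.1.out) = (i.1.out)⁻¹ * j.1.out := by group
      rwa [e] at h1
    apply Subtype.ext
    have h3 : (QuotientGroup.mk (i.1.out) : SL(2, ℤ) ⧸ Γ) = QuotientGroup.mk (j.1.out) :=
      QuotientGroup.eq.mpr h2
    have h4 : (QuotientGroup.mk (i.1.out) : SL(2, ℤ) ⧸ Γ) = i.1 := Quotient.out_eq' i.1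
    have h5 : (QuotientGroup.mk (j.1.out) : SL(2, ℤ) ⧸ Γ) = j.1 := Quotient.out_eq' j.1
    rw [← h4, ← h5, h3]
  have : Finite ((CongruenceSubgroup.Gamma N) ⧸ (Γ.subgroupOf (CongruenceSubgroup.Gamma N))) := by
    have : (Γ.subgroupOf (CongruenceSubgroup.Gamma N)).index ≠ 0 := hne
    have : (Γ.subgroupOf (CongruenceSubgroup.Gamma N)).FiniteIndex := ⟨this⟩
    exact Subgroup.finite_quotient_of_finiteIndex
  exact Nat.card_le_card_of_injective F hF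

/-- The main inequality: `n - 3 ≤ C c²` for `Γ ≤ Γ(N)` of relative index at most `c`. -/
theorem main_aux : ∃ C : ℝ, 0 < C ∧ ∀ (c n : ℕ) (Γ : Subgroup SL(2, ℤ)) (_ : Γ.FiniteIndex) (N : ℕ)
    (_ : NeZero N), Γ ≤ CongruenceSubgroup.Gamma N →
    Γ.relIndex (CongruenceSubgroup.Gamma N) ≤ c → 4 ≤ n →
    ∀ (x y : ℍ → ℂ), IsModularFunction Γ x → IsModularFunction Γ y →
    (∀ᶠ z in Filter.codiscrete ℍ, x z ^ n + y z ^ n = 1) →
    (¬ ∃ a : ℂ, ∀ᶠ z in Filter.codiscrete ℍ, x z = a) → ((n - 3 : ℕ) : ℝ) ≤ C * c ^ 2 := by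
  obtain ⟨C₃, hC₃, h3⟩ := part3
  obtain ⟨C₀, hC₀, h0⟩ := zero_count
  refine ⟨C₃ * C₀, by positivity, ?_⟩
  intro c n Γ hΓ N hN hΓN hc hn x y hx hy hxy hnc
  classical
  obtain ⟨xI, P, hP, hopen, hd, heq, hcount, hΩ⟩ := interface n hn Γ x y hx hy hxy hnc
  have : Fintype (SL(2, ℤ) ⧸ Γ) := Subgroup.fintypeQuotientOfFiniteIndex
  have hne : Γ.relIndex (CongruenceSubgroup.Gamma N) ≠ 0 := by
    intro h
    have := Subgroup.relIndex_mul_index hΓN
    rw [h, zero_mul] at this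
    exact hΓ.index_ne_zero this.symm
  set m : ℕ := n - 3 with hm
  have hm0 : (0 : ℝ) < m := by
    have : 0 < m := by omega
    exact_mod_cast this
  set L : ℝ := C₀ * (Fintype.card (SL(2, ℤ) ⧸ Γ)) / m with hL
  have hL0 : 0 ≤ L := by positivity
  have hE : {α : ℂ | α ^ n = 1}.Countable := by
    have h1 : {α : ℂ | α ^ n = 1}.Finite := by
      have := (Polynomial.nthRoots n (1 : ℂ)).toFinset.finite_toSet
      refine this.subset fun α hα => ?_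
      have hα' : α ^ n = 1 := hα
      simp only [Finset.mem_coe, Multiset.mem_toFinset]
      exact (Polynomial.mem_nthRoots (by omega)).mpr hα'
    exact h1.countable
  have key := h3 N c (SL(2, ℤ) ⧸ Γ) (piMap N Γ hΓN) (piMap_smul N Γ hΓN)
    (fun g => (piMap_fibre N Γ hΓN hne g).trans hc) xI P L {α : ℂ | α ^ n = 1} hL0 hE hP hopen hd
    (by
      intro α hα S hS
      obtain ⟨Ω, hΩ1, hΩ2, hΩ3, hΩ4, hΩ5⟩ := hΩ α hα
      have h4 := h0 (SL(2, ℤ) ⧸ Γ) m Ω hΩ1 hΩ2 hΩ3 hΩ4 S (by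
        intro p hp
        obtain ⟨h5, h6, h7⟩ := hS p hp
        refine ⟨h5, hΩ5 p.1 p.2 ?_ h6 h7⟩
        have := h5.2.2.1
        linarith)
      rw [hL, le_div_iff₀ hm0]
      linarith) heq hcount
  -- cardinality comparison
  have hcard : (Fintype.card (SL(2, ℤ) ⧸ Γ) : ℝ) ≤ c * Fintype.card SL(2, ZMod N) := by
    have h1 : Fintype.card (SL(2, ℤ) ⧸ Γ) =
        ∑ g : SL(2, ZMod N), (Finset.univ.filter (fun i => piMap N Γ hΓN i = g)).card := by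
      rw [← Finset.card_univ]
      exact Finset.card_eq_sum_card_fiberwise (fun i _ => Finset.mem_coe.mpr (Finset.mem_univ _))
    have h2 : ∀ g : SL(2, ZMod N), (Finset.univ.filter (fun i => piMap N Γ hΓN i = g)).card ≤ c := by
      intro g
      have := (piMap_fibre N Γ hΓN hne g).trans hc
      rwa [Nat.card_eq_fintype_card, Fintype.card_subtype] at this
    have h3 : Fintype.card (SL(2, ℤ) ⧸ Γ) ≤ ∑ _g : SL(2, ZMod N), c := by
      rw [h1]; exact Finset.sum_le_sum fun g _ => h2 g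
    rw [Finset.sum_const, smul_eq_mul, Finset.card_univ] at h3
    have : (Fintype.card (SL(2, ℤ) ⧸ Γ) : ℝ) ≤ ((Fintype.card SL(2, ZMod N) * c : ℕ) : ℝ) := by
      exact_mod_cast h3
    rw [Nat.cast_mul] at this
    linarith
  set nG : ℝ := (Fintype.card SL(2, ZMod N) : ℝ) with hnG
  have hnG0 : 0 < nG := by
    have := Fintype.card_pos (α := SL(2, ZMod N))
    rw [hnG]; exact_mod_cast this
  have hc0 : (0 : ℝ) ≤ c := by positivity
  have h5 : nG * m ≤ (C₃ * C₀ * c ^ 2) * nG := by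
    calc nG * m ≤ (C₃ * c * L) * m := by gcongr
      _ = C₃ * c * (C₀ * (Fintype.card (SL(2, ℤ) ⧸ Γ))) := by
          rw [hL]; field_simp
      _ ≤ C₃ * c * (C₀ * (c * nG)) := by gcongr
      _ = _ := by ring
  have h6 : nG * m ≤ nG * (C₃ * C₀ * c ^ 2) := by linarith
  exact le_of_mul_le_mul_left h6 hnG0

/-- The congruence closure of `Γ`: the intersection of all congruence subgroups containing `Γ`.
By `congClosure_spec` it is the smallest congruence subgroup containing `Γ` if `Γ` has finite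
index. -/
def congClosure (Γ : Subgroup SL(2, ℤ)) : Subgroup SL(2, ℤ) :=
  sInf {Δ | CongruenceSubgroup.IsCongruenceSubgroup Δ ∧ Γ ≤ Δ}

/-- The congruence defect `[Γ̄ : Γ]`. -/
noncomputable def congDefect (Γ : Subgroup SL(2, ℤ)) : ℕ := Γ.relIndex (congClosure Γ)

lemma le_congClosure (Γ : Subgroup SL(2, ℤ)) : Γ ≤ congClosure Γ :=
  le_sInf fun _ h => h.2

lemma isCongruence_inf {Δ Δ' : Subgroup SL(2, ℤ)}
    (h : CongruenceSubgroup.IsCongruenceSubgroup Δ)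
    (h' : CongruenceSubgroup.IsCongruenceSubgroup Δ') :
    CongruenceSubgroup.IsCongruenceSubgroup (Δ ⊓ Δ') := by
  obtain ⟨N, hN, hNΔ⟩ := h
  obtain ⟨M, hM, hMΔ⟩ := h'
  have hmono : ∀ A B : ℕ, A ∣ B → CongruenceSubgroup.Gamma B ≤ CongruenceSubgroup.Gamma A := by
    intro A B hAB γ hγ
    rw [CongruenceSubgroup.Gamma_mem'] at hγ ⊢
    have hcomp : (Matrix.SpecialLinearGroup.map (ZMod.castHom hAB (ZMod A)))
        (Matrix.SpecialLinearGroup.map (Int.castRingHom (ZMod B)) γ) =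
        Matrix.SpecialLinearGroup.map (Int.castRingHom (ZMod A)) γ := by
      ext i j
      simp
    have h1 : Matrix.SpecialLinearGroup.map (Int.castRingHom (ZMod B)) γ = 1 := hγ
    change Matrix.SpecialLinearGroup.map (Int.castRingHom (ZMod A)) γ = 1
    rw [← hcomp, h1, map_one]
  refine ⟨N * M, Nat.mul_ne_zero hN hM, le_inf ?_ ?_⟩
  · exact (hmono N (N * M) (Dvd.intro _ rfl)).trans hNΔ
  · exact (hmono M (N * M) (Dvd.intro_left _ rfl)).trans hMΔ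

/-- For `Γ` of finite index, `congClosure Γ` is the smallest congruence subgroup containing `Γ`. -/
theorem congClosure_spec (Γ : Subgroup SL(2, ℤ)) [hΓ : Γ.FiniteIndex] :
    CongruenceSubgroup.IsCongruenceSubgroup (congClosure Γ) ∧ Γ ≤ congClosure Γ ∧
      ∀ Δ : Subgroup SL(2, ℤ), CongruenceSubgroup.IsCongruenceSubgroup Δ → Γ ≤ Δ →
        congClosure Γ ≤ Δ := by
  refine ⟨?_, le_congClosure Γ, fun Δ h1 h2 => sInf_le ⟨h1, h2⟩⟩
  classical
  -- choose a member of maximal index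
  let Sset : Set ℕ := {j | ∃ Δ : Subgroup SL(2, ℤ), CongruenceSubgroup.IsCongruenceSubgroup Δ ∧
    Γ ≤ Δ ∧ Δ.index = j}
  have hbdd : BddAbove Sset := by
    refine ⟨Γ.index, ?_⟩
    rintro j ⟨Δ, _, hΔ, rfl⟩
    exact Nat.le_of_dvd (Nat.pos_of_ne_zero hΓ.index_ne_zero) (Subgroup.index_dvd_of_le hΔ)
  have hne : Sset.Nonempty := by
    refine ⟨(⊤ : Subgroup SL(2, ℤ)).index, ⊤, ⟨1, one_ne_zero, le_top⟩, le_top, rfl⟩
  obtain ⟨Δ₀, hΔ₀c, hΔ₀Γ, hΔ₀i⟩ := Nat.sSup_mem hne hbdd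
  have hmin : ∀ Δ : Subgroup SL(2, ℤ), CongruenceSubgroup.IsCongruenceSubgroup Δ → Γ ≤ Δ →
      Δ₀ ≤ Δ := by
    intro Δ hΔ hΓΔ
    have h1 : (Δ₀ ⊓ Δ).index ≤ Δ₀.index := by
      rw [hΔ₀i]
      exact le_csSup hbdd ⟨Δ₀ ⊓ Δ, isCongruence_inf hΔ₀c hΔ, le_inf hΔ₀Γ hΓΔ, rfl⟩
    have hfi : (Δ₀ ⊓ Δ).FiniteIndex := (isCongruence_inf hΔ₀c hΔ).finiteIndex
    have h2 := Subgroup.relIndex_mul_index (inf_le_left : Δ₀ ⊓ Δ ≤ Δ₀)
    have hpos : 0 < Δ₀.index := Nat.pos_of_ne_zero hΔ₀c.finiteIndex.index_ne_zero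
    have hpos2 : 0 < (Δ₀ ⊓ Δ).relIndex Δ₀ := by
      rcases Nat.eq_zero_or_pos ((Δ₀ ⊓ Δ).relIndex Δ₀) with h | h
      · rw [h, zero_mul] at h2
        exact absurd h2.symm hfi.index_ne_zero
      · exact h
    have h3 : (Δ₀ ⊓ Δ).relIndex Δ₀ = 1 := by
      have h4 : (Δ₀ ⊓ Δ).relIndex Δ₀ * Δ₀.index ≤ 1 * Δ₀.index := by rw [h2, one_mul]; exact h1
      have := Nat.le_of_mul_le_mul_right h4 hpos
      omega
    have h5 : Δ₀ ≤ Δ₀ ⊓ Δ := Subgroup.relIndex_eq_one.mp h3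
    exact h5.trans inf_le_right
  have heq : congClosure Γ = Δ₀ :=
    le_antisymm (sInf_le ⟨hΔ₀c, hΔ₀Γ⟩) (le_sInf fun Δ hΔ => hmin Δ hΔ.1 hΔ.2)
  rw [heq]
  exact hΔ₀c

/-- Function field version: for `n > C cd(Γ)²` the Fermat equation `x^n + y^n = 1` has only
constant solutions in modular functions for `Γ`. -/
theorem fermat_functions : ∃ C : ℕ, ∀ (Γ : Subgroup SL(2, ℤ)) (_ : Γ.FiniteIndex) (n : ℕ),
    C * congDefect Γ ^ 2 < n → ∀ x y : ℍ → ℂ, IsModularFunction Γ x → IsModularFunction Γ y →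
    (∀ᶠ z in Filter.codiscrete ℍ, x z ^ n + y z ^ n = 1) →
    ∃ a b : ℂ, ∀ᶠ z in Filter.codiscrete ℍ, x z = a ∧ y z = b := by
  obtain ⟨C, hC, hmain⟩ := main_aux
  refine ⟨⌈C⌉₊ + 4, ?_⟩
  intro Γ hΓ n hn
  have hspec := congClosure_spec Γ
  obtain ⟨N, hN, hNΔ⟩ := hspec.1
  have : NeZero N := ⟨hN⟩
  set c := congDefect Γ with hc
  have hrel : Γ.relIndex (congClosure Γ) ≠ 0 := by
    intro h
    have h2 := Subgroup.relIndex_mul_index (le_congClosure Γ)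
    rw [h, zero_mul] at h2
    exact hΓ.index_ne_zero h2.symm
  have hc1 : 1 ≤ c := Nat.one_le_iff_ne_zero.mpr hrel
  set Γ' := Γ ⊓ CongruenceSubgroup.Gamma N with hΓ'
  have hfi : Γ'.FiniteIndex := by
    have := (CongruenceSubgroup.Gamma_is_cong_sub N).finiteIndex
    rw [hΓ']
    infer_instance
  have hrel' : Γ'.relIndex (CongruenceSubgroup.Gamma N) ≤ c := by
    rw [hΓ', Subgroup.inf_relIndex_right]
    exact Subgroup.relIndex_le_of_le_right hNΔ hrel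
  have hc2 : 1 ≤ c ^ 2 := Nat.one_le_pow _ _ hc1
  have hn4 : 4 ≤ n := by
    have : (⌈C⌉₊ + 4) * 1 ≤ (⌈C⌉₊ + 4) * c ^ 2 := Nat.mul_le_mul_left _ hc2
    omega
  have hconst : ∀ x y : ℍ → ℂ, IsModularFunction Γ x → IsModularFunction Γ y →
      (∀ᶠ z in Filter.codiscrete ℍ, x z ^ n + y z ^ n = 1) →
      ∃ a : ℂ, ∀ᶠ z in Filter.codiscrete ℍ, x z = a := by
    intro x y hx hy hxy
    by_contra hnc
    have h1 := hmain c n Γ' hfi N ‹_› inf_le_right hrel' hn4 x y (hx.mono inf_le_left)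
      (hy.mono inf_le_left) hxy hnc
    have h2 : C * (c : ℝ) ^ 2 ≤ ((⌈C⌉₊ * c ^ 2 : ℕ) : ℝ) := by
      push_cast
      gcongr
      exact Nat.le_ceil C
    have h3 : ((n - 3 : ℕ) : ℝ) ≤ ((⌈C⌉₊ * c ^ 2 : ℕ) : ℝ) := h1.trans h2
    have h4 : n - 3 ≤ ⌈C⌉₊ * c ^ 2 := by exact_mod_cast h3
    have h5 : (⌈C⌉₊ + 4) * c ^ 2 = ⌈C⌉₊ * c ^ 2 + 4 * c ^ 2 := by ring
    omega
  intro x y hx hy hxy
  obtain ⟨a, ha⟩ := hconst x y hx hy hxy
  obtain ⟨b, hb⟩ := hconst y x hy hx (hxy.mono fun z hz => by rw [add_comm]; exact hz)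
  exact ⟨a, b, ha.and hb⟩

end H80.Gon
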