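import Pool.Agent.H80.Gon.M17

/-!
M18: quotients of modular forms are modular functions; the Fermat equation in modular forms.
-/

open Matrix MatrixGroups UpperHalfPlane ModularGroup Matrix.SpecialLinearGroup
open scoped ModularForm Manifold Topology

namespace H80.Gon

section

variable {Γ : Subgroup SL(2, ℤ)} {k : ℤ}

lemma exists_period (Γ : Subgroup SL(2, ℤ)) [hΓ : Γ.FiniteIndex] (γ : SL(2, ℤ)) :
    ∃ N : ℕ, 0 < N ∧ γ * T ^ N * γ⁻¹ ∈ Γ := by
  obtain ⟨n, hn, _, hmem⟩ := Subgroup.exists_pow_mem_of_index_ne_zero hΓ.index_ne_zero (γ * T * γ⁻¹)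
  refine ⟨n, hn, ?_⟩
  rwa [conj_pow] at hmem

lemma slash_eq_of_mem (f : ModularForm (Γ : Subgroup (GL (Fin 2) ℝ)) k) {γ : SL(2, ℤ)}
    (hγ : γ ∈ Γ) : (f : ℍ → ℂ) ∣[k] γ = f := by
  have : (mapGL ℝ γ) ∈ (Γ : Subgroup (GL (Fin 2) ℝ)) := Subgroup.mem_map_of_mem _ hγ
  exact SlashInvariantFormClass.slash_action_eq f _ this

lemma slash_periodic (f : ModularForm (Γ : Subgroup (GL (Fin 2) ℝ)) k) (γ : SL(2, ℤ)) {N : ℕ}
    (hN : γ * T ^ N * γ⁻¹ ∈ Γ) :
    Function.Periodic (((f : ℍ → ℂ) ∣[k] γ) ∘ ofComplex) ((N : ℝ) : ℂ) := by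
  have h1 : ((f : ℍ → ℂ) ∣[k] γ) ∣[k] (T ^ N : SL(2, ℤ)) = (f : ℍ → ℂ) ∣[k] γ := by
    rw [← SlashAction.slash_mul]
    have : γ * T ^ N = (γ * T ^ N * γ⁻¹) * γ := by group
    rw [this, SlashAction.slash_mul, slash_eq_of_mem f hN]
  intro w
  by_cases hw : 0 < w.im
  · have hw' : 0 < (w + ((N : ℝ) : ℂ)).im := by simpa using hw
    simp only [Function.comp_apply]
    have h2 := congrFun h1 ⟨w, hw⟩
    rw [ModularForm.SL_slash_apply] at h2
    have hden : denom (T ^ N : SL(2, ℤ)) (⟨w, hw⟩ : ℍ) = 1 := by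
      rw [ModularGroup.denom_apply]
      have h := ModularGroup.coe_T_zpow (N : ℤ)
      rw [zpow_natCast] at h
      have h10 : (T ^ N : SL(2, ℤ)) 1 0 = 0 := by
        rw [h]; rfl
      have h11 : (T ^ N : SL(2, ℤ)) 1 1 = 1 := by
        rw [h]; rfl
      rw [h10, h11]
      simp
    rw [hden, _root_.one_zpow, mul_one] at h2
    have h3 : (T ^ N : SL(2, ℤ)) • (⟨w, hw⟩ : ℍ) = ofComplex (w + ((N : ℝ) : ℂ)) := by
      ext
      rw [ofComplex_apply_of_im_pos hw']
      have := coe_T_zpow_smul_eq (z := (⟨w, hw⟩ : ℍ)) (n := (N : ℤ))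
      simpa using this
    rw [← h3, h2, ofComplex_apply_of_im_pos hw]
  · have hw' : ¬ 0 < (w + ((N : ℝ) : ℂ)).im := by simpa using hw
    simp only [Function.comp_apply]
    rw [ofComplex_apply_of_im_nonpos (not_lt.mp hw), ofComplex_apply_of_im_nonpos (not_lt.mp hw')]

lemma slash_bdd (f : ModularForm (Γ : Subgroup (GL (Fin 2) ℝ)) k) [Γ.FiniteIndex] (γ : SL(2, ℤ)) :
    IsBoundedAtImInfty ((f : ℍ → ℂ) ∣[k] γ) := by
  have hc : IsCusp (mapGL ℝ γ • OnePoint.infty) 𝒮ℒ := isCusp_SL2Z_iff'.mpr ⟨γ, rfl⟩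
  have hc' : IsCusp (mapGL ℝ γ • OnePoint.infty) (Γ : Subgroup (GL (Fin 2) ℝ)) :=
    (Subgroup.IsArithmetic.isCusp_iff_isCusp_SL2Z _).mpr hc
  exact (OnePoint.isBoundedAt_iff_forall_SL2Z hc).mp (f.bdd_at_cusps' hc') γ rfl

lemma slash_mdiff (f : ModularForm (Γ : Subgroup (GL (Fin 2) ℝ)) k) (γ : SL(2, ℤ)) :
    MDiff ((f : ℍ → ℂ) ∣[k] γ) :=
  f.holo'.slash k _

/-- Quotients of modular forms of equal weight are modular functions. -/
theorem isModularFunction_div [hΓ : Γ.FiniteIndex]
    (f h : ModularForm (Γ : Subgroup (GL (Fin 2) ℝ)) k) :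
    IsModularFunction Γ (fun z => f z / h z) where
  meromorphic := by
    have hf : AnalyticOnNhd ℂ ((f : ℍ → ℂ) ∘ ofComplex) {z : ℂ | 0 < z.im} :=
      (UpperHalfPlane.mdifferentiable_iff.mp f.holo').analyticOnNhd isOpen_upperHalfPlaneSet
    have hh : AnalyticOnNhd ℂ ((h : ℍ → ℂ) ∘ ofComplex) {z : ℂ | 0 < z.im} :=
      (UpperHalfPlane.mdifferentiable_iff.mp h.holo').analyticOnNhd isOpen_upperHalfPlaneSet
    exact hf.meromorphicOn.div hh.meromorphicOn
  invariant := by
    intro γ hγ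
    refine Filter.Eventually.of_forall fun z => ?_
    have h1 := congrFun (slash_eq_of_mem f hγ) z
    have h2 := congrFun (slash_eq_of_mem h hγ) z
    rw [ModularForm.SL_slash_apply] at h1 h2
    have hd : denom γ z ^ (-k) ≠ 0 := zpow_ne_zero _ (denom_ne_zero _ _)
    rw [← h1, ← h2, mul_div_mul_right _ _ hd]
  cusps := by
    intro γ
    obtain ⟨N, hN, hNΓ⟩ := exists_period Γ γ
    have hNR : (0 : ℝ) < (N : ℝ) := by exact_mod_cast hN
    refine ⟨N, fun q => cuspFunction N ((f : ℍ → ℂ) ∣[k] γ) q / cuspFunction N ((h : ℍ → ℂ) ∣[k] γ) q,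
      hN, ?_, 0, ?_⟩
    · exact (analyticAt_cuspFunction_zero hNR (slash_periodic f γ hNΓ) (slash_mdiff f γ)
        (slash_bdd f γ)).meromorphicAt.div
        (analyticAt_cuspFunction_zero hNR (slash_periodic h γ hNΓ) (slash_mdiff h γ)
        (slash_bdd h γ)).meromorphicAt
    · refine Filter.Eventually.of_forall fun z _ => ?_
      simp only
      rw [eq_cuspFunction z hNR.ne' (slash_periodic f γ hNΓ),
        eq_cuspFunction z hNR.ne' (slash_periodic h γ hNΓ), ModularForm.SL_slash_apply,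
        ModularForm.SL_slash_apply]
      have hd : denom γ z ^ (-k) ≠ 0 := zpow_ne_zero _ (denom_ne_zero _ _)
      rw [mul_div_mul_right _ _ hd]

/-- A nonzero modular form is nonzero off a discrete set. -/
lemma eventually_ne_zero (h : ModularForm (Γ : Subgroup (GL (Fin 2) ℝ)) k) (hh : h ≠ 0) :
    ∀ᶠ z in Filter.codiscrete ℍ, h z ≠ 0 := by
  rw [eventually_codiscrete_iff]
  intro z
  have ha : AnalyticOnNhd ℂ ((h : ℍ → ℂ) ∘ ofComplex) {z : ℂ | 0 < z.im} :=
    (UpperHalfPlane.mdifferentiable_iff.mp h.holo').analyticOnNhd isOpen_upperHalfPlaneSet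
  have hpre : IsPreconnected {z : ℂ | 0 < z.im} :=
    (convex_halfSpace_im_gt 0).isPreconnected
  rcases (ha z z.im_pos).eventually_eq_zero_or_eventually_ne_zero with h1 | h1
  · exfalso
    apply hh
    ext w
    have := ha.eqOn_zero_of_preconnected_of_eventuallyEq_zero hpre z.im_pos h1 w.im_pos
    simpa using this
  · have := (coe_tendsto z).eventually h1
    refine this.mono fun w hw => ?_
    simpa using hw

/-- Equality off a discrete set implies equality. -/
lemma eq_of_eventually {f g : ℍ → ℂ} (hf : Continuous f) (hg : Continuous g)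
    (h : ∀ᶠ z in Filter.codiscrete ℍ, f z = g z) : f = g := by
  funext z
  rw [eventually_codiscrete_iff] at h
  have h1 := h z
  have hne : (𝓝[≠] z).NeBot := by
    have h2 : (𝓝[≠] (z : ℂ)).NeBot := inferInstance
    have h3 := ofComplex_tendsto (z := (z : ℂ)) z.im_pos
    rw [ofComplex_apply] at h3
    exact h3.neBot
  have h2 : Filter.Tendsto f (𝓝[≠] z) (𝓝 (f z)) := hf.continuousAt.tendsto.mono_left nhdsWithin_le_nhds
  have h3 : Filter.Tendsto g (𝓝[≠] z) (𝓝 (g z)) := hg.continuousAt.tendsto.mono_left nhdsWithin_le_nhds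
  have h4 : Filter.Tendsto f (𝓝[≠] z) (𝓝 (g z)) := h3.congr' (h1.mono fun w hw => hw.symm)
  exact tendsto_nhds_unique h2 h4

/-- From functions to forms. -/
theorem forms_of_functions (n : ℕ) (hn : 1 ≤ n) (Γ : Subgroup SL(2, ℤ)) [hΓ : Γ.FiniteIndex]
    (hfun : ∀ x y : ℍ → ℂ, IsModularFunction Γ x → IsModularFunction Γ y →
      (∀ᶠ z in Filter.codiscrete ℍ, x z ^ n + y z ^ n = 1) →
      ∃ a b : ℂ, ∀ᶠ z in Filter.codiscrete ℍ, x z = a ∧ y z = b) :
    ∀ (k : ℤ) (f g h : ModularForm (Γ : Subgroup (GL (Fin 2) ℝ)) k),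
      (∀ z, f z ^ n + g z ^ n = h z ^ n) →
      ∃ (F : ModularForm (Γ : Subgroup (GL (Fin 2) ℝ)) k) (a b c : ℂ),
        f = a • F ∧ g = b • F ∧ h = c • F := by
  intro k f g h heq
  have hcont : ∀ F : ModularForm (Γ : Subgroup (GL (Fin 2) ℝ)) k, Continuous (F : ℍ → ℂ) :=
    fun F => ModularFormClass.continuous F
  by_cases hh : h = 0
  · by_cases hg : g = 0
    · -- then f = 0
      have hf : f = 0 := by
        ext z
        have := heq z
        rw [hh, hg] at this
        simp only [_root_.zero_apply] at this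
        rw [zero_pow (by omega), add_zero] at this
        simpa using pow_eq_zero_iff (by omega) |>.mp this
      exact ⟨0, 0, 0, 0, by simp [hf], by simp [hg], by simp [hh]⟩
    · -- f^n = - g^n
      obtain ⟨c, hc⟩ : ∃ c : ℂ, c ^ n = -1 := IsAlgClosed.exists_pow_nat_eq (-1) (by omega)
      have hc0 : c ≠ 0 := by
        rintro rfl
        rw [zero_pow (by omega)] at hc
        norm_num at hc
      have hgne := eventually_ne_zero g hg
      have hx := isModularFunction_div (c • f) g
      have hy := isModularFunction_div (0 : ModularForm (Γ : Subgroup (GL (Fin 2) ℝ)) k) g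
      obtain ⟨a, b, hab⟩ := hfun _ _ hx hy (hgne.mono fun z hz => by
        have h1 := heq z
        rw [hh] at h1
        simp only [_root_.zero_apply] at h1
        rw [zero_pow (by omega)] at h1
        have h2 : f z ^ n = - g z ^ n := by linear_combination h1
        simp only [_root_.zero_apply, zero_div, zero_pow (show n ≠ 0 by omega), add_zero]
        change (c * f z / g z) ^ n = 1
        rw [div_pow, mul_pow, hc, h2]
        field_simp)
      refine ⟨g, a / c, 1, 0, ?_, by simp, by simp [hh]⟩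
      have h3 : (fun z => f z) = fun z => (a / c) * g z := by
        refine eq_of_eventually (hcont f) ((hcont g).const_mul _) ?_
        filter_upwards [hab, hgne] with z hz hz2
        have h4 : c * f z / g z = a := hz.1
        rw [div_eq_iff hz2] at h4
        field_simp
        linear_combination h4
      ext z
      exact congrFun h3 z
  · have hhne := eventually_ne_zero h hh
    obtain ⟨a, b, hab⟩ := hfun _ _ (isModularFunction_div f h) (isModularFunction_div g h)
      (hhne.mono fun z hz => by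
        have h1 := heq z
        rw [div_pow, div_pow, ← add_div, h1, div_self (pow_ne_zero _ hz)])
    refine ⟨h, a, b, 1, ?_, ?_, by simp⟩
    · have h3 : (fun z => f z) = fun z => a * h z := by
        refine eq_of_eventually (hcont f) ((hcont h).const_mul _) ?_
        filter_upwards [hab, hhne] with z hz hz2
        have h4 : f z / h z = a := hz.1
        rwa [div_eq_iff hz2] at h4
      ext z
      exact congrFun h3 z
    · have h3 : (fun z => g z) = fun z => b * h z := by
        refine eq_of_eventually (hcont g) ((hcont h).const_mul _) ?_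
        filter_upwards [hab, hhne] with z hz hz2
        have h4 : g z / h z = b := hz.2
        rwa [div_eq_iff hz2] at h4
      ext z
      exact congrFun h3 z

end

end H80.Gon
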