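import Pool.Agent.H80.Gon.M10

/-!
M9a: preliminaries: cardinality of SL(2, Z/N) and the gap at a fixed level.
-/

open Matrix MatrixGroups UpperHalfPlane ModularGroup MeasureTheory Finset

namespace H80.Gon

lemma mul_inv_10 {R : Type*} [CommRing R] (α ρ : SL(2, R)) :
    (α * ρ⁻¹) 1 0 = α 1 0 * ρ 1 1 - α 1 1 * ρ 1 0 := by
  rw [Matrix.SpecialLinearGroup.coe_mul, Matrix.SpecialLinearGroup.coe_inv,
    Matrix.adjugate_fin_two, Matrix.mul_apply, Fin.sum_univ_two]
  simp only [Matrix.of_apply, Matrix.cons_val', Matrix.cons_val_zero, Matrix.cons_val_one,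
    Matrix.empty_val', Matrix.cons_val_fin_one]
  ring

lemma mul_inv_11 {R : Type*} [CommRing R] (α ρ : SL(2, R)) :
    (α * ρ⁻¹) 1 1 = α 1 1 * ρ 0 0 - α 1 0 * ρ 0 1 := by
  rw [Matrix.SpecialLinearGroup.coe_mul, Matrix.SpecialLinearGroup.coe_inv,
    Matrix.adjugate_fin_two, Matrix.mul_apply, Fin.sum_univ_two]
  simp only [Matrix.of_apply, Matrix.cons_val', Matrix.cons_val_zero, Matrix.cons_val_one,
    Matrix.empty_val', Matrix.cons_val_fin_one]
  ring

/-- `|SL(2, Z/N)| ≤ N³`. -/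
theorem card_SL2_le (N : ℕ) [NeZero N] : Fintype.card SL(2, ZMod N) ≤ N ^ 3 := by
  classical
  let ch : ZMod N × ZMod N → SL(2, ZMod N) := fun r =>
    if h : ∃ σ : SL(2, ZMod N), σ 1 0 = r.1 ∧ σ 1 1 = r.2 then h.choose else 1
  have hch : ∀ σ : SL(2, ZMod N), (ch (σ 1 0, σ 1 1)) 1 0 = σ 1 0 ∧
      (ch (σ 1 0, σ 1 1)) 1 1 = σ 1 1 := by
    intro σ
    have h : ∃ τ : SL(2, ZMod N), τ 1 0 = (σ 1 0, σ 1 1).1 ∧ τ 1 1 = (σ 1 0, σ 1 1).2 :=
      ⟨σ, rfl, rfl⟩
    simp only [ch, dif_pos h]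
    exact h.choose_spec
  let F : SL(2, ZMod N) → ZMod N × ZMod N × ZMod N := fun σ =>
    (σ 1 0, σ 1 1, (σ * (ch (σ 1 0, σ 1 1))⁻¹) 0 1)
  have hF : Function.Injective F := by
    intro σ τ h
    simp only [F, Prod.mk.injEq] at h
    obtain ⟨h1, h2, h3⟩ := h
    rw [h1, h2] at h3
    set ρ := ch (τ 1 0, τ 1 1) with hρ
    have key : ∀ α : SL(2, ZMod N), α 1 0 = τ 1 0 → α 1 1 = τ 1 1 →
        (α * ρ⁻¹) 1 0 = 0 ∧ (α * ρ⁻¹) 1 1 = 1 ∧ (α * ρ⁻¹) 0 0 = 1 := by
      intro α ha hb
      have hr := hch τ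
      rw [← hρ] at hr
      have hdet : (α * ρ⁻¹) 0 0 * (α * ρ⁻¹) 1 1 - (α * ρ⁻¹) 0 1 * (α * ρ⁻¹) 1 0 = 1 := by
        have := (α * ρ⁻¹).det_coe
        rwa [Matrix.det_fin_two] at this
      have hdρ : ρ 0 0 * ρ 1 1 - ρ 0 1 * ρ 1 0 = 1 := by
        have := ρ.det_coe
        rwa [Matrix.det_fin_two] at this
      have e10 : (α * ρ⁻¹) 1 0 = 0 := by
        rw [mul_inv_10, ha, hb, hr.1, hr.2]
        ring
      have e11 : (α * ρ⁻¹) 1 1 = 1 := by
        rw [mul_inv_11, ha, hb, ← hr.1, ← hr.2]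
        linear_combination hdρ
      refine ⟨e10, e11, ?_⟩
      rw [e10, e11] at hdet
      simpa using hdet
    have k1 := key σ h1 h2
    have k2 := key τ rfl rfl
    have : σ * ρ⁻¹ = τ * ρ⁻¹ := by
      ext i j
      fin_cases i <;> fin_cases j
      · exact k1.2.2.trans k2.2.2.symm
      · exact h3
      · exact k1.1.trans k2.1.symm
      · exact k1.2.1.trans k2.2.1.symm
    exact mul_right_cancel this
  calc Fintype.card SL(2, ZMod N) ≤ Fintype.card (ZMod N × ZMod N × ZMod N) :=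
        Fintype.card_le_of_injective F hF
    _ = N ^ 3 := by
        simp only [Fintype.card_prod, ZMod.card]
        ring

lemma nsq_S : nsq S = 2 := by
  simp [nsq, S]

lemma nsq_T : nsq T = 3 := by
  simp [nsq, T]

/-- Real eigenfunctions with mean zero have eigenvalue `< |ball|`. -/
lemma eig_lt (N : ℕ) [NeZero N] (hsurj : Function.Surjective (red N)) (X : ℤ) (hX : 3 ≤ X)
    (lam : ℝ) (a : SL(2, ZMod N) → ℝ) (ha : a ≠ 0) (h0 : ∑ x, a x = 0)
    (hP : ∀ x, ∑ σ ∈ ball X, a (red N σ * x) = lam * a x) : lam < (ball X).card := by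
  by_contra hcon
  push Not at hcon
  have hform := form_identity (N := N) X a
  have hP' : ∑ x, PP N X a x * a x = lam * ∑ x, a x ^ 2 := by
    rw [Finset.mul_sum]
    refine Finset.sum_congr rfl fun x _ => ?_
    unfold PP
    rw [hP x]; ring
  rw [hP'] at hform
  have hnn : 0 ≤ ∑ x, a x ^ 2 := Finset.sum_nonneg fun x _ => sq_nonneg _
  have hz : ∑ σ ∈ ball X, DD N σ a ≤ 0 := by
    rw [← hform]
    nlinarith
  have hall : ∀ σ ∈ ball X, DD N σ a = 0 := by
    have := (Finset.sum_eq_zero_iff_of_nonneg (s := ball X) (f := fun σ => DD N σ a)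
      (fun σ _ => DD_nonneg σ a)).mp
      (le_antisymm hz (Finset.sum_nonneg fun σ _ => DD_nonneg σ a))
    exact this
  have hS : DD N S a = 0 := hall S (by rw [mem_ball, nsq_S]; linarith)
  have hT : DD N T a = 0 := hall T (by rw [mem_ball, nsq_T]; linarith)
  have hconst : ∀ x, a x = a 1 := by
    intro x
    obtain ⟨σ, rfl⟩ := hsurj x
    obtain ⟨K, _, hK⟩ := exists_DD_bound σ
    have h1 := hK N a
    rw [hS, hT, add_zero, mul_zero] at h1
    have h2 : DD N σ a = 0 := le_antisymm h1 (DD_nonneg σ a)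
    unfold DD at h2
    rw [Finset.sum_eq_zero_iff_of_nonneg (fun x _ => sq_nonneg _)] at h2
    have h3 := h2 1 (Finset.mem_univ _)
    rw [mul_one] at h3
    have := pow_eq_zero_iff (two_ne_zero) |>.mp h3
    linarith
  apply ha
  funext x
  have h1 : ∑ x, a x = Fintype.card SL(2, ZMod N) * a 1 := by
    rw [Finset.sum_congr rfl (fun x _ => hconst x)]
    simp
  rw [h1] at h0
  have hc : (Fintype.card SL(2, ZMod N) : ℝ) ≠ 0 := by
    have := Fintype.card_pos (α := SL(2, ZMod N))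
    positivity
  have := (mul_eq_zero.mp h0).resolve_left hc
  rw [hconst x, this]; rfl

/-- Gap at a fixed level. -/
theorem level_gap (N : ℕ) [NeZero N] (hsurj : Function.Surjective (red N)) (X : ℤ) (hX : 3 ≤ X) :
    ∃ κ : ℝ, κ < 1 ∧ ∀ (lam : ℝ) (f : SL(2, ZMod N) → ℂ), f ≠ 0 → ∑ x, f x = 0 →
      (∀ x, ∑ σ ∈ ball X, f (red N σ * x) = (lam : ℂ) * f x) → lam ≤ κ * (ball X).card := by
  have hcard : 0 < (ball X).card := by
    refine Finset.card_pos.mpr ⟨S, ?_⟩
    rw [mem_ball, nsq_S]; linarith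
  have hs : (0 : ℝ) < ((ball X).card : ℝ) := by exact_mod_cast hcard
  let PC : Module.End ℂ (SL(2, ZMod N) → ℂ) :=
    { toFun := fun f x => ∑ σ ∈ ball X, f (red N σ * x)
      map_add' := fun f g => by ext x; simp [Finset.sum_add_distrib]
      map_smul' := fun c f => by ext x; simp [Finset.mul_sum] }
  let E : Set ℝ := {lam | ∃ f : SL(2, ZMod N) → ℂ, f ≠ 0 ∧ ∑ x, f x = 0 ∧
      (∀ x, ∑ σ ∈ ball X, f (red N σ * x) = (lam : ℂ) * f x)}
  have hfin : E.Finite := by
    have h1 : (Set.range (fun l : Module.End.Eigenvalues PC => (l : ℂ))).Finite :=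
      Set.finite_range _
    refine Set.Finite.of_finite_image (f := fun x : ℝ => (x : ℂ)) (h1.subset ?_)
      (Complex.ofReal_injective.injOn)
    rintro _ ⟨lam, ⟨f, hf, _, hP⟩, rfl⟩
    have : Module.End.HasEigenvalue PC (lam : ℂ) := by
      apply Module.End.hasEigenvalue_of_hasEigenvector (x := f)
      refine ⟨?_, hf⟩
      rw [Module.End.mem_eigenspace_iff]
      ext x
      exact hP x
    exact ⟨⟨_, this⟩, rfl⟩
  have hlt : ∀ lam ∈ E, lam < (ball X).card := by
    rintro lam ⟨f, hf, h0, hP⟩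
    by_cases hre : (fun x => (f x).re) = 0
    · have him : (fun x => (f x).im) ≠ 0 := by
        intro him
        apply hf
        funext x
        apply Complex.ext
        · exact congrFun hre x
        · exact congrFun him x
      refine eig_lt N hsurj X hX lam _ him ?_ ?_
      · have := congrArg Complex.im h0
        simpa using this
      · intro x
        have := congrArg Complex.im (hP x)
        simpa using this
    · refine eig_lt N hsurj X hX lam _ hre ?_ ?_
      · have := congrArg Complex.re h0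
        simpa using this
      · intro x
        have := congrArg Complex.re (hP x)
        simpa using this
  by_cases hE : E.Nonempty
  · obtain ⟨m, hm, hmax⟩ := hfin.toFinset.exists_max_image id (by simpa using hE)
    rw [Set.Finite.mem_toFinset] at hm
    refine ⟨m / (ball X).card, ?_, ?_⟩
    · rw [div_lt_one hs]
      exact hlt m hm
    · intro lam f hf h0 hP
      rw [div_mul_cancel₀ _ hs.ne']
      exact hmax lam (by simpa using ⟨f, hf, h0, hP⟩)
  · refine ⟨0, zero_lt_one, ?_⟩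
    intro lam f hf h0 hP
    exact absurd ⟨lam, f, hf, h0, hP⟩ hE

end H80.Gon
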